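import Pool.Agent.MDH.St

/-!
# MDH, module DUA: the trace on `Har` by duality

Statement and proof: see `St_DUA` in `Pool/Agent/MDH/St.lean`.
-/

set_option autoImplicit false

open MvPolynomial

namespace MDH

/-- the apolar pairing on polynomials -/
noncomputable def DUA_ps {n : ℕ} (p q : S n) : ℂ := ∑ A ∈ p.support, fac A * coeff A p * coeff A q

theorem DUA_ps_sup {n : ℕ} (p q : S n) (s : Finset (Fin n →₀ ℕ)) (hs : p.support ⊆ s) :
    DUA_ps p q = ∑ A ∈ s, fac A * coeff A p * coeff A q := by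
  unfold DUA_ps
  refine Finset.sum_subset hs fun A _ hA => ?_
  rw [MvPolynomial.notMem_support_iff.1 hA, mul_zero, zero_mul]

theorem DUA_ps_add_l {n : ℕ} (p p' q : S n) : DUA_ps (p + p') q = DUA_ps p q + DUA_ps p' q := by
  classical
  have h1 : (p + p').support ⊆ p.support ∪ p'.support := MvPolynomial.support_add
  rw [DUA_ps_sup (p + p') q _ h1, DUA_ps_sup p q _ Finset.subset_union_left,
    DUA_ps_sup p' q _ Finset.subset_union_right, ← Finset.sum_add_distrib]
  refine Finset.sum_congr rfl fun A _ => ?_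
  rw [coeff_add]
  ring

theorem DUA_ps_smul_l {n : ℕ} (t : ℂ) (p q : S n) : DUA_ps (t • p) q = t * DUA_ps p q := by
  classical
  have h1 : (t • p).support ⊆ p.support := MvPolynomial.support_smul
  rw [DUA_ps_sup (t • p) q _ h1, DUA_ps, Finset.mul_sum]
  refine Finset.sum_congr rfl fun A _ => ?_
  rw [coeff_smul, smul_eq_mul]
  ring

theorem DUA_ps_add_r {n : ℕ} (p q q' : S n) : DUA_ps p (q + q') = DUA_ps p q + DUA_ps p q' := by
  rw [DUA_ps, DUA_ps, DUA_ps, ← Finset.sum_add_distrib]
  refine Finset.sum_congr rfl fun A _ => ?_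
  rw [coeff_add]
  ring

theorem DUA_ps_smul_r {n : ℕ} (t : ℂ) (p q : S n) : DUA_ps p (t • q) = t * DUA_ps p q := by
  rw [DUA_ps, DUA_ps, Finset.mul_sum]
  refine Finset.sum_congr rfl fun A _ => ?_
  rw [coeff_smul, smul_eq_mul]
  ring

theorem DUA_ps_zero_l {n : ℕ} (q : S n) : DUA_ps 0 q = 0 := by
  rw [DUA_ps]
  simp

theorem DUA_ps_monomial {n : ℕ} (A : Fin n →₀ ℕ) (q : S n) :
    DUA_ps (monomial A 1) q = fac A * coeff A q := by
  classical
  rw [DUA_ps_sup _ q {A} MvPolynomial.support_monomial_subset, Finset.sum_singleton,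
    coeff_monomial, if_pos rfl, mul_one]

theorem DUA_fac_ne {n : ℕ} (A : Fin n →₀ ℕ) : fac A ≠ 0 := by
  rw [fac, Finset.prod_ne_zero_iff]
  intro i _
  exact_mod_cast Nat.factorial_ne_zero _

theorem DUA_fac_map {n : ℕ} (w : Equiv.Perm (Fin n)) (A : Fin n →₀ ℕ) :
    fac (A.mapDomain w) = fac A := by
  rw [fac, fac, ← Equiv.prod_comp w]
  refine Finset.prod_congr rfl fun i _ => ?_
  rw [Finsupp.mapDomain_apply w.injective]

theorem DUA_ps_rename {n : ℕ} (w : Equiv.Perm (Fin n)) (p q : S n) :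
    DUA_ps (rename w p) (rename w q) = DUA_ps p q := by
  classical
  have h1 : (rename w p).support ⊆ p.support.image (Finsupp.mapDomain w) := by
    rw [MvPolynomial.support_rename_of_injective w.injective]
  rw [DUA_ps_sup _ _ _ h1, Finset.sum_image]
  · rw [DUA_ps]
    refine Finset.sum_congr rfl fun A _ => ?_
    rw [DUA_fac_map, MvPolynomial.coeff_rename_mapDomain _ w.injective,
      MvPolynomial.coeff_rename_mapDomain _ w.injective]
  · intro A _ B _ h
    exact Finsupp.mapDomain_injective w.injective h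

theorem DUA_pr {d n : ℕ} (c c' : T d n) : pr c c' = ∑ j, DUA_ps (c j) (c' j) := rfl

theorem DUA_pr_add_l {d n : ℕ} (c c' e : T d n) : pr (c + c') e = pr c e + pr c' e := by
  rw [DUA_pr, DUA_pr, DUA_pr, ← Finset.sum_add_distrib]
  exact Finset.sum_congr rfl fun j _ => DUA_ps_add_l _ _ _

theorem DUA_pr_smul_l {d n : ℕ} (t : ℂ) (c e : T d n) : pr (t • c) e = t * pr c e := by
  rw [DUA_pr, DUA_pr, Finset.mul_sum]
  exact Finset.sum_congr rfl fun j _ => DUA_ps_smul_l _ _ _

theorem DUA_pr_add_r {d n : ℕ} (c e e' : T d n) : pr c (e + e') = pr c e + pr c e' := by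
  rw [DUA_pr, DUA_pr, DUA_pr, ← Finset.sum_add_distrib]
  exact Finset.sum_congr rfl fun j _ => DUA_ps_add_r _ _ _

theorem DUA_pr_smul_r {d n : ℕ} (t : ℂ) (c e : T d n) : pr c (t • e) = t * pr c e := by
  rw [DUA_pr, DUA_pr, Finset.mul_sum]
  exact Finset.sum_congr rfl fun j _ => DUA_ps_smul_r _ _ _

/-- the pairing as a bilinear form, the second argument first -/
noncomputable def DUA_B (d n : ℕ) : T d n →ₗ[ℂ] T d n →ₗ[ℂ] ℂ where
  toFun e :=
    { toFun := fun c => pr c e
      map_add' := fun c c' => DUA_pr_add_l c c' e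
      map_smul' := fun t c => by rw [DUA_pr_smul_l]; rfl }
  map_add' e e' := by
    apply LinearMap.ext
    intro c
    exact DUA_pr_add_r c e e'
  map_smul' t e := by
    apply LinearMap.ext
    intro c
    exact DUA_pr_smul_r t c e

theorem DUA_B_apply {d n : ℕ} (c e : T d n) : DUA_B d n e c = pr c e := rfl

theorem DUA_pr_act {d n : ℕ} (w : Equiv.Perm (Fin n)) (c e : T d n) :
    pr (actT d n w c) (actT d n w e) = pr c e := by
  rw [DUA_pr, DUA_pr]
  have h1 : ∀ j : Fin d → Fin n, DUA_ps (actT d n w c j) (actT d n w e j) =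
      DUA_ps (c fun a => w⁻¹ (j a)) (e fun a => w⁻¹ (j a)) := fun j => DUA_ps_rename w _ _
  simp_rw [h1]
  exact Equiv.sum_comp (Equiv.arrowCongr (Equiv.refl (Fin d)) w⁻¹) fun j => DUA_ps (c j) (e j)

theorem DUA_act_act {d n : ℕ} (w w' : Equiv.Perm (Fin n)) (c : T d n) :
    actT d n w (actT d n w' c) = actT d n (w * w') c := by
  funext j
  change rename w (rename w' (c _)) = rename (w * w') (c _)
  rw [MvPolynomial.rename_rename]
  congr 1

theorem DUA_act_one {d n : ℕ} (c : T d n) : actT d n 1 c = c := by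
  funext j
  change rename (1 : Equiv.Perm (Fin n)) (c fun a => (1 : Equiv.Perm (Fin n))⁻¹ (j a)) = c j
  rw [inv_one]
  exact MvPolynomial.rename_id_apply _

theorem DUA_pr_act' {d n : ℕ} (w : Equiv.Perm (Fin n)) (c e : T d n) :
    pr c (actT d n w e) = pr (actT d n w⁻¹ c) e := by
  rw [← DUA_pr_act w (actT d n w⁻¹ c) e, DUA_act_act, mul_inv_cancel, DUA_act_one]

/-- the basis elements -/
noncomputable def DUA_b {d n : ℕ} (A : Fin n →₀ ℕ) (j : Fin d → Fin n) : T d n :=
  Pi.single j (monomial A 1)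

theorem DUA_pr_b {d n : ℕ} (A : Fin n →₀ ℕ) (j : Fin d → Fin n) (e : T d n) :
    pr (DUA_b A j) e = fac A * coeff A (e j) := by
  rw [DUA_pr, Finset.sum_eq_single j]
  · rw [DUA_b, Pi.single_eq_same, DUA_ps_monomial]
  · intro i _ hi
    rw [DUA_b, Pi.single_eq_of_ne hi, DUA_ps_zero_l]
  · intro h
    exact absurd (Finset.mem_univ j) h

/-- two linear forms which agree on the basis elements -/
theorem DUA_ext {d n : ℕ} (f g : T d n →ₗ[ℂ] ℂ) (h : ∀ A j, f (DUA_b A j) = g (DUA_b A j)) :
    f = g := by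
  apply LinearMap.ext
  intro c
  have h1 : c = ∑ j, ∑ A ∈ (c j).support, coeff A (c j) • DUA_b A j := by
    funext i
    rw [Finset.sum_apply, Finset.sum_eq_single i]
    · rw [Finset.sum_apply]
      conv_lhs => rw [MvPolynomial.as_sum (c i)]
      refine Finset.sum_congr rfl fun A _ => ?_
      rw [Pi.smul_apply, DUA_b, Pi.single_eq_same, MvPolynomial.smul_monomial, smul_eq_mul,
        mul_one]
    · intro j _ hj
      rw [Finset.sum_apply]
      refine Finset.sum_eq_zero fun A _ => ?_
      rw [Pi.smul_apply, DUA_b, Pi.single_eq_of_ne (Ne.symm hj), smul_zero]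
    · intro hn
      exact absurd (Finset.mem_univ i) hn
  rw [h1, map_sum, map_sum]
  refine Finset.sum_congr rfl fun j _ => ?_
  rw [map_sum, map_sum]
  refine Finset.sum_congr rfl fun A _ => ?_
  rw [map_smul, map_smul, h]

/-- a linear form which vanishes on the basis elements of large degree is given by the pairing -/
theorem DUA_rep {d n : ℕ} (f : T d n →ₗ[ℂ] ℂ) (D : ℕ)
    (hf : ∀ A j, D < A.sum (fun _ e => e) → f (DUA_b A j) = 0) :
    ∃ e : T d n, DUA_B d n e = f := by
  classical
  have hfin : {A : Fin n →₀ ℕ | A.sum (fun _ e => e) ≤ D}.Finite := by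
    have h1 : {A : Fin n →₀ ℕ | A.sum (fun _ e => e) ≤ D} ⊆
        Set.range fun g : Fin n → Fin (D + 1) => Finsupp.equivFunOnFinite.symm fun i =>
          (g i : ℕ) := by
      intro A hA
      refine ⟨fun i => ⟨A i, ?_⟩, ?_⟩
      · have h2 : A i ≤ A.sum (fun _ e => e) := by
          rw [Finsupp.sum_fintype _ _ (fun _ => rfl)]
          exact Finset.single_le_sum (f := fun i => A i) (fun _ _ => Nat.zero_le _)
            (Finset.mem_univ i)
        have h3 : A.sum (fun _ e => e) ≤ D := hA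
        omega
      · ext i
        rfl
    exact (Set.finite_range _).subset h1
  refine ⟨fun j => ∑ A ∈ hfin.toFinset, monomial A (f (DUA_b A j) / fac A), ?_⟩
  apply DUA_ext
  intro A j
  rw [DUA_B_apply, DUA_pr_b, MvPolynomial.coeff_sum]
  by_cases hA : A.sum (fun _ e => e) ≤ D
  · rw [Finset.sum_eq_single A]
    · rw [coeff_monomial, if_pos rfl, mul_div_cancel₀ _ (DUA_fac_ne A)]
    · intro B _ hB
      rw [coeff_monomial, if_neg hB]
    · intro h
      exact absurd (hfin.mem_toFinset.2 hA) h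
  · rw [Finset.sum_eq_zero, mul_zero, hf A j (by omega)]
    intro B hB
    rw [coeff_monomial, if_neg]
    rintro rfl
    exact hA (hfin.mem_toFinset.1 hB)

theorem DUA_nfix_inv (n m : ℕ) (w : Equiv.Perm (Fin n)) : nfix n m w⁻¹ = nfix n m w := by
  classical
  have h1 : ∀ f : Surj n m, f.1 ∘ (w⁻¹ : Equiv.Perm (Fin n)) = f.1 ↔ f.1 ∘ w = f.1 := by
    intro f
    constructor
    · intro h
      funext i
      have h2 : f.1 (w⁻¹ (w i)) = f.1 (w i) := congrFun h (w i)
      have h3 : w⁻¹ (w i) = i := w.symm_apply_apply i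
      rw [h3] at h2
      exact h2.symm
    · intro h
      funext i
      have h2 : f.1 (w (w⁻¹ i)) = f.1 (w⁻¹ i) := congrFun h (w⁻¹ i)
      have h3 : w (w⁻¹ i) = i := w.apply_symm_apply i
      rw [h3] at h2
      exact h2.symm
  unfold nfix
  simp only [h1]

theorem thm_DUA (hORT : St_ORT) (hCOR : St_COR) (hCOM : St_COM) (hACT : St_ACT)
    (hFDG : St_FDG) : St_DUA := by
  classical
  intro n d m hdm
  obtain ⟨-, hth, -, hthH, -, -, -, -, -, hLS, hLH⟩ := hACT
  obtain ⟨hmono, -, hexh, -, -, -, -, -⟩ := hFDG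
  set L : Submodule ℂ (T d n) := (Lop (thC d n m)).restrictScalars ℂ with hL
  have hLs : IsStab L := hLS d n m _ (fun w k => hth d n m w k)
  have hLh : IsHomog L := hLH d n m _ (fun k j => hthH d n m k j)
  have hort : ∀ c : T d n, c ∈ Har d n ↔ ∀ l ∈ L, pr l c = 0 := fun c => hORT n d m hdm c
  have hs : IsStab (Har d n) := by
    intro w c hc
    rw [hort] at hc ⊢
    intro l hl
    rw [DUA_pr_act']
    exact hc _ (hLs _ _ hl)
  obtain ⟨V, hVh, hVs, hVL⟩ := hCOM n d L hLh hLs
  obtain ⟨hVf, hVt⟩ := hCOR n d m hdm V hVs hVh hVL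
  -- `V` has bounded degree
  obtain ⟨D, hD⟩ : ∃ D, V ≤ Fd d n D := by
    obtain ⟨B, hB⟩ := (Module.Finite.iff_fg.1 hVf)
    choose i hi using hexh d n
    refine ⟨B.sup i, ?_⟩
    rw [← hB, Submodule.span_le]
    intro x hx
    exact hmono d n (Finset.le_sup hx) (hi x)
  -- elements of large degree
  have hbL : ∀ A j, D < A.sum (fun _ e => e) → (DUA_b A j : T d n) ∈ L := by
    intro A j hA
    have h1 : (DUA_b A j : T d n) ∈ V ⊔ L := by
      rw [hVL.sup_eq_top]
      trivial
    obtain ⟨v, hv, l, hl, hvl⟩ := Submodule.mem_sup.1 h1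
    have h2 : hc (A.sum fun _ e => e) (DUA_b A j : T d n) = DUA_b A j := by
      funext i
      change homogeneousComponent _ ((Pi.single j (monomial A (1 : ℂ)) : T d n) i) =
        (Pi.single j (monomial A (1 : ℂ)) : T d n) i
      by_cases hi : i = j
      · rw [hi, Pi.single_eq_same]
        have h3 : (monomial A (1 : ℂ)).IsHomogeneous (A.sum fun _ e => e) := by
          apply MvPolynomial.isHomogeneous_monomial
          rfl
        rw [MvPolynomial.homogeneousComponent_of_mem h3, if_pos rfl]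
      · rw [Pi.single_eq_of_ne hi, map_zero]
    have h3 : hc (A.sum fun _ e => e) v = 0 := by
      funext i
      change homogeneousComponent _ (v i) = 0
      apply MvPolynomial.homogeneousComponent_eq_zero
      exact lt_of_le_of_lt (hD hv i) hA
    have h4 := congrArg (hc (A.sum fun _ e => e)) hvl
    rw [map_add, h3, zero_add, h2] at h4
    rw [← h4]
    exact hLh l hl _
  -- the duality
  let Φ : Har d n →ₗ[ℂ] Module.Dual ℂ V :=
    { toFun := fun c => (DUA_B d n c.1).comp V.subtype
      map_add' := fun c c' => by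
        apply LinearMap.ext
        intro v
        exact DUA_pr_add_r _ _ _
      map_smul' := fun t c => by
        apply LinearMap.ext
        intro v
        exact DUA_pr_smul_r _ _ _ }
  have hΦ : ∀ (c : Har d n) (v : V), Φ c v = pr v.1 c.1 := fun c v => rfl
  have hinj : Function.Injective Φ := by
    rw [injective_iff_map_eq_zero]
    intro c hc
    have h1 : ∀ t : T d n, pr t c.1 = 0 := by
      intro t
      have h2 : t ∈ V ⊔ L := by
        rw [hVL.sup_eq_top]
        trivial
      obtain ⟨v, hv, l, hl, hvl⟩ := Submodule.mem_sup.1 h2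
      rw [← hvl, DUA_pr_add_l, (hort c.1).1 c.2 l hl, add_zero]
      have h3 := LinearMap.congr_fun hc ⟨v, hv⟩
      rw [hΦ] at h3
      exact h3
    apply Subtype.ext
    funext j
    apply MvPolynomial.ext
    intro A
    have h2 := h1 (DUA_b A j)
    rw [DUA_pr_b] at h2
    change coeff A (c.1 j) = coeff A 0
    rw [coeff_zero]
    exact (mul_eq_zero.1 h2).resolve_left (DUA_fac_ne A)
  have hsurj : Function.Surjective Φ := by
    intro f
    let f' : T d n →ₗ[ℂ] ℂ := f.comp (Submodule.projectionOnto V L hVL)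
    have hf'L : ∀ l ∈ L, f' l = 0 := by
      intro l hl
      change f (Submodule.projectionOnto V L hVL l) = 0
      rw [Submodule.projectionOnto_apply_of_mem_right hVL hl, map_zero]
    have hf'V : ∀ v : V, f' v.1 = f v := by
      intro v
      change f (Submodule.projectionOnto V L hVL v.1) = f v
      rw [Submodule.projectionOnto_apply_left]
    obtain ⟨e, he⟩ := DUA_rep f' D (fun A j hA => hf'L _ (hbL A j hA))
    have hpe : ∀ t, pr t e = f' t := fun t => by rw [← he]; rfl
    have heH : e ∈ Har d n := by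
      rw [hort]
      intro l hl
      rw [hpe, hf'L l hl]
    refine ⟨⟨e, heH⟩, ?_⟩
    apply LinearMap.ext
    intro v
    rw [hΦ, hpe, hf'V]
  let E : Har d n ≃ₗ[ℂ] Module.Dual ℂ V := LinearEquiv.ofBijective Φ ⟨hinj, hsurj⟩
  have hE : ∀ (c : Har d n) (v : V), E c v = pr v.1 c.1 := fun c v => rfl
  have hfin : Module.Finite ℂ (Har d n) := Module.Finite.equiv E.symm
  refine ⟨hs, hfin, fun w => ?_⟩
  have h1 : E.conj ((actT d n w).restrict (hs w)) =
      Module.Dual.transpose (R := ℂ) ((actT d n w⁻¹).restrict (hVs w⁻¹)) := by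
    apply LinearMap.ext
    intro f
    obtain ⟨c, rfl⟩ := E.surjective f
    apply LinearMap.ext
    intro v
    rw [LinearEquiv.conj_apply_apply, LinearEquiv.symm_apply_apply, hE]
    change pr v.1 (actT d n w c.1) = pr (actT d n w⁻¹ v.1) c.1
    exact DUA_pr_act' w v.1 c.1
  rw [← LinearMap.trace_conj' _ E, h1, LinearMap.trace_transpose', hVt w⁻¹, DUA_nfix_inv,
    Equiv.Perm.sign_inv]

end MDH
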