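import Pool.Agent.MDH.St

/-!
# MDH, module LNK: the linear equivalence of `signPart` and `Har` (helper74)
-/

set_option autoImplicit false

open MvPolynomial

namespace MDH

section emb

variable {r n d : ℕ} (h : d < r)

/-- the first `d` sets of variables -/
def LNK_e (a : Fin d) : Fin r := ⟨a.val, a.isLt.trans h⟩

/-- the last set of variables -/
def LNK_l : Fin r := ⟨r - 1, by omega⟩

theorem LNK_e_inj {a b : Fin d} (hab : LNK_e h a = LNK_e h b) : a = b := by
  have h1 : (LNK_e h a).val = (LNK_e h b).val := by rw [hab]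
  exact Fin.ext h1

theorem LNK_e_ne (a : Fin d) : LNK_e h a ≠ LNK_l h := by
  intro hc
  have h1 : a.val = r - 1 := congrArg Fin.val hc
  have h2 := a.isLt
  omega

theorem LNK_cases (x : Fin r) : (∃ a, x = LNK_e h a) ∨ x = LNK_l h ∨ (d ≤ x.val ∧ x.val + 1 < r) := by
  by_cases h1 : x.val < d
  · exact Or.inl ⟨⟨x.val, h1⟩, rfl⟩
  · by_cases h2 : x.val = r - 1
    · exact Or.inr (Or.inl (Fin.ext h2))
    · have h3 := x.isLt
      exact Or.inr (Or.inr ⟨by omega, by omega⟩)

/-- the embedding of `T` -/
noncomputable def LNK_i : T d n →ₗ[ℂ] MvPolynomial (Fin r × Fin n) ℂ where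
  toFun c := ∑ j : Fin d → Fin n, (∏ a, X (LNK_e h a, j a)) * rename (fun i => (LNK_l h, i)) (c j)
  map_add' c c' := by
    simp only [Pi.add_apply, map_add, mul_add, Finset.sum_add_distrib]
  map_smul' t c := by
    simp only [Pi.smul_apply, map_smul, RingHom.id_apply, Finset.smul_sum, mul_smul_comm]

theorem LNK_i_apply (c : T d n) : LNK_i h c = ∑ j : Fin d → Fin n,
    (∏ a, X (LNK_e h a, j a)) * rename (fun i => (LNK_l h, i)) (c j) := rfl

/-- the exponent vectors -/
noncomputable def LNK_E (j : Fin d → Fin n) (B : Fin n →₀ ℕ) : (Fin r × Fin n) →₀ ℕ :=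
  ∑ a, Finsupp.single (LNK_e h a, j a) 1 + Finsupp.mapDomain (fun i => (LNK_l h, i)) B

theorem LNK_injl : Function.Injective (fun i : Fin n => (LNK_l h, i)) := fun _ _ hab =>
  (Prod.mk.inj hab).2

theorem LNK_sum (j : Fin d → Fin n) (q : Fin r × Fin n) :
    (∑ a, Finsupp.single (LNK_e h a, j a) 1 : (Fin r × Fin n) →₀ ℕ) q =
      ∑ a, if (LNK_e h a, j a) = q then 1 else 0 := by
  rw [Finsupp.finsetSum_apply]
  exact Finset.sum_congr rfl fun a _ => Finsupp.single_apply

theorem LNK_sum_e (j : Fin d → Fin n) (a : Fin d) (i : Fin n) :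
    (∑ b, Finsupp.single (LNK_e h b, j b) 1 : (Fin r × Fin n) →₀ ℕ) (LNK_e h a, i) =
      if j a = i then 1 else 0 := by
  rw [LNK_sum, Finset.sum_eq_single a]
  · by_cases h1 : j a = i
    · rw [if_pos h1, if_pos (by rw [h1])]
    · rw [if_neg h1, if_neg]
      intro h2
      exact h1 (Prod.mk.inj h2).2
  · intro b _ hb
    rw [if_neg]
    intro h2
    exact hb (LNK_e_inj h (Prod.mk.inj h2).1)
  · intro h1
    exact absurd (Finset.mem_univ _) h1

theorem LNK_sum_o (j : Fin d → Fin n) (x : Fin r) (i : Fin n) (hx : d ≤ x.val) :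
    (∑ b, Finsupp.single (LNK_e h b, j b) 1 : (Fin r × Fin n) →₀ ℕ) (x, i) = 0 := by
  rw [LNK_sum]
  refine Finset.sum_eq_zero fun b _ => if_neg ?_
  intro h2
  have h3 := congrArg Fin.val (Prod.mk.inj h2).1
  have h4 := b.isLt
  have h5 : (LNK_e h b).val = b.val := rfl
  omega

theorem LNK_map_l (B : Fin n →₀ ℕ) (i : Fin n) :
    Finsupp.mapDomain (fun i => (LNK_l h, i)) B (LNK_l h, i) = B i :=
  Finsupp.mapDomain_apply (LNK_injl h) B i

theorem LNK_map_o (B : Fin n →₀ ℕ) (x : Fin r) (i : Fin n) (hx : x ≠ LNK_l h) :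
    Finsupp.mapDomain (fun i => (LNK_l h, i)) B (x, i) = 0 := by
  refine Finsupp.mapDomain_of_notMem_range B (x, i) ?_
  rintro ⟨i', hi'⟩
  exact hx (Prod.mk.inj hi').1.symm

theorem LNK_E_l (j : Fin d → Fin n) (B : Fin n →₀ ℕ) (i : Fin n) :
    LNK_E h j B (LNK_l h, i) = B i := by
  unfold LNK_E
  rw [Finsupp.add_apply, LNK_sum_o, LNK_map_l, zero_add]
  have : (LNK_l h).val = r - 1 := rfl
  omega

theorem LNK_E_e (j : Fin d → Fin n) (B : Fin n →₀ ℕ) (a : Fin d) (i : Fin n) :
    LNK_E h j B (LNK_e h a, i) = if j a = i then 1 else 0 := by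
  unfold LNK_E
  rw [Finsupp.add_apply, LNK_sum_e, LNK_map_o h _ _ _ (LNK_e_ne h a), add_zero]

theorem LNK_E_o (j : Fin d → Fin n) (B : Fin n →₀ ℕ) (x : Fin r) (i : Fin n)
    (h1 : d ≤ x.val) (h2 : x.val + 1 < r) : LNK_E h j B (x, i) = 0 := by
  unfold LNK_E
  rw [Finsupp.add_apply, LNK_sum_o h _ _ _ h1, LNK_map_o, add_zero]
  intro h3
  have h4 : x.val = r - 1 := congrArg Fin.val h3
  omega

theorem LNK_ext {C C' : (Fin r × Fin n) →₀ ℕ}
    (h1 : ∀ a i, C (LNK_e h a, i) = C' (LNK_e h a, i)) (h2 : ∀ i, C (LNK_l h, i) = C' (LNK_l h, i))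
    (h3 : ∀ (x : Fin r) i, d ≤ x.val → x.val + 1 < r → C (x, i) = C' (x, i)) : C = C' := by
  refine Finsupp.ext ?_
  rintro ⟨x, i⟩
  rcases LNK_cases h x with ⟨a, rfl⟩ | rfl | ⟨h4, h5⟩
  · exact h1 a i
  · exact h2 i
  · exact h3 x i h4 h5

theorem LNK_i_single (j : Fin d → Fin n) (p : S n) :
    LNK_i h (Pi.single j p) = (∏ a, X (LNK_e h a, j a)) * rename (fun i => (LNK_l h, i)) p := by
  rw [LNK_i_apply, Finset.sum_eq_single j]
  · rw [Pi.single_eq_same]
  · intro j' _ hj'
    rw [Pi.single_eq_of_ne hj', map_zero, mul_zero]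
  · intro h1
    exact absurd (Finset.mem_univ _) h1

theorem LNK_F (j : Fin d → Fin n) : (∏ a, X (LNK_e h a, j a) : MvPolynomial (Fin r × Fin n) ℂ) =
    monomial (∑ a, Finsupp.single (LNK_e h a, j a) 1) 1 := by
  rw [monomial_sum_one]
  rfl

theorem LNK_i_mono (j : Fin d → Fin n) (B : Fin n →₀ ℕ) (t : ℂ) :
    LNK_i h (Pi.single j (monomial B t)) = monomial (LNK_E h j B) t := by
  rw [LNK_i_single, LNK_F, rename_monomial, monomial_mul, one_mul]
  rfl

theorem LNK_ind {P : T d n → Prop} (h0 : P 0) (hadd : ∀ c c', P c → P c' → P (c + c'))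
    (hm : ∀ j B t, P (Pi.single j (monomial B t))) (c : T d n) : P c := by
  classical
  have h1 : ∀ j (p : S n), P (Pi.single j p) := by
    intro j p
    induction p using MvPolynomial.induction_on' with
    | monomial B t => exact hm j B t
    | add p q hp hq =>
      have h2 : (Pi.single j (p + q) : T d n) = Pi.single j p + Pi.single j q := by
        funext j'
        by_cases h3 : j' = j
        · subst h3
          rw [Pi.add_apply, Pi.single_eq_same, Pi.single_eq_same, Pi.single_eq_same]
        · rw [Pi.add_apply, Pi.single_eq_of_ne h3, Pi.single_eq_of_ne h3, Pi.single_eq_of_ne h3,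
            add_zero]
      rw [h2]
      exact hadd _ _ hp hq
  have h2 : c = ∑ j, Pi.single j (c j) := (Finset.univ_sum_single c).symm
  rw [h2]
  exact Finset.sum_induction _ P hadd h0 fun j _ => h1 j (c j)

/-- the coefficients -/
theorem LNK_coeff (c : T d n) (j : Fin d → Fin n) (B : Fin n →₀ ℕ) :
    coeff (LNK_E h j B) (LNK_i h c) = coeff B (c j) := by
  classical
  rw [LNK_i_apply, coeff_sum, Finset.sum_eq_single j]
  · rw [LNK_F, coeff_monomial_mul', if_pos, one_mul]
    · unfold LNK_E
      rw [add_tsub_cancel_left, coeff_rename_mapDomain _ (LNK_injl h)]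
    · unfold LNK_E
      exact le_self_add
  · intro j' _ hj'
    rw [LNK_F, coeff_monomial_mul', if_neg]
    intro h1
    obtain ⟨a, ha⟩ := Function.ne_iff.1 hj'
    have h2 := h1 (LNK_e h a, j' a)
    rw [LNK_sum_e, if_pos rfl, LNK_E_e, if_neg (Ne.symm ha)] at h2
    omega
  · intro h1
    exact absurd (Finset.mem_univ _) h1

theorem LNK_inj : Function.Injective (LNK_i (n := n) h) := by
  intro c c' hc
  funext j
  refine MvPolynomial.ext _ _ fun B => ?_
  rw [← LNK_coeff h c, ← LNK_coeff h c', hc]

/-- equivariance -/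
theorem LNK_act (w : Equiv.Perm (Fin n)) (c : T d n) :
    LNK_i h (actT d n w c) = act r n w (LNK_i h c) := by
  rw [LNK_i_apply, LNK_i_apply, map_sum]
  rw [← Equiv.sum_comp (Equiv.arrowCongr (Equiv.refl (Fin d)) w)]
  refine Finset.sum_congr rfl fun j _ => ?_
  show _ = rename (R := ℂ) (fun q : Fin r × Fin n => (q.1, w q.2)) _
  rw [map_mul, map_prod, rename_rename]
  congr 1
  · refine Finset.prod_congr rfl fun a _ => ?_
    rw [rename_X]
    rfl
  · show rename _ (rename w (c fun a => w⁻¹ (w (j a)))) = _
    rw [rename_rename]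
    have h1 : (fun a => w⁻¹ (w (j a))) = j := by
      funext a
      exact w.symm_apply_apply (j a)
    rw [h1]
    rfl

/-- permutations of the sets of variables -/
theorem LNK_perm (τ : Equiv.Perm (Fin r)) (τ' : Equiv.Perm (Fin d))
    (h1 : ∀ a, τ (LNK_e h a) = LNK_e h (τ' a)) (h2 : τ (LNK_l h) = LNK_l h) (c : T d n) :
    rename (fun q : Fin r × Fin n => (τ q.1, q.2)) (LNK_i h c) =
      LNK_i h (fun j => c (j ∘ τ')) := by
  have h4 := Equiv.sum_comp (Equiv.arrowCongr τ' (Equiv.refl (Fin n)))
    (fun j : Fin d → Fin n => (∏ a, X (LNK_e h a, j a)) *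
      rename (R := ℂ) (fun i => (LNK_l h, i)) (c (j ∘ τ')))
  rw [LNK_i_apply, LNK_i_apply, map_sum, ← h4]
  refine Finset.sum_congr rfl fun j _ => ?_
  rw [map_mul, map_prod, rename_rename]
  have h3 : (Equiv.arrowCongr τ' (Equiv.refl (Fin n))) j ∘ τ' = j := by
    funext a
    show j (τ'.symm (τ' a)) = j a
    rw [Equiv.symm_apply_apply]
  have h5 : (∏ a, X (LNK_e h a, (Equiv.arrowCongr τ' (Equiv.refl (Fin n))) j a) :
      MvPolynomial (Fin r × Fin n) ℂ) = ∏ a, rename (fun q : Fin r × Fin n => (τ q.1, q.2))
        (X (LNK_e h a, j a)) := by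
    rw [← Equiv.prod_comp τ']
    refine Finset.prod_congr rfl fun a _ => ?_
    have h6 : (Equiv.arrowCongr τ' (Equiv.refl (Fin n))) j (τ' a) = j a := congrFun h3 a
    rw [rename_X, h6, h1]
  have h7 : (fun q : Fin r × Fin n => (τ q.1, q.2)) ∘ (fun i => (LNK_l h, i)) =
      fun i => (LNK_l h, i) := by
    funext i
    show (τ (LNK_l h), i) = (LNK_l h, i)
    rw [h2]
  rw [h3, h5, h7]

end emb

/-! ### Differential operators -/

theorem LNK_dmon {σ : Type} (A B : σ →₀ ℕ) (c : ℂ) :
    dmon A (monomial B c) =
      monomial (B - A) (c * ∏ i ∈ A.support, ((B i).descFactorial (A i) : ℂ)) := by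
  have h1 : monomial B c = c • (basisMonomials σ ℂ) B := by
    rw [coe_basisMonomials, smul_monomial, smul_eq_mul, mul_one]
  rw [h1, map_smul]
  unfold dmon
  rw [Module.Basis.constr_basis, smul_monomial, smul_eq_mul]

theorem LNK_dmon_single {σ : Type} [DecidableEq σ] (q : σ) (k : ℕ) (B : σ →₀ ℕ) (c : ℂ) :
    dmon (Finsupp.single q k) (monomial B c) =
      monomial (B - Finsupp.single q k) (c * ((B q).descFactorial k : ℂ)) := by
  rw [LNK_dmon]
  congr 2
  rcases Nat.eq_zero_or_pos k with h | h
  · rw [h, Finsupp.single_zero, Finsupp.support_zero, Finset.prod_empty, Nat.descFactorial_zero,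
      Nat.cast_one]
  · rw [Finsupp.support_single _ (by omega), Finset.prod_singleton, Finsupp.single_eq_same]

/-- `diffOp` as a linear map -/
noncomputable def LNK_D (σ : Type) :
    MvPolynomial σ ℂ →ₗ[ℂ] (MvPolynomial σ ℂ →ₗ[ℂ] MvPolynomial σ ℂ) :=
  (basisMonomials σ ℂ).constr ℂ dmon

theorem LNK_D_monomial {σ : Type} (A : σ →₀ ℕ) (c : ℂ) : LNK_D σ (monomial A c) = c • dmon A := by
  have h1 : monomial A c = c • (basisMonomials σ ℂ) A := by
    rw [coe_basisMonomials, smul_monomial, smul_eq_mul, mul_one]
  rw [h1, map_smul]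
  unfold LNK_D
  rw [Module.Basis.constr_basis]

theorem LNK_D_apply {σ : Type} (f p : MvPolynomial σ ℂ) : LNK_D σ f p = diffOp f p := by
  have h1 : LNK_D σ f = ∑ A ∈ f.support, coeff A f • dmon A := by
    have h2 := f.support_sum_monomial_coeff
    have h3 : LNK_D σ f = LNK_D σ (∑ A ∈ f.support, monomial A (coeff A f)) := by rw [h2]
    rw [h3, map_sum]
    exact Finset.sum_congr rfl fun A _ => LNK_D_monomial _ _
  rw [h1, LinearMap.sum_apply]
  rfl

/-- the exponent vector of column `i` -/
noncomputable def LNK_col {r n : ℕ} (A : Fin r → ℕ) (i : Fin n) : (Fin r × Fin n) →₀ ℕ :=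
  ∑ x, Finsupp.single (x, i) (A x)

theorem LNK_col_apply {r n : ℕ} (A : Fin r → ℕ) (i : Fin n) (x : Fin r) (i' : Fin n) :
    LNK_col A i (x, i') = if i = i' then A x else 0 := by
  unfold LNK_col
  rw [Finsupp.finsetSum_apply, Finset.sum_eq_single x]
  · rw [Finsupp.single_apply]
    by_cases h : i = i'
    · rw [if_pos h, if_pos (by rw [h])]
    · rw [if_neg h, if_neg]
      intro h2
      exact h (Prod.mk.inj h2).2
  · intro y _ hy
    rw [Finsupp.single_apply, if_neg]
    intro h2
    exact hy (Prod.mk.inj h2).1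
  · intro h
    exact absurd (Finset.mem_univ _) h

theorem LNK_pps {r n : ℕ} (A : Fin r → ℕ) (p : MvPolynomial (Fin r × Fin n) ℂ) :
    diffOp (pps r n A) p = ∑ i, dmon (LNK_col A i) p := by
  rw [← LNK_D_apply]
  unfold pps
  rw [map_sum, LinearMap.sum_apply]
  refine Finset.sum_congr rfl fun i _ => ?_
  have h1 : (∏ x, X (x, i) ^ A x : MvPolynomial (Fin r × Fin n) ℂ) =
      monomial (LNK_col A i) 1 := by
    unfold LNK_col
    rw [monomial_sum_one]
    refine Finset.prod_congr rfl fun x _ => ?_
    rw [X_pow_eq_monomial]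
  rw [h1, LNK_D_monomial, one_smul]

section der

variable {r n d : ℕ} (h : d < r)

/-- derivatives in the last set -/
theorem LNK_last (i : Fin n) (k : ℕ) (c : T d n) :
    dmon (Finsupp.single (LNK_l h, i) k) (LNK_i h c) =
      LNK_i h (fun j => dmon (Finsupp.single i k) (c j)) := by
  classical
  induction c using LNK_ind with
  | h0 =>
    rw [map_zero, map_zero]
    have h1 : (fun j : Fin d → Fin n => dmon (Finsupp.single i k) ((0 : T d n) j)) = 0 := by
      funext j
      rw [Pi.zero_apply, map_zero]
    rw [h1, map_zero]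
  | hadd c c' hc hc' =>
    have h1 : (fun j : Fin d → Fin n => dmon (Finsupp.single i k) ((c + c') j)) =
        (fun j => dmon (Finsupp.single i k) (c j)) + fun j => dmon (Finsupp.single i k) (c' j) := by
      funext j
      rw [Pi.add_apply, Pi.add_apply, map_add]
    rw [map_add, map_add, hc, hc', h1, map_add]
  | hm j B t =>
    have h1 : (fun j' : Fin d → Fin n => dmon (Finsupp.single i k)
        ((Pi.single j (monomial B t) : T d n) j')) =
        Pi.single j (dmon (Finsupp.single i k) (monomial B t)) := by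
      funext j'
      by_cases h2 : j' = j
      · subst h2
        rw [Pi.single_eq_same, Pi.single_eq_same]
      · rw [Pi.single_eq_of_ne h2, Pi.single_eq_of_ne h2, map_zero]
    rw [h1, LNK_i_mono, LNK_dmon_single, LNK_dmon_single, LNK_i_mono, LNK_E_l]
    congr 2
    refine LNK_ext h (fun a i' => ?_) (fun i' => ?_) (fun x i' h3 h4 => ?_)
    · have h3 : ¬ ((LNK_l h, i) = (LNK_e h a, i')) := fun h3 =>
        LNK_e_ne h a (Prod.mk.inj h3).1.symm
      rw [Finsupp.tsub_apply, LNK_E_e, LNK_E_e, Finsupp.single_apply, if_neg h3, Nat.sub_zero]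
    · rw [Finsupp.tsub_apply, LNK_E_l, LNK_E_l, Finsupp.tsub_apply, Finsupp.single_apply,
        Finsupp.single_apply]
      congr 1
      by_cases h3 : i = i'
      · rw [if_pos h3, if_pos (by rw [h3])]
      · rw [if_neg h3, if_neg]
        intro h4
        exact h3 (Prod.mk.inj h4).2
    · rw [Finsupp.tsub_apply, LNK_E_o h _ _ _ _ h3 h4, LNK_E_o h _ _ _ _ h3 h4, Nat.zero_sub]

/-- derivatives which vanish for degree reasons -/
theorem LNK_deg (x : Fin r) (i : Fin n) (k : ℕ) (hx : x.val + 1 < r) (hk : 1 ≤ k)
    (hk2 : x.val < d → 2 ≤ k) (c : T d n) :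
    dmon (Finsupp.single (x, i) k) (LNK_i h c) = 0 := by
  classical
  induction c using LNK_ind with
  | h0 => rw [map_zero, map_zero]
  | hadd c c' hc hc' => rw [map_add, map_add, hc, hc', add_zero]
  | hm j B t =>
    rw [LNK_i_mono, LNK_dmon_single]
    have h1 : (LNK_E h j B (x, i)).descFactorial k = 0 := by
      rw [Nat.descFactorial_eq_zero_iff_lt]
      rcases LNK_cases h x with ⟨a, rfl⟩ | rfl | ⟨h4, h5⟩
      · rw [LNK_E_e]
        have h2 := hk2 a.isLt
        split_ifs <;> omega
      · have : (LNK_l h).val = r - 1 := rfl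
        omega
      · rw [LNK_E_o h _ _ _ _ h4 h5]
        omega
    rw [h1, Nat.cast_zero, mul_zero, monomial_zero]

/-- first derivatives in the first sets -/
theorem LNK_first (a : Fin d) (i i0 : Fin n) (c : T d n) :
    X (LNK_e h a, i0) * dmon (Finsupp.single (LNK_e h a, i) 1) (LNK_i h c) =
      LNK_i h (fun j => if j a = i0 then c (Function.update j a i) else 0) := by
  classical
  induction c using LNK_ind with
  | h0 =>
    rw [map_zero, map_zero, mul_zero]
    have h1 : (fun j : Fin d → Fin n => if j a = i0 then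
        (0 : T d n) (Function.update j a i) else 0) = 0 := by
      funext j
      rw [Pi.zero_apply, ite_self]
      rfl
    rw [h1, map_zero]
  | hadd c c' hc hc' =>
    have h1 : (fun j : Fin d → Fin n => if j a = i0 then
        (c + c') (Function.update j a i) else 0) =
        (fun j => if j a = i0 then c (Function.update j a i) else 0) +
          fun j => if j a = i0 then c' (Function.update j a i) else 0 := by
      funext j
      rw [Pi.add_apply, Pi.add_apply]
      by_cases h5 : j a = i0
      · rw [if_pos h5, if_pos h5, if_pos h5]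
      · rw [if_neg h5, if_neg h5, if_neg h5, add_zero]
    rw [map_add, map_add, mul_add, hc, hc', h1, map_add]
  | hm j B t =>
    rw [LNK_i_mono, LNK_dmon_single, LNK_E_e]
    by_cases h2 : j a = i
    · have h1 : (fun j' : Fin d → Fin n => if j' a = i0 then
          (Pi.single j (monomial B t) : T d n) (Function.update j' a i) else 0) =
          Pi.single (Function.update j a i0) (monomial B t) := by
        funext j'
        by_cases h3 : j' = Function.update j a i0
        · have h4 : Function.update j' a i = j := by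
            rw [h3, Function.update_idem, ← h2, Function.update_eq_self]
          have h5 : j' a = i0 := by rw [h3, Function.update_self]
          rw [if_pos h5, h4, Pi.single_eq_same, h3, Pi.single_eq_same]
        · rw [Pi.single_eq_of_ne h3]
          split_ifs with h5
          · rw [Pi.single_eq_of_ne]
            intro h6
            refine h3 ?_
            rw [← h6, Function.update_idem, ← h5, Function.update_eq_self]
          · rfl
      rw [h1, LNK_i_mono, if_pos h2, Nat.descFactorial_one, Nat.cast_one, mul_one]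
      have h7 : (X (LNK_e h a, i0) : MvPolynomial (Fin r × Fin n) ℂ) =
          monomial (Finsupp.single (LNK_e h a, i0) 1) 1 := rfl
      rw [h7, monomial_mul, one_mul]
      congr 2
      refine LNK_ext h (fun b i' => ?_) (fun i' => ?_) (fun x i' h3 h4 => ?_)
      · rw [Finsupp.add_apply, Finsupp.tsub_apply, LNK_E_e, LNK_E_e, Finsupp.single_apply,
          Finsupp.single_apply]
        by_cases hb : b = a
        · subst hb
          rw [Function.update_self, h2]
          by_cases h8 : i0 = i'
          · subst h8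
            by_cases h9 : i = i0
            · subst h9
              simp
            · simp [h9]
          · by_cases h9 : i = i'
            · subst h9
              simp [h8]
            · simp [h8, h9]
        · have h8 : ∀ z : Fin n, ¬ ((LNK_e h a, z) = (LNK_e h b, i')) := fun z h9 =>
            hb (LNK_e_inj h (Prod.mk.inj h9).1).symm
          rw [if_neg (h8 i0), if_neg (h8 i), Function.update_of_ne hb, zero_add, Nat.sub_zero]
      · have h8 : ∀ z : Fin n, ¬ ((LNK_e h a, z) = (LNK_l h, i')) := fun z h9 =>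
          LNK_e_ne h a (Prod.mk.inj h9).1
        rw [Finsupp.add_apply, Finsupp.tsub_apply, LNK_E_l, LNK_E_l, Finsupp.single_apply,
          Finsupp.single_apply, if_neg (h8 i0), if_neg (h8 i), zero_add, Nat.sub_zero]
      · have h8 : ∀ z : Fin n, ¬ ((LNK_e h a, z) = (x, i')) := fun z h9 => by
          have h10 : (LNK_e h a).val = x.val := congrArg Fin.val (Prod.mk.inj h9).1
          have h11 : (LNK_e h a).val = a.val := rfl
          have h12 := a.isLt
          omega
        rw [Finsupp.add_apply, Finsupp.tsub_apply, LNK_E_o h _ _ _ _ h3 h4,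
          LNK_E_o h _ _ _ _ h3 h4, Finsupp.single_apply,
          Finsupp.single_apply, if_neg (h8 i0), if_neg (h8 i), zero_add, Nat.sub_zero]
    · rw [if_neg h2, Nat.descFactorial_one, Nat.cast_zero, mul_zero, monomial_zero, mul_zero]
      have h1 : (fun j' : Fin d → Fin n => if j' a = i0 then
          (Pi.single j (monomial B t) : T d n) (Function.update j' a i) else 0) = 0 := by
        funext j'
        rw [Pi.single_eq_of_ne, ite_self]
        · rfl
        · intro h3
          refine h2 ?_
          rw [← h3, Function.update_self]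
      rw [h1, map_zero]

end der

/-! ### The image of the embedding -/

section image

variable {r n d : ℕ} (h : d < r)

theorem LNK_supp (c : T d n) : ∀ A ∈ (LNK_i h c).support, ∀ x : Fin r, x.val + 1 < r →
    ∑ i, A (x, i) = if x.val < d then 1 else 0 := by
  classical
  induction c using LNK_ind with
  | h0 =>
    intro A hA
    rw [map_zero] at hA
    simp at hA
  | hadd c c' hc hc' =>
    intro A hA
    rw [map_add] at hA
    rcases Finset.mem_union.1 (MvPolynomial.support_add hA) with h1 | h1
    · exact hc A h1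
    · exact hc' A h1
  | hm j B t =>
    intro A hA x hx
    rw [LNK_i_mono] at hA
    have h1 := MvPolynomial.support_monomial_subset hA
    rw [Finset.mem_singleton] at h1
    subst h1
    rcases LNK_cases h x with ⟨a, rfl⟩ | rfl | ⟨h4, h5⟩
    · have h2 : (LNK_e h a).val < d := a.isLt
      rw [if_pos h2]
      simp only [LNK_E_e]
      rw [Finset.sum_ite_eq, if_pos (Finset.mem_univ _)]
    · have : (LNK_l h).val = r - 1 := rfl
      omega
    · rw [if_neg (by omega)]
      exact Finset.sum_eq_zero fun i _ => LNK_E_o h _ _ _ _ h4 h5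

theorem LNK_one {m : ℕ} (f : Fin m → ℕ) (hf : ∑ i, f i = 1) :
    ∃ i, ∀ i', f i' = if i = i' then 1 else 0 := by
  have h1 : ∃ i, f i ≠ 0 := by
    by_contra hc
    have h2 : ∑ i, f i = 0 := Finset.sum_eq_zero fun i _ => by
      by_contra h3
      exact hc ⟨i, h3⟩
    omega
  obtain ⟨i, hi⟩ := h1
  refine ⟨i, fun i' => ?_⟩
  have h2 := Finset.add_sum_erase Finset.univ f (Finset.mem_univ i)
  by_cases h3 : i = i'
  · subst h3
    rw [if_pos rfl]
    omega
  · rw [if_neg h3]
    have h4 := Finset.single_le_sum (f := f) (s := Finset.univ.erase i) (fun _ _ => Nat.zero_le _)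
      (Finset.mem_erase.2 ⟨Ne.symm h3, Finset.mem_univ i'⟩)
    omega

theorem LNK_exists (A : (Fin r × Fin n) →₀ ℕ)
    (hA : ∀ x : Fin r, x.val + 1 < r → ∑ i, A (x, i) = if x.val < d then 1 else 0) :
    ∃ (j : Fin d → Fin n) (B : Fin n →₀ ℕ), LNK_E h j B = A := by
  have h1 : ∀ a : Fin d, ∃ i, ∀ i', A (LNK_e h a, i') = if i = i' then 1 else 0 := by
    intro a
    refine LNK_one _ ?_
    have h2 : (LNK_e h a).val = a.val := rfl
    have h3 := a.isLt
    rw [hA (LNK_e h a) (by omega), if_pos (by omega)]
  choose j hj using h1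
  refine ⟨j, Finsupp.comapDomain (fun i => (LNK_l h, i)) A (LNK_injl h).injOn, ?_⟩
  refine LNK_ext h (fun a i' => ?_) (fun i' => ?_) (fun x i' h3 h4 => ?_)
  · rw [LNK_E_e, hj]
  · rw [LNK_E_l, Finsupp.comapDomain_apply]
  · rw [LNK_E_o h _ _ _ _ h3 h4]
    have h5 := hA x h4
    rw [if_neg (by omega)] at h5
    exact (Finset.sum_eq_zero_iff.1 h5 i' (Finset.mem_univ _)).symm

theorem LNK_surj (p : MvPolynomial (Fin r × Fin n) ℂ)
    (hp : ∀ A ∈ p.support, ∀ x : Fin r, x.val + 1 < r →
      ∑ i, A (x, i) = if x.val < d then 1 else 0) : ∃ c : T d n, LNK_i h c = p := by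
  have h1 : p ∈ LinearMap.range (LNK_i (n := n) h) := by
    rw [← p.support_sum_monomial_coeff]
    refine Submodule.sum_mem _ fun A hA => ?_
    obtain ⟨j, B, hjB⟩ := LNK_exists h A (hp A hA)
    exact ⟨Pi.single j (monomial B (coeff A p)), by rw [LNK_i_mono, hjB]⟩
  exact h1

/-- the condition of antisymmetry -/
theorem LNK_anti (c : T d n) :
    (∀ τ : Equiv.Perm (Fin r), (∀ a : Fin r, d ≤ a.val → τ a = a) →
      rename (fun q : Fin r × Fin n => (τ q.1, q.2)) (LNK_i h c) =
        ((Equiv.Perm.sign τ : ℤ) : ℂ) • LNK_i h c) ↔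
    ∀ (τ : Equiv.Perm (Fin d)) j, c (j ∘ τ) = ((Equiv.Perm.sign τ : ℤ) : ℂ) • c j := by
  classical
  let f : Fin d ≃ {x : Fin r // x.val < d} :=
    { toFun := fun a => ⟨LNK_e h a, a.isLt⟩
      invFun := fun x => ⟨x.1.val, x.2⟩
      left_inv := fun a => rfl
      right_inv := fun x => rfl }
  have hf : ∀ a, (f a : Fin r) = LNK_e h a := fun a => rfl
  have key : ∀ τ' : Equiv.Perm (Fin d),
      (∀ a : Fin r, d ≤ a.val → τ'.extendDomain f a = a) ∧
      Equiv.Perm.sign (τ'.extendDomain f) = Equiv.Perm.sign τ' ∧
      rename (fun q : Fin r × Fin n => (τ'.extendDomain f q.1, q.2)) (LNK_i h c) =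
        LNK_i h (fun j => c (j ∘ τ')) := by
    intro τ'
    refine ⟨fun a ha => Equiv.Perm.extendDomain_apply_not_subtype _ _ (by omega),
      Equiv.Perm.sign_extendDomain _ _, LNK_perm h _ τ' (fun a => ?_) ?_ c⟩
    · rw [← hf a, Equiv.Perm.extendDomain_apply_image]
      exact hf _
    · refine Equiv.Perm.extendDomain_apply_not_subtype _ _ ?_
      have : (LNK_l h).val = r - 1 := rfl
      omega
  constructor
  · intro H τ' j
    obtain ⟨h1, h2, h3⟩ := key τ'
    have h4 := H _ h1
    rw [h2, h3, ← map_smul] at h4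
    exact congrFun (LNK_inj h h4) j
  · intro H τ hτ
    have hp : ∀ x : Fin r, (τ x).val < d ↔ x.val < d := by
      intro x
      constructor
      · intro h1
        by_contra h2
        rw [hτ x (by omega)] at h1
        exact h2 h1
      · intro h1
        by_contra h2
        have h3 := τ.injective (hτ (τ x) (by omega))
        rw [h3] at h2
        exact h2 h1
    obtain ⟨h1, h2, h3⟩ := key ((f.trans (τ.subtypePerm hp)).trans f.symm)
    have h4 : Equiv.Perm.extendDomain ((f.trans (τ.subtypePerm hp)).trans f.symm) f = τ := by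
      refine Equiv.ext fun x => ?_
      by_cases hx : x.val < d
      · have h5 := Equiv.Perm.extendDomain_apply_image
          ((f.trans (τ.subtypePerm hp)).trans f.symm) f (f.symm ⟨x, hx⟩)
        rw [Equiv.apply_symm_apply] at h5
        rw [h5]
        rw [Equiv.trans_apply, Equiv.trans_apply, Equiv.apply_symm_apply, Equiv.apply_symm_apply]
        rfl
      · rw [h1 x (by omega), hτ x (by omega)]
    rw [h4] at h2 h3
    rw [h3, h2, ← map_smul]
    congr 1
    funext j
    exact H _ j

theorem LNK_eqn3 (c : T d n) (k : ℕ) :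
    ∑ i, dmon (Finsupp.single (LNK_l h, i) k) (LNK_i h c) =
      LNK_i h (fun j => ∑ i, dmon (Finsupp.single i k) (c j)) := by
  simp only [LNK_last]
  rw [← map_sum]
  congr 1
  funext j
  rw [Finset.sum_apply]

theorem LNK_eqn2 (hD : ∀ (A B : (Fin r × Fin n) →₀ ℕ) (p : MvPolynomial (Fin r × Fin n) ℂ),
      dmon (A + B) p = dmon A (dmon B p)) (c : T d n) (a : Fin d) (i0 : Fin n) (k : ℕ) :
    X (LNK_e h a, i0) * ∑ i, dmon (Finsupp.single (LNK_e h a, i) 1 +
      Finsupp.single (LNK_l h, i) k) (LNK_i h c) =
      LNK_i h (fun j => if j a = i0 then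
        ∑ i, dmon (Finsupp.single i k) (c (Function.update j a i)) else 0) := by
  rw [Finset.mul_sum]
  have h1 : ∀ i : Fin n, X (LNK_e h a, i0) * dmon (Finsupp.single (LNK_e h a, i) 1 +
      Finsupp.single (LNK_l h, i) k) (LNK_i h c) =
      LNK_i h (fun j => if j a = i0 then
        dmon (Finsupp.single i k) (c (Function.update j a i)) else 0) := by
    intro i
    rw [hD, LNK_last, LNK_first]
  rw [Finset.sum_congr rfl fun i _ => h1 i, ← map_sum]
  congr 1
  funext j
  rw [Finset.sum_apply]
  by_cases h2 : j a = i0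
  · rw [if_pos h2]
    exact Finset.sum_congr rfl fun i _ => if_pos h2
  · rw [if_neg h2]
    exact Finset.sum_eq_zero fun i _ => if_neg h2

/-- `x_q` commutes with the derivative in the direction `q' ≠ q` -/
theorem LNK_comm {σ : Type} [DecidableEq σ] (q q' : σ) (hq : q ≠ q') (p : MvPolynomial σ ℂ) :
    X q' * dmon (Finsupp.single q 1) p = dmon (Finsupp.single q 1) (X q' * p) := by
  induction p using MvPolynomial.induction_on' with
  | monomial B t =>
    have h7 : (X q' : MvPolynomial σ ℂ) = monomial (Finsupp.single q' 1) 1 := rfl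
    rw [h7, LNK_dmon_single, monomial_mul, monomial_mul, LNK_dmon_single, one_mul, one_mul]
    have h8 : (Finsupp.single q' 1 + B : σ →₀ ℕ) q = B q := by
      rw [Finsupp.add_apply, Finsupp.single_apply, if_neg (Ne.symm hq), zero_add]
    rw [h8]
    congr 2
    refine Finsupp.ext fun x => ?_
    rw [Finsupp.add_apply, Finsupp.tsub_apply, Finsupp.tsub_apply, Finsupp.add_apply,
      Finsupp.single_apply, Finsupp.single_apply]
    by_cases h1 : q = x
    · subst h1
      rw [if_neg (Ne.symm hq), if_pos rfl]
      omega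
    · rw [if_neg h1]
      omega
  | add p p' hp hp' => rw [map_add, mul_add, hp, hp', mul_add, map_add]

end image

/-! ### The equations -/

section eqs

variable {r n d : ℕ} (h : d < r)

theorem LNK_zero_of_le {σ : Type}
    (hD : ∀ (A B : σ →₀ ℕ) (p : MvPolynomial σ ℂ), dmon (A + B) p = dmon A (dmon B p))
    {Q C : σ →₀ ℕ} (hQ : Q ≤ C) {p : MvPolynomial σ ℂ} (hp : dmon Q p = 0) : dmon C p = 0 := by
  have h1 : C = (C - Q) + Q := (tsub_add_cancel_of_le hQ).symm
  rw [h1, hD, hp, map_zero]

/-- the alternating functions satisfy all the equations if they satisfy the ones in `Har` -/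
theorem LNK_to (hD : ∀ (A B : (Fin r × Fin n) →₀ ℕ) (p : MvPolynomial (Fin r × Fin n) ℂ),
      dmon (A + B) p = dmon A (dmon B p)) (c : T d n) (hc : c ∈ Har d n) (A : Fin r → ℕ)
    (hA : A ≠ 0) : ∑ i, dmon (LNK_col A i) (LNK_i h c) = 0 := by
  classical
  obtain ⟨hc1, hc2, hc3⟩ := hc
  by_cases hA1 : ∃ x : Fin r, x.val + 1 < r ∧ 1 ≤ A x ∧ (x.val < d → 2 ≤ A x)
  · obtain ⟨x, hx1, hx2, hx3⟩ := hA1
    refine Finset.sum_eq_zero fun i _ => ?_
    refine LNK_zero_of_le hD (Q := Finsupp.single (x, i) (A x)) ?_
      (LNK_deg h x i (A x) hx1 hx2 hx3 c)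
    rw [Finsupp.single_le_iff, LNK_col_apply, if_pos rfl]
  · have hA1' : ∀ x : Fin r, x.val + 1 < r → A x ≠ 0 → x.val < d ∧ A x = 1 := by
      intro x hx hx0
      by_cases h1 : x.val < d
      · refine ⟨h1, ?_⟩
        by_contra h2
        exact hA1 ⟨x, hx, by omega, fun _ => by omega⟩
      · exact absurd ⟨x, hx, by omega, fun h2 => absurd h2 h1⟩ hA1
    have hev : ∀ a : Fin d, (LNK_e h a).val + 1 < r := fun a => by
      have h2 : (LNK_e h a).val = a.val := rfl
      have h3 := a.isLt
      omega
    by_cases hA2 : ∃ a : Fin d, A (LNK_e h a) ≠ 0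
    · obtain ⟨a, ha⟩ := hA2
      have ha1 : A (LNK_e h a) = 1 := (hA1' _ (hev a) ha).2
      by_cases hA3 : ∃ b : Fin d, b ≠ a ∧ A (LNK_e h b) ≠ 0
      · obtain ⟨b, hba, hb⟩ := hA3
        have hb1 : A (LNK_e h b) = 1 := (hA1' _ (hev b) hb).2
        have hne : ∀ i i' : Fin n, (LNK_e h a, i) ≠ (LNK_e h b, i') := fun i i' h1 =>
          hba (LNK_e_inj h (Prod.mk.inj h1).1).symm
        have hc0 : ∀ j : Fin d → Fin n, j a = j b → c j = 0 := by
          intro j hj
          have h1 := hc1 (Equiv.swap a b) j
          have h2 : j ∘ (Equiv.swap a b) = j := by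
            funext x
            rw [Function.comp_apply]
            by_cases hxa : x = a
            · rw [hxa, Equiv.swap_apply_left, hj]
            · by_cases hxb : x = b
              · rw [hxb, Equiv.swap_apply_right, hj]
              · rw [Equiv.swap_apply_of_ne_of_ne hxa hxb]
          rw [h2, Equiv.Perm.sign_swap (Ne.symm hba)] at h1
          have h3 : c j = -c j := by
            refine h1.trans ?_
            rw [Units.val_neg, Units.val_one, Int.cast_neg, Int.cast_one, neg_smul, one_smul]
          exact self_eq_neg.1 h3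
        refine Finset.sum_eq_zero fun i _ => ?_
        refine LNK_zero_of_le hD (Q := Finsupp.single (LNK_e h a, i) 1 +
          Finsupp.single (LNK_e h b, i) 1) ?_ ?_
        · intro q
          obtain ⟨x, i'⟩ := q
          rw [LNK_col_apply, Finsupp.add_apply, Finsupp.single_apply, Finsupp.single_apply]
          by_cases h1 : (LNK_e h a, i) = (x, i')
          · rw [if_pos h1, if_neg (fun h2 => hne i i (h1.trans h2.symm)),
              if_pos (Prod.mk.inj h1).2, ← (Prod.mk.inj h1).1, ha1, add_zero]
          · rw [if_neg h1]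
            by_cases h2 : (LNK_e h b, i) = (x, i')
            · rw [if_pos h2, if_pos (Prod.mk.inj h2).2, ← (Prod.mk.inj h2).1, hb1]
            · rw [if_neg h2]
              exact Nat.zero_le _
        · have h1 : X (LNK_e h a, i) * (X (LNK_e h b, i) *
              dmon (Finsupp.single (LNK_e h a, i) 1 + Finsupp.single (LNK_e h b, i) 1)
                (LNK_i h c)) = 0 := by
            rw [hD, LNK_comm _ _ (hne i i), LNK_first, LNK_first]
            have h2 : (fun j : Fin d → Fin n => if j a = i then
                (if (Function.update j a i) b = i then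
                  c (Function.update (Function.update j a i) b i) else 0) else 0) = 0 := by
              funext j
              have h3 : c (Function.update (Function.update j a i) b i) = 0 := by
                refine hc0 _ ?_
                rw [Function.update_self, Function.update_of_ne (Ne.symm hba),
                  Function.update_self]
              rw [h3, ite_self, ite_self]
              rfl
            rw [h2, map_zero]
          rcases mul_eq_zero.1 h1 with h2 | h2
          · exact absurd h2 (X_ne_zero _)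
          · rcases mul_eq_zero.1 h2 with h3 | h3
            · exact absurd h3 (X_ne_zero _)
            · exact h3
      · have h1 : ∀ i : Fin n, LNK_col A i = Finsupp.single (LNK_e h a, i) 1 +
            Finsupp.single (LNK_l h, i) (A (LNK_l h)) := by
          intro i
          refine LNK_ext h (fun b i' => ?_) (fun i' => ?_) (fun x i' h3 h4 => ?_)
          · rw [LNK_col_apply, Finsupp.add_apply, Finsupp.single_apply, Finsupp.single_apply,
              if_neg (c := (LNK_l h, i) = (LNK_e h b, i')) (fun h5 =>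
                LNK_e_ne h b (Prod.mk.inj h5).1.symm), add_zero]
            by_cases hb : b = a
            · subst hb
              rw [ha1]
              by_cases h5 : i = i'
              · rw [if_pos h5, if_pos (by rw [h5])]
              · rw [if_neg h5, if_neg (fun h6 => h5 (Prod.mk.inj h6).2)]
            · have h6 : A (LNK_e h b) = 0 := by
                by_contra h7
                exact hA3 ⟨b, hb, h7⟩
              rw [h6, ite_self, if_neg]
              intro h7
              exact hb (LNK_e_inj h (Prod.mk.inj h7).1).symm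
          · rw [LNK_col_apply, Finsupp.add_apply, Finsupp.single_apply, Finsupp.single_apply,
              if_neg (c := (LNK_e h a, i) = (LNK_l h, i')) (fun h5 =>
                LNK_e_ne h a (Prod.mk.inj h5).1), zero_add]
            by_cases h5 : i = i'
            · rw [if_pos h5, if_pos (by rw [h5])]
            · rw [if_neg h5, if_neg (fun h6 => h5 (Prod.mk.inj h6).2)]
          · have h6 : A x = 0 := by
              by_contra h7
              have h8 := (hA1' x h4 h7).1
              omega
            have h9 : ¬ ((LNK_l h, i) = (x, i')) := by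
              intro h5
              have h7 : (LNK_l h).val = x.val := congrArg Fin.val (Prod.mk.inj h5).1
              have h8 : (LNK_l h).val = r - 1 := rfl
              omega
            have h10 : ¬ ((LNK_e h a, i) = (x, i')) := by
              intro h5
              have h7 : (LNK_e h a).val = x.val := congrArg Fin.val (Prod.mk.inj h5).1
              have h8 : (LNK_e h a).val = a.val := rfl
              have h9 := a.isLt
              omega
            rw [LNK_col_apply, Finsupp.add_apply, Finsupp.single_apply, Finsupp.single_apply, h6,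
              ite_self, if_neg h9, if_neg h10, add_zero]
        simp only [h1]
        rcases isEmpty_or_nonempty (Fin n) with he | ⟨⟨i0⟩⟩
        · exact Finset.sum_eq_zero fun i _ => he.elim i
        · have h2 := LNK_eqn2 h hD c a i0 (A (LNK_l h))
          have h3 : (fun j : Fin d → Fin n => if j a = i0 then
              ∑ i, dmon (Finsupp.single i (A (LNK_l h))) (c (Function.update j a i)) else 0) =
              0 := by
            funext j
            rw [hc2 a j (A (LNK_l h)), ite_self]
            rfl
          rw [h3, map_zero] at h2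
          rcases mul_eq_zero.1 h2 with h4 | h4
          · exact absurd h4 (X_ne_zero _)
          · exact h4
    · have hA4 : ∀ x : Fin r, x.val + 1 < r → A x = 0 := by
        intro x hx
        by_contra hx0
        have h1 := (hA1' x hx hx0).1
        exact hA2 ⟨⟨x.val, h1⟩, hx0⟩
      have h1 : ∀ i : Fin n, LNK_col A i = Finsupp.single (LNK_l h, i) (A (LNK_l h)) := by
        intro i
        refine LNK_ext h (fun b i' => ?_) (fun i' => ?_) (fun x i' h3 h4 => ?_)
        · rw [LNK_col_apply, hA4 _ (hev b), ite_self, Finsupp.single_apply, if_neg]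
          intro h5
          exact LNK_e_ne h b (Prod.mk.inj h5).1.symm
        · rw [LNK_col_apply, Finsupp.single_apply]
          by_cases h5 : i = i'
          · rw [if_pos h5, if_pos (by rw [h5])]
          · rw [if_neg h5, if_neg (fun h6 => h5 (Prod.mk.inj h6).2)]
        · rw [LNK_col_apply, hA4 _ h4, ite_self, Finsupp.single_apply, if_neg]
          intro h5
          have h7 : (LNK_l h).val = x.val := congrArg Fin.val (Prod.mk.inj h5).1
          have h8 : (LNK_l h).val = r - 1 := rfl
          omega
      simp only [h1]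
      rw [LNK_eqn3]
      have h2 : 1 ≤ A (LNK_l h) := by
        by_contra h3
        refine hA (funext fun x => ?_)
        rw [Pi.zero_apply]
        by_cases hx : x.val + 1 < r
        · exact hA4 x hx
        · have h4 : x = LNK_l h := by
            refine Fin.ext ?_
            have h5 := x.isLt
            have h6 : (LNK_l h).val = r - 1 := rfl
            omega
          rw [h4]
          omega
      have h3 : (fun j : Fin d → Fin n =>
          ∑ i, dmon (Finsupp.single i (A (LNK_l h))) (c j)) = 0 := by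
        funext j
        exact hc3 j _ h2
      rw [h3, map_zero]

theorem LNK_from (hD : ∀ (A B : (Fin r × Fin n) →₀ ℕ) (p : MvPolynomial (Fin r × Fin n) ℂ),
      dmon (A + B) p = dmon A (dmon B p)) (c : T d n)
    (hc : ∀ (τ : Equiv.Perm (Fin d)) j, c (j ∘ τ) = ((Equiv.Perm.sign τ : ℤ) : ℂ) • c j)
    (H : ∀ A : Fin r → ℕ, A ≠ 0 → ∑ i, dmon (LNK_col A i) (LNK_i h c) = 0) : c ∈ Har d n := by
  classical
  refine ⟨hc, fun a j k => ?_, fun j k hk => ?_⟩
  · have h1 := H (fun x => if x = LNK_e h a then 1 else if x = LNK_l h then k else 0) (by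
      intro h2
      have h3 := congrFun h2 (LNK_e h a)
      rw [if_pos rfl] at h3
      exact one_ne_zero h3)
    have h2 : ∀ i : Fin n, LNK_col (fun x => if x = LNK_e h a then 1 else
        if x = LNK_l h then k else 0) i =
        Finsupp.single (LNK_e h a, i) 1 + Finsupp.single (LNK_l h, i) k := by
      intro i
      refine Finsupp.ext ?_
      rintro ⟨x, i'⟩
      rw [LNK_col_apply, Finsupp.add_apply, Finsupp.single_apply, Finsupp.single_apply]
      by_cases h3 : i = i'
      · subst h3
        rw [if_pos rfl]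
        by_cases h4 : x = LNK_e h a
        · subst h4
          rw [if_pos rfl, if_pos rfl, if_neg (fun h5 => LNK_e_ne h a (Prod.mk.inj h5).1.symm),
            add_zero]
        · rw [if_neg h4, if_neg (c := (LNK_e h a, i) = (x, i)) (fun h5 => h4 (Prod.mk.inj h5).1.symm)]
          by_cases h5 : x = LNK_l h
          · subst h5
            rw [if_pos rfl, if_pos rfl, zero_add]
          · rw [if_neg h5, if_neg (fun h6 => h5 (Prod.mk.inj h6).1.symm), add_zero]
      · rw [if_neg h3, if_neg (fun h6 => h3 (Prod.mk.inj h6).2),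
          if_neg (fun h6 => h3 (Prod.mk.inj h6).2), add_zero]
    simp only [h2] at h1
    have h3 := LNK_eqn2 h hD c a (j a) k
    rw [h1, mul_zero, ← map_zero (LNK_i (n := n) h)] at h3
    have h4 := congrFun (LNK_inj h h3) j
    rw [if_pos rfl] at h4
    exact h4.symm
  · have h1 := H (fun x => if x = LNK_l h then k else 0) (by
      intro h2
      have h3 := congrFun h2 (LNK_l h)
      rw [if_pos rfl, Pi.zero_apply] at h3
      omega)
    have h2 : ∀ i : Fin n, LNK_col (fun x => if x = LNK_l h then k else 0) i =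
        Finsupp.single (LNK_l h, i) k := by
      intro i
      refine Finsupp.ext ?_
      rintro ⟨x, i'⟩
      rw [LNK_col_apply, Finsupp.single_apply]
      by_cases h3 : i = i'
      · subst h3
        rw [if_pos rfl]
        by_cases h5 : x = LNK_l h
        · subst h5
          rw [if_pos rfl, if_pos rfl]
        · rw [if_neg h5, if_neg (fun h6 => h5 (Prod.mk.inj h6).1.symm)]
      · rw [if_neg h3, if_neg (fun h6 => h3 (Prod.mk.inj h6).2)]
    simp only [h2] at h1
    rw [LNK_eqn3, ← map_zero (LNK_i (n := n) h)] at h1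
    exact congrFun (LNK_inj h h1) j

end eqs

/-! ### Stability -/

theorem LNK_dmon_rename {σ : Type} [Fintype σ] (e : Equiv.Perm σ) (C : σ →₀ ℕ)
    (p : MvPolynomial σ ℂ) :
    dmon (Finsupp.mapDomain e C) (rename e p) = rename e (dmon C p) := by
  classical
  induction p using MvPolynomial.induction_on' with
  | monomial B t =>
    rw [rename_monomial, LNK_dmon, LNK_dmon, rename_monomial]
    have hpr : ∀ A B : σ →₀ ℕ, ∏ i ∈ A.support, ((B i).descFactorial (A i) : ℂ) =
        ∏ i, ((B i).descFactorial (A i) : ℂ) := by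
      intro A B
      refine Finset.prod_subset (Finset.subset_univ _) fun i _ hi => ?_
      rw [Finsupp.notMem_support_iff.1 hi, Nat.descFactorial_zero, Nat.cast_one]
    have hm : ∀ (A : σ →₀ ℕ) (i : σ), Finsupp.mapDomain e A (e i) = A i := fun A i =>
      Finsupp.mapDomain_apply e.injective A i
    rw [hpr, hpr, ← Equiv.prod_comp e]
    simp only [hm]
    congr 2
    refine Finsupp.ext fun i => ?_
    obtain ⟨i, rfl⟩ := e.surjective i
    rw [Finsupp.tsub_apply, hm, hm, hm, Finsupp.tsub_apply]
  | add p p' hp hp' => rw [map_add, map_add, hp, hp', map_add, map_add]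

theorem thm_LNK (hDHC : St_DHC) : St_LNK := by
  classical
  intro r n d h
  have hD := hDHC.1 (Fin r × Fin n)
  have hDH : ∀ p : MvPolynomial (Fin r × Fin n) ℂ, p ∈ DH r n ↔
      ∀ A : Fin r → ℕ, A ≠ 0 → ∑ i : Fin n, dmon (LNK_col A i) p = 0 := by
    intro p
    rw [hDHC.2 r n p]
    simp only [LNK_pps]
  have hstab : ∀ w, ∀ p ∈ signPart r n d, act r n w p ∈ signPart r n d := by
    rintro w p ⟨h1, h2, h3⟩
    obtain ⟨e, he⟩ : ∃ e : Equiv.Perm (Fin r × Fin n), ∀ q, e q = (q.1, w q.2) :=
      ⟨Equiv.prodCongr (Equiv.refl _) w, fun q => rfl⟩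
    have hef : (fun q : Fin r × Fin n => (q.1, w q.2)) = e := by
      funext q
      exact (he q).symm
    have hact : act r n w p = rename e p := by
      show rename (R := ℂ) (fun q : Fin r × Fin n => (q.1, w q.2)) p = _
      rw [hef]
    rw [hact]
    refine ⟨?_, ?_, ?_⟩
    · rw [hDH] at h1 ⊢
      intro A hA
      have h4 : ∀ i : Fin n, LNK_col A (w i) = Finsupp.mapDomain e (LNK_col A i) := by
        intro i
        refine Finsupp.ext ?_
        rintro ⟨x, i'⟩
        obtain ⟨i', rfl⟩ := w.surjective i'
        have h5 : (x, w i') = e (x, i') := (he (x, i')).symm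
        rw [h5, Finsupp.mapDomain_apply e.injective, ← h5, LNK_col_apply, LNK_col_apply]
        by_cases h6 : i = i'
        · rw [if_pos h6, if_pos (by rw [h6])]
        · rw [if_neg h6, if_neg (fun h7 => h6 (w.injective h7))]
      rw [← Equiv.sum_comp w]
      simp only [h4, LNK_dmon_rename]
      rw [← map_sum, h1 A hA, map_zero]
    · intro A hA x hx
      rw [support_rename_of_injective e.injective] at hA
      obtain ⟨B, hB, rfl⟩ := Finset.mem_image.1 hA
      rw [← h2 B hB x hx, ← Equiv.sum_comp w]
      refine Finset.sum_congr rfl fun i _ => ?_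
      have h5 : (x, w i) = e (x, i) := (he (x, i)).symm
      rw [h5, Finsupp.mapDomain_apply e.injective]
    · intro τ hτ
      have h4 : (fun q : Fin r × Fin n => (τ q.1, q.2)) ∘ e =
          e ∘ fun q : Fin r × Fin n => (τ q.1, q.2) := by
        funext q
        show (τ (e q).1, (e q).2) = e (τ q.1, q.2)
        rw [he, he]
      rw [rename_rename, ← map_smul, ← h3 τ hτ, rename_rename, h4]
  have hto : ∀ c ∈ Har d n, LNK_i h c ∈ signPart r n d := by
    intro c hc
    refine ⟨(hDH _).2 (LNK_to h hD c hc), LNK_supp h c, (LNK_anti h c).2 hc.1⟩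
  have hfrom : ∀ p ∈ signPart r n d, ∃ c ∈ Har d n, LNK_i h c = p := by
    rintro p ⟨h1, h2, h3⟩
    obtain ⟨c, rfl⟩ := LNK_surj h p h2
    exact ⟨c, LNK_from h hD c ((LNK_anti h c).1 h3) ((hDH _).1 h1), rfl⟩
  refine ⟨hstab, ?_⟩
  let ψ : Har d n →ₗ[ℂ] signPart r n d := (LNK_i h).restrict hto
  have hψ : ∀ c : Har d n, ((ψ c : signPart r n d) : MvPolynomial (Fin r × Fin n) ℂ) =
      LNK_i h (c : T d n) := fun c => rfl
  have hbij : Function.Bijective ψ := by
    constructor
    · intro c c' hcc
      have h1 := congrArg (fun x : signPart r n d => (x : MvPolynomial (Fin r × Fin n) ℂ)) hcc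
      exact Subtype.ext (LNK_inj h h1)
    · rintro ⟨p, hp⟩
      obtain ⟨c, hc, hcp⟩ := hfrom p hp
      exact ⟨⟨c, hc⟩, Subtype.ext hcp⟩
  refine ⟨(LinearEquiv.ofBijective ψ hbij).symm, ?_⟩
  intro w p q hq
  have h1 : ∀ p : signPart r n d, LNK_i h (((LinearEquiv.ofBijective ψ hbij).symm p : Har d n) :
      T d n) = (p : MvPolynomial (Fin r × Fin n) ℂ) := by
    intro p
    have h2 := (LinearEquiv.ofBijective ψ hbij).apply_symm_apply p
    have h3 := congrArg (fun x : signPart r n d => (x : MvPolynomial (Fin r × Fin n) ℂ)) h2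
    exact h3
  refine LNK_inj h ?_
  rw [LNK_act, h1, h1, hq]

end MDH
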