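import Pool.Agent.MDH.St

/-!
# MDH, module DHC: `DH` is the solution space of the equations of the polarised power sums
-/

set_option autoImplicit false

open MvPolynomial

namespace MDH

theorem DHC_dmon_monomial {σ : Type} (A B : σ →₀ ℕ) (c : ℂ) :
    dmon A (monomial B c) =
      monomial (B - A) (c * ∏ i ∈ A.support, ((B i).descFactorial (A i) : ℂ)) := by
  have h1 : monomial B c = c • (basisMonomials σ ℂ) B := by
    rw [coe_basisMonomials, smul_monomial, smul_eq_mul, mul_one]
  rw [h1, map_smul]
  unfold dmon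
  rw [Module.Basis.constr_basis, smul_monomial, smul_eq_mul]

theorem DHC_dmon_add {σ : Type} (A B : σ →₀ ℕ) (p : MvPolynomial σ ℂ) :
    dmon (A + B) p = dmon A (dmon B p) := by
  classical
  have h : dmon (A + B) = dmon A ∘ₗ dmon B := by
    refine (basisMonomials σ ℂ).ext fun C => ?_
    rw [coe_basisMonomials, LinearMap.comp_apply]
    show dmon (A + B) (monomial C 1) = dmon A (dmon B (monomial C 1))
    rw [DHC_dmon_monomial, DHC_dmon_monomial, DHC_dmon_monomial, one_mul, one_mul]
    have e1 : C - (A + B) = C - B - A := by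
      rw [add_comm, ← tsub_tsub]
    rw [e1]
    congr 1
    have hA : A.support ⊆ (A + B).support := by
      intro i hi
      rw [Finsupp.mem_support_iff] at hi ⊢
      rw [Finsupp.add_apply]
      omega
    have hB : B.support ⊆ (A + B).support := by
      intro i hi
      rw [Finsupp.mem_support_iff] at hi ⊢
      rw [Finsupp.add_apply]
      omega
    have e2 : ∏ i ∈ B.support, ((C i).descFactorial (B i) : ℂ) =
        ∏ i ∈ (A + B).support, ((C i).descFactorial (B i) : ℂ) := by
      refine Finset.prod_subset hB fun i _ hi => ?_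
      have h0 : B i = 0 := by
        by_contra h
        exact hi (Finsupp.mem_support_iff.2 h)
      rw [h0, Nat.descFactorial_zero, Nat.cast_one]
    have e3 : ∏ i ∈ A.support, (((C - B) i).descFactorial (A i) : ℂ) =
        ∏ i ∈ (A + B).support, (((C - B) i).descFactorial (A i) : ℂ) := by
      refine Finset.prod_subset hA fun i _ hi => ?_
      have h0 : A i = 0 := by
        by_contra h
        exact hi (Finsupp.mem_support_iff.2 h)
      rw [h0, Nat.descFactorial_zero, Nat.cast_one]
    rw [e2, e3, ← Finset.prod_mul_distrib]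
    refine Finset.prod_congr rfl fun i _ => ?_
    rw [Finsupp.add_apply, Finsupp.tsub_apply, ← Nat.cast_mul]
    congr 1
    have h5 := Nat.descFactorial_mul_descFactorial (n := C i) (Nat.le_add_left (B i) (A i))
    rw [Nat.add_sub_cancel] at h5
    rw [← h5, mul_comm]
  rw [h]
  rfl

/-- `diffOp` as a linear map -/
noncomputable def DHC_D (σ : Type) :
    MvPolynomial σ ℂ →ₗ[ℂ] (MvPolynomial σ ℂ →ₗ[ℂ] MvPolynomial σ ℂ) :=
  (basisMonomials σ ℂ).constr ℂ dmon

theorem DHC_D_monomial {σ : Type} (A : σ →₀ ℕ) (c : ℂ) : DHC_D σ (monomial A c) = c • dmon A := by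
  have h1 : monomial A c = c • (basisMonomials σ ℂ) A := by
    rw [coe_basisMonomials, smul_monomial, smul_eq_mul, mul_one]
  rw [h1, map_smul]
  unfold DHC_D
  rw [Module.Basis.constr_basis]

theorem DHC_D_apply {σ : Type} (f p : MvPolynomial σ ℂ) : DHC_D σ f p = diffOp f p := by
  have h1 : DHC_D σ f = ∑ A ∈ f.support, coeff A f • dmon A := by
    have h2 := f.support_sum_monomial_coeff
    have h3 : DHC_D σ f = DHC_D σ (∑ A ∈ f.support, monomial A (coeff A f)) := by rw [h2]
    rw [h3, map_sum]
    exact Finset.sum_congr rfl fun A _ => DHC_D_monomial _ _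
  rw [h1, LinearMap.sum_apply]
  rfl

theorem DHC_D_mul {σ : Type} (f g : MvPolynomial σ ℂ) : DHC_D σ (f * g) = DHC_D σ f ∘ₗ DHC_D σ g := by
  induction f using MvPolynomial.induction_on' with
  | monomial A c =>
    induction g using MvPolynomial.induction_on' with
    | monomial B d =>
      rw [monomial_mul, DHC_D_monomial, DHC_D_monomial, DHC_D_monomial]
      refine LinearMap.ext fun p => ?_
      show (c * d) • dmon (A + B) p = c • dmon A (d • dmon B p)
      rw [DHC_dmon_add, map_smul, smul_smul]
    | add g₁ g₂ h₁ h₂ => rw [mul_add, map_add, map_add, h₁, h₂, LinearMap.comp_add]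
  | add f₁ f₂ h₁ h₂ => rw [add_mul, map_add, map_add, h₁, h₂, LinearMap.add_comp]

theorem thm_DHC (hW : St_WEY) : St_DHC := by
  classical
  refine ⟨fun σ A B p => DHC_dmon_add A B p, ?_⟩
  intro r n p
  constructor
  · intro h A hA
    refine h (pps r n A) (fun w => ?_) ?_
    · show rename (fun q : Fin r × Fin n => (q.1, w q.2)) (pps r n A) = pps r n A
      unfold pps
      rw [map_sum]
      have h1 : ∀ j : Fin n, rename (R := ℂ) (fun q : Fin r × Fin n => (q.1, w q.2))
          (∏ i : Fin r, X (i, j) ^ A i) = ∏ i : Fin r, X (i, w j) ^ A i := by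
        intro j
        rw [map_prod]
        refine Finset.prod_congr rfl fun i _ => ?_
        rw [map_pow, rename_X]
      rw [Finset.sum_congr rfl fun j _ => h1 j]
      exact Equiv.sum_comp w fun j => ∏ i : Fin r, (X (i, j) : MvPolynomial (Fin r × Fin n) ℂ) ^ A i
    · unfold pps
      rw [map_sum]
      refine Finset.sum_eq_zero fun j _ => ?_
      rw [map_prod]
      obtain ⟨i, hi⟩ := Function.ne_iff.1 hA
      refine Finset.prod_eq_zero (Finset.mem_univ i) ?_
      rw [map_pow, constantCoeff_X]
      exact zero_pow hi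
  · intro h f hf hf0
    have h1 := hW r n f hf hf0
    rw [← DHC_D_apply]
    refine Submodule.span_induction (p := fun g _ => DHC_D _ g p = 0) ?_ ?_ ?_ ?_ h1
    · rintro _ ⟨A, hA, rfl⟩
      rw [DHC_D_apply]
      exact h A hA
    · rw [map_zero]
      rfl
    · intro g₁ g₂ _ _ h₁ h₂
      rw [map_add, LinearMap.add_apply, h₁, h₂, add_zero]
    · intro a g _ hg
      rw [smul_eq_mul, DHC_D_mul, LinearMap.comp_apply, hg, map_zero]

end MDH
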