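import Pool.Agent.MDH.St

/-!
# MDH: module CYC, finrank at most the factorial of the number of variables (helper35)
-/

set_option autoImplicit false

open MvPolynomial

namespace MDH

private theorem CYC_base (n : ℕ) (I : Ideal (S n)) (hX : ∀ i, (X i : S n) ∈ I) :
    Module.Finite ℂ (S n ⧸ I) ∧ Module.finrank ℂ (S n ⧸ I) ≤ 1 := by
  have key : ∀ p : S n, Ideal.Quotient.mk I p =
      Ideal.Quotient.mk I (C (constantCoeff p)) := by
    intro p
    induction p using MvPolynomial.induction_on with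
    | C a => rw [constantCoeff_C]
    | add p q hp hq => rw [map_add, map_add, map_add, map_add, hp, hq]
    | mul_X p i _ =>
      have h1 : Ideal.Quotient.mk I (p * X i) = 0 :=
        Ideal.Quotient.eq_zero_iff_mem.2 (I.mul_mem_left p (hX i))
      rw [h1, map_mul, constantCoeff_X, mul_zero, map_zero, map_zero]
  have hsurj : Function.Surjective (Algebra.linearMap ℂ (S n ⧸ I)) := by
    intro z
    obtain ⟨p, rfl⟩ := Ideal.Quotient.mk_surjective z
    refine ⟨constantCoeff p, ?_⟩
    rw [key p]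
    rfl
  refine ⟨Module.Finite.of_surjective _ hsurj, ?_⟩
  have h2 := LinearMap.finrank_le_finrank_of_surjective hsurj
  rwa [Module.finrank_self] at h2

/-- weighted power sums give weighted sums of values of polynomials without constant term -/
private theorem CYC_eval (n : ℕ) (I : Ideal (S n)) (K : Finset (Fin n)) (β : Fin n → ℕ)
    (h3 : ∀ k : ℕ, 1 ≤ k → ∑ i ∈ K, (β i : S n) * X i ^ k ∈ I)
    (h : Polynomial (S n)) (h0 : h.coeff 0 = 0) :
    ∑ i ∈ K, (β i : S n) * h.eval (X i) ∈ I := by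
  have e : ∑ i ∈ K, (β i : S n) * h.eval (X i) =
      ∑ k ∈ Finset.range (h.natDegree + 1), h.coeff k * ∑ i ∈ K, (β i : S n) * X i ^ k := by
    have e1 : ∀ i ∈ K, (β i : S n) * h.eval (X i) =
        ∑ k ∈ Finset.range (h.natDegree + 1), h.coeff k * ((β i : S n) * X i ^ k) := by
      intro i _
      rw [Polynomial.eval_eq_sum_range, Finset.mul_sum]
      refine Finset.sum_congr rfl (fun k _ => ?_)
      ring
    rw [Finset.sum_congr rfl e1, Finset.sum_comm]
    refine Finset.sum_congr rfl (fun k _ => ?_)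
    rw [Finset.mul_sum]
  rw [e]
  refine I.sum_mem (fun k _ => ?_)
  rcases Nat.eq_zero_or_pos k with hk | hk
  · rw [hk, h0, zero_mul]
    exact I.zero_mem
  · exact I.mul_mem_left _ (h3 k hk)

/-- the product relation -/
private theorem CYC_prod (n : ℕ) (I : Ideal (S n)) (K : Finset (Fin n)) (β : Fin n → ℕ)
    (i₀ : Fin n) (hi : i₀ ∈ K) (hβ : 0 < β i₀)
    (h3 : ∀ k : ℕ, 1 ≤ k → ∑ i ∈ K, (β i : S n) * X i ^ k ∈ I) :
    (X i₀ : S n) * ∏ i ∈ K.erase i₀, ((X i₀ : S n) - X i) ∈ I := by
  have h1 := CYC_eval n I K β h3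
    (Polynomial.X * ∏ i ∈ K.erase i₀, (Polynomial.X - Polynomial.C (X i : S n)))
    (by rw [Polynomial.mul_coeff_zero, Polynomial.coeff_X_zero, zero_mul])
  have h2 : ∀ j : Fin n, (Polynomial.X * ∏ i ∈ K.erase i₀,
      (Polynomial.X - Polynomial.C (X i : S n))).eval (X j : S n) =
      (X j : S n) * ∏ i ∈ K.erase i₀, ((X j : S n) - X i) := by
    intro j
    rw [Polynomial.eval_mul, Polynomial.eval_X, Polynomial.eval_prod]
    congr 1
    refine Finset.prod_congr rfl (fun i _ => ?_)
    rw [Polynomial.eval_sub, Polynomial.eval_X, Polynomial.eval_C]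
  simp only [h2] at h1
  rw [Finset.sum_eq_single_of_mem i₀ hi] at h1
  · have hu : (C ((β i₀ : ℂ)⁻¹) : S n) * (β i₀ : S n) = 1 := by
      have h5 : (β i₀ : S n) = C (β i₀ : ℂ) := by rw [map_natCast]
      rw [h5, ← C_mul, inv_mul_cancel₀ (Nat.cast_ne_zero.2 hβ.ne'), C_1]
    have h6 := I.mul_mem_left (C ((β i₀ : ℂ)⁻¹)) h1
    rwa [← mul_assoc, hu, one_mul] at h6
  · intro j hj hji
    rw [Finset.prod_eq_zero (Finset.mem_erase.2 ⟨hji, hj⟩) (sub_self _), mul_zero, mul_zero]

private theorem CYC_main (hC : St_CHN) : ∀ (m n : ℕ) (I : Ideal (S n)) (K : Finset (Fin n))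
    (β : Fin n → ℕ), K.card = m → (∀ i ∈ K, 0 < β i) →
    (∀ i, i ∉ K → (X i : S n) ∈ I ∨ ∃ i' ∈ K, (X i : S n) - X i' ∈ I) →
    (∀ k : ℕ, 1 ≤ k → ∑ i ∈ K, (β i : S n) * X i ^ k ∈ I) →
    Module.Finite ℂ (S n ⧸ I) ∧ Module.finrank ℂ (S n ⧸ I) ≤ m.factorial := by
  intro m
  induction m with
  | zero =>
    intro n I K β hK _ h2 _
    have hK' : K = ∅ := Finset.card_eq_zero.1 hK
    subst hK'
    refine CYC_base n I (fun i => ?_)
    rcases h2 i (Finset.notMem_empty i) with h | ⟨i', hi', _⟩
    · exact h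
    · exact absurd hi' (Finset.notMem_empty i')
  | succ m ih =>
    intro n I K β hK h1 h2 h3
    have hne : K.Nonempty := by
      rw [← Finset.card_pos, hK]
      exact Nat.succ_pos m
    obtain ⟨i₀, hi⟩ := hne
    have hcard : (K.erase i₀).card = m := by
      rw [Finset.card_erase_of_mem hi, hK, Nat.add_sub_cancel]
    have hsum : ∀ k : ℕ, (β i₀ : S n) * X i₀ ^ k + ∑ i ∈ K.erase i₀, (β i : S n) * X i ^ k =
        ∑ i ∈ K, (β i : S n) * X i ^ k := fun k => Finset.add_sum_erase K _ hi
    -- the entry `X i₀`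
    have hA : Module.Finite ℂ (S n ⧸ (I ⊔ Ideal.span {(X i₀ : S n)})) ∧
        Module.finrank ℂ (S n ⧸ (I ⊔ Ideal.span {(X i₀ : S n)})) ≤ m.factorial := by
      have hle : I ≤ I ⊔ Ideal.span {(X i₀ : S n)} := le_sup_left
      have hX : (X i₀ : S n) ∈ I ⊔ Ideal.span {(X i₀ : S n)} :=
        (le_sup_right : Ideal.span {(X i₀ : S n)} ≤ _) (Ideal.mem_span_singleton_self _)
      refine ih n _ (K.erase i₀) β hcard (fun i hi' => h1 i (Finset.mem_of_mem_erase hi')) ?_ ?_
      · intro i hiK
        by_cases hii : i = i₀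
        · left
          rw [hii]
          exact hX
        · have hiK' : i ∉ K := fun h => hiK (Finset.mem_erase.2 ⟨hii, h⟩)
          rcases h2 i hiK' with h | ⟨i', hi', h⟩
          · exact Or.inl (hle h)
          · by_cases hi'0 : i' = i₀
            · left
              rw [hi'0] at h
              have h7 := Ideal.add_mem _ (hle h) hX
              rwa [sub_add_cancel] at h7
            · exact Or.inr ⟨i', Finset.mem_erase.2 ⟨hi'0, hi'⟩, hle h⟩
      · intro k hk
        have h8 : ∑ i ∈ K.erase i₀, (β i : S n) * X i ^ k =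
            ∑ i ∈ K, (β i : S n) * X i ^ k - (β i₀ : S n) * X i₀ ^ k := by
          rw [← hsum k, add_sub_cancel_left]
        rw [h8]
        exact Ideal.sub_mem _ (hle (h3 k hk))
          (Ideal.mul_mem_left _ _ (Ideal.pow_mem_of_mem _ hX k hk))
    -- the entries `X i₀ - X i₁`
    have hB : ∀ i₁ ∈ K.erase i₀,
        Module.Finite ℂ (S n ⧸ (I ⊔ Ideal.span {(X i₀ : S n) - X i₁})) ∧
        Module.finrank ℂ (S n ⧸ (I ⊔ Ideal.span {(X i₀ : S n) - X i₁})) ≤ m.factorial := by
      intro i₁ hi₁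
      have hle : I ≤ I ⊔ Ideal.span {(X i₀ : S n) - X i₁} := le_sup_left
      have hX : (X i₀ : S n) - X i₁ ∈ I ⊔ Ideal.span {(X i₀ : S n) - X i₁} :=
        (le_sup_right : Ideal.span {(X i₀ : S n) - X i₁} ≤ _) (Ideal.mem_span_singleton_self _)
      refine ih n _ (K.erase i₀) (Function.update β i₁ (β i₁ + β i₀)) hcard ?_ ?_ ?_
      · intro i hi'
        by_cases hii : i = i₁
        · rw [hii, Function.update_self]
          exact Nat.add_pos_right _ (h1 i₀ hi)
        · rw [Function.update_of_ne hii]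
          exact h1 i (Finset.mem_of_mem_erase hi')
      · intro i hiK
        by_cases hii : i = i₀
        · right
          refine ⟨i₁, hi₁, ?_⟩
          rw [hii]
          exact hX
        · have hiK' : i ∉ K := fun h => hiK (Finset.mem_erase.2 ⟨hii, h⟩)
          rcases h2 i hiK' with h | ⟨i', hi', h⟩
          · exact Or.inl (hle h)
          · right
            by_cases hi'0 : i' = i₀
            · refine ⟨i₁, hi₁, ?_⟩
              rw [hi'0] at h
              have h7 := Ideal.add_mem _ (hle h) hX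
              rwa [sub_add_sub_cancel] at h7
            · exact ⟨i', Finset.mem_erase.2 ⟨hi'0, hi'⟩, hle h⟩
      · intro k hk
        have h9 : ∑ i ∈ K.erase i₀,
            ((Function.update β i₁ (β i₁ + β i₀) i : ℕ) : S n) * X i ^ k =
            ∑ i ∈ K.erase i₀, (β i : S n) * X i ^ k + (β i₀ : S n) * X i₁ ^ k := by
          rw [← Finset.add_sum_erase (K.erase i₀)
              (fun i => ((Function.update β i₁ (β i₁ + β i₀) i : ℕ) : S n) * X i ^ k) hi₁,
            ← Finset.add_sum_erase (K.erase i₀) (fun i => (β i : S n) * X i ^ k) hi₁]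
          have h10 : ∑ i ∈ (K.erase i₀).erase i₁,
              ((Function.update β i₁ (β i₁ + β i₀) i : ℕ) : S n) * X i ^ k =
              ∑ i ∈ (K.erase i₀).erase i₁, (β i : S n) * X i ^ k := by
            refine Finset.sum_congr rfl (fun i hi' => ?_)
            rw [Function.update_of_ne (Finset.ne_of_mem_erase hi')]
          rw [h10, Function.update_self, Nat.cast_add]
          ring
        have h11 : ∑ i ∈ K.erase i₀,
            ((Function.update β i₁ (β i₁ + β i₀) i : ℕ) : S n) * X i ^ k =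
            ∑ i ∈ K, (β i : S n) * X i ^ k - (β i₀ : S n) * (X i₀ ^ k - X i₁ ^ k) := by
          rw [h9, ← hsum k]
          ring
        rw [h11]
        refine Ideal.sub_mem _ (hle (h3 k hk)) (Ideal.mul_mem_left _ _ ?_)
        exact Ideal.mem_of_dvd _ (sub_dvd_pow_sub_pow _ _ k) hX
    -- the chain
    have hl : ∀ x ∈ (X i₀ : S n) :: (K.erase i₀).toList.map (fun i => (X i₀ : S n) - X i),
        Module.Finite ℂ (S n ⧸ (I ⊔ Ideal.span {x})) ∧
        Module.finrank ℂ (S n ⧸ (I ⊔ Ideal.span {x})) ≤ m.factorial := by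
      intro x hx
      rcases List.mem_cons.1 hx with h | h
      · rw [h]
        exact hA
      · obtain ⟨i, hi', rfl⟩ := List.mem_map.1 h
        exact hB i (Finset.mem_toList.1 hi')
    have hp : ((X i₀ : S n) :: (K.erase i₀).toList.map (fun i => (X i₀ : S n) - X i)).prod ∈ I := by
      rw [List.prod_cons, Finset.prod_map_toList]
      exact CYC_prod n I K β i₀ hi (h1 i₀ hi) h3
    obtain ⟨h4, h5⟩ := hC n I _ hp (fun x hx => (hl x hx).1)
    refine ⟨h4, h5.trans ?_⟩
    have h6 := List.sum_le_card_nsmul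
      (((X i₀ : S n) :: (K.erase i₀).toList.map (fun i => (X i₀ : S n) - X i)).map
        (fun x => Module.finrank ℂ (S n ⧸ (I ⊔ Ideal.span {x})))) m.factorial (by
        intro y hy
        obtain ⟨x, hx, rfl⟩ := List.mem_map.1 hy
        exact (hl x hx).2)
    refine h6.trans (le_of_eq ?_)
    rw [List.length_map, List.length_cons, List.length_map, Finset.length_toList, hcard,
      smul_eq_mul, Nat.factorial_succ]

theorem thm_CYC (hC : St_CHN) : St_CYC := by
  intro n I K β h1 h2 h3
  exact CYC_main hC K.card n I K β rfl h1 h2 h3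

end MDH
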