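import Pool.Agent.MDH.St

/-!
# MDH, module FIL: the filtration lemma (helper89)
-/

set_option autoImplicit false

open MvPolynomial

namespace MDH

section

variable {n : ℕ} {Q : Type} [AddCommGroup Q] [Module (S n) Q] [Module ℂ Q]
  [IsScalarTower ℂ (S n) Q]

/-- one step: adding one generator -/
theorem FIL_step (P : Submodule (S n) Q) (x : Q) (J : Ideal (S n)) (hJ : ∀ s ∈ J, s • x ∈ P)
    (hfJ : Module.Finite ℂ (S n ⧸ J)) (hfP : Module.Finite ℂ (P.restrictScalars ℂ)) :
    Module.Finite ℂ ((P ⊔ Submodule.span (S n) {x}).restrictScalars ℂ) ∧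
    Module.finrank ℂ ((P ⊔ Submodule.span (S n) {x}).restrictScalars ℂ) ≤
      Module.finrank ℂ (P.restrictScalars ℂ) + Module.finrank ℂ (S n ⧸ J) := by
  obtain ⟨r, hr⟩ : ∃ r, r = Module.finrank ℂ (S n ⧸ J) := ⟨_, rfl⟩
  let b : Module.Basis (Fin r) ℂ (S n ⧸ J) := Module.finBasisOfFinrankEq ℂ _ hr.symm
  choose s hs using fun i => Ideal.Quotient.mk_surjective (I := J) (b i)
  obtain ⟨R, hR⟩ : ∃ R : Submodule ℂ Q, R = Submodule.span ℂ (Set.range fun i => s i • x) :=
    ⟨_, rfl⟩
  have hRfin : Module.Finite ℂ R := by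
    rw [hR]
    exact Module.Finite.span_of_finite ℂ (Set.finite_range _)
  have hRle : Module.finrank ℂ R ≤ r := by
    rw [hR]
    refine (finrank_range_le_card (R := ℂ) fun i => s i • x).trans (le_of_eq ?_)
    rw [Fintype.card_fin]
  have hle : (P ⊔ Submodule.span (S n) {x}).restrictScalars ℂ ≤ P.restrictScalars ℂ ⊔ R := by
    intro y hy
    rw [Submodule.restrictScalars_mem, Submodule.mem_sup] at hy
    obtain ⟨p, hp, z, hz, rfl⟩ := hy
    obtain ⟨t, rfl⟩ := Submodule.mem_span_singleton.1 hz
    have h1 : Ideal.Quotient.mk J t = ∑ i, b.repr (Ideal.Quotient.mk J t) i • b i :=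
      (b.sum_repr _).symm
    have h2 : t - ∑ i, b.repr (Ideal.Quotient.mk J t) i • s i ∈ J := by
      rw [← Ideal.Quotient.eq_zero_iff_mem, map_sub, map_sum]
      have h3 : ∀ i, Ideal.Quotient.mk J (b.repr (Ideal.Quotient.mk J t) i • s i) =
          b.repr (Ideal.Quotient.mk J t) i • b i := by
        intro i
        rw [← hs i]
        rfl
      rw [Finset.sum_congr rfl fun i _ => h3 i, ← h1, sub_self]
    have h4 := hJ _ h2
    rw [sub_smul, Finset.sum_smul] at h4
    have h5 : p + t • x = (p + (t • x - ∑ i, (b.repr (Ideal.Quotient.mk J t) i • s i) • x)) +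
        ∑ i, (b.repr (Ideal.Quotient.mk J t) i • s i) • x := by abel
    rw [h5]
    refine Submodule.add_mem_sup (P.add_mem hp h4) ?_
    refine Submodule.sum_mem _ fun i _ => ?_
    rw [smul_assoc, hR]
    exact Submodule.smul_mem _ _ (Submodule.subset_span ⟨i, rfl⟩)
  have hfin : Module.Finite ℂ (P.restrictScalars ℂ ⊔ R : Submodule ℂ Q) :=
    Submodule.finiteDimensional_sup _ _
  refine ⟨Submodule.finiteDimensional_of_le hle, ?_⟩
  refine (Submodule.finrank_mono hle).trans ?_
  refine (Submodule.finrank_add_le_finrank_add_finrank _ _).trans ?_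
  rw [← hr]
  exact Nat.add_le_add_left hRle _

end

theorem thm_FIL : St_FIL := by
  classical
  intro n Q _ _ _ _ ι _ v ρ hspan hfin
  have key : ∀ (c : ℕ) (A : Finset ι), A.card = c → (∀ t ∈ A, ∀ t', ρ t < ρ t' → t' ∈ A) →
      Module.Finite ℂ ((Submodule.span (S n) (v '' (A : Set ι))).restrictScalars ℂ) ∧
      Module.finrank ℂ ((Submodule.span (S n) (v '' (A : Set ι))).restrictScalars ℂ) ≤
        ∑ t ∈ A, Module.finrank ℂ (S n ⧸ AnnF v ρ t) := by
    intro c
    induction c with
    | zero =>
      intro A hA _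
      have hA0 : A = ∅ := Finset.card_eq_zero.1 hA
      rw [hA0, Finset.coe_empty, Set.image_empty, Submodule.span_empty, Finset.sum_empty,
        Submodule.restrictScalars_bot]
      exact ⟨inferInstance, le_of_eq (finrank_bot ℂ Q)⟩
    | succ c ih =>
      intro A hA hup
      have hAn : A.Nonempty := by
        rw [← Finset.card_pos]
        omega
      obtain ⟨t0, ht0, hmin⟩ := Finset.exists_min_image A ρ hAn
      obtain ⟨h1, h2⟩ := ih (A.erase t0) (by rw [Finset.card_erase_of_mem ht0]; omega)
        (fun t ht t' htt => by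
          have ht1 := Finset.mem_of_mem_erase ht
          refine Finset.mem_erase.2 ⟨fun h => ?_, hup t ht1 t' htt⟩
          have h3 := hmin t ht1
          rw [h] at htt
          omega)
      have h3 : Submodule.span (S n) (v '' (A : Set ι)) =
          Submodule.span (S n) (v '' ((A.erase t0 : Finset ι) : Set ι)) ⊔
            Submodule.span (S n) {v t0} := by
        rw [← Submodule.span_union]
        congr 1
        rw [← Set.image_singleton, ← Set.image_union]
        congr 1
        rw [Finset.coe_erase, Set.sdiff_union_self, Set.union_eq_self_of_subset_right]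
        exact Set.singleton_subset_iff.2 ht0
      have h4 := FIL_step (Submodule.span (S n) (v '' ((A.erase t0 : Finset ι) : Set ι)))
        (v t0) (AnnF v ρ t0) (fun s hs => by
          have h5 : s • v t0 ∈ Submodule.span (S n) {x | ∃ t', ρ t0 < ρ t' ∧ x = v t'} := hs
          refine Submodule.span_mono ?_ h5
          rintro _ ⟨t', ht', rfl⟩
          refine ⟨t', Finset.mem_coe.2 (Finset.mem_erase.2 ⟨fun h => ?_, hup t0 ht0 t' ht'⟩), rfl⟩
          rw [h] at ht'
          omega) (hfin t0) h1
      rw [h3, ← Finset.add_sum_erase A _ ht0]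
      refine ⟨h4.1, h4.2.trans ?_⟩
      rw [add_comm]
      exact Nat.add_le_add_left h2 _
  obtain ⟨h1, h2⟩ := key _ Finset.univ rfl (fun _ _ _ _ => Finset.mem_univ _)
  rw [Finset.coe_univ, Set.image_univ, hspan, Submodule.restrictScalars_top] at h1 h2
  rw [finrank_top] at h2
  exact ⟨Module.finite_def.2 (Submodule.fg_top _ |>.1 (Module.finite_def.1 h1)), h2⟩

end MDH
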