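import Pool.Agent.MDH.St

/-!
# MDH: module GRO, growth lemma (helper18)
-/

set_option autoImplicit false

open MvPolynomial

namespace MDH

theorem GRO_pos (m J : ℕ) : 1 ≤ (box m J).card := by
  rw [Nat.one_le_iff_ne_zero, Finset.card_ne_zero]
  refine ⟨fun _ => 0, ?_⟩
  unfold box
  rw [Finset.mem_filter, Fintype.mem_piFinset]
  refine ⟨fun _ => Finset.mem_range.2 (Nat.succ_pos J), ?_⟩
  unfold wt
  simp

theorem GRO_le (m J : ℕ) : (box m J).card ≤ (J + 1) ^ m := by
  unfold box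
  refine (Finset.card_filter_le _ _).trans ?_
  rw [Fintype.card_piFinset, Finset.prod_const, Finset.card_range, Finset.card_univ,
    Fintype.card_fin]

theorem thm_GRO : St_GRO := by
  intro m N D h
  rcases Nat.eq_zero_or_pos N with hN | hN
  · subst hN
    have h1 := h D le_rfl
    have h2 := GRO_pos m (D - D)
    omega
  have hit : ∀ t : ℕ, (N + 1) ^ t ≤ N ^ t * (box m (t * D)).card := by
    intro t
    induction t with
    | zero => simpa using GRO_pos m 0
    | succ t ih =>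
      have h1 := h ((t + 1) * D) (by nlinarith [Nat.zero_le (t * D)])
      have h2 : (t + 1) * D - D = t * D := by
        rw [add_mul, one_mul, Nat.add_sub_cancel]
      rw [h2] at h1
      calc (N + 1) ^ (t + 1) = (N + 1) ^ t * (N + 1) := pow_succ _ _
        _ ≤ (N ^ t * (box m (t * D)).card) * (N + 1) := Nat.mul_le_mul_right _ ih
        _ = N ^ t * ((N + 1) * (box m (t * D)).card) := by ring
        _ ≤ N ^ t * (N * (box m ((t + 1) * D)).card) := Nat.mul_le_mul_left _ h1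
        _ = N ^ (t + 1) * (box m ((t + 1) * D)).card := by ring
  have hNr : (0 : ℝ) < N := by exact_mod_cast hN
  have hr : (1 : ℝ) < ((N : ℝ) + 1) / N := by
    rw [lt_div_iff₀ hNr]
    linarith
  have hlim := tendsto_pow_const_div_const_pow_of_one_lt m hr
  have hDp : (0 : ℝ) < ((D : ℝ) + 1) ^ m := by positivity
  have hev := (hlim.eventually (gt_mem_nhds (show (0 : ℝ) < 1 / ((D : ℝ) + 1) ^ m by positivity))).and
    (Filter.eventually_ge_atTop 1)
  obtain ⟨t, ht1, ht2⟩ := hev.exists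
  have h3 : ((N : ℝ) + 1) ^ t ≤ (N : ℝ) ^ t * ((t * D + 1 : ℕ) : ℝ) ^ m := by
    have h4 := (hit t).trans (Nat.mul_le_mul_left _ (GRO_le m (t * D)))
    exact_mod_cast h4
  have h5 : ((t * D + 1 : ℕ) : ℝ) ^ m ≤ ((D : ℝ) + 1) ^ m * (t : ℝ) ^ m := by
    rw [← mul_pow]
    refine pow_le_pow_left₀ (Nat.cast_nonneg _) ?_ m
    have h6 : (1 : ℝ) ≤ t := by exact_mod_cast ht2
    push_cast
    nlinarith
  have hrt : (0 : ℝ) < (((N : ℝ) + 1) / N) ^ t := by positivity
  rw [div_lt_div_iff₀ hrt hDp, one_mul, div_pow] at ht1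
  rw [lt_div_iff₀ (pow_pos hNr t)] at ht1
  have h7 : (N : ℝ) ^ t * ((t * D + 1 : ℕ) : ℝ) ^ m ≤ (N : ℝ) ^ t * (((D : ℝ) + 1) ^ m * (t : ℝ) ^ m) :=
    mul_le_mul_of_nonneg_left h5 (by positivity)
  have h8 : (t : ℝ) ^ m * ((D : ℝ) + 1) ^ m * (N : ℝ) ^ t =
      (N : ℝ) ^ t * (((D : ℝ) + 1) ^ m * (t : ℝ) ^ m) := by ring
  rw [h8] at ht1
  exact absurd (h3.trans h7) (not_le.2 ht1)

end MDH
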