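import Pool.Agent.MDH.St

/-!
# MDH, module INA: abstract injectivity by a dimension count (helper65)
-/

set_option autoImplicit false

open MvPolynomial

namespace MDH

private theorem INA_wt_add {m : ℕ} (α γ : Fin m → ℕ) : wt (α + γ) = wt α + wt γ := by
  unfold wt
  rw [← Finset.sum_add_distrib]
  refine Finset.sum_congr rfl fun k _ => ?_
  rw [Pi.add_apply, mul_add]

private theorem INA_mem_box {m J : ℕ} (α : Fin m → ℕ) : α ∈ box m J ↔ wt α ≤ J := by
  unfold box
  rw [Finset.mem_filter, Fintype.mem_piFinset]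
  refine ⟨fun h => h.2, fun h => ⟨fun k => ?_, h⟩⟩
  rw [Finset.mem_range, Nat.lt_succ_iff]
  refine le_trans ?_ h
  have h1 : (k.val + 1) * α k ≤ wt α := by
    unfold wt
    exact Finset.single_le_sum (f := fun k : Fin m => (k.val + 1) * α k)
      (fun i _ => Nat.zero_le _) (Finset.mem_univ k)
  refine le_trans ?_ h1
  exact Nat.le_mul_of_pos_left _ (Nat.succ_pos _)

private theorem INA_box_mono {m J J' : ℕ} (h : J ≤ J') : (box m J).card ≤ (box m J').card := by
  refine Finset.card_le_card fun α hα => ?_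
  rw [INA_mem_box] at hα ⊢
  exact hα.trans h

section

variable {A : Type} [CommRing A]

private theorem INA_mon_add {m : ℕ} (a : Fin m → A) (α γ : Fin m → ℕ) :
    mon a (α + γ) = mon a α * mon a γ := by
  unfold mon
  rw [← Finset.prod_mul_distrib]
  refine Finset.prod_congr rfl fun k _ => ?_
  rw [Pi.add_apply, pow_add]

variable [Algebra ℂ A]

private theorem INA_mon_R {m : ℕ} (a : Fin m → A) (R : Submodule ℂ A)
    (h : ∀ k, ∀ c ∈ R, a k * c ∈ R) (γ : Fin m → ℕ) (c : A) (hc : c ∈ R) : mon a γ * c ∈ R := by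
  classical
  have hp : ∀ (k : Fin m) (n : ℕ), ∀ c ∈ R, a k ^ n * c ∈ R := by
    intro k n
    induction n with
    | zero => intro c hc; simpa using hc
    | succ n ih =>
      intro c hc
      rw [pow_succ, mul_assoc]
      exact ih _ (h k c hc)
  have hs : ∀ t : Finset (Fin m), (∏ k ∈ t, a k ^ γ k) * c ∈ R := by
    intro t
    induction t using Finset.induction_on with
    | empty => simpa using hc
    | insert k t hk ih =>
      rw [Finset.prod_insert hk, mul_assoc]
      exact hp k _ _ ih
  exact hs Finset.univ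

private theorem INA_mon_F {m : ℕ} (b : Fin m → A) (F : ℕ → Submodule ℂ A)
    (h : ∀ k i, ∀ c ∈ F i, b k * c ∈ F (i + (k.val + 1))) (γ : Fin m → ℕ) (c : A) (i : ℕ)
    (hc : c ∈ F i) : mon b γ * c ∈ F (i + wt γ) := by
  classical
  have hp : ∀ (k : Fin m) (n : ℕ), ∀ i, ∀ c ∈ F i, b k ^ n * c ∈ F (i + (k.val + 1) * n) := by
    intro k n
    induction n with
    | zero => intro i c hc; simpa using hc
    | succ n ih =>
      intro i c hc
      rw [pow_succ, mul_assoc]
      have h1 := ih _ _ (h k i c hc)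
      have e : i + (k.val + 1) + (k.val + 1) * n = i + (k.val + 1) * (n + 1) := by ring
      rwa [e] at h1
  have hs : ∀ t : Finset (Fin m),
      (∏ k ∈ t, b k ^ γ k) * c ∈ F (i + ∑ k ∈ t, (k.val + 1) * γ k) := by
    intro t
    induction t using Finset.induction_on with
    | empty => simpa using hc
    | insert k t hk ih =>
      rw [Finset.prod_insert hk, mul_assoc, Finset.sum_insert hk]
      have h1 := hp k (γ k) _ _ ih
      have e : i + ∑ k ∈ t, (k.val + 1) * γ k + (k.val + 1) * γ k
          = i + ((k.val + 1) * γ k + ∑ k ∈ t, (k.val + 1) * γ k) := by ring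
      rwa [e] at h1
  exact hs Finset.univ

/-- `(x_α) ↦ ∑ a^α x_α` modulo `R` -/
private noncomputable def INA_Phi {m : ℕ} (a : Fin m → A) (R V : Submodule ℂ A) (J : ℕ) :
    ((box m J) → V) →ₗ[ℂ] (A ⧸ R) where
  toFun x := R.mkQ (∑ α : box m J, mon a α.1 * (x α : A))
  map_add' x y := by
    rw [← map_add, ← Finset.sum_add_distrib]
    congr 1
    refine Finset.sum_congr rfl fun α _ => ?_
    rw [Pi.add_apply, Submodule.coe_add, mul_add]
  map_smul' t x := by
    rw [RingHom.id_apply, ← map_smul, Finset.smul_sum]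
    congr 1
    refine Finset.sum_congr rfl fun α _ => ?_
    rw [Pi.smul_apply, Submodule.coe_smul, mul_smul_comm]

private theorem INA_Phi_zero {m : ℕ} (a : Fin m → A) (R V : Submodule ℂ A) (J : ℕ)
    (x : (box m J) → V) :
    INA_Phi a R V J x = 0 ↔ ∑ α : box m J, mon a α.1 * (x α : A) ∈ R := by
  change R.mkQ (∑ α : box m J, mon a α.1 * (x α : A)) = 0 ↔ _
  rw [Submodule.mkQ_apply, Submodule.Quotient.mk_eq_zero]

open Classical in
/-- the shifted families -/
private noncomputable def INA_kap {m : ℕ} {V : Submodule ℂ A} (v : (Fin m → ℕ) → V) (J J' : ℕ) :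
    ((box m J') → ℂ) →ₗ[ℂ] ((box m J) → V) where
  toFun c := fun β => ∑ γ : box m J', c γ • (if γ.1 ≤ β.1 then v (β.1 - γ.1) else 0)
  map_add' x y := by
    funext β
    rw [Pi.add_apply, ← Finset.sum_add_distrib]
    refine Finset.sum_congr rfl fun γ _ => ?_
    rw [Pi.add_apply, add_smul]
  map_smul' t x := by
    funext β
    rw [Pi.smul_apply, RingHom.id_apply, Finset.smul_sum]
    refine Finset.sum_congr rfl fun γ _ => ?_
    rw [Pi.smul_apply, smul_eq_mul, mul_smul]

private theorem INA_kap_inj {m : ℕ} {V : Submodule ℂ A} (v : (Fin m → ℕ) → V)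
    (s : Finset (Fin m → ℕ)) (hs : ∀ α, α ∉ s → v α = 0) (α0 : Fin m → ℕ) (h0 : v α0 ≠ 0)
    (DA J : ℕ) (hDA : ∀ α ∈ s, wt α ≤ DA) (hJ : DA ≤ J) :
    Function.Injective (INA_kap v J (J - DA)) := by
  classical
  rw [injective_iff_map_eq_zero]
  intro c hc
  -- a linear form
  obtain ⟨lam, hlam⟩ : ∃ lam : Module.Dual ℂ V, lam (v α0) ≠ 0 := by
    by_contra hcon
    push Not at hcon
    exact h0 ((Module.forall_dual_apply_eq_zero_iff ℂ (v α0)).1 hcon)
  let e : (Fin m → ℕ) → (Fin m →₀ ℕ) := fun α => Finsupp.equivFunOnFinite.symm α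
  have he : ∀ α k, e α k = α k := fun α k => rfl
  have hinj : Function.Injective e := Finsupp.equivFunOnFinite.symm.injective
  have hadd : ∀ α γ, e (α + γ) = e α + e γ := by
    intro α γ
    ext k
    rfl
  let p : MvPolynomial (Fin m) ℂ := ∑ γ : box m (J - DA), monomial (e γ.1) (c γ)
  let q : MvPolynomial (Fin m) ℂ := ∑ α ∈ s, monomial (e α) (lam (v α))
  have hq : q ≠ 0 := by
    intro hq0
    have h1 : coeff (e α0) q = lam (v α0) := by
      change coeff (e α0) (∑ α ∈ s, monomial (e α) (lam (v α))) = _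
      rw [coeff_sum, Finset.sum_eq_single α0]
      · rw [coeff_monomial, if_pos rfl]
      · intro α _ hα
        rw [coeff_monomial, if_neg (fun h => hα (hinj h))]
      · intro h
        exact absurd (hs α0 h) h0
    rw [hq0, coeff_zero] at h1
    exact hlam h1.symm
  have hpq : p * q = 0 := by
    ext b
    obtain ⟨β, rfl⟩ : ∃ β, e β = b := ⟨⇑b, by ext k; rfl⟩
    have h1 : coeff (e β) (p * q) = ∑ γ : box m (J - DA), ∑ α ∈ s,
        (if γ.1 + α = β then c γ * lam (v α) else 0) := by
      change coeff (e β) ((∑ γ : box m (J - DA), monomial (e γ.1) (c γ)) *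
        (∑ α ∈ s, monomial (e α) (lam (v α)))) = _
      rw [Finset.sum_mul_sum, coeff_sum]
      refine Finset.sum_congr rfl fun γ _ => ?_
      rw [coeff_sum]
      refine Finset.sum_congr rfl fun α _ => ?_
      rw [monomial_mul, ← hadd, coeff_monomial]
      by_cases h : γ.1 + α = β
      · rw [if_pos h, if_pos (by rw [h])]
      · rw [if_neg h, if_neg (fun h' => h (hinj h'))]
    rw [h1, coeff_zero]
    by_cases hβ : β ∈ box m J
    · have h2 : lam (INA_kap v J (J - DA) c ⟨β, hβ⟩) = 0 := by
        rw [hc, Pi.zero_apply, map_zero]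
      refine Eq.trans ?_ h2
      change _ = lam (∑ γ : box m (J - DA), c γ • (if γ.1 ≤ β then v (β - γ.1) else 0))
      rw [map_sum]
      refine Finset.sum_congr rfl fun γ _ => ?_
      rw [map_smul, smul_eq_mul]
      by_cases hγ : γ.1 ≤ β
      · rw [if_pos hγ]
        have hsub : γ.1 + (β - γ.1) = β := add_tsub_cancel_of_le hγ
        by_cases hm : β - γ.1 ∈ s
        · rw [Finset.sum_eq_single (β - γ.1)]
          · rw [if_pos hsub]
          · intro α _ hα
            refine if_neg fun h => hα ?_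
            exact add_left_cancel (h.trans hsub.symm)
          · intro h
            exact absurd hm h
        · rw [hs _ hm, map_zero, mul_zero]
          refine Finset.sum_eq_zero fun α hα => ?_
          refine if_neg fun h => hm ?_
          have : α = β - γ.1 := add_left_cancel (h.trans hsub.symm)
          rwa [← this]
      · rw [if_neg hγ, map_zero, mul_zero]
        refine Finset.sum_eq_zero fun α _ => ?_
        refine if_neg fun h => hγ ?_
        rw [← h]
        exact le_self_add
    · refine Finset.sum_eq_zero fun γ _ => Finset.sum_eq_zero fun α hα => ?_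
      refine if_neg fun h => hβ ?_
      rw [INA_mem_box, ← h, INA_wt_add]
      have h3 : wt γ.1 ≤ J - DA := (INA_mem_box _).1 γ.2
      have h4 := hDA α hα
      omega
  have hp : p = 0 := (mul_eq_zero.1 hpq).resolve_right hq
  funext γ
  have h1 : coeff (e γ.1) p = c γ := by
    change coeff (e γ.1) (∑ γ : box m (J - DA), monomial (e γ.1) (c γ)) = _
    rw [coeff_sum, Finset.sum_eq_single γ]
    · rw [coeff_monomial, if_pos rfl]
    · intro γ' _ hγ'
      rw [coeff_monomial, if_neg (fun h => hγ' (Subtype.ext (hinj h)))]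
    · intro h
      exact absurd (Finset.mem_univ γ) h
  rw [← h1, hp, coeff_zero]
  rfl

private theorem INA_kap_ker {m : ℕ} (a : Fin m → A) (R : Submodule ℂ A) {V : Submodule ℂ A}
    (haR : ∀ k, ∀ c ∈ R, a k * c ∈ R) (v : (Fin m → ℕ) → V)
    (s : Finset (Fin m → ℕ)) (hs : ∀ α, α ∉ s → v α = 0)
    (hsum : ∑ α ∈ s, mon a α * (v α : A) ∈ R)
    (DA J : ℕ) (hDA : ∀ α ∈ s, wt α ≤ DA) (hJ : DA ≤ J) (c : (box m (J - DA)) → ℂ) :
    INA_Phi a R V J (INA_kap v J (J - DA) c) = 0 := by
  classical
  rw [INA_Phi_zero]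
  have h1 : ∑ β : box m J, mon a β.1 * ((INA_kap v J (J - DA) c β : V) : A) =
      ∑ γ : box m (J - DA), c γ • (mon a γ.1 * ∑ α ∈ s, mon a α * (v α : A)) := by
    have h2 : ∀ β : box m J, mon a β.1 * ((INA_kap v J (J - DA) c β : V) : A) =
        ∑ γ : box m (J - DA),
          c γ • (if γ.1 ≤ β.1 then mon a β.1 * (v (β.1 - γ.1) : A) else 0) := by
      intro β
      change mon a β.1 * ((∑ γ : box m (J - DA),
        c γ • (if γ.1 ≤ β.1 then v (β.1 - γ.1) else 0) : V) : A) = _
      rw [Submodule.coe_sum, Finset.mul_sum]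
      refine Finset.sum_congr rfl fun γ _ => ?_
      rw [Submodule.coe_smul, mul_smul_comm]
      congr 1
      by_cases h : γ.1 ≤ β.1
      · rw [if_pos h, if_pos h]
      · rw [if_neg h, if_neg h, Submodule.coe_zero, mul_zero]
    rw [Finset.sum_congr rfl fun β _ => h2 β, Finset.sum_comm]
    refine Finset.sum_congr rfl fun γ _ => ?_
    rw [← Finset.smul_sum]
    congr 1
    rw [Finset.mul_sum]
    let f : (Fin m → ℕ) → A := fun β => if γ.1 ≤ β then mon a β * (v (β - γ.1) : A) else 0
    have h3 : ∑ β : box m J, f β.1 = ∑ β ∈ box m J, f β := Finset.sum_coe_sort (box m J) f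
    have hinj : Function.Injective (fun α : Fin m → ℕ => α + γ.1) := add_left_injective γ.1
    have h4 : ∑ α ∈ s, mon a γ.1 * (mon a α * (v α : A)) =
        ∑ β ∈ s.image (fun α => α + γ.1), f β := by
      rw [Finset.sum_image fun x _ y _ h => hinj h]
      refine Finset.sum_congr rfl fun α _ => ?_
      change _ = if γ.1 ≤ α + γ.1 then mon a (α + γ.1) * (v (α + γ.1 - γ.1) : A) else 0
      rw [if_pos le_add_self, add_tsub_cancel_right, INA_mon_add]
      ring
    rw [h4]
    change ∑ β : box m J, f β.1 = _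
    rw [h3]
    symm
    refine Finset.sum_subset ?_ ?_
    · intro β hβ
      obtain ⟨α, hα, rfl⟩ := Finset.mem_image.1 hβ
      rw [INA_mem_box, INA_wt_add]
      have h5 : wt γ.1 ≤ J - DA := (INA_mem_box _).1 γ.2
      have h6 := hDA α hα
      omega
    · intro β _ hβ
      change (if γ.1 ≤ β then mon a β * (v (β - γ.1) : A) else 0) = 0
      by_cases h : γ.1 ≤ β
      · rw [if_pos h, hs (β - γ.1) ?_, Submodule.coe_zero, mul_zero]
        intro hm
        refine hβ (Finset.mem_image.2 ⟨β - γ.1, hm, ?_⟩)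
        exact tsub_add_cancel_of_le h
      · rw [if_neg h]
  rw [h1]
  exact Submodule.sum_mem R fun γ _ => Submodule.smul_mem R _ (INA_mon_R a R haR _ _ hsum)

end

theorem thm_INA (hGRO : St_GRO) : St_INA := by
  classical
  intro A _ _ m F a b R VA VB hmono hfin hex hbF haR hVA hVB hdim hSP hINJ s0 v0 hv0 hsum0
  by_contra hcon
  push Not at hcon
  obtain ⟨α0, hα0, hne0⟩ := hcon
  -- the family with values in `VA`
  let v : (Fin m → ℕ) → VA := fun α => if h : α ∈ s0 then ⟨v0 α, hv0 α h⟩ else 0
  have hv : ∀ α ∈ s0, (v α : A) = v0 α := by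
    intro α hα
    change ((if h : α ∈ s0 then (⟨v0 α, hv0 α h⟩ : VA) else 0 : VA) : A) = v0 α
    rw [dif_pos hα]
  have hvs : ∀ α, α ∉ s0 → v α = 0 := fun α hα => dif_neg hα
  have hv00 : v α0 ≠ 0 := by
    intro h
    apply hne0
    rw [← hv α0 hα0, h, Submodule.coe_zero]
  have hsum : ∑ α ∈ s0, mon a α * (v α : A) ∈ R := by
    have : ∑ α ∈ s0, mon a α * (v α : A) = ∑ α ∈ s0, mon a α * v0 α :=
      Finset.sum_congr rfl fun α hα => by rw [hv α hα]
    rw [this]
    exact hsum0
  let DA := s0.sup wt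
  have hDA : ∀ α ∈ s0, wt α ≤ DA := fun α hα => Finset.le_sup (f := wt) hα
  -- `VB ≤ F DB`
  obtain ⟨DB, hDB⟩ : ∃ DB, VB ≤ F DB := by
    obtain ⟨S, hS⟩ := (Module.Finite.iff_fg.1 hVB : VB.FG)
    choose i hi using hex
    refine ⟨S.sup i, ?_⟩
    rw [← hS, Submodule.span_le]
    intro c hc
    exact hmono (Finset.le_sup (f := i) hc) (hi c)
  refine hGRO m (Module.finrank ℂ VB) (DA + DB) fun J hJ => ?_
  have hfq : ∀ J, Module.Finite ℂ ((box m J) → VA) := fun J => inferInstance
  set Φ := INA_Phi a R VA J with hΦ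
  have hrn := LinearMap.finrank_range_add_finrank_ker Φ
  have hpi : Module.finrank ℂ ((box m J) → VA) = (box m J).card * Module.finrank ℂ VA := by
    rw [Module.finrank_pi_fintype, Finset.sum_const, Finset.card_univ, Fintype.card_coe,
      smul_eq_mul]
  rw [hpi] at hrn
  -- the kernel
  have hker : (box m (J - DA)).card ≤ Module.finrank ℂ (LinearMap.ker Φ) := by
    let κ := INA_kap v J (J - DA)
    let κ' : ((box m (J - DA)) → ℂ) →ₗ[ℂ] LinearMap.ker Φ :=
      κ.codRestrict (LinearMap.ker Φ) fun c => by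
        rw [LinearMap.mem_ker]
        exact INA_kap_ker a R haR v s0 hvs hsum DA J hDA (by omega) c
    have hκ' : Function.Injective κ' := by
      intro c c' h
      exact INA_kap_inj v s0 hvs α0 hv00 DA J hDA (by omega) (congrArg Subtype.val h)
    have h1 := LinearMap.finrank_le_finrank_of_injective hκ'
    rwa [Module.finrank_fintype_fun_eq_card, Fintype.card_coe] at h1
  -- the range
  have hran : (box m (J - DB)).card * Module.finrank ℂ VB ≤
      Module.finrank ℂ (LinearMap.range Φ) := by
    let Ψ := INA_Phi b R VB (J - DB)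
    have hΨr : ∀ x, Ψ x ∈ LinearMap.range Φ := by
      intro x
      have h1 : ∑ α : box m (J - DB), mon b α.1 * (x α : A) ∈ F J := by
        refine Submodule.sum_mem _ fun α _ => ?_
        have h2 := INA_mon_F b F hbF α.1 (x α : A) DB (hDB (x α).2)
        have h3 : wt α.1 ≤ J - DB := (INA_mem_box _).1 α.2
        exact hmono (by omega) h2
      obtain ⟨y, hy, hyR⟩ := hSP J _ h1
      refine ⟨fun α => ⟨y α.1, (hy α.1 α.2).1⟩, ?_⟩
      change R.mkQ (∑ α : box m J, mon a α.1 * y α.1) =
        R.mkQ (∑ α : box m (J - DB), mon b α.1 * (x α : A))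
      rw [Finset.sum_coe_sort (box m J) (fun α => mon a α * y α), Submodule.mkQ_apply,
        Submodule.mkQ_apply, eq_comm, Submodule.Quotient.eq]
      exact hyR
    let Ψ' : ((box m (J - DB)) → VB) →ₗ[ℂ] LinearMap.range Φ := Ψ.codRestrict _ hΨr
    have hΨ' : Function.Injective Ψ' := by
      rw [injective_iff_map_eq_zero]
      intro x hx
      have h1 : Ψ x = 0 := congrArg Subtype.val hx
      have h2 : ∑ α : box m (J - DB), mon b α.1 * (x α : A) ∈ R :=
        (INA_Phi_zero b R VB (J - DB) x).1 h1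
      let x' : (Fin m → ℕ) → A := fun α => if h : α ∈ box m (J - DB) then (x ⟨α, h⟩ : A) else 0
      have hx' : ∀ α : box m (J - DB), x' α.1 = (x α : A) := by
        intro α
        change (if h : α.1 ∈ box m (J - DB) then (x ⟨α.1, h⟩ : A) else 0) = _
        rw [dif_pos α.2]
      have h3 : ∑ α ∈ box m (J - DB), mon b α * x' α ∈ R := by
        rw [← Finset.sum_coe_sort (box m (J - DB)) (fun α => mon b α * x' α)]
        have : ∑ α : box m (J - DB), mon b α.1 * x' α.1 =
            ∑ α : box m (J - DB), mon b α.1 * (x α : A) :=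
          Finset.sum_congr rfl fun α _ => by rw [hx' α]
        rw [this]
        exact h2
      have h4 := hINJ (box m (J - DB)) x' (fun α hα => by
        change (if h : α ∈ box m (J - DB) then (x ⟨α, h⟩ : A) else 0) ∈ VB
        rw [dif_pos hα]
        exact (x ⟨α, hα⟩).2) h3
      funext α
      apply Subtype.ext
      rw [← hx' α]
      exact h4 α.1 α.2
    have h1 := LinearMap.finrank_le_finrank_of_injective hΨ'
    rwa [Module.finrank_pi_fintype, Finset.sum_const, Finset.card_univ, Fintype.card_coe,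
      smul_eq_mul] at h1
  have m1 : (box m (J - (DA + DB))).card ≤ (box m (J - DA)).card := INA_box_mono (by omega)
  have m2 : (box m (J - (DA + DB))).card ≤ (box m (J - DB)).card := INA_box_mono (by omega)
  have m3 : (box m J).card * Module.finrank ℂ VA ≤ (box m J).card * Module.finrank ℂ VB :=
    Nat.mul_le_mul_left _ hdim
  have m4 : (box m (J - (DA + DB))).card * Module.finrank ℂ VB ≤
      (box m (J - DB)).card * Module.finrank ℂ VB := Nat.mul_le_mul_right _ m2
  calc (Module.finrank ℂ VB + 1) * (box m (J - (DA + DB))).card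
      = (box m (J - (DA + DB))).card * Module.finrank ℂ VB + (box m (J - (DA + DB))).card := by
        ring
    _ ≤ Module.finrank ℂ (LinearMap.range Φ) + Module.finrank ℂ (LinearMap.ker Φ) :=
        Nat.add_le_add (m4.trans hran) (m1.trans hker)
    _ = (box m J).card * Module.finrank ℂ VA := hrn
    _ ≤ (box m J).card * Module.finrank ℂ VB := m3
    _ = Module.finrank ℂ VB * (box m J).card := by ring

end MDH
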