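import Pool.Agent.MDH.St

/-!
# MDH module PCY

The product of the power sums over the cycle type of `w` is the sum over the maps `g` with
`g ∘ w = g` of the monomials of `g`: such a map is constant on the cycles of `w`.
-/

set_option autoImplicit false

open MvPolynomial

namespace MDH

section
variable {α ι : Type} [Fintype α] [DecidableEq α] [Fintype ι] [DecidableEq ι]

open Classical in
/-- the orbit of a point as a finset -/
private noncomputable def PCYorb (w : Equiv.Perm α) (i : α) : Finset α :=
  Finset.univ.filter (fun y => w.SameCycle i y)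

private theorem PCY_mem (w : Equiv.Perm α) (i y : α) : y ∈ PCYorb w i ↔ w.SameCycle i y := by
  simp [PCYorb]

private theorem PCY_eq (w : Equiv.Perm α) (i j : α) :
    PCYorb w i = PCYorb w j ↔ w.SameCycle i j := by
  constructor
  · intro h
    have h1 : j ∈ PCYorb w j := (PCY_mem w j j).mpr (Equiv.Perm.SameCycle.refl w j)
    rw [← h] at h1
    exact (PCY_mem w i j).mp h1
  · intro h
    ext y
    rw [PCY_mem, PCY_mem]
    exact ⟨fun h' => h.symm.trans h', fun h' => h.trans h'⟩

omit [Fintype α] [DecidableEq α] [Fintype ι] [DecidableEq ι] in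
private theorem PCY_const (w : Equiv.Perm α) (g : α → ι) (hg : g ∘ w = g) (i j : α)
    (h : w.SameCycle i j) : g i = g j := by
  obtain ⟨k, rfl⟩ := h
  have h1 : ∀ y, g (w y) = g y := fun y => congrFun hg y
  have h2 : ∀ y, g (w⁻¹ y) = g y := fun y => by
    have h := h1 (w⁻¹ y)
    have h' : w (w⁻¹ y) = y := by simp
    rw [h'] at h
    exact h.symm
  have h3 : ∀ (m : ℕ) y, g ((w ^ m) y) = g y := by
    intro m
    induction m with
    | zero => intro y; simp
    | succ m ih => intro y; rw [pow_succ', Equiv.Perm.mul_apply, h1, ih]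
  have h4 : ∀ (m : ℕ) y, g ((w⁻¹ ^ m) y) = g y := by
    intro m
    induction m with
    | zero => intro y; simp
    | succ m ih => intro y; rw [pow_succ', Equiv.Perm.mul_apply, h2, ih]
  cases k with
  | ofNat m => exact (h3 m i).symm
  | negSucc m =>
    rw [zpow_negSucc, ← inv_pow]
    exact (h4 (m + 1) i).symm

open Classical in
private theorem PCY_sum {M : Type} [CommRing M] (w : Equiv.Perm α) (x : ι → M) :
    ∑ g ∈ (Finset.univ : Finset (α → ι)).filter (fun g => g ∘ w = g), ∏ i, x (g i) =
      ∏ o ∈ Finset.univ.image (PCYorb w), ∑ c, x c ^ o.card := by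
  let Q := {o : Finset α // o ∈ Finset.univ.image (PCYorb w)}
  let π : α → Q := fun i => ⟨PCYorb w i, Finset.mem_image_of_mem _ (Finset.mem_univ i)⟩
  have hπ : Function.Surjective π := by
    rintro ⟨o, ho⟩
    obtain ⟨i, -, hi⟩ := Finset.mem_image.mp ho
    exact ⟨i, Subtype.ext hi⟩
  have hπe : ∀ i j, π i = π j ↔ w.SameCycle i j := fun i j => by
    rw [← PCY_eq w i j]
    exact Subtype.ext_iff
  have h1 : ∏ o ∈ Finset.univ.image (PCYorb w), ∑ c, x c ^ o.card =
      ∏ q : Q, ∑ c, x c ^ q.1.card :=
    Finset.prod_subtype _ (fun _ => Iff.rfl) _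
  rw [h1, Finset.prod_univ_sum, Fintype.piFinset_univ]
  symm
  refine Finset.sum_bij (fun (g' : Q → ι) _ => g' ∘ π) ?_ ?_ ?_ ?_
  · intro g' _
    rw [Finset.mem_filter]
    refine ⟨Finset.mem_univ _, ?_⟩
    funext i
    have : π (w i) = π i := (hπe _ _).mpr (Equiv.Perm.sameCycle_apply_left.mpr
      (Equiv.Perm.SameCycle.refl w i))
    simp only [Function.comp_apply, this]
  · intro g' _ g'' _ h
    exact hπ.injective_comp_right h
  · intro g hg
    rw [Finset.mem_filter] at hg
    refine ⟨fun q => g (Function.surjInv hπ q), Finset.mem_univ _, ?_⟩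
    funext i
    refine PCY_const w g hg.2 _ _ ?_
    exact (hπe _ _).mp (Function.surjInv_eq hπ _)
  · intro g' _
    have h2 : ∏ i, x ((g' ∘ π) i) = ∏ i, (fun q => x (g' q)) (π i) := rfl
    rw [h2, Finset.prod_comp (fun q => x (g' q)) π]
    have h3 : Finset.univ.image π = Finset.univ := Finset.image_univ_of_surjective hπ
    rw [h3]
    refine Finset.prod_congr rfl fun q _ => ?_
    obtain ⟨j, rfl⟩ := hπ q
    have h4 : Finset.univ.filter (fun a => π a = π j) = (π j).1 := by
      ext y
      rw [Finset.mem_filter, hπe]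
      show _ ↔ y ∈ PCYorb w j
      rw [PCY_mem]
      exact ⟨fun h => h.2.symm, fun h => ⟨Finset.mem_univ _, h.symm⟩⟩
    rw [h4]

open Classical in
private theorem PCY_parts {M : Type} [CommMonoid M] (w : Equiv.Perm α) (P : ℕ → M) :
    (w.partition.parts.map P).prod = ∏ o ∈ Finset.univ.image (PCYorb w), P o.card := by
  have h0 : (Finset.univ : Finset α) = w.support ∪ w.supportᶜ := (Finset.union_compl _).symm
  have hdis : Disjoint (w.support.image (PCYorb w)) (w.supportᶜ.image (PCYorb w)) := by
    rw [Finset.disjoint_left]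
    intro o h1 h2
    obtain ⟨i, hi, rfl⟩ := Finset.mem_image.mp h1
    obtain ⟨j, hj, h3⟩ := Finset.mem_image.mp h2
    rw [PCY_eq] at h3
    rw [Finset.mem_compl, Equiv.Perm.mem_support, not_not] at hj
    rw [Equiv.Perm.mem_support] at hi
    obtain ⟨k, hk⟩ := h3
    have h4 : (w ^ k) j = j := by
      exact Equiv.Perm.zpow_apply_eq_self_of_apply_eq_self hj k
    rw [h4] at hk
    rw [← hk] at hi
    exact hi hj
  rw [Equiv.Perm.parts_partition, Multiset.map_add, Multiset.prod_add, Multiset.map_replicate,
    Multiset.prod_replicate]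
  conv_rhs => rw [h0]
  rw [Finset.image_union, Finset.prod_union hdis]
  congr 1
  · rw [Equiv.Perm.cycleType_def, Multiset.map_map]
    have hc : ∀ i ∈ w.support, PCYorb w i = (w.cycleOf i).support := by
      intro i hi
      ext y
      rw [PCY_mem, Equiv.Perm.mem_support_cycleOf_iff]
      exact ⟨fun h => ⟨h, hi⟩, fun h => h.1⟩
    have h5 : w.support.image (PCYorb w) =
        w.cycleFactorsFinset.image (fun c => c.support) := by
      ext o
      rw [Finset.mem_image, Finset.mem_image]
      constructor
      · rintro ⟨i, hi, rfl⟩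
        exact ⟨w.cycleOf i, Equiv.Perm.cycleOf_mem_cycleFactorsFinset_iff.mpr hi, (hc i hi).symm⟩
      · rintro ⟨c, hcm, rfl⟩
        have h6 : c.IsCycle := (Equiv.Perm.mem_cycleFactorsFinset_iff.mp hcm).1
        obtain ⟨i, hi⟩ := h6.nonempty_support
        have h7 : i ∈ w.support := Equiv.Perm.mem_cycleFactorsFinset_support_le hcm hi
        refine ⟨i, h7, ?_⟩
        rw [hc i h7, ← Equiv.Perm.cycle_is_cycleOf hi hcm]
    rw [h5, Finset.prod_image]
    · rfl
    · intro c hcm d hdm hcd
      have hcm' := Finset.mem_coe.mp hcm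
      have hdm' := Finset.mem_coe.mp hdm
      have h6 : c.IsCycle := (Equiv.Perm.mem_cycleFactorsFinset_iff.mp hcm').1
      obtain ⟨i, hi⟩ := h6.nonempty_support
      have hi' : i ∈ d.support := by
        have : c.support = d.support := hcd
        rwa [this] at hi
      rw [Equiv.Perm.cycle_is_cycleOf hi hcm', Equiv.Perm.cycle_is_cycleOf hi' hdm']
  · have h8 : ∀ i ∈ w.supportᶜ, PCYorb w i = {i} := by
      intro i hi
      rw [Finset.mem_compl, Equiv.Perm.mem_support, not_not] at hi
      ext y
      rw [PCY_mem, Finset.mem_singleton]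
      constructor
      · rintro ⟨k, hk⟩
        rw [Equiv.Perm.zpow_apply_eq_self_of_apply_eq_self hi k] at hk
        exact hk.symm
      · rintro rfl
        exact Equiv.Perm.SameCycle.refl w y
    rw [Finset.prod_image]
    · rw [Finset.prod_congr rfl (g := fun _ => P 1)
        (fun i hi => by rw [h8 i hi, Finset.card_singleton]),
        Finset.prod_const, Finset.card_compl]
    · intro i hi j hj hij
      have hi' := Finset.mem_coe.mp hi
      have hj' := Finset.mem_coe.mp hj
      have hij' : PCYorb w i = PCYorb w j := hij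
      rw [h8 i hi', h8 j hj'] at hij'
      exact Finset.singleton_injective hij'

end

theorem thm_PCY : St_PCY := by
  intro n N w
  classical
  rw [PCY_parts w (fun k => psum (Fin N) ℂ k), PCY_sum w (fun c => (X c : MvPolynomial (Fin N) ℂ))]
  rfl

end MDH
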