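import Pool.Agent.MDH.St

/-!
# MDH, module TRA: abstract equality of traces (helper72)
-/

set_option autoImplicit false

open MvPolynomial

namespace MDH

/-- trace of an endomorphism of a finite product -/
theorem TRA_pi {ι : Type} [Fintype ι] [DecidableEq ι] (M : ι → Type) [∀ i, AddCommGroup (M i)]
    [∀ i, Module ℂ (M i)] [∀ i, Module.Finite ℂ (M i)] (f : ∀ i, M i →ₗ[ℂ] M i) :
    LinearMap.trace ℂ (∀ i, M i) (LinearMap.pi fun i => f i ∘ₗ LinearMap.proj i) =
      ∑ i, LinearMap.trace ℂ (M i) (f i) := by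
  let b := fun i => Module.finBasis ℂ (M i)
  rw [LinearMap.trace_eq_matrix_trace ℂ (Pi.basis b)]
  rw [Matrix.trace, Fintype.sum_sigma]
  refine Finset.sum_congr rfl fun i _ => ?_
  rw [LinearMap.trace_eq_matrix_trace ℂ (b i), Matrix.trace]
  refine Finset.sum_congr rfl fun j _ => ?_
  rw [Matrix.diag_apply, Matrix.diag_apply, LinearMap.toMatrix_apply, LinearMap.toMatrix_apply,
    Pi.basis_repr, Pi.basis_apply]
  simp

section

variable {A : Type} [CommRing A] [Algebra ℂ A] {m : ℕ}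

open Classical in
/-- trace of `g` on a stable submodule -/
noncomputable def TRA_tr (g : A →ₗ[ℂ] A) (V : Submodule ℂ A) : ℂ :=
  if h : ∀ c ∈ V, g c ∈ V then LinearMap.trace ℂ V (g.restrict h) else 0

theorem TRA_tr_eq (g : A →ₗ[ℂ] A) (V : Submodule ℂ A) (h : ∀ c ∈ V, g c ∈ V) :
    TRA_tr g V = LinearMap.trace ℂ V (g.restrict h) := dif_pos h

theorem TRA_mon (F : ℕ → Submodule ℂ A) (a : Fin m → A)
    (ha : ∀ k i, ∀ c ∈ F i, a k * c ∈ F (i + (k.val + 1))) (α : Fin m → ℕ) (i : ℕ) (c : A)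
    (hc : c ∈ F i) : mon a α * c ∈ F (i + wt α) := by
  have h1 : ∀ (k : Fin m) (e i : ℕ) (c : A), c ∈ F i → a k ^ e * c ∈ F (i + (k.val + 1) * e) := by
    intro k e
    induction e with
    | zero =>
      intro i c hc
      rw [pow_zero, one_mul, mul_zero, add_zero]
      exact hc
    | succ e ih =>
      intro i c hc
      have h2 := ha k _ _ (ih i c hc)
      rw [pow_succ', mul_assoc]
      have e1 : i + (k.val + 1) * (e + 1) = i + (k.val + 1) * e + (k.val + 1) := by ring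
      rw [e1]
      exact h2
  have h2 : ∀ (s : Finset (Fin m)), (∏ k ∈ s, a k ^ α k) * c ∈
      F (i + ∑ k ∈ s, (k.val + 1) * α k) := by
    intro s
    induction s using Finset.induction_on with
    | empty =>
      rw [Finset.prod_empty, one_mul, Finset.sum_empty, add_zero]
      exact hc
    | insert k s hk ih =>
      rw [Finset.prod_insert hk, Finset.sum_insert hk, mul_assoc]
      have e1 : i + ((k.val + 1) * α k + ∑ k ∈ s, (k.val + 1) * α k) =
          i + ∑ k ∈ s, (k.val + 1) * α k + (k.val + 1) * α k := by ring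
      rw [e1]
      exact h1 k (α k) _ _ ih
  exact h2 Finset.univ

theorem TRA_com (a : Fin m → A) (g : A →ₗ[ℂ] A) (ha : ∀ k c, g (a k * c) = a k * g c)
    (α : Fin m → ℕ) (c : A) : g (mon a α * c) = mon a α * g c := by
  have h1 : ∀ (k : Fin m) (e : ℕ) (c : A), g (a k ^ e * c) = a k ^ e * g c := by
    intro k e
    induction e with
    | zero =>
      intro c
      rw [pow_zero, one_mul, one_mul]
    | succ e ih =>
      intro c
      rw [pow_succ', mul_assoc, ha, ih, mul_assoc]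
  have h2 : ∀ (s : Finset (Fin m)), g ((∏ k ∈ s, a k ^ α k) * c) =
      (∏ k ∈ s, a k ^ α k) * g c := by
    intro s
    induction s using Finset.induction_on with
    | empty => rw [Finset.prod_empty, one_mul, one_mul]
    | insert k s hk ih => rw [Finset.prod_insert hk, mul_assoc, h1, ih, mul_assoc]
  exact h2 Finset.univ

theorem TRA_main (F : ℕ → Submodule ℂ A) (a : Fin m → A) (R V : Submodule ℂ A)
    (g : A →ₗ[ℂ] A) (hV : ∀ c ∈ V, g c ∈ V) (hfin : ∀ i, Module.Finite ℂ (F i))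
    (ha : ∀ k i, ∀ c ∈ F i, a k * c ∈ F (i + (k.val + 1))) (hgF : ∀ i, ∀ c ∈ F i, g c ∈ F i)
    (hgR : R ≤ R.comap g) (hga : ∀ k c, g (a k * c) = a k * g c)
    (hSP : SP F a R V) (hINJ : INJ a R V) (J : ℕ)
    (hQ : ∀ c ∈ (F J).map R.mkQ, R.mapQ R g hgR c ∈ (F J).map R.mkQ) :
    LinearMap.trace ℂ ((F J).map R.mkQ) ((R.mapQ R g hgR).restrict hQ) =
      ∑ α ∈ box m J, TRA_tr g (V ⊓ F (J - wt α)) := by
  classical
  have hs : ∀ i, ∀ c ∈ V ⊓ F i, g c ∈ V ⊓ F i := fun i c hc => ⟨hV c hc.1, hgF i c hc.2⟩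
  have hf : ∀ i, Module.Finite ℂ ↥(V ⊓ F i) := fun i => by
    have := hfin i
    exact Submodule.finiteDimensional_of_le (inf_le_right : V ⊓ F i ≤ F i)
  have hbox : ∀ α ∈ box m J, wt α ≤ J := fun α hα => (Finset.mem_filter.1 hα).2
  let Y := ∀ α : {α // α ∈ box m J}, ↥(V ⊓ F (J - wt α.1))
  let Ψ : Y →ₗ[ℂ] A := ∑ α : {α // α ∈ box m J},
    (LinearMap.mulLeft ℂ (mon a α.1)) ∘ₗ (V ⊓ F (J - wt α.1)).subtype ∘ₗ LinearMap.proj α
  have hΨ : ∀ x : Y, Ψ x = ∑ α : {α // α ∈ box m J}, mon a α.1 * (x α : A) := by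
    intro x
    simp only [Ψ, LinearMap.sum_apply]
    rfl
  have hΨF : ∀ x : Y, Ψ x ∈ F J := by
    intro x
    rw [hΨ]
    refine Submodule.sum_mem _ fun α _ => ?_
    have h1 := TRA_mon F a ha α.1 (J - wt α.1) (x α : A) (x α).2.2
    rwa [Nat.sub_add_cancel (hbox α.1 α.2)] at h1
  let Φ : Y →ₗ[ℂ] ((F J).map R.mkQ) :=
    (R.mkQ ∘ₗ Ψ).codRestrict _ fun x => ⟨Ψ x, hΨF x, rfl⟩
  have hΦ : ∀ x, (Φ x : A ⧸ R) = R.mkQ (Ψ x) := fun x => rfl
  have hext : ∀ x : Y, Ψ x = ∑ α ∈ box m J, mon a α *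
      (if h : α ∈ box m J then (x ⟨α, h⟩ : A) else 0) := by
    intro x
    rw [hΨ, ← Finset.sum_coe_sort (box m J)]
    refine Finset.sum_congr rfl fun α _ => ?_
    rw [dif_pos α.2]
  have hinj : Function.Injective Φ := by
    rw [injective_iff_map_eq_zero]
    intro x hx
    have h1 : Ψ x ∈ R := by
      have h2 := congrArg Subtype.val hx
      rw [hΦ] at h2
      exact (Submodule.Quotient.mk_eq_zero R).1 h2
    rw [hext] at h1
    have h3 := hINJ (box m J) (fun α => if h : α ∈ box m J then (x ⟨α, h⟩ : A) else 0)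
      (fun α hα => by
        simp only [dif_pos hα]
        exact (x ⟨α, hα⟩).2.1) h1
    funext α
    have h4 := h3 α.1 α.2
    simp only [dif_pos α.2] at h4
    exact Subtype.ext h4
  have hsurj : Function.Surjective Φ := by
    rintro ⟨q, c, hc, rfl⟩
    obtain ⟨v, hv, hr⟩ := hSP J c hc
    refine ⟨fun α => ⟨v α.1, hv α.1 α.2⟩, ?_⟩
    apply Subtype.ext
    rw [hΦ, hΨ]
    have h1 : ∑ α : {α // α ∈ box m J}, mon a α.1 * v α.1 = ∑ α ∈ box m J, mon a α * v α :=
      Finset.sum_coe_sort (box m J) fun α => mon a α * v α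
    show R.mkQ (∑ α : {α // α ∈ box m J}, mon a α.1 * v α.1) = R.mkQ c
    rw [h1]
    exact ((Submodule.Quotient.eq R).2 hr).symm
  let e : Y ≃ₗ[ℂ] ((F J).map R.mkQ) := LinearEquiv.ofBijective Φ ⟨hinj, hsurj⟩
  let G : Y →ₗ[ℂ] Y := LinearMap.pi fun α =>
    (g.restrict (hs (J - wt α.1))) ∘ₗ LinearMap.proj α
  have hG : ∀ x, Φ (G x) = (R.mapQ R g hgR).restrict hQ (Φ x) := by
    intro x
    apply Subtype.ext
    rw [hΦ, hΨ]
    show _ = R.mapQ R g hgR (R.mkQ (Ψ x))
    rw [Submodule.mkQ_apply, Submodule.mkQ_apply, Submodule.mapQ_apply, hΨ, map_sum]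
    congr 1
    refine Finset.sum_congr rfl fun α _ => ?_
    rw [TRA_com a g hga]
    rfl
  have hconj : (R.mapQ R g hgR).restrict hQ = e.conj G := by
    refine LinearMap.ext fun q => ?_
    obtain ⟨x, rfl⟩ := e.surjective q
    rw [LinearEquiv.conj_apply_apply, e.symm_apply_apply]
    exact (hG x).symm
  rw [hconj, LinearMap.trace_conj', TRA_pi, ← Finset.sum_coe_sort (box m J)]
  refine Finset.sum_congr rfl fun α _ => ?_
  rw [TRA_tr_eq g _ (hs _)]

theorem TRA_wt {α : Fin m → ℕ} (h : α ≠ 0) : 1 ≤ wt α := by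
  obtain ⟨k, hk⟩ : ∃ k, α k ≠ 0 := by
    by_contra hcon
    push Not at hcon
    exact h (funext hcon)
  have h1 : (k.val + 1) * α k ≤ wt α :=
    Finset.single_le_sum (f := fun k : Fin m => (k.val + 1) * α k) (fun _ _ => Nat.zero_le _)
      (Finset.mem_univ k)
  have h2 : 1 ≤ (k.val + 1) * α k := Nat.mul_pos (Nat.succ_pos _) (Nat.pos_of_ne_zero hk)
  exact h2.trans h1

theorem TRA_zero (m J : ℕ) : (0 : Fin m → ℕ) ∈ box m J := by
  refine Finset.mem_filter.2 ⟨Fintype.mem_piFinset.2 fun k => ?_, ?_⟩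
  · rw [Finset.mem_range]
    exact Nat.succ_pos J
  · simp [wt]

theorem TRA_large (F : ℕ → Submodule ℂ A) (hF : Monotone F) (hex : ∀ c, ∃ i, c ∈ F i)
    (V : Submodule ℂ A) [Module.Finite ℂ V] : ∃ i, ∀ j, i ≤ j → V ⊓ F j = V := by
  obtain ⟨s, hs⟩ := (Module.Finite.iff_fg (N := V)).1 inferInstance
  choose f hf using hex
  refine ⟨s.sup f, fun j hj => inf_eq_left.2 ?_⟩
  rw [← hs, Submodule.span_le]
  intro c hc
  exact hF ((Finset.le_sup hc).trans hj) (hf c)

end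

theorem thm_TRA : St_TRA := by
  intro A _ _ m F a b R VA VB g hA hB hmono hfin hex haF hbF hgF hgR hga hgb hVA hVB hSA hSB
    hIA hIB
  have hgR' : R ≤ R.comap g := fun c hc => hgR c hc
  have hQ : ∀ J, ∀ c ∈ (F J).map R.mkQ, R.mapQ R g hgR' c ∈ (F J).map R.mkQ := by
    rintro J _ ⟨c, hc, rfl⟩
    exact ⟨g c, hgF J c hc, rfl⟩
  have key : ∀ J, ∑ α ∈ box m J, TRA_tr g (VA ⊓ F (J - wt α)) =
      ∑ α ∈ box m J, TRA_tr g (VB ⊓ F (J - wt α)) := fun J => by
    rw [← TRA_main F a R VA g hA hfin haF hgF hgR' hga hSA hIA J (hQ J),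
      ← TRA_main F b R VB g hB hfin hbF hgF hgR' hgb hSB hIB J (hQ J)]
  have ht : ∀ i, TRA_tr g (VA ⊓ F i) = TRA_tr g (VB ⊓ F i) := by
    intro i
    induction i using Nat.strong_induction_on with
    | _ i ih =>
      have h1 := key i
      rw [← Finset.add_sum_erase _ _ (TRA_zero m i), ← Finset.add_sum_erase _ _ (TRA_zero m i)]
        at h1
      have h2 : ∑ α ∈ (box m i).erase 0, TRA_tr g (VA ⊓ F (i - wt α)) =
          ∑ α ∈ (box m i).erase 0, TRA_tr g (VB ⊓ F (i - wt α)) := by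
        refine Finset.sum_congr rfl fun α hα => ih _ ?_
        have h3 := TRA_wt (Finset.ne_of_mem_erase hα)
        have h4 : wt α ≤ i := (Finset.mem_filter.1 (Finset.mem_of_mem_erase hα)).2
        omega
      rw [h2] at h1
      have h5 := add_right_cancel h1
      have h6 : wt (0 : Fin m → ℕ) = 0 := by simp [wt]
      rw [h6, Nat.sub_zero] at h5
      exact h5
  obtain ⟨iA, hiA⟩ := TRA_large F hmono hex VA
  obtain ⟨iB, hiB⟩ := TRA_large F hmono hex VB
  have h1 := ht (max iA iB)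
  rw [hiA _ (le_max_left _ _), hiB _ (le_max_right _ _), TRA_tr_eq g VA hA, TRA_tr_eq g VB hB] at h1
  exact h1

end MDH
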