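import Pool.Agent.MDH.St

/-! MDH, module WEY: invariants lie in the ideal of the polarised power sums. -/

set_option autoImplicit false

open MvPolynomial

namespace MDH

/-- the monomial with columns `β j`, moved by `w` -/
private noncomputable def WEY_m {r n : ℕ} (β : Fin n → Fin r → ℕ) (w : Equiv.Perm (Fin n)) :
    MvPolynomial (Fin r × Fin n) ℂ :=
  ∏ j : Fin n, ∏ i : Fin r, X (i, w j) ^ β j i

/-- orbit sums -/
private noncomputable def WEY_O {r n : ℕ} (β : Fin n → Fin r → ℕ) :
    MvPolynomial (Fin r × Fin n) ℂ :=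
  ∑ w : Equiv.Perm (Fin n), WEY_m β w

private theorem WEY_perm {r n : ℕ} (β : Fin n → Fin r → ℕ) (σ : Equiv.Perm (Fin n)) :
    WEY_O (β ∘ σ) = WEY_O β := by
  unfold WEY_O
  refine Fintype.sum_equiv (Equiv.mulRight σ⁻¹) _ _ fun w => ?_
  unfold WEY_m
  refine Fintype.prod_equiv σ _ _ fun j => ?_
  simp [Equiv.Perm.mul_apply]

/-- add `A` to column `j` -/
private def WEY_a {r n : ℕ} (β : Fin n → Fin r → ℕ) (j : Fin n) (A : Fin r → ℕ) :
    Fin n → Fin r → ℕ :=
  fun j' => if j' = j then β j' + A else β j'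

private theorem WEY_a_same {r n : ℕ} (β : Fin n → Fin r → ℕ) (j : Fin n) (A : Fin r → ℕ) :
    WEY_a β j A j = β j + A := if_pos rfl

private theorem WEY_a_ne {r n : ℕ} (β : Fin n → Fin r → ℕ) {j j' : Fin n} (A : Fin r → ℕ)
    (h : j' ≠ j) : WEY_a β j A j' = β j' := if_neg h

private theorem WEY_mul {r n : ℕ} (A : Fin r → ℕ) (β : Fin n → Fin r → ℕ) :
    pps r n A * WEY_O β = ∑ j : Fin n, WEY_O (WEY_a β j A) := by
  classical
  unfold WEY_O
  rw [Finset.sum_comm, Finset.mul_sum]
  refine Finset.sum_congr rfl fun w _ => ?_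
  have h1 : pps r n A = ∑ j : Fin n, ∏ i : Fin r, X (i, w j) ^ A i := by
    unfold pps
    exact (Equiv.sum_comp w fun j => ∏ i : Fin r, (X (i, j) : MvPolynomial (Fin r × Fin n) ℂ) ^ A i).symm
  rw [h1, Finset.sum_mul]
  refine Finset.sum_congr rfl fun j _ => ?_
  unfold WEY_m
  have h2 : ∀ j' : Fin n, (∏ i : Fin r, (X (i, w j') : MvPolynomial (Fin r × Fin n) ℂ) ^
      (WEY_a β j A) j' i) =
      (if j' = j then ∏ i : Fin r, X (i, w j) ^ A i else 1) * ∏ i : Fin r, X (i, w j') ^ β j' i := by
    intro j'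
    by_cases hj : j' = j
    · subst hj
      rw [if_pos rfl, ← Finset.prod_mul_distrib]
      refine Finset.prod_congr rfl fun i _ => ?_
      rw [WEY_a_same, Pi.add_apply, pow_add, mul_comm]
    · rw [if_neg hj, one_mul]
      refine Finset.prod_congr rfl fun i _ => ?_
      rw [WEY_a_ne _ _ hj]
  rw [Finset.prod_congr rfl fun j' _ => h2 j', Finset.prod_mul_distrib,
    Finset.prod_ite_eq' Finset.univ j, if_pos (Finset.mem_univ j)]

private theorem WEY_claim (r n : ℕ) : ∀ (k : ℕ) (β : Fin n → Fin r → ℕ), β ≠ 0 →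
    (Finset.univ.filter fun j => β j ≠ 0).card = k →
    WEY_O β ∈ Ideal.span {P | ∃ A : Fin r → ℕ, A ≠ 0 ∧ P = pps r n A} := by
  classical
  intro k
  induction k using Nat.strong_induction_on with
  | _ k ih =>
    intro β hβ hk
    set I := Ideal.span {P | ∃ A : Fin r → ℕ, A ≠ 0 ∧ P = pps r n A} with hI
    obtain ⟨j₀, hj₀⟩ : ∃ j, β j ≠ 0 := by
      by_contra h
      push Not at h
      exact hβ (funext h)
    set β' : Fin n → Fin r → ℕ := Function.update β j₀ 0 with hβ'
    have h0 : β' j₀ = 0 := Function.update_self _ _ _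
    have hne : ∀ j, j ≠ j₀ → β' j = β j := fun j hj => Function.update_of_ne hj _ _
    have hmul := WEY_mul (β j₀) β'
    have hgood : ∀ j, β' j = 0 → WEY_O (WEY_a β' j (β j₀)) = WEY_O β := by
      intro j hj
      have e : WEY_a β' j (β j₀) = β ∘ Equiv.swap j j₀ := by
        funext j'
        rw [Function.comp_apply]
        by_cases h1 : j' = j
        · subst h1
          rw [WEY_a_same, Equiv.swap_apply_left, hj, zero_add]
        · rw [WEY_a_ne _ _ h1]
          by_cases h2 : j' = j₀
          · subst h2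
            rw [Equiv.swap_apply_right, h0]
            rw [hne j (fun h => h1 h.symm)] at hj
            exact hj.symm
          · rw [Equiv.swap_apply_of_ne_of_ne h1 h2, hne j' h2]
      rw [e, WEY_perm]
    have hbad : ∀ j, β' j ≠ 0 → WEY_O (WEY_a β' j (β j₀)) ∈ I := by
      intro j hj
      have hjj : j ≠ j₀ := by
        rintro rfl
        exact hj h0
      refine ih _ ?_ (WEY_a β' j (β j₀)) ?_ rfl
      · rw [← hk]
        refine Finset.card_lt_card ?_
        rw [Finset.ssubset_iff_of_subset]
        · refine ⟨j₀, ?_, ?_⟩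
          · simp [hj₀]
          · simp only [Finset.mem_filter, Finset.mem_univ, true_and, not_not]
            rw [WEY_a_ne _ _ (fun h => hjj h.symm), h0]
        · intro j' hj'
          simp only [Finset.mem_filter, Finset.mem_univ, true_and] at hj' ⊢
          by_cases h1 : j' = j
          · rw [h1, ← hne j hjj]; exact hj
          · rw [WEY_a_ne _ _ h1] at hj'
            by_cases h2 : j' = j₀
            · rw [h2]; exact hj₀
            · rw [← hne j' h2]; exact hj'
      · intro h
        have h1 := congrFun h j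
        rw [WEY_a_same] at h1
        refine hj ?_
        funext i
        have h2 := congrFun h1 i
        simp only [Pi.add_apply, Pi.zero_apply] at h2 ⊢
        omega
    have hsplit := Finset.sum_filter_add_sum_filter_not Finset.univ (fun j => β' j = 0)
      (fun j => WEY_O (WEY_a β' j (β j₀)))
    rw [← hmul, Finset.sum_congr rfl (fun j hj => hgood j (Finset.mem_filter.1 hj).2),
      Finset.sum_const] at hsplit
    have hmem : (Finset.univ.filter fun j => β' j = 0).card • WEY_O β ∈ I := by
      have e : (Finset.univ.filter fun j => β' j = 0).card • WEY_O β =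
          pps r n (β j₀) * WEY_O β' -
          ∑ j ∈ Finset.univ.filter (fun j => ¬ β' j = 0), WEY_O (WEY_a β' j (β j₀)) := by
        rw [← hsplit]; abel
      rw [e]
      refine I.sub_mem (I.mul_mem_right _ ?_) (I.sum_mem fun j hj => ?_)
      · exact Ideal.subset_span ⟨_, hj₀, rfl⟩
      · exact hbad j (Finset.mem_filter.1 hj).2
    have hc : ((Finset.univ.filter fun j => β' j = 0).card : ℂ) ≠ 0 := by
      rw [Nat.cast_ne_zero]
      exact Finset.card_ne_zero.2 ⟨j₀, by simp [h0]⟩
    have e2 : WEY_O β = C (((Finset.univ.filter fun j => β' j = 0).card : ℂ)⁻¹) *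
        ((Finset.univ.filter fun j => β' j = 0).card • WEY_O β) := by
      rw [nsmul_eq_mul, ← mul_assoc, ← map_natCast (C : ℂ →+* MvPolynomial (Fin r × Fin n) ℂ),
        ← map_mul, inv_mul_cancel₀ hc, map_one, one_mul]
    rw [e2]
    exact I.mul_mem_left _ hmem

private theorem WEY_act {r n : ℕ} (w : Equiv.Perm (Fin n)) (B : Fin r × Fin n →₀ ℕ) (c : ℂ) :
    act r n w (monomial B c) = C c * WEY_m (fun j i => B (i, j)) w := by
  change rename _ (monomial B c) = _
  rw [monomial_eq, map_mul, rename_C, Finsupp.prod_fintype _ _ (fun _ => pow_zero _), map_prod,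
    Fintype.prod_prod_type_right]
  simp [WEY_m]

theorem thm_WEY : St_WEY := by
  classical
  intro r n f hf h0
  set I := Ideal.span {P | ∃ A : Fin r → ℕ, A ≠ 0 ∧ P = pps r n A} with hI
  have h1 : ∑ w : Equiv.Perm (Fin n), act r n w f ∈ I := by
    have e : ∀ w : Equiv.Perm (Fin n), act r n w f =
        ∑ B ∈ f.support, C (coeff B f) * WEY_m (fun j i => B (i, j)) w := by
      intro w
      conv_lhs => rw [f.as_sum]
      rw [map_sum]
      exact Finset.sum_congr rfl fun B _ => WEY_act w B _
    rw [Finset.sum_congr rfl fun w _ => e w, Finset.sum_comm]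
    refine I.sum_mem fun B hB => ?_
    rw [← Finset.mul_sum]
    refine I.mul_mem_left _ ?_
    refine WEY_claim r n _ (fun j i => B (i, j)) ?_ rfl
    intro hz
    have hB0 : B = 0 := by
      ext q
      exact congrFun (congrFun hz q.2) q.1
    rw [mem_support_iff, hB0] at hB
    exact hB h0
  rw [Finset.sum_congr rfl fun w _ => hf w, Finset.sum_const] at h1
  have hc : ((Finset.univ : Finset (Equiv.Perm (Fin n))).card : ℂ) ≠ 0 := by
    rw [Nat.cast_ne_zero]
    exact Finset.card_ne_zero.2 ⟨1, Finset.mem_univ _⟩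
  have e2 : f = C (((Finset.univ : Finset (Equiv.Perm (Fin n))).card : ℂ)⁻¹) *
      ((Finset.univ : Finset (Equiv.Perm (Fin n))).card • f) := by
    rw [nsmul_eq_mul, ← mul_assoc, ← map_natCast (C : ℂ →+* MvPolynomial (Fin r × Fin n) ℂ),
      ← map_mul, inv_mul_cancel₀ hc, map_one, one_mul]
  rw [e2]
  exact I.mul_mem_left _ h1

end MDH
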