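import Pool.Agent.MDH.St

/-!
# MDH, module ACT: elementary properties of the action and of the grading (helper58)
-/

set_option autoImplicit false

open MvPolynomial

namespace MDH

section
variable {d n : ℕ}

theorem ACT_apply (w : Equiv.Perm (Fin n)) (c : T d n) (j : Fin d → Fin n) :
    actT d n w c j = rename w (c (fun a => w⁻¹ (j a))) := rfl

theorem ACT_hc_apply (i : ℕ) (c : T d n) (j : Fin d → Fin n) :
    hc i c j = homogeneousComponent i (c j) := rfl

theorem ACT_mul (w : Equiv.Perm (Fin n)) (c c' : T d n) :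
    actT d n w (c * c') = actT d n w c * actT d n w c' := by
  funext j
  rw [Pi.mul_apply, ACT_apply, ACT_apply, ACT_apply, Pi.mul_apply, map_mul]

theorem ACT_smul (w : Equiv.Perm (Fin n)) (s : S n) (c : T d n) :
    actT d n w (s • c) = (rename w s) • actT d n w c := by
  funext j
  rw [Pi.smul_apply, ACT_apply, ACT_apply, Pi.smul_apply, smul_eq_mul, smul_eq_mul, map_mul]

theorem ACT_th (m : ℕ) (w : Equiv.Perm (Fin n)) (k : Fin m) :
    actT d n w (thC d n m k) = thC d n m k := by
  funext j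
  rw [ACT_apply]
  exact rename_psum (Fin n) ℂ (k.val + 1) w

theorem ACT_cpl (w : Equiv.Perm (Fin n)) (j : Fin d → Fin n) :
    (cpl (fun a => w⁻¹ (j a))).map w.toEmbedding = cpl j := by
  ext i
  rw [Finset.mem_map_equiv]
  unfold cpl
  rw [Finset.mem_filter, Finset.mem_filter]
  constructor
  · rintro ⟨-, h⟩
    refine ⟨Finset.mem_univ _, fun a ha => h a ?_⟩
    exact congrArg w.symm ha
  · rintro ⟨-, h⟩
    refine ⟨Finset.mem_univ _, fun a ha => h a ?_⟩
    have h1 : w (w⁻¹ (j a)) = w (w.symm i) := congrArg w ha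
    rw [Equiv.apply_symm_apply] at h1
    rw [← h1]
    exact (w.apply_symm_apply (j a)).symm

theorem ACT_ep (m : ℕ) (w : Equiv.Perm (Fin n)) (k : Fin m) :
    actT d n w (epC d n m k) = epC d n m k := by
  funext j
  rw [ACT_apply]
  unfold epC
  rw [← ACT_cpl w j, Finset.powersetCard_map, Finset.sum_map, map_sum]
  refine Finset.sum_congr rfl fun t _ => ?_
  rw [map_prod]
  change _ = ∏ i ∈ t.map w.toEmbedding, (X i : S n)
  rw [Finset.prod_map]
  refine Finset.prod_congr rfl fun i _ => ?_
  rw [rename_X]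
  rfl

theorem ACT_thhom (m : ℕ) (k : Fin m) (j : Fin d → Fin n) :
    (thC d n m k j).IsHomogeneous (k.val + 1) := by
  change (∑ i : Fin n, (X i : S n) ^ (k.val + 1)).IsHomogeneous (k.val + 1)
  exact IsHomogeneous.sum _ _ _ fun i _ => isHomogeneous_X_pow i _

theorem ACT_ephom (m : ℕ) (k : Fin m) (j : Fin d → Fin n) :
    (epC d n m k j).IsHomogeneous (k.val + 1) := by
  unfold epC
  refine IsHomogeneous.sum _ _ _ fun t ht => ?_
  have h1 := IsHomogeneous.prod t (fun i => (X i : S n)) (fun _ => 1)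
    fun i _ => isHomogeneous_X ℂ i
  rw [Finset.sum_const, smul_eq_mul, mul_one, (Finset.mem_powersetCard.1 ht).2] at h1
  exact h1

theorem ACT_fd (i : ℕ) (w : Equiv.Perm (Fin n)) (c : T d n) (hc : c ∈ Fd d n i) :
    actT d n w c ∈ Fd d n i := by
  intro j
  rw [ACT_apply]
  exact (totalDegree_rename_le _ _).trans (hc _)

/-- homogeneous components of a product with a homogeneous polynomial -/
theorem ACT_hcm {q : ℕ} {x : S n} (hx : x.IsHomogeneous q) (p : S n) (i : ℕ) :
    homogeneousComponent i (p * x) =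
      if q ≤ i then homogeneousComponent (i - q) p * x else 0 := by
  have h1 : p * x = ∑ l ∈ Finset.range (p.totalDegree + 1), homogeneousComponent l p * x := by
    rw [← Finset.sum_mul, sum_homogeneousComponent]
  have h2 : ∀ l, homogeneousComponent i (homogeneousComponent l p * x) =
      if i = l + q then homogeneousComponent l p * x else 0 := fun l =>
    homogeneousComponent_of_mem ((homogeneousComponent_isHomogeneous l p).mul hx)
  conv_lhs => rw [h1, map_sum]
  rw [Finset.sum_congr rfl fun l _ => h2 l]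
  by_cases hqi : q ≤ i
  · rw [if_pos hqi, Finset.sum_eq_single (i - q)]
    · rw [if_pos (by omega)]
    · intro l _ hl
      rw [if_neg (by omega)]
    · intro h
      rw [Finset.mem_range, not_lt] at h
      rw [homogeneousComponent_eq_zero (i - q) p (by omega), zero_mul]
      split_ifs <;> rfl
  · rw [if_neg hqi]
    refine Finset.sum_eq_zero fun l _ => ?_
    rw [if_neg (by omega)]

theorem ACT_rename_hc (w : Equiv.Perm (Fin n)) (i : ℕ) (p : S n) :
    rename w (homogeneousComponent i p) = homogeneousComponent i (rename w p) := by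
  have h1 : p = ∑ l ∈ Finset.range (p.totalDegree + 1), homogeneousComponent l p :=
    (sum_homogeneousComponent p).symm
  conv_rhs => rw [h1, map_sum, map_sum]
  have h2 : ∀ l, homogeneousComponent i (rename w (homogeneousComponent l p)) =
      if i = l then rename w (homogeneousComponent l p) else 0 := fun l =>
    homogeneousComponent_of_mem ((homogeneousComponent_isHomogeneous l p).rename_isHomogeneous)
  rw [Finset.sum_congr rfl fun l _ => h2 l, Finset.sum_ite_eq]
  split_ifs with h
  · rfl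
  · rw [Finset.mem_range, not_lt] at h
    rw [homogeneousComponent_eq_zero i p (by omega), map_zero]

theorem ACT_hcact (i : ℕ) (w : Equiv.Perm (Fin n)) (c : T d n) :
    actT d n w (hc i c) = hc i (actT d n w c) := by
  funext j
  rw [ACT_apply, ACT_hc_apply, ACT_hc_apply, ACT_apply, ACT_rename_hc]

theorem ACT_hcmT {q : ℕ} {x : T d n} (hx : ∀ j, (x j).IsHomogeneous q) (p : T d n) (i : ℕ) :
    hc i (p * x) = if q ≤ i then hc (i - q) p * x else 0 := by
  funext j
  rw [ACT_hc_apply, Pi.mul_apply, ACT_hcm (hx j)]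
  split_ifs with h
  · rw [Pi.mul_apply, ACT_hc_apply]
  · rfl

theorem ACT_hcsm {q : ℕ} {x : T d n} (hx : ∀ j, (x j).IsHomogeneous q) (s : S n) (i : ℕ) :
    hc i (s • x) = if q ≤ i then homogeneousComponent (i - q) s • x else 0 := by
  funext j
  rw [ACT_hc_apply, Pi.smul_apply, smul_eq_mul, ACT_hcm (hx j)]
  split_ifs with h
  · rw [Pi.smul_apply, smul_eq_mul]
  · rfl

theorem ACT_u (w : Equiv.Perm (Fin n)) (j : Fin d → Fin n) :
    actT d n w (u j) = u (fun a => w (j a)) := by
  funext j'
  rw [ACT_apply]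
  unfold u
  by_cases h : j' = fun a => w (j a)
  · have h1 : (fun a => w⁻¹ (j' a)) = j := by
      rw [h]
      funext a
      exact w.symm_apply_apply (j a)
    rw [h1, h, Pi.single_eq_same, Pi.single_eq_same, map_one]
  · have h1 : (fun a => w⁻¹ (j' a)) ≠ j := by
      intro h2
      apply h
      rw [← h2]
      funext a
      exact (w.apply_symm_apply (j' a)).symm
    rw [Pi.single_eq_of_ne h1, Pi.single_eq_of_ne h, map_zero]

theorem ACT_rho1 (w : Equiv.Perm (Fin n)) (a : Fin d) (j : Fin d → Fin n) (k : ℕ) :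
    actT d n w (rho1 a j k) = rho1 a (fun b => w (j b)) k := by
  unfold rho1
  rw [map_sum]
  conv_rhs => rw [← Equiv.sum_comp w]
  refine Finset.sum_congr rfl fun i _ => ?_
  rw [ACT_smul, ACT_u, map_pow, rename_X]
  congr 2
  funext b
  by_cases h : b = a
  · rw [h, Function.update_self, Function.update_self]
  · rw [Function.update_of_ne h, Function.update_of_ne h]

theorem ACT_rho2 (w : Equiv.Perm (Fin n)) (τ : Equiv.Perm (Fin d)) (j : Fin d → Fin n) :
    actT d n w (rho2 τ j) = rho2 τ (fun b => w (j b)) := by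
  unfold rho2
  rw [map_sub, map_smul, ACT_u, ACT_u]
  rfl

theorem ACT_uhom (j j' : Fin d → Fin n) : (u j j').IsHomogeneous 0 := by
  unfold u
  by_cases h : j' = j
  · rw [h, Pi.single_eq_same]
    exact isHomogeneous_one _ _
  · rw [Pi.single_eq_of_ne h]
    exact isHomogeneous_zero _ _ _

theorem ACT_rho1hom (a : Fin d) (j : Fin d → Fin n) (k : ℕ) (j' : Fin d → Fin n) :
    (rho1 a j k j').IsHomogeneous k := by
  unfold rho1
  rw [Finset.sum_apply]
  refine IsHomogeneous.sum _ _ _ fun i _ => ?_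
  rw [Pi.smul_apply, smul_eq_mul]
  exact (isHomogeneous_X_pow i k).mul (ACT_uhom _ _)

theorem ACT_rho2hom (τ : Equiv.Perm (Fin d)) (j : Fin d → Fin n) (j' : Fin d → Fin n) :
    (rho2 τ j j').IsHomogeneous 0 := by
  unfold rho2
  rw [Pi.sub_apply, Pi.smul_apply, smul_eq_C_mul]
  exact (ACT_uhom _ _).sub ((ACT_uhom _ _).C_mul _)

theorem ACT_stab : IsStab ((Rel d n).restrictScalars ℂ) := by
  intro w c hc
  rw [Submodule.restrictScalars_mem] at hc ⊢
  refine Submodule.span_induction (p := fun c _ => actT d n w c ∈ Rel d n) ?_ ?_ ?_ ?_ hc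
  · rintro x (⟨a, j, k, rfl⟩ | ⟨τ, j, rfl⟩)
    · rw [ACT_rho1]
      exact Submodule.subset_span (Or.inl ⟨_, _, _, rfl⟩)
    · rw [ACT_rho2]
      exact Submodule.subset_span (Or.inr ⟨_, _, rfl⟩)
  · rw [map_zero]
    exact Submodule.zero_mem _
  · intro x y _ _ hx hy
    rw [map_add]
    exact Submodule.add_mem _ hx hy
  · intro s x _ hx
    rw [ACT_smul]
    exact Submodule.smul_mem _ _ hx

/-- a homogeneous generator times a scalar -/
theorem ACT_gen {q : ℕ} {x : T d n} (hx : ∀ j, (x j).IsHomogeneous q) (hR : x ∈ Rel d n) (s : S n)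
    (i : ℕ) : hc i (s • x) ∈ Rel d n := by
  rw [ACT_hcsm hx]
  split_ifs
  · exact Submodule.smul_mem _ _ hR
  · exact Submodule.zero_mem _

theorem ACT_homog : IsHomog ((Rel d n).restrictScalars ℂ) := by
  intro c hc i
  rw [Submodule.restrictScalars_mem] at hc ⊢
  have key : ∀ s : S n, MDH.hc i (s • c) ∈ Rel d n := by
    refine Submodule.span_induction
      (p := fun c _ => ∀ s : S n, MDH.hc i (s • c) ∈ Rel d n) ?_ ?_ ?_ ?_ hc
    · rintro x (⟨a, j, k, rfl⟩ | ⟨τ, j, rfl⟩) s
      · exact ACT_gen (ACT_rho1hom a j k) (Submodule.subset_span (Or.inl ⟨_, _, _, rfl⟩)) s i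
      · exact ACT_gen (ACT_rho2hom τ j) (Submodule.subset_span (Or.inr ⟨_, _, rfl⟩)) s i
    · intro s
      rw [smul_zero, map_zero]
      exact Submodule.zero_mem _
    · intro x y _ _ hx hy s
      rw [smul_add, map_add]
      exact Submodule.add_mem _ (hx s) (hy s)
    · intro t x _ hx s
      rw [smul_smul]
      exact hx _
  have h1 := key 1
  rwa [one_smul] at h1

theorem ACT_lop {m : ℕ} (a : Fin m → T d n) (P : T d n → Prop)
    (hR : ∀ c ∈ Rel d n, P c) (hk : ∀ k c, P (a k * c)) (h0 : P 0)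
    (hadd : ∀ x y, P x → P y → P (x + y)) : ∀ c ∈ Lop a, P c := by
  intro c hc
  unfold Lop at hc
  obtain ⟨r, hr, t, ht, rfl⟩ := Submodule.mem_sup.1 hc
  refine hadd _ _ (hR r hr) ?_
  refine Submodule.iSup_induction _ (motive := fun t => P t) ht ?_ h0 hadd
  rintro k x ⟨y, rfl⟩
  exact hk k y

theorem ACT_mem_lop {m : ℕ} (a : Fin m → T d n) (k : Fin m) (c : T d n) : a k * c ∈ Lop a := by
  unfold Lop
  refine Submodule.mem_sup_right (Submodule.mem_iSup_of_mem k ?_)
  exact ⟨c, rfl⟩

theorem ACT_rel_lop {m : ℕ} (a : Fin m → T d n) {c : T d n} (h : c ∈ Rel d n) : c ∈ Lop a :=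
  Submodule.mem_sup_left h

theorem ACT_lopstab {m : ℕ} (a : Fin m → T d n) (ha : ∀ w k, actT d n w (a k) = a k) :
    IsStab ((Lop a).restrictScalars ℂ) := by
  intro w c hc
  rw [Submodule.restrictScalars_mem] at hc ⊢
  refine ACT_lop a (fun c => actT d n w c ∈ Lop a) ?_ ?_ ?_ ?_ c hc
  · intro c hc
    exact ACT_rel_lop a (ACT_stab w c hc)
  · intro k c
    rw [ACT_mul, ha]
    exact ACT_mem_lop a k _
  · rw [map_zero]
    exact Submodule.zero_mem _
  · intro x y hx hy
    rw [map_add]
    exact Submodule.add_mem _ hx hy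

theorem ACT_lophomog {m : ℕ} (a : Fin m → T d n)
    (ha : ∀ k j, (a k j).IsHomogeneous (k.val + 1)) : IsHomog ((Lop a).restrictScalars ℂ) := by
  intro c hc i
  rw [Submodule.restrictScalars_mem] at hc ⊢
  refine ACT_lop a (fun c => MDH.hc i c ∈ Lop a) ?_ ?_ ?_ ?_ c hc
  · intro c hc
    exact ACT_rel_lop a (ACT_homog c hc i)
  · intro k c
    rw [mul_comm, ACT_hcmT (ha k)]
    split_ifs
    · rw [mul_comm]
      exact ACT_mem_lop a k _
    · exact Submodule.zero_mem _
  · rw [map_zero]
    exact Submodule.zero_mem _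
  · intro x y hx hy
    rw [map_add]
    exact Submodule.add_mem _ hx hy

end

theorem thm_ACT : St_ACT :=
  ⟨fun _ _ => ACT_mul, fun _ _ => ACT_th, fun _ _ => ACT_ep, fun _ _ => ACT_thhom,
    fun _ _ => ACT_ephom, fun _ _ => ACT_fd, fun _ _ => ACT_hcact, fun _ _ => ACT_stab,
    fun _ _ => ACT_homog, fun _ _ _ => ACT_lopstab, fun _ _ _ => ACT_lophomog⟩

end MDH
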