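import Pool.Agent.MDH.St

/-!
# MDH, module ALT: the alternating sum over a stabiliser (helper87)
-/

set_option autoImplicit false

namespace MDH

theorem thm_ALT : St_ALT := by
  intro n κ F
  constructor
  · intro hF w hw
    refine Equiv.ext fun x => hF ?_
    exact congrFun hw x
  · intro hF s hs
    obtain ⟨a, b, hab, hne⟩ : ∃ a b, F a = F b ∧ a ≠ b := by
      unfold Function.Injective at hF
      push Not at hF
      exact hF
    have h2 : ∀ x, F (Equiv.swap a b x) = F x := by
      intro x
      by_cases h3 : x = a
      · subst h3
        rw [Equiv.swap_apply_left, hab]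
      · by_cases h4 : x = b
        · subst h4
          rw [Equiv.swap_apply_right, hab]
        · rw [Equiv.swap_apply_of_ne_of_ne h3 h4]
    refine Finset.sum_involution (fun w _ => w * Equiv.swap a b) ?_ ?_ ?_ ?_
    · intro w _
      rw [Equiv.Perm.sign_mul, Equiv.Perm.sign_swap hne]
      push_cast
      ring
    · intro w _ _ h
      have h3 : Equiv.swap a b = 1 := by
        have h4 : w * Equiv.swap a b = w * 1 := by rw [mul_one]; exact h
        exact mul_left_cancel h4
      have h5 : Equiv.swap a b a = a := by rw [h3]; rfl
      rw [Equiv.swap_apply_left] at h5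
      exact hne h5.symm
    · intro w hw
      rw [hs] at hw ⊢
      funext x
      show F (w (Equiv.swap a b x)) = F x
      have h3 : F (w (Equiv.swap a b x)) = F (Equiv.swap a b x) := congrFun hw _
      rw [h3, h2]
    · intro w _
      show w * Equiv.swap a b * Equiv.swap a b = w
      rw [mul_assoc, Equiv.swap_mul_self, mul_one]

end MDH
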