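import Pool.Agent.MDH.St

/-!
# MDH / CMS: the sum over the pairs (surjection, function)
-/

set_option autoImplicit false

open MvPolynomial

namespace MDH

/-- the injective functions with a given image -/
theorem cms_card {α : Type} [Fintype α] [DecidableEq α] {n : ℕ} {A : Finset α}
    (hA : A.card = n) :
    ((Finset.univ : Finset (Fin n → α)).filter
      (fun F => Function.Injective F ∧ Finset.univ.image F = A)).card = n.factorial := by
  have h1 : (Finset.univ : Finset (Fin n ≃ A)).card = n.factorial := by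
    rw [Finset.card_univ, Fintype.card_equiv (Finset.equivFinOfCardEq hA).symm, Fintype.card_fin]
  rw [← h1]
  symm
  refine Finset.card_bij (fun e _ => fun x => (e x : α)) ?_ ?_ ?_
  · intro e _
    rw [Finset.mem_filter]
    refine ⟨Finset.mem_univ _, Subtype.val_injective.comp e.injective, ?_⟩
    ext a
    rw [Finset.mem_image]
    constructor
    · rintro ⟨x, -, rfl⟩
      exact (e x).2
    · intro ha
      exact ⟨e.symm ⟨a, ha⟩, Finset.mem_univ _, by rw [Equiv.apply_symm_apply]⟩
  · intro e _ e' _ h
    apply Equiv.ext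
    intro x
    exact Subtype.ext (congrFun h x)
  · intro F hF
    rw [Finset.mem_filter] at hF
    obtain ⟨-, hF1, hF2⟩ := hF
    have hmem : ∀ x, F x ∈ A := fun x => by
      rw [← hF2]
      exact Finset.mem_image_of_mem F (Finset.mem_univ x)
    refine ⟨Equiv.ofBijective (fun x => ⟨F x, hmem x⟩) ⟨?_, ?_⟩, Finset.mem_univ _, rfl⟩
    · intro x y hxy
      exact hF1 (congrArg Subtype.val hxy)
    · rintro ⟨a, ha⟩
      rw [← hF2, Finset.mem_image] at ha
      obtain ⟨x, -, hx⟩ := ha
      exact ⟨x, Subtype.ext hx⟩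

/-- sums over injective functions are sums over subsets -/
theorem cms_inj {α R : Type} [Fintype α] [DecidableEq α] [CommSemiring R] (n : ℕ)
    (φ : Finset α → R) :
    ∑ F ∈ (Finset.univ : Finset (Fin n → α)).filter (fun F => Function.Injective F),
      φ (Finset.univ.image F) =
    (n.factorial : R) * ∑ A ∈ Finset.powersetCard n (Finset.univ : Finset α), φ A := by
  rw [← Finset.sum_fiberwise_of_maps_to (g := fun F : Fin n → α => Finset.univ.image F)
    (t := Finset.powersetCard n (Finset.univ : Finset α)), Finset.mul_sum]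
  · refine Finset.sum_congr rfl fun A hA => ?_
    rw [Finset.mem_powersetCard] at hA
    rw [Finset.filter_filter]
    have h1 : ∀ F ∈ (Finset.univ : Finset (Fin n → α)).filter
        (fun F => Function.Injective F ∧ Finset.univ.image F = A),
        φ (Finset.univ.image F) = φ A := by
      intro F hF
      rw [(Finset.mem_filter.1 hF).2.2]
    rw [Finset.sum_congr rfl h1, Finset.sum_const, cms_card hA.2, nsmul_eq_mul]
  · intro F hF
    rw [Finset.mem_filter] at hF
    rw [Finset.mem_powersetCard]
    refine ⟨Finset.subset_univ _, ?_⟩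
    rw [Finset.card_image_of_injective _ hF.2, Finset.card_univ, Fintype.card_fin]

/-- a list as a function -/
theorem cms_list {m : ℕ} (L : List ℕ) (h : L.length = m) :
    L = List.ofFn (fun l : Fin m => L.getD l 0) := by
  subst h
  refine List.ext_getElem (by simp) fun i h1 h2 => ?_
  rw [List.getElem_ofFn]
  exact (List.getD_eq_getElem L 0 h1).symm

/-- sums over the compositions -/
theorem cms_comp {R : Type} [CommSemiring R] (n m : ℕ) (e : ℕ → R) :
    ∑ c ∈ (Finset.univ : Finset (Composition n)).filter (fun c => c.length = m),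
      (c.blocks.map e).prod =
    ∑ c ∈ (Finset.univ : Finset (Fin m → Fin (n + 1))).filter
      (fun c => (∀ l, 0 < (c l : ℕ)) ∧ ∑ l, (c l : ℕ) = n), ∏ l, e (c l) := by
  symm
  refine Finset.sum_bij (fun c hc => (⟨List.ofFn (fun l => (c l : ℕ)), ?_, ?_⟩ : Composition n))
    ?_ ?_ ?_ ?_
  · intro i hi
    rw [List.mem_ofFn] at hi
    obtain ⟨l, rfl⟩ := hi
    exact (Finset.mem_filter.1 hc).2.1 l
  · rw [List.sum_ofFn]
    exact (Finset.mem_filter.1 hc).2.2
  · intro c hc
    rw [Finset.mem_filter]
    refine ⟨Finset.mem_univ _, ?_⟩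
    exact List.length_ofFn
  · intro c hc c' hc' h
    have h1 := congrArg Composition.blocks h
    have h2 := List.ofFn_injective h1
    funext l
    exact Fin.ext (congrFun h2 l)
  · intro c hc
    have hc2 : c.blocks.length = m := (Finset.mem_filter.1 hc).2
    have hle : ∀ l : Fin m, c.blocks.getD l 0 < n + 1 := by
      intro l
      have h1 : (l : ℕ) < c.blocks.length := by rw [hc2]; exact l.2
      rw [List.getD_eq_getElem _ _ h1]
      have h2 := List.single_le_sum (fun x _ => Nat.zero_le x) _ (List.getElem_mem h1)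
      rw [c.blocks_sum] at h2
      omega
    refine ⟨fun l => ⟨c.blocks.getD l 0, hle l⟩, ?_, ?_⟩
    · rw [Finset.mem_filter]
      refine ⟨Finset.mem_univ _, fun l => ?_, ?_⟩
      · have h1 : (l : ℕ) < c.blocks.length := by rw [hc2]; exact l.2
        show 0 < c.blocks.getD l 0
        rw [List.getD_eq_getElem _ _ h1]
        exact c.blocks_pos (List.getElem_mem h1)
      · show ∑ l : Fin m, c.blocks.getD l 0 = n
        rw [← List.sum_ofFn, ← cms_list _ hc2, c.blocks_sum]
    · apply Composition.ext
      exact (cms_list _ hc2).symm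
  · intro c hc
    show ∏ l, e (c l) = ((List.ofFn (fun l => (c l : ℕ))).map e).prod
    rw [List.map_ofFn, List.prod_ofFn]
    rfl

/-- subsets of the product -/
theorem cms_sub {m N : ℕ} {R : Type} [CommSemiring R] (ψ : (Fin m → Finset (Fin N)) → R) (n : ℕ) :
    ∑ A ∈ Finset.powersetCard n (Finset.univ : Finset (Fin m × Fin N)),
      ψ (fun l => Finset.univ.filter (fun x => (l, x) ∈ A)) =
    ∑ B ∈ (Finset.univ : Finset (Fin m → Finset (Fin N))).filter
      (fun B => ∑ l, (B l).card = n), ψ B := by
  have hcard : ∀ A : Finset (Fin m × Fin N),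
      ∑ l, (Finset.univ.filter (fun x => (l, x) ∈ A)).card = A.card := by
    intro A
    have h1 : ∀ l : Fin m, (Finset.univ.filter (fun x => (l, x) ∈ A)).card =
        ∑ x : Fin N, if (l, x) ∈ A then 1 else 0 := by
      intro l
      rw [Finset.card_filter]
    rw [Finset.sum_congr rfl fun l _ => h1 l, ← Fintype.sum_prod_type' (f := fun l x =>
      if (l, x) ∈ A then 1 else 0), ← Finset.card_filter]
    simp
  refine Finset.sum_nbij' (fun A => fun l => Finset.univ.filter (fun x => (l, x) ∈ A))
    (fun B => Finset.univ.filter (fun p => p.2 ∈ B p.1)) ?_ ?_ ?_ ?_ ?_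
  · intro A hA
    rw [Finset.mem_powersetCard] at hA
    rw [Finset.mem_filter]
    refine ⟨Finset.mem_univ _, ?_⟩
    rw [hcard, hA.2]
  · intro B hB
    rw [Finset.mem_filter] at hB
    rw [Finset.mem_powersetCard]
    refine ⟨Finset.subset_univ _, ?_⟩
    rw [← hcard, ← hB.2]
    refine Finset.sum_congr rfl fun l _ => ?_
    simp
  · intro A _
    ext ⟨l, x⟩
    simp
  · intro B _
    funext l
    ext x
    simp
  · intro A _
    rfl

/-- sums over families of non-empty subsets -/
theorem cms_fam (n m N : ℕ) :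
    ∑ B ∈ (Finset.univ : Finset (Fin m → Finset (Fin N))).filter
      (fun B => ∑ l, (B l).card = n), (if ∀ l, (B l).Nonempty then
        ∏ l, ∏ x ∈ B l, (X x : MvPolynomial (Fin N) ℂ) else 0) =
    ∑ c ∈ (Finset.univ : Finset (Fin m → Fin (n + 1))).filter
      (fun c => (∀ l, 0 < (c l : ℕ)) ∧ ∑ l, (c l : ℕ) = n), ∏ l, esymm (Fin N) ℂ (c l) := by
  rw [← Finset.sum_filter, Finset.filter_filter]
  have hlt : ∀ B : Fin m → Finset (Fin N), (∑ l, (B l).card = n) → ∀ l, (B l).card < n + 1 := by
    intro B hB l
    have := Finset.single_le_sum (f := fun l => (B l).card) (fun _ _ => Nat.zero_le _)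
      (Finset.mem_univ l)
    have h2 : (B l).card ≤ ∑ l, (B l).card := this
    omega
  rw [← Finset.sum_fiberwise_of_maps_to
    (g := fun B : Fin m → Finset (Fin N) => fun l => (⟨min (B l).card n, by omega⟩ : Fin (n + 1)))
    (t := (Finset.univ : Finset (Fin m → Fin (n + 1))).filter
      (fun c => (∀ l, 0 < (c l : ℕ)) ∧ ∑ l, (c l : ℕ) = n))]
  · refine Finset.sum_congr rfl fun c hc => ?_
    rw [Finset.mem_filter] at hc
    have h1 : ∏ l, esymm (Fin N) ℂ (c l) = ∑ B ∈ Fintype.piFinset
        (fun l => Finset.powersetCard (c l : ℕ) (Finset.univ : Finset (Fin N))),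
        ∏ l, ∏ x ∈ B l, (X x : MvPolynomial (Fin N) ℂ) := by
      unfold esymm
      rw [Finset.prod_univ_sum]
    rw [h1]
    refine Finset.sum_congr ?_ fun B _ => rfl
    ext B
    rw [Finset.mem_filter, Finset.mem_filter, Fintype.mem_piFinset]
    simp only [Finset.mem_powersetCard, Finset.subset_univ, true_and, Finset.mem_univ]
    constructor
    · rintro ⟨⟨hB1, -⟩, hB2⟩ l
      have h2 := congrArg Fin.val (congrFun hB2 l)
      have h3 := hlt B hB1 l
      have h4 : min (B l).card n = (c l : ℕ) := h2
      omega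
    · intro hB
      refine ⟨⟨?_, ?_⟩, ?_⟩
      · rw [← hc.2.2]
        exact Finset.sum_congr rfl fun l _ => hB l
      · intro l
        rw [← Finset.card_pos, hB l]
        exact hc.2.1 l
      · funext l
        apply Fin.ext
        show min (B l).card n = (c l : ℕ)
        rw [hB l]
        have := (c l).2
        omega
  · intro B hB
    rw [Finset.mem_filter] at hB
    rw [Finset.mem_filter]
    refine ⟨Finset.mem_univ _, fun l => ?_, ?_⟩
    · show 0 < min (B l).card n
      have h3 := hlt B hB.2.1 l
      have h4 := Finset.card_pos.2 (hB.2.2 l)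
      omega
    · show ∑ l, min (B l).card n = n
      rw [← hB.2.1]
      refine Finset.sum_congr rfl fun l _ => ?_
      have h3 := hlt B hB.2.1 l
      rw [hB.2.1]
      omega

/-- CMS. -/
theorem thm_CMS : St_CMS := by
  classical
  intro n m N
  rw [cms_comp, ← cms_fam, ← cms_sub (fun B => if ∀ l, (B l).Nonempty then
    ∏ l, ∏ x ∈ B l, (X x : MvPolynomial (Fin N) ℂ) else 0)]
  have h1 : ((n.factorial : ℂ) : ℂ) • ∑ A ∈ Finset.powersetCard n
      (Finset.univ : Finset (Fin m × Fin N)), (if ∀ l : Fin m, ((Finset.univ : Finset (Fin N)).filter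
        (fun x => (l, x) ∈ A)).Nonempty then
      ∏ l : Fin m, ∏ x ∈ (Finset.univ : Finset (Fin N)).filter (fun x => (l, x) ∈ A),
        (X x : MvPolynomial (Fin N) ℂ) else 0) =
      ((n.factorial : ℕ) : MvPolynomial (Fin N) ℂ) * ∑ A ∈ Finset.powersetCard n
      (Finset.univ : Finset (Fin m × Fin N)), (if ∀ l : Fin m, ((Finset.univ : Finset (Fin N)).filter
        (fun x => (l, x) ∈ A)).Nonempty then
      ∏ l : Fin m, ∏ x ∈ (Finset.univ : Finset (Fin N)).filter (fun x => (l, x) ∈ A),
        (X x : MvPolynomial (Fin N) ℂ) else 0) := by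
    rw [MvPolynomial.smul_eq_C_mul, map_natCast]
  refine Eq.trans ?_ h1.symm
  rw [← cms_inj n (fun A : Finset (Fin m × Fin N) => if ∀ l : Fin m,
    ((Finset.univ : Finset (Fin N)).filter (fun x => (l, x) ∈ A)).Nonempty then
      ∏ l : Fin m, ∏ x ∈ (Finset.univ : Finset (Fin N)).filter (fun x => (l, x) ∈ A),
        (X x : MvPolynomial (Fin N) ℂ) else 0)]
  rw [Finset.sum_filter, ← Equiv.sum_comp (Equiv.arrowProdEquivProdArrow (Fin n)
    (fun _ => Fin m) (fun _ => Fin N)).symm, Fintype.sum_prod_type]
  rw [← Finset.sum_subtype ((Finset.univ : Finset (Fin n → Fin m)).filter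
    (fun f => Function.Surjective f)) (p := fun f => Function.Surjective f)
    (f := fun f => ∑ g ∈ (Finset.univ : Finset (Fin n → Fin N)).filter
        (fun g => Function.Injective (fun i => (f i, g i))),
        ∏ i, (X (g i) : MvPolynomial (Fin N) ℂ)) (fun f => by simp), Finset.sum_filter]
  refine Finset.sum_congr rfl fun f _ => ?_
  have himg : ∀ g : Fin n → Fin N, ∀ l : Fin m,
      (((Finset.univ : Finset (Fin N)).filter (fun x => (l, x) ∈
        Finset.univ.image (fun i => (f i, g i)))).Nonempty ↔ ∃ i, f i = l) := by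
    intro g l
    constructor
    · rintro ⟨x, hx⟩
      rw [Finset.mem_filter, Finset.mem_image] at hx
      obtain ⟨-, i, -, hi⟩ := hx
      exact ⟨i, (Prod.mk.inj hi).1⟩
    · rintro ⟨i, rfl⟩
      exact ⟨g i, Finset.mem_filter.2 ⟨Finset.mem_univ _, Finset.mem_image.2
        ⟨i, Finset.mem_univ _, rfl⟩⟩⟩
  have hprod : ∀ g : Fin n → Fin N, Function.Injective (fun i => (f i, g i)) →
      ∏ l : Fin m, ∏ x ∈ (Finset.univ : Finset (Fin N)).filter (fun x => (l, x) ∈
        Finset.univ.image (fun i => (f i, g i))), (X x : MvPolynomial (Fin N) ℂ) =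
      ∏ i, X (g i) := by
    intro g hg
    have h2 : ∀ l : Fin m, ∏ x ∈ (Finset.univ : Finset (Fin N)).filter (fun x => (l, x) ∈
        Finset.univ.image (fun i => (f i, g i))), (X x : MvPolynomial (Fin N) ℂ) =
        ∏ x : Fin N, if (l, x) ∈ Finset.univ.image (fun i => (f i, g i)) then
          (X x : MvPolynomial (Fin N) ℂ) else 1 := by
      intro l
      rw [Finset.prod_filter]
    rw [Finset.prod_congr rfl fun l _ => h2 l, ← Fintype.prod_prod_type' (f := fun l x =>
      if (l, x) ∈ Finset.univ.image (fun i => (f i, g i)) then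
          (X x : MvPolynomial (Fin N) ℂ) else 1), ← Finset.prod_filter]
    have h3 : (Finset.univ : Finset (Fin m × Fin N)).filter (fun p => (p.1, p.2) ∈
        Finset.univ.image (fun i => (f i, g i))) = Finset.univ.image (fun i => (f i, g i)) := by
      ext p
      simp
    rw [h3, Finset.prod_image fun a _ b _ hab => hg hab]
  by_cases hf : Function.Surjective f
  · rw [if_pos hf, Finset.sum_filter]
    refine Finset.sum_congr rfl fun g _ => ?_
    by_cases hg : Function.Injective (fun i => (f i, g i))
    · have hg' : Function.Injective ((Equiv.arrowProdEquivProdArrow (Fin n)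
        (fun _ => Fin m) (fun _ => Fin N)).symm (f, g)) := hg
      rw [if_pos hg, if_pos hg']
      have h4 : ∀ l : Fin m, (((Finset.univ : Finset (Fin N)).filter (fun x => (l, x) ∈
        Finset.univ.image ((Equiv.arrowProdEquivProdArrow (Fin n)
        (fun _ => Fin m) (fun _ => Fin N)).symm (f, g)))).Nonempty) :=
        fun l => (himg g l).2 (hf l)
      rw [if_pos h4]
      exact (hprod g hg).symm
    · have hg' : ¬ Function.Injective ((Equiv.arrowProdEquivProdArrow (Fin n)
        (fun _ => Fin m) (fun _ => Fin N)).symm (f, g)) := hg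
      rw [if_neg hg, if_neg hg']
  · rw [if_neg hf]
    symm
    refine Finset.sum_eq_zero fun g _ => ?_
    split_ifs with h5 h6
    · exact absurd (fun l => (himg g l).1 (h6 l)) hf
    · rfl
    · rfl

end MDH
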