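import Pool.Agent.MDH.St

/-!
# MDH / CNT: the counting identity (helper40)
-/

set_option autoImplicit false

open MvPolynomial

namespace MDH

open Finset

/-! ### Surjections -/

theorem CNT_surj_zero : Nat.card (Surj 0 0) = 1 := by
  have h : Nonempty (Unique (Surj 0 0)) := by
    refine ⟨⟨⟨fun i => i, fun i => i.elim0⟩⟩, fun f => ?_⟩
    apply Subtype.ext
    funext i
    exact i.elim0
  obtain ⟨h⟩ := h
  exact Nat.card_unique

theorem CNT_surj_target_zero (n : ℕ) : Nat.card (Surj (n + 1) 0) = 0 := by
  have : IsEmpty (Surj (n + 1) 0) := ⟨fun f => (f.1 0).elim0⟩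
  exact Nat.card_of_isEmpty

theorem CNT_surj_lt (n : ℕ) : Nat.card (Surj n (n + 1)) = 0 := by
  have : IsEmpty (Surj n (n + 1)) := ⟨fun f => by
    have h := Fintype.card_le_of_surjective f.1 f.2
    rw [Fintype.card_fin, Fintype.card_fin] at h
    omega⟩
  exact Nat.card_of_isEmpty

/-- the map which adds a first value -/
noncomputable def CNT_map (n m : ℕ) (p : Fin (m + 1) × (Surj n (m + 1) ⊕ Surj n m)) :
    Surj (n + 1) (m + 1) :=
  match p with
  | (c, Sum.inl g) => ⟨Fin.cons c g.1, fun y => by
      obtain ⟨i, hi⟩ := g.2 y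
      exact ⟨i.succ, by rw [Fin.cons_succ]; exact hi⟩⟩
  | (c, Sum.inr g) => ⟨Fin.cons c (fun i => c.succAbove (g.1 i)), fun y => by
      by_cases hy : y = c
      · exact ⟨0, by rw [Fin.cons_zero]; exact hy.symm⟩
      · obtain ⟨z, hz⟩ := Fin.exists_succAbove_eq hy
        obtain ⟨i, hi⟩ := g.2 z
        exact ⟨i.succ, by rw [Fin.cons_succ, hi]; exact hz⟩⟩

theorem CNT_map_inl (n m : ℕ) (c : Fin (m + 1)) (g : Surj n (m + 1)) :
    (CNT_map n m (c, Sum.inl g)).1 = Fin.cons c g.1 := rfl

theorem CNT_map_inr (n m : ℕ) (c : Fin (m + 1)) (g : Surj n m) :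
    (CNT_map n m (c, Sum.inr g)).1 = Fin.cons c (fun i => c.succAbove (g.1 i)) := rfl

theorem CNT_bij (n m : ℕ) : Function.Bijective (CNT_map n m) := by
  constructor
  · rintro ⟨c, g | g⟩ ⟨c', g' | g'⟩ h
    · have h1 := congrArg Subtype.val h
      rw [CNT_map_inl, CNT_map_inl] at h1
      have h2 : c = c' := by simpa using congrFun h1 0
      have h3 : g = g' := Subtype.ext (funext fun i => by simpa using congrFun h1 i.succ)
      rw [h2, h3]
    · exfalso
      have h1 := congrArg Subtype.val h
      rw [CNT_map_inl, CNT_map_inr] at h1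
      have h3 : ∀ i, g.1 i = c'.succAbove (g'.1 i) := fun i => by simpa using congrFun h1 i.succ
      obtain ⟨i, hi⟩ := g.2 c'
      exact Fin.succAbove_ne _ _ ((h3 i).symm.trans hi)
    · exfalso
      have h1 := congrArg Subtype.val h
      rw [CNT_map_inl, CNT_map_inr] at h1
      have h3 : ∀ i, c.succAbove (g.1 i) = g'.1 i := fun i => by simpa using congrFun h1 i.succ
      obtain ⟨i, hi⟩ := g'.2 c
      exact Fin.succAbove_ne _ _ ((h3 i).trans hi)
    · have h1 := congrArg Subtype.val h
      rw [CNT_map_inr, CNT_map_inr] at h1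
      have h2 : c = c' := by simpa using congrFun h1 0
      subst h2
      have h3 : g = g' := Subtype.ext (funext fun i => by
        have h4 : c.succAbove (g.1 i) = c.succAbove (g'.1 i) := by simpa using congrFun h1 i.succ
        exact Fin.succAbove_right_injective h4)
      rw [h3]
  · rintro ⟨f, hf⟩
    by_cases hs : Function.Surjective (Fin.tail f)
    · refine ⟨(f 0, Sum.inl ⟨Fin.tail f, hs⟩), Subtype.ext ?_⟩
      rw [CNT_map_inl]
      exact Fin.cons_self_tail f
    · have hc : ∀ i, Fin.tail f i ≠ f 0 := by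
        intro i hi
        apply hs
        intro y
        obtain ⟨k, hk⟩ := hf y
        rcases Fin.eq_zero_or_eq_succ k with h0 | ⟨l, h0⟩
        · exact ⟨i, by rw [hi, ← h0]; exact hk⟩
        · exact ⟨l, by rw [Fin.tail, ← h0]; exact hk⟩
      choose g hg using fun i => Fin.exists_succAbove_eq (hc i)
      have hgs : Function.Surjective g := by
        intro y
        obtain ⟨k, hk⟩ := hf ((f 0).succAbove y)
        rcases Fin.eq_zero_or_eq_succ k with h0 | ⟨l, h0⟩
        · exfalso
          rw [h0] at hk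
          exact Fin.succAbove_ne _ _ hk.symm
        · refine ⟨l, ?_⟩
          have h5 : (f 0).succAbove (g l) = (f 0).succAbove y := by
            rw [hg l, Fin.tail, ← h0]
            exact hk
          exact Fin.succAbove_right_injective h5
      refine ⟨(f 0, Sum.inr ⟨g, hgs⟩), Subtype.ext ?_⟩
      rw [CNT_map_inr]
      funext k
      rcases Fin.eq_zero_or_eq_succ k with h0 | ⟨l, h0⟩
      · rw [h0, Fin.cons_zero]
      · rw [h0, Fin.cons_succ]
        exact hg l

theorem CNT_surj_succ (n m : ℕ) : Nat.card (Surj (n + 1) (m + 1)) =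
    (m + 1) * (Nat.card (Surj n (m + 1)) + Nat.card (Surj n m)) := by
  rw [← Nat.card_congr (Equiv.ofBijective _ (CNT_bij n m)), Nat.card_prod, Nat.card_sum,
    Nat.card_eq_fintype_card, Fintype.card_fin]

/-! ### The sums -/

/-- the sum over the subsets of `range n` -/
def CNT_B (n d : ℕ) : ℕ := ∑ J ∈ (range n).powersetCard d, ∏ j ∈ J, (range j \ J).card

theorem CNT_B_zero (n : ℕ) : CNT_B n 0 = 1 := by
  unfold CNT_B
  rw [powersetCard_zero, sum_singleton, prod_empty]

theorem CNT_B_lt (n : ℕ) : CNT_B n (n + 1) = 0 := by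
  unfold CNT_B
  rw [powersetCard_eq_empty.2 (by rw [card_range]; omega), sum_empty]

theorem CNT_B_succ (n d : ℕ) : CNT_B (n + 1) (d + 1) = CNT_B n (d + 1) + (n - d) * CNT_B n d := by
  unfold CNT_B
  rw [range_add_one, powersetCard_succ_insert notMem_range_self, sum_union]
  · congr 1
    rw [sum_image, mul_sum]
    · refine sum_congr rfl fun J hJ => ?_
      obtain ⟨hJ1, hJ2⟩ := mem_powersetCard.1 hJ
      have hn : n ∉ J := fun h => notMem_range_self (hJ1 h)
      rw [prod_insert hn]
      have h1 : range n \ insert n J = range n \ J := by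
        ext i
        simp only [mem_sdiff, mem_range, mem_insert, not_or]
        constructor
        · rintro ⟨h, h', h''⟩
          exact ⟨h, h''⟩
        · rintro ⟨h, h''⟩
          exact ⟨h, by omega, h''⟩
      congr 1
      · rw [h1, card_sdiff_of_subset hJ1, card_range, hJ2]
      · refine prod_congr rfl fun j hj => ?_
        have hjn := mem_range.1 (hJ1 hj)
        congr 1
        ext i
        simp only [mem_sdiff, mem_range, mem_insert, not_or]
        constructor
        · rintro ⟨h, h', h''⟩
          exact ⟨h, h''⟩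
        · rintro ⟨h, h''⟩
          exact ⟨h, by omega, h''⟩
    · intro J hJ J' hJ' h
      have hJ1 := (mem_powersetCard.1 hJ).1
      have hJ1' := (mem_powersetCard.1 hJ').1
      have hn : n ∉ J := fun h => notMem_range_self (hJ1 h)
      have hn' : n ∉ J' := fun h => notMem_range_self (hJ1' h)
      have h2 := congrArg (fun s => s.erase n) h
      simpa [erase_insert hn, erase_insert hn'] using h2
  · rw [disjoint_left]
    intro J hJ hJ'
    obtain ⟨J'', _, rfl⟩ := mem_image.1 hJ'
    exact notMem_range_self ((mem_powersetCard.1 hJ).1 (mem_insert_self n J''))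

theorem CNT_B_eq (n : ℕ) : ∀ d m : ℕ, d + m = n →
    CNT_B n d * m.factorial = Nat.card (Surj n m) := by
  induction n with
  | zero =>
    intro d m h
    obtain ⟨rfl, rfl⟩ : d = 0 ∧ m = 0 := by omega
    rw [CNT_B_zero, CNT_surj_zero]
    rfl
  | succ n ih =>
    intro d m h
    rcases m with _ | m
    · obtain rfl : d = n + 1 := by omega
      rw [CNT_surj_target_zero, CNT_B_succ, CNT_B_lt]
      simp
    · rw [CNT_surj_succ]
      rcases d with _ | d
      · obtain rfl : m = n := by omega
        rw [CNT_B_zero, CNT_surj_lt, ← ih 0 m (by omega), CNT_B_zero, Nat.factorial_succ]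
        ring
      · rw [CNT_B_succ, ← ih (d + 1) m (by omega), ← ih d (m + 1) (by omega)]
        have h1 : n - d = m + 1 := by omega
        rw [h1, Nat.factorial_succ]
        ring

theorem thm_CNT : St_CNT := by
  intro n d m h
  rw [← CNT_B_eq n d m h]
  congr 1
  unfold CNT_B
  have h1 : range n = (univ : Finset (Fin n)).map Fin.valEmbedding := by
    rw [Fin.map_valEmbedding_univ, Nat.Iio_eq_range]
  rw [h1, powersetCard_map, sum_map]
  refine sum_congr rfl fun J _ => ?_
  rw [RelEmbedding.coe_toEmbedding, mapEmbedding_apply, prod_map]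
  refine prod_congr rfl fun j _ => ?_
  rw [← card_map Fin.valEmbedding]
  congr 1
  ext i
  simp only [mem_map, mem_filter, mem_sdiff, mem_univ, true_and, mem_range,
    Fin.valEmbedding_apply]
  constructor
  · rintro ⟨a, ⟨ha, haj⟩, rfl⟩
    refine ⟨haj, ?_⟩
    rintro ⟨b, hb, hab⟩
    exact ha (by rwa [← Fin.ext hab])
  · rintro ⟨hi, hJ⟩
    refine ⟨⟨i, hi.trans j.2⟩, ⟨fun hh => hJ ⟨_, hh, rfl⟩, hi⟩, rfl⟩

end MDH
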