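import Pool.Agent.MDH.St

/-!
# MDH, module COM: homogeneous stable complements (helper35)
-/

set_option autoImplicit false

open MvPolynomial

namespace MDH

private theorem COM_act_mul {d n : ℕ} (v w : Equiv.Perm (Fin n)) (c : T d n) :
    actT d n (v * w) c = actT d n v (actT d n w c) := by
  funext j
  show rename (v * w) (c (fun a => (v * w)⁻¹ (j a))) = rename v (rename w (c (fun a => w⁻¹ (v⁻¹ (j a)))))
  rw [rename_rename]
  simp only [mul_inv_rev, Equiv.Perm.coe_mul, Function.comp_apply]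

private theorem COM_act_one {d n : ℕ} (c : T d n) : actT d n 1 c = c := by
  funext j
  show rename (1 : Equiv.Perm (Fin n)) (c (fun a => (1 : Equiv.Perm (Fin n))⁻¹ (j a))) = c j
  simp only [inv_one, Equiv.Perm.coe_one, id_eq, rename_id_apply]

private theorem COM_hc_hc {d n : ℕ} (i k : ℕ) (c : T d n) :
    hc i (hc k c) = if i = k then hc k c else 0 := by
  funext j
  show homogeneousComponent i (homogeneousComponent k (c j)) = _
  rw [homogeneousComponent_of_mem (homogeneousComponent_mem k (c j))]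
  by_cases h : i = k
  · rw [if_pos h, if_pos h]
    rfl
  · rw [if_neg h, if_neg h]
    rfl

private noncomputable def COM_P {d n : ℕ} (p : T d n →ₗ[ℂ] T d n) (i : ℕ) : T d n →ₗ[ℂ] T d n :=
  ((n.factorial : ℂ)⁻¹) • ∑ w : Equiv.Perm (Fin n),
    (actT d n w) ∘ₗ (hc i) ∘ₗ p ∘ₗ (hc i) ∘ₗ (actT d n w⁻¹)

private theorem COM_P_apply {d n : ℕ} (p : T d n →ₗ[ℂ] T d n) (i : ℕ) (c : T d n) :
    COM_P p i c = ((n.factorial : ℂ)⁻¹) • ∑ w : Equiv.Perm (Fin n),
      actT d n w (hc i (p (hc i (actT d n w⁻¹ c)))) := by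
  unfold COM_P
  rw [LinearMap.smul_apply, LinearMap.sum_apply]
  rfl

theorem thm_COM (hA : St_ACT) (hF : St_FDG) : St_COM := by
  intro n d L hh hs
  obtain ⟨-, -, -, -, -, -, hcom, -, -, -, -⟩ := hA
  obtain ⟨-, -, hex, hin, hsum, -, -, -⟩ := hF
  obtain ⟨g, hg⟩ := LinearMap.exists_leftInverse_of_injective L.subtype
    (LinearMap.ker_eq_bot.2 L.injective_subtype)
  obtain ⟨p, hp⟩ : ∃ p : T d n →ₗ[ℂ] T d n, p = L.subtype ∘ₗ g := ⟨_, rfl⟩
  have hpL : ∀ c, p c ∈ L := by
    intro c
    rw [hp]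
    exact (g c).2
  have hpf : ∀ c ∈ L, p c = c := by
    intro c hc
    rw [hp]
    have h1 := LinearMap.congr_fun hg ⟨c, hc⟩
    show ((g c : L) : T d n) = c
    have h2 : g c = ⟨c, hc⟩ := h1
    rw [h2]
  have hPL : ∀ i c, COM_P p i c ∈ L := by
    intro i c
    rw [COM_P_apply]
    exact L.smul_mem _ (L.sum_mem fun w _ => hs w _ (hh _ (hpL _) i))
  have hP1 : ∀ i c, COM_P p i (hc i c) = COM_P p i c := by
    intro i c
    rw [COM_P_apply, COM_P_apply]
    congr 1
    refine Finset.sum_congr rfl fun w _ => ?_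
    rw [hcom d n i w⁻¹ c, COM_hc_hc i i (actT d n w⁻¹ c), if_pos rfl]
  have hP2 : ∀ i k c, i ≠ k → COM_P p i (hc k c) = 0 := by
    intro i k c hik
    rw [COM_P_apply, Finset.sum_eq_zero, smul_zero]
    intro w _
    rw [hcom d n k w⁻¹ c, COM_hc_hc i k (actT d n w⁻¹ c), if_neg hik, map_zero, map_zero, map_zero]
  have hP3 : ∀ i c, hc i (COM_P p i c) = COM_P p i c := by
    intro i c
    rw [COM_P_apply, map_smul, map_sum]
    congr 1
    refine Finset.sum_congr rfl fun w _ => ?_
    rw [← hcom, COM_hc_hc, if_pos rfl]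
  have hP5 : ∀ i, ∀ c ∈ L, hc i c = c → COM_P p i c = c := by
    intro i c hcL hci
    rw [COM_P_apply]
    have h1 : ∀ w ∈ (Finset.univ : Finset (Equiv.Perm (Fin n))),
        actT d n w (hc i (p (hc i (actT d n w⁻¹ c)))) = c := by
      intro w _
      rw [← hcom, hci, hpf _ (hs _ _ hcL), ← hcom, hci, ← COM_act_mul, mul_inv_cancel,
        COM_act_one]
    rw [Finset.sum_congr rfl h1, Finset.sum_const, Finset.card_univ, Fintype.card_perm,
      Fintype.card_fin, ← Nat.cast_smul_eq_nsmul ℂ, smul_smul, inv_mul_cancel₀, one_smul]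
    exact_mod_cast Nat.factorial_ne_zero n
  have hP6 : ∀ i v c, COM_P p i (actT d n v c) = actT d n v (COM_P p i c) := by
    intro i v c
    rw [COM_P_apply, COM_P_apply, map_smul, map_sum]
    congr 1
    rw [← Equiv.sum_comp (Equiv.mulLeft v)]
    refine Finset.sum_congr rfl fun w _ => ?_
    rw [Equiv.coe_mulLeft, COM_act_mul v w, ← COM_act_mul (v * w)⁻¹ v]
    congr 6
    rw [mul_inv_rev, inv_mul_cancel_right]
  have hP7 : ∀ i k c, i ≠ k → COM_P p i (COM_P p k c) = 0 := by
    intro i k c hik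
    rw [← hP3 k c, hP2 i k _ hik]
  have hP8 : ∀ i c, COM_P p i (COM_P p i c) = COM_P p i c := by
    intro i c
    exact hP5 i _ (hPL i c) (hP3 i c)
  have hzero : ∀ c : T d n, (∀ i, hc i c = 0) → c = 0 := by
    intro c h
    obtain ⟨i, hi⟩ := hex d n c
    rw [hsum d n i c hi, Finset.sum_eq_zero]
    intro k _
    exact h k
  refine ⟨⨅ i, LinearMap.ker (COM_P p i), ?_, ?_, ?_⟩
  · intro c hc0 k
    rw [Submodule.mem_iInf] at hc0 ⊢
    intro i
    rw [LinearMap.mem_ker]
    by_cases hik : i = k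
    · rw [hik, hP1]
      exact hc0 k
    · exact hP2 i k c hik
  · intro w c hc0
    rw [Submodule.mem_iInf] at hc0 ⊢
    intro i
    rw [LinearMap.mem_ker, hP6]
    have h1 : COM_P p i c = 0 := hc0 i
    rw [h1, map_zero]
  · rw [isCompl_iff, Submodule.disjoint_def, codisjoint_iff]
    constructor
    · intro c hc0 hcL
      rw [Submodule.mem_iInf] at hc0
      apply hzero
      intro i
      have h1 := hP5 i (hc i c) (hh c hcL i) (by rw [COM_hc_hc, if_pos rfl])
      rw [← h1, hP1]
      exact hc0 i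
    · rw [eq_top_iff]
      intro c _
      obtain ⟨N, hN⟩ := hex d n c
      rw [Submodule.mem_sup]
      refine ⟨c - ∑ i ∈ Finset.range (N + 1), COM_P p i c, ?_,
        ∑ i ∈ Finset.range (N + 1), COM_P p i c, L.sum_mem fun i _ => hPL i c,
        sub_add_cancel _ _⟩
      rw [Submodule.mem_iInf]
      intro k
      rw [LinearMap.mem_ker, map_sub, map_sum, sub_eq_zero]
      by_cases hk : k ∈ Finset.range (N + 1)
      · rw [Finset.sum_eq_single_of_mem k hk, hP8]
        intro i _ hik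
        exact hP7 k i c (Ne.symm hik)
      · rw [Finset.sum_eq_zero]
        · conv_lhs => rw [hsum d n N c hN]
          rw [map_sum]
          refine Finset.sum_eq_zero fun i hi => ?_
          exact hP2 k i c fun h => hk (h ▸ hi)
        · intro i hi
          exact hP7 k i c fun h => hk (h ▸ hi)

end MDH
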