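import Pool.Agent.MDH.St

/-!
# MDH / COR: trace on the complement of `Lop thC` (helper40)
-/

set_option autoImplicit false

open MvPolynomial

namespace MDH

theorem COR_smul {d n m : ℕ} (k : Fin m) (c : T d n) :
    thC d n m k * c = (psum (Fin n) ℂ (k.val + 1) : S n) • c := rfl

theorem COR_finite {d n : ℕ} (V : Submodule ℂ (T d n)) (L : Submodule (S n) (T d n))
    (hc : IsCompl V (L.restrictScalars ℂ)) [Module.Finite ℂ (T d n ⧸ L)] :
    Module.Finite ℂ V ∧ Module.finrank ℂ V = Module.finrank ℂ (T d n ⧸ L) := by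
  let e1 : (T d n ⧸ (L.restrictScalars ℂ)) ≃ₗ[ℂ] V :=
    Submodule.quotientEquivOfIsCompl _ _ hc.symm
  let e2 : (T d n ⧸ (L.restrictScalars ℂ)) ≃ₗ[ℂ] (T d n ⧸ L) :=
    Submodule.Quotient.restrictScalarsEquiv ℂ L
  exact ⟨Module.Finite.equiv (e2.symm.trans e1), (e2.symm.trans e1).finrank_eq.symm⟩

theorem thm_COR (h1 : St_UPP) (h2 : St_POW) (h3 : St_ACT) (h4 : St_FDG) (_h5 : St_EOP)
    (h6 : St_COM) (h7 : St_SPN) (h8 : St_INA) (h9 : St_TRA) (h10 : St_VPR) : St_COR := by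
  intro n d m hdm V hs hh hc
  obtain ⟨a1, a2, a3, a4, a5, a6, a7, a8, a9, a10, a11⟩ := h3
  obtain ⟨f1, f2, f3, f4, f5, f6, f7, f8⟩ := h4
  -- the upper bound
  have hup := h1 n d m hdm (Lop (thC d n m)) 1 le_sup_left (by
    intro j hj k hk
    have e1 : (∑ i ∈ cpl j, (X i : S n) ^ k +
        ((1 : ℕ) : S n) * ∑ i ∈ Finset.univ \ cpl j, (X i : S n) ^ k) = psum (Fin n) ℂ k := by
      rw [Nat.cast_one, one_mul, psum, ← Finset.sum_sdiff (Finset.subset_univ (cpl j)), add_comm]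
    rw [e1]
    exact h2 n d m hdm k hk (u j))
  obtain ⟨hfin, hcard⟩ := hup
  obtain ⟨hVf, hVr⟩ := COR_finite V (Lop (thC d n m)) hc
  -- the complement of `Lop epC`
  obtain ⟨V', hh', hs', hc'⟩ := h6 n d ((Lop (epC d n m)).restrictScalars ℂ)
    (a11 d n m (epC d n m) (fun k j => a5 d n m k j))
    (a10 d n m (epC d n m) (fun w k => a3 d n m w k))
  obtain ⟨hVf', hVr', hSP', hINJ', htr'⟩ := h10 n d m hdm V' hs' hh' hc'
  -- the spanning property
  have hRa : ∀ (k : Fin m), ∀ c ∈ Rel d n, thC d n m k * c ∈ Rel d n := by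
    intro k c hcR
    rw [COR_smul]
    exact (Rel d n).smul_mem _ hcR
  have hSP : SP (Fd d n) (thC d n m) ((Rel d n).restrictScalars ℂ) V :=
    h7 n d m (thC d n m) V (fun k j => a4 d n m k j) hRa (a9 d n) hh hc.sup_eq_top
  have hINJ : INJ (thC d n m) ((Rel d n).restrictScalars ℂ) V :=
    h8 (T d n) m (Fd d n) (thC d n m) (epC d n m) ((Rel d n).restrictScalars ℂ) V V'
      (f1 d n) (f2 d n) (f3 d n)
      (fun k i c hci => f6 d n (k.val + 1) i (epC d n m k) (fun j => a5 d n m k j) c hci)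
      (fun k c hcR => hRa k c hcR) hVf hVf' (by rw [hVr, hVr']; exact hcard) hSP hINJ'
  refine ⟨hVf, fun w => ?_⟩
  rw [← htr' w]
  exact h9 (T d n) m (Fd d n) (thC d n m) (epC d n m) ((Rel d n).restrictScalars ℂ) V V'
    (actT d n w) (hs w) (hs' w) (f1 d n) (f2 d n) (f3 d n)
    (fun k i c hci => f6 d n (k.val + 1) i (thC d n m k) (fun j => a4 d n m k j) c hci)
    (fun k i c hci => f6 d n (k.val + 1) i (epC d n m k) (fun j => a5 d n m k j) c hci)
    (fun i c hci => a6 d n i w c hci) (fun c hcR => a8 d n w c hcR)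
    (fun k c => by rw [a1, a2]) (fun k c => by rw [a1, a3]) hVf hVf' hSP hSP' hINJ hINJ'

end MDH
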