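import Pool.Agent.MDH.St

/-!
# MDH: module DEL, the determinants `Del` (helper49)
-/

set_option autoImplicit false

open MvPolynomial

namespace MDH

/-- the identification of the columns -/
def DEL_E {n d m : ℕ} (h : d + m = n) : Fin n ≃ Fin d ⊕ Fin m :=
  (finCongr h.symm).trans finSumFinEquiv.symm

/-- the matrix of `Del` -/
noncomputable def DEL_M {n d m : ℕ} (h : d + m = n) (f : Fin n → Fin m) (j : Fin d → Fin n) :
    Matrix (Fin n) (Fin n) ℂ :=
  Matrix.of (fun (i c : Fin n) =>
    Sum.elim (fun a : Fin d => if i = j a then (1 : ℂ) else 0)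
      (fun l : Fin m => if f i = l then (1 : ℂ) else 0) (DEL_E h c))

theorem DEL_eq {n d m : ℕ} (h : d + m = n) (f : Fin n → Fin m) (j : Fin d → Fin n) :
    Del h f j = (DEL_M h f j).det := rfl

theorem DEL_apply {n d m : ℕ} (h : d + m = n) (f : Fin n → Fin m) (j : Fin d → Fin n)
    (i : Fin n) (s : Fin d ⊕ Fin m) :
    DEL_M h f j i ((DEL_E h).symm s) = Sum.elim (fun a : Fin d => if i = j a then (1 : ℂ) else 0)
      (fun l : Fin m => if f i = l then (1 : ℂ) else 0) s := by
  unfold DEL_M
  rw [Matrix.of_apply, Equiv.apply_symm_apply]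

theorem DEL_mulVec {n d m : ℕ} (h : d + m = n) (f : Fin n → Fin m) (j : Fin d → Fin n)
    (v : Fin n → ℂ) (i : Fin n) :
    (DEL_M h f j).mulVec v i = (∑ a : Fin d, if i = j a then v ((DEL_E h).symm (Sum.inl a)) else 0)
      + v ((DEL_E h).symm (Sum.inr (f i))) := by
  have h1 : (DEL_M h f j).mulVec v i = ∑ c, DEL_M h f j i c * v c := rfl
  rw [h1, ← Equiv.sum_comp (DEL_E h).symm, Fintype.sum_sum_type]
  simp only [DEL_apply, Sum.elim_inl, Sum.elim_inr, ite_mul, one_mul, zero_mul]
  congr 1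
  rw [Finset.sum_ite_eq, if_pos (Finset.mem_univ _)]

theorem DEL_a {n d m : ℕ} (h : d + m = n) (f : Fin n → Fin m) (τ : Equiv.Perm (Fin d))
    (j : Fin d → Fin n) :
    Del h f (j ∘ τ) = ((Equiv.Perm.sign τ : ℤ) : ℂ) * Del h f j := by
  have h1 : DEL_M h f (j ∘ τ) = (DEL_M h f j).submatrix id
      ((DEL_E h).symm.permCongr (Equiv.Perm.sumCongr τ 1)) := by
    ext i c
    obtain ⟨s, rfl⟩ := (DEL_E h).symm.surjective c
    rw [DEL_apply, Matrix.submatrix_apply, Equiv.permCongr_apply, Equiv.symm_symm,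
      Equiv.apply_symm_apply, DEL_apply]
    rcases s with a | l
    · simp
    · simp
  rw [DEL_eq, DEL_eq, h1, Matrix.det_permute', Equiv.Perm.sign_permCongr,
    Equiv.Perm.sign_sumCongr, Equiv.Perm.sign_one, mul_one]

theorem DEL_b {n d m : ℕ} (h : d + m = n) (f : Fin n → Fin m) (a : Fin d) (j : Fin d → Fin n)
    (l : Fin m) :
    ∑ i ∈ Finset.univ.filter (fun i => f i = l), Del h f (Function.update j a i) = 0 := by
  have h1 : ∀ i : Fin n, Del h f (Function.update j a i) =
      (DEL_M h f j).cramer (Pi.single i 1) ((DEL_E h).symm (Sum.inl a)) := by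
    intro i
    rw [DEL_eq, Matrix.cramer_apply]
    congr 1
    ext i' c
    obtain ⟨s, rfl⟩ := (DEL_E h).symm.surjective c
    rw [DEL_apply, Matrix.updateCol_apply]
    rcases s with b | l'
    · by_cases hb : b = a
      · subst hb
        rw [if_pos rfl, Sum.elim_inl, Function.update_self, Pi.single_apply]
      · rw [if_neg (fun h' => hb (Sum.inl_injective ((DEL_E h).symm.injective h'))), DEL_apply,
          Sum.elim_inl, Sum.elim_inl, Function.update_of_ne hb]
    · rw [if_neg (fun h' => Sum.inr_ne_inl ((DEL_E h).symm.injective h')), DEL_apply,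
        Sum.elim_inr, Sum.elim_inr]
  rw [Finset.sum_congr rfl fun i _ => h1 i, ← Finset.sum_apply, ← map_sum, Matrix.cramer_apply]
  refine Matrix.det_zero_of_column_eq (i := (DEL_E h).symm (Sum.inl a))
    (j := (DEL_E h).symm (Sum.inr l)) ?_ ?_
  · intro h'
    exact Sum.inl_ne_inr ((DEL_E h).symm.injective h')
  · intro i
    rw [Matrix.updateCol_apply, Matrix.updateCol_apply, if_pos rfl,
      if_neg (fun h' => Sum.inr_ne_inl ((DEL_E h).symm.injective h')), DEL_apply, Sum.elim_inr,
      Finset.sum_apply]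
    simp only [Pi.single_apply]
    rw [Finset.sum_ite_eq]
    simp

theorem DEL_inj {n d m : ℕ} (h : d + m = n) (f : Fin n → Fin m) (j : Fin d → Fin n)
    (hne : Del h f j ≠ 0) : Function.Injective j := by
  intro a b hab
  by_contra hne'
  apply hne
  rw [DEL_eq]
  refine Matrix.det_zero_of_column_eq (i := (DEL_E h).symm (Sum.inl a))
    (j := (DEL_E h).symm (Sum.inl b)) ?_ ?_
  · intro h'
    exact hne' (Sum.inl_injective ((DEL_E h).symm.injective h'))
  · intro i
    rw [DEL_apply, DEL_apply, Sum.elim_inl, Sum.elim_inl, hab]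

theorem DEL_c1 {n d m : ℕ} (h : d + m = n) (f : Fin n → Fin m) (j : Fin d → Fin n)
    (hne : Del h f j ≠ 0) (l : Fin m) : ∃ i, i ∈ cpl j ∧ f i = l := by
  by_contra hcon
  push Not at hcon
  have hj := DEL_inj h f j hne
  have hcov : ∀ i, f i = l → ∃ a, j a = i := by
    intro i hi
    by_contra h'
    push Not at h'
    refine hcon i ?_ hi
    unfold cpl
    rw [Finset.mem_filter]
    exact ⟨Finset.mem_univ _, h'⟩
  apply hne
  rw [DEL_eq, ← Matrix.exists_mulVec_eq_zero_iff]
  refine ⟨fun c => Sum.elim (fun a : Fin d => if f (j a) = l then (-1 : ℂ) else 0)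
    (fun l' : Fin m => if l' = l then (1 : ℂ) else 0) (DEL_E h c), ?_, ?_⟩
  · intro h0
    have h1 := congrFun h0 ((DEL_E h).symm (Sum.inr l))
    beta_reduce at h1
    rw [Equiv.apply_symm_apply, Sum.elim_inr, if_pos rfl, Pi.zero_apply] at h1
    exact one_ne_zero h1
  · funext i
    rw [DEL_mulVec, Equiv.apply_symm_apply, Sum.elim_inr, Pi.zero_apply]
    simp only [Equiv.apply_symm_apply, Sum.elim_inl]
    by_cases hi : f i = l
    · obtain ⟨a, ha⟩ := hcov i hi
      rw [if_pos hi, Finset.sum_eq_single a]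
      · rw [if_pos ha.symm, ha, if_pos hi]
        ring
      · intro b _ hb
        rw [if_neg]
        intro hib
        exact hb (hj (by rw [← hib, ha]))
      · intro h'
        exact absurd (Finset.mem_univ _) h'
    · rw [if_neg hi, add_zero]
      refine Finset.sum_eq_zero fun b _ => ?_
      by_cases hib : i = j b
      · rw [if_pos hib, ← hib, if_neg hi]
      · rw [if_neg hib]

theorem DEL_cpl {n d m : ℕ} (h : d + m = n) (j : Fin d → Fin n) (hj : Function.Injective j) :
    (cpl j).card = m := by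
  have h1 : cpl j = (Finset.univ.image j)ᶜ := by
    ext i
    unfold cpl
    rw [Finset.mem_filter, Finset.mem_compl, Finset.mem_image]
    constructor
    · rintro ⟨-, h2⟩ ⟨a, -, ha⟩
      exact h2 a ha
    · intro h2
      exact ⟨Finset.mem_univ _, fun a ha => h2 ⟨a, Finset.mem_univ _, ha⟩⟩
  rw [h1, Finset.card_compl, Finset.card_image_of_injective _ hj, Finset.card_univ,
    Fintype.card_fin, Fintype.card_fin]
  omega

theorem DEL_c2 {n d m : ℕ} (h : d + m = n) (f : Fin n → Fin m) (j : Fin d → Fin n)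
    (hne : Del h f j ≠ 0) (l : Fin m) : ∃! i, i ∈ cpl j ∧ f i = l := by
  have hj := DEL_inj h f j hne
  have hsurj : Set.SurjOn f (cpl j : Set (Fin n)) ((Finset.univ : Finset (Fin m)) : Set (Fin m)) := by
    intro l' _
    obtain ⟨i, hi, hi'⟩ := DEL_c1 h f j hne l'
    exact ⟨i, Finset.mem_coe.2 hi, hi'⟩
  have hinj : Set.InjOn f (cpl j : Set (Fin n)) := by
    refine Finset.injOn_of_surjOn_of_card_le f (fun i _ => Finset.mem_coe.2 (Finset.mem_univ _))
      hsurj ?_
    rw [DEL_cpl h j hj, Finset.card_univ, Fintype.card_fin]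
  obtain ⟨i, hi, hi'⟩ := DEL_c1 h f j hne l
  refine ⟨i, ⟨hi, hi'⟩, ?_⟩
  rintro i' ⟨hi1, hi2⟩
  exact hinj (Finset.mem_coe.2 hi1) (Finset.mem_coe.2 hi) (by rw [hi2, hi'])

theorem DEL_d {n d m : ℕ} (h : d + m = n) (f : Fin n → Fin m) (hf : Function.Surjective f) :
    ∃ j, Del h f j ≠ 0 := by
  classical
  obtain ⟨σ, hσ⟩ := hf.hasRightInverse
  have hσi : Function.Injective σ := hσ.injective
  have hcard : Fintype.card {i : Fin n // i ∉ Finset.univ.image σ} = d := by
    rw [Fintype.card_subtype_compl, Fintype.card_fin, Fintype.card_coe,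
      Finset.card_image_of_injective _ hσi, Finset.card_univ, Fintype.card_fin]
    omega
  let e : Fin d ≃ {i : Fin n // i ∉ Finset.univ.image σ} :=
    (finCongr hcard.symm).trans (Fintype.equivFin _).symm
  refine ⟨fun a => (e a).1, ?_⟩
  intro h0
  rw [DEL_eq, ← Matrix.exists_mulVec_eq_zero_iff] at h0
  obtain ⟨v, hv, hv0⟩ := h0
  apply hv
  have hr : ∀ l : Fin m, v ((DEL_E h).symm (Sum.inr l)) = 0 := by
    intro l
    have h1 := congrFun hv0 (σ l)
    rw [DEL_mulVec, hσ l, Pi.zero_apply, Finset.sum_eq_zero, zero_add] at h1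
    · exact h1
    · intro a _
      rw [if_neg]
      intro h2
      exact (e a).2 (h2 ▸ Finset.mem_image_of_mem σ (Finset.mem_univ l))
  have hl : ∀ a : Fin d, v ((DEL_E h).symm (Sum.inl a)) = 0 := by
    intro a
    have h1 := congrFun hv0 (e a).1
    rw [DEL_mulVec, hr, add_zero, Pi.zero_apply, Finset.sum_eq_single a] at h1
    · rw [if_pos rfl] at h1
      exact h1
    · intro b _ hb
      rw [if_neg]
      intro h2
      exact hb (e.injective (Subtype.ext h2)).symm
    · intro h'
      exact absurd (Finset.mem_univ _) h'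
  funext c
  obtain ⟨s, rfl⟩ := (DEL_E h).symm.surjective c
  rcases s with a | l
  · exact hl a
  · exact hr l

theorem DEL_e {n d m : ℕ} (h : d + m = n) (f : Fin n → Fin m) (w : Equiv.Perm (Fin n))
    (j : Fin d → Fin n) :
    Del h f (fun a => w (j a)) = ((Equiv.Perm.sign w : ℤ) : ℂ) * Del h (f ∘ w) j := by
  have h1 : DEL_M h f (fun a => w (j a)) = (DEL_M h (f ∘ w) j).submatrix (w⁻¹ : Equiv.Perm (Fin n))
      id := by
    ext i c
    obtain ⟨s, rfl⟩ := (DEL_E h).symm.surjective c
    rw [DEL_apply, Matrix.submatrix_apply, id, DEL_apply]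
    rcases s with a | l
    · rw [Sum.elim_inl, Sum.elim_inl]
      by_cases hi : i = w (j a)
      · rw [if_pos hi, if_pos (by rw [hi]; exact w.symm_apply_apply (j a))]
      · rw [if_neg hi, if_neg]
        intro h2
        apply hi
        rw [← h2]
        exact (w.apply_symm_apply i).symm
    · have h2 : w ((w⁻¹ : Equiv.Perm (Fin n)) i) = i := w.apply_symm_apply i
      rw [Sum.elim_inr, Sum.elim_inr, Function.comp_apply, h2]
  rw [DEL_eq, DEL_eq, h1, Matrix.det_permute, Equiv.Perm.sign_inv]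

theorem thm_DEL : St_DEL := by
  intro n d m h f
  exact ⟨fun τ j => DEL_a h f τ j, fun a j l => DEL_b h f a j l,
    fun j hne => ⟨DEL_inj h f j hne, fun l => DEL_c2 h f j hne l⟩, DEL_d h f,
    fun w j => DEL_e h f w j⟩

end MDH
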