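import Pool.Agent.MDH.St

/-!
# MDH, module EOP (helper62): multiplication by `epC k` preserves the relations
-/

set_option autoImplicit false

open MvPolynomial

namespace MDH

/-- elementary symmetric functions of a finite set of variables -/
private noncomputable def eopE {n : ℕ} (q : ℕ) (C : Finset (Fin n)) : S n :=
  ∑ t ∈ C.powersetCard q, ∏ i ∈ t, (X i : S n)

private theorem eopE_succ {n : ℕ} (q : ℕ) (C : Finset (Fin n)) (i : Fin n) (hi : i ∈ C) :
    eopE (q + 1) C = eopE (q + 1) (C.erase i) + X i * eopE q (C.erase i) := by
  classical
  have h1 : i ∉ C.erase i := Finset.notMem_erase i C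
  have h2 : eopE (q + 1) (insert i (C.erase i)) =
      eopE (q + 1) (C.erase i) + X i * eopE q (C.erase i) := by
    unfold eopE
    rw [Finset.powersetCard_succ_insert h1, Finset.sum_union, Finset.sum_image]
    · congr 1
      rw [Finset.mul_sum]
      refine Finset.sum_congr rfl fun t ht => ?_
      rw [Finset.prod_insert]
      intro hit
      exact h1 ((Finset.mem_powersetCard.1 ht).1 hit)
    · intro t ht t' ht' h
      have ht1 : i ∉ t := fun hit => h1 ((Finset.mem_powersetCard.1 ht).1 hit)
      have ht2 : i ∉ t' := fun hit => h1 ((Finset.mem_powersetCard.1 ht').1 hit)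
      have h3 : (insert i t).erase i = (insert i t').erase i := congrArg (fun x => x.erase i) h
      rwa [Finset.erase_insert ht1, Finset.erase_insert ht2] at h3
    · rw [Finset.disjoint_left]
      intro t ht ht'
      obtain ⟨t', -, rfl⟩ := Finset.mem_image.1 ht'
      exact h1 ((Finset.mem_powersetCard.1 ht).1 (Finset.mem_insert_self i t'))
  rwa [Finset.insert_erase hi] at h2

private theorem eopE_erase {n : ℕ} (q : ℕ) (C : Finset (Fin n)) (i : Fin n) (hi : i ∈ C) :
    eopE q (C.erase i) = ∑ l ∈ Finset.range (q + 1), (-1) ^ l * eopE (q - l) C * X i ^ l := by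
  induction q with
  | zero =>
    simp [eopE]
  | succ q ih =>
    have h1 := eopE_succ q C i hi
    have h2 : eopE (q + 1) (C.erase i) = eopE (q + 1) C - X i * eopE q (C.erase i) := by
      rw [h1]
      ring
    rw [h2, ih, Finset.mul_sum, Finset.sum_range_succ' _ (q + 1)]
    have h3 : ∀ l : ℕ, (-1 : S n) ^ (l + 1) * eopE (q + 1 - (l + 1)) C * X i ^ (l + 1) =
        - (X i * ((-1) ^ l * eopE (q - l) C * X i ^ l)) := by
      intro l
      rw [Nat.add_sub_add_right]
      ring
    simp only [h3, Finset.sum_neg_distrib, pow_zero, Nat.sub_zero, one_mul, mul_one]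
    ring

private theorem eop_mul_u {d n : ℕ} (e : T d n) (j : Fin d → Fin n) : e * u j = e j • u j := by
  classical
  funext j'
  unfold u
  by_cases h : j' = j
  · subst h
    simp
  · simp [h]

private theorem eop_rel2 {d n : ℕ} (τ : Equiv.Perm (Fin d)) (j : Fin d → Fin n) :
    rho2 τ j ∈ Rel d n := Submodule.subset_span (Or.inr ⟨τ, j, rfl⟩)

private theorem eop_rel1 {d n : ℕ} (a : Fin d) (j : Fin d → Fin n) (k : ℕ) :
    rho1 a j k ∈ Rel d n := Submodule.subset_span (Or.inl ⟨a, j, k, rfl⟩)

/-- the basis vectors of tuples with a repetition are relations -/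
private theorem eop_ninj {d n : ℕ} (j : Fin d → Fin n) (a b : Fin d) (hab : a ≠ b)
    (h : j a = j b) : u j ∈ Rel d n := by
  have h1 := eop_rel2 (Equiv.swap a b) j
  have h2 : j ∘ Equiv.swap a b = j := by
    funext c
    rw [Function.comp_apply]
    by_cases hca : c = a
    · subst hca
      rw [Equiv.swap_apply_left, h]
    · by_cases hcb : c = b
      · subst hcb
        rw [Equiv.swap_apply_right, h]
      · rw [Equiv.swap_apply_of_ne_of_ne hca hcb]
  have h3 : rho2 (Equiv.swap a b) j = (2 : S n) • u j := by
    unfold rho2
    rw [h2, Equiv.Perm.sign_swap hab]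
    rw [two_smul]
    simp
  have h4 : u j = (C (1 / 2 : ℂ) : S n) • rho2 (Equiv.swap a b) j := by
    rw [h3, smul_smul]
    have h5 : (C (1 / 2 : ℂ) : S n) * 2 = 1 := by
      have h6 : (2 : S n) = C (2 : ℂ) := (map_ofNat C 2).symm
      rw [h6, ← C_mul]
      norm_num
    rw [h5, one_smul]
  rw [h4]
  exact Submodule.smul_mem _ _ h1

theorem thm_EOP : St_EOP := by
  classical
  intro n d m k c hc
  have hsm : ∀ (s : S n) (x : T d n), epC d n m k * (s • x) = s • (epC d n m k * x) :=
    fun s x => mul_smul_comm _ _ _
  refine Submodule.span_induction (p := fun c _ => epC d n m k * c ∈ Rel d n) ?_ ?_ ?_ ?_ hc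
  · rintro x (⟨a, j, k', rfl⟩ | ⟨τ, j, rfl⟩)
    · obtain ⟨C, hC⟩ : ∃ C : Finset (Fin n), ∀ i, i ∈ C ↔ ∀ b, b ≠ a → j b ≠ i :=
        ⟨Finset.univ.filter fun i => ∀ b, b ≠ a → j b ≠ i, fun i => by simp⟩
      have h1 : epC d n m k * rho1 a j k' =
          ∑ i, ((X i : S n) ^ k' * epC d n m k (Function.update j a i)) •
            (u (Function.update j a i) : T d n) := by
        unfold rho1
        rw [Finset.mul_sum]
        refine Finset.sum_congr rfl fun i _ => ?_
        rw [hsm, eop_mul_u, smul_smul]
      have h2 : ∀ i, ((X i : S n) ^ k' * epC d n m k (Function.update j a i)) •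
            (u (Function.update j a i) : T d n) -
          ∑ l ∈ Finset.range (k.val + 1 + 1), ((-1) ^ l * eopE (k.val + 1 - l) C) •
            ((X i : S n) ^ (k' + l) • (u (Function.update j a i) : T d n)) ∈ Rel d n := by
        intro i
        by_cases hi : i ∈ C
        · have h3 : cpl (Function.update j a i) = C.erase i := by
            ext i'
            simp only [cpl, Finset.mem_filter, Finset.mem_univ, true_and, Finset.mem_erase, hC]
            constructor
            · intro h
              refine ⟨fun hh => ?_, fun b hb => ?_⟩
              · have := h a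
                rw [Function.update_self] at this
                exact this hh.symm
              · have := h b
                rwa [Function.update_of_ne hb] at this
            · rintro ⟨h, h'⟩ b
              by_cases hb : b = a
              · subst hb
                rw [Function.update_self]
                exact fun hh => h hh.symm
              · rw [Function.update_of_ne hb]
                exact h' b hb
          have h4 : epC d n m k (Function.update j a i) = eopE (k.val + 1) (C.erase i) := by
            unfold epC eopE
            rw [h3]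
          rw [h4, eopE_erase _ C i hi, Finset.mul_sum, Finset.sum_smul, ← Finset.sum_sub_distrib]
          refine Submodule.sum_mem _ fun l _ => ?_
          rw [smul_smul]
          have h5 : (X i : S n) ^ k' * ((-1) ^ l * eopE (k.val + 1 - l) C * X i ^ l) =
              (-1) ^ l * eopE (k.val + 1 - l) C * X i ^ (k' + l) := by
            rw [pow_add]
            ring
          rw [h5, sub_self]
          exact zero_mem _
        · rw [hC] at hi
          push Not at hi
          obtain ⟨b, hb, hbi⟩ := hi
          have h6 : (u (Function.update j a i) : T d n) ∈ Rel d n := by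
            refine eop_ninj _ a b (Ne.symm hb) ?_
            rw [Function.update_self, Function.update_of_ne hb, hbi]
          refine sub_mem (Submodule.smul_mem _ _ h6) (Submodule.sum_mem _ fun l _ => ?_)
          exact Submodule.smul_mem _ _ (Submodule.smul_mem _ _ h6)
      have h7 : ∑ i, ∑ l ∈ Finset.range (k.val + 1 + 1), ((-1) ^ l * eopE (k.val + 1 - l) C) •
            ((X i : S n) ^ (k' + l) • (u (Function.update j a i) : T d n)) ∈ Rel d n := by
        rw [Finset.sum_comm]
        refine Submodule.sum_mem _ fun l _ => ?_
        rw [← Finset.smul_sum]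
        exact Submodule.smul_mem _ _ (eop_rel1 a j (k' + l))
      rw [h1]
      have h8 := add_mem (Submodule.sum_mem (Rel d n) fun i (_ : i ∈ Finset.univ) => h2 i) h7
      rw [Finset.sum_sub_distrib, sub_add_cancel] at h8
      exact h8
    · have h1 : cpl (j ∘ τ) = cpl j := by
        ext i
        simp only [cpl, Finset.mem_filter, Finset.mem_univ, true_and, Function.comp_apply]
        constructor
        · intro h a
          have := h (τ.symm a)
          rwa [Equiv.apply_symm_apply] at this
        · intro h a
          exact h _
      have h2 : epC d n m k (j ∘ τ) = epC d n m k j := by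
        unfold epC
        rw [h1]
      have h3 : epC d n m k * rho2 τ j = epC d n m k j • rho2 τ j := by
        unfold rho2
        rw [mul_sub, eop_mul_u, h2, smul_sub, mul_smul_comm, eop_mul_u, smul_comm]
      rw [h3]
      exact Submodule.smul_mem _ _ (eop_rel2 τ j)
  · rw [mul_zero]
    exact zero_mem _
  · intro x y _ _ hx hy
    rw [mul_add]
    exact add_mem hx hy
  · intro s x _ hx
    rw [hsm]
    exact Submodule.smul_mem _ _ hx

end MDH
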