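import Pool.Agent.MDH.St

/-!
# MDH EVL: evaluation at the points `z ∘ f`
-/

set_option autoImplicit false

open MvPolynomial

namespace MDH

theorem EVL_def {d n m : ℕ} (h : d + m = n) (f : Fin n → Fin m) (z : Fin m → ℂ) (c : T d n) :
    ev h f z c = ∑ j : Fin d → Fin n, eval (fun i => z (f i)) (c j) * Del h f j := rfl

theorem EVL_u {d n m : ℕ} (h : d + m = n) (f : Fin n → Fin m) (z : Fin m → ℂ)
    (j : Fin d → Fin n) : ev h f z (u j) = Del h f j := by
  rw [EVL_def, Finset.sum_eq_single j]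
  · simp [u]
  · intro j' _ hj'
    simp [u, Pi.single_eq_of_ne hj']
  · intro h; exact absurd (Finset.mem_univ _) h

theorem EVL_c {d n m : ℕ} (h : d + m = n) (f : Fin n → Fin m) (z : Fin m → ℂ) (s : S n)
    (c : T d n) : ev h f z (s • c) = eval (fun i => z (f i)) s * ev h f z c := by
  rw [EVL_def, EVL_def, Finset.mul_sum]
  refine Finset.sum_congr rfl (fun j _ => ?_)
  rw [Pi.smul_apply, smul_eq_mul, map_mul, mul_assoc]

theorem EVL_a (hD : St_DEL) {d n m : ℕ} (h : d + m = n) (f : Fin n → Fin m) (z : Fin m → ℂ) :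
    ∀ c ∈ Rel d n, ev h f z c = 0 := by
  obtain ⟨hD1, hD2, -, -, -⟩ := hD n d m h f
  intro c hc
  refine Submodule.span_induction (p := fun c _ => ev h f z c = 0) ?_ ?_ ?_ ?_ hc
  · rintro x (⟨a, j, k, rfl⟩ | ⟨τ, j, rfl⟩)
    · rw [rho1, map_sum]
      have h1 : ∀ i : Fin n, ev h f z (((X i : S n) ^ k) • (u (Function.update j a i) : T d n)) =
          z (f i) ^ k * Del h f (Function.update j a i) := by
        intro i
        rw [EVL_c, EVL_u, map_pow, eval_X]
      rw [Finset.sum_congr rfl (fun i _ => h1 i)]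
      rw [← Finset.sum_fiberwise Finset.univ f]
      refine Finset.sum_eq_zero (fun l _ => ?_)
      have h2 : ∑ i ∈ Finset.univ.filter (fun i => f i = l),
          z (f i) ^ k * Del h f (Function.update j a i) =
          ∑ i ∈ Finset.univ.filter (fun i => f i = l),
          z l ^ k * Del h f (Function.update j a i) := by
        refine Finset.sum_congr rfl (fun i hi => ?_)
        rw [(Finset.mem_filter.mp hi).2]
      rw [h2, ← Finset.mul_sum, hD2 a j l, mul_zero]
    · rw [rho2, map_sub, map_smul, EVL_u, EVL_u, hD1 τ j, smul_eq_mul, sub_self]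
  · exact map_zero _
  · intro x y _ _ hx hy
    rw [map_add, hx, hy, add_zero]
  · intro s x _ hx
    rw [EVL_c, hx, mul_zero]

theorem EVL_b (hD : St_DEL) {d n m : ℕ} (h : d + m = n) (f : Fin n → Fin m) (z : Fin m → ℂ)
    (k : Fin m) (c : T d n) :
    ev h f z (epC d n m k * c) = eval z (esymm (Fin m) ℂ (k.val + 1)) * ev h f z c := by
  classical
  obtain ⟨-, -, hD3, -, -⟩ := hD n d m h f
  rw [EVL_def, EVL_def, Finset.mul_sum]
  refine Finset.sum_congr rfl (fun j _ => ?_)
  by_cases h0 : Del h f j = 0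
  · rw [h0]; simp
  obtain ⟨-, hj⟩ := hD3 j h0
  have hinj : Set.InjOn f (cpl j) := by
    intro i hi i' hi' e
    exact (hj (f i')).unique ⟨hi, e⟩ ⟨hi', rfl⟩
  have himg : (cpl j).image f = Finset.univ := by
    refine Finset.eq_univ_iff_forall.mpr (fun l => ?_)
    obtain ⟨i, ⟨hi, hl⟩, -⟩ := hj l
    exact Finset.mem_image.mpr ⟨i, hi, hl⟩
  have hval : (cpl j).val.map f = (Finset.univ : Finset (Fin m)).val := by
    rw [← Finset.image_val_of_injOn hinj, himg]
  have h1 : eval (fun i => z (f i)) (epC d n m k j) = eval z (esymm (Fin m) ℂ (k.val + 1)) := by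
    simp only [epC, esymm, map_sum, map_prod, eval_X]
    rw [← Finset.esymm_map_val, ← Finset.esymm_map_val, ← hval, Multiset.map_map]
    rfl
  rw [Pi.mul_apply, map_mul, h1, mul_assoc]

theorem EVL_d (hD : St_DEL) {d n m : ℕ} (h : d + m = n) (f : Fin n → Fin m) (z : Fin m → ℂ)
    (w : Equiv.Perm (Fin n)) (c : T d n) :
    ev h f z (actT d n w c) = ((Equiv.Perm.sign w : ℤ) : ℂ) * ev h (f ∘ w) z c := by
  obtain ⟨-, -, -, -, hD5⟩ := hD n d m h f
  rw [EVL_def, EVL_def, Finset.mul_sum]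
  rw [← Equiv.sum_comp ((Equiv.refl (Fin d)).arrowCongr w)]
  refine Finset.sum_congr rfl (fun j _ => ?_)
  have h1 : ((Equiv.refl (Fin d)).arrowCongr w) j = fun a => w (j a) := by
    funext a; simp [Equiv.arrowCongr]
  rw [h1, hD5 w j]
  have h2 : actT d n w c (fun a => w (j a)) = rename w (c j) := by
    show rename w (c (fun a => w⁻¹ (w (j a)))) = _
    simp
  rw [h2, eval_rename]
  have h3 : (fun i => z (f i)) ∘ (w : Fin n → Fin n) = fun i => z ((f ∘ w) i) := rfl
  rw [h3]
  ring

/-- Lagrange polynomials for the points `z ∘ f` -/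
theorem EVL_lag {n m : ℕ} (z : Fin m → ℂ) (hz : Function.Injective z) (f : Fin n → Fin m) :
    ∃ s : S n, ∀ f' : Fin n → Fin m,
      eval (fun i => z (f' i)) s = if f' = f then 1 else 0 := by
  classical
  refine ⟨∏ i : Fin n, ∏ l ∈ Finset.univ.filter (fun l => l ≠ f i),
    (C ((z (f i) - z l)⁻¹) * (X i - C (z l))), fun f' => ?_⟩
  simp only [map_prod, map_mul, map_sub, eval_C, eval_X]
  split_ifs with hf
  · subst hf
    refine Finset.prod_eq_one (fun i _ => Finset.prod_eq_one (fun l hl => ?_))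
    refine inv_mul_cancel₀ ?_
    rw [sub_ne_zero]
    exact fun e => (Finset.mem_filter.mp hl).2 (hz e).symm
  · obtain ⟨i, hi⟩ := Function.ne_iff.mp hf
    refine Finset.prod_eq_zero (Finset.mem_univ i) ?_
    refine Finset.prod_eq_zero (i := f' i) (Finset.mem_filter.mpr ⟨Finset.mem_univ _, hi⟩) ?_
    rw [sub_self, mul_zero]

theorem EVL_e (hD : St_DEL) {d n m : ℕ} (h : d + m = n) (z : Fin m → ℂ)
    (hz : Function.Injective z) (F : Surj n m → ℂ) :
    ∃ c : T d n, ∀ f : Surj n m, ev h f.1 z c = F f := by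
  classical
  choose s hs using fun f : Fin n → Fin m => EVL_lag z hz f
  choose J hJ using fun f : Surj n m => (hD n d m h f.1).2.2.2.1 f.2
  refine ⟨∑ f : Surj n m, (F f * (Del h f.1 (J f))⁻¹) • (s f.1 • (u (J f) : T d n)),
    fun f' => ?_⟩
  rw [map_sum, Finset.sum_eq_single f']
  · rw [map_smul, EVL_c, EVL_u, hs, if_pos rfl, one_mul, smul_eq_mul, mul_assoc,
      inv_mul_cancel₀ (hJ f'), mul_one]
  · intro f _ hf
    rw [map_smul, EVL_c, hs, if_neg, zero_mul, smul_zero]
    exact fun e => hf (Subtype.ext e.symm)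
  · intro h; exact absurd (Finset.mem_univ _) h

theorem thm_EVL (h1 : St_DEL) : St_EVL := by
  intro n d m h
  exact ⟨fun f z => EVL_a h1 h f z, fun f z k c => EVL_b h1 h f z k c,
    fun f z s c => EVL_c h f z s c, fun f z w c => EVL_d h1 h f z w c,
    fun z hz F => EVL_e h1 h z hz F⟩

end MDH
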