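import Pool.Agent.MDH.St

/-!
# MDH: the degree filtration
-/

set_option autoImplicit false

open MvPolynomial

namespace MDH

theorem FDG_term {n q l : ℕ} (a p : S n) (ha : a.IsHomogeneous q) (i : ℕ) :
    homogeneousComponent i (a * homogeneousComponent l p) =
      if i = q + l then a * homogeneousComponent l p else 0 :=
  homogeneousComponent_of_mem (ha.mul (homogeneousComponent_isHomogeneous l p))

theorem FDG_mul {n q : ℕ} (a p : S n) (ha : a.IsHomogeneous q) (i : ℕ) :
    homogeneousComponent (i + q) (a * p) = a * homogeneousComponent i p := by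
  conv_lhs => rw [← sum_homogeneousComponent p, Finset.mul_sum, map_sum]
  rw [Finset.sum_congr rfl fun l _ => FDG_term a p ha (i + q)]
  by_cases hi : i ∈ Finset.range (p.totalDegree + 1)
  · rw [Finset.sum_eq_single i]
    · rw [if_pos (add_comm i q)]
    · intro l _ hl
      rw [if_neg]
      omega
    · intro h
      exact absurd hi h
  · have h0 : homogeneousComponent i p = 0 := by
      apply homogeneousComponent_eq_zero
      rw [Finset.mem_range] at hi
      omega
    rw [h0, mul_zero]
    refine Finset.sum_eq_zero fun l hl => ?_
    rw [if_neg]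
    rintro h
    have : l = i := by omega
    exact hi (this ▸ hl)

theorem FDG_zero {n q : ℕ} (a p : S n) (ha : a.IsHomogeneous q) (i : ℕ) (hi : i < q) :
    homogeneousComponent i (a * p) = 0 := by
  rw [← sum_homogeneousComponent p, Finset.mul_sum, map_sum]
  refine Finset.sum_eq_zero fun l _ => ?_
  rw [FDG_term a p ha, if_neg]
  omega

theorem thm_FDG : St_FDG := by
  refine ⟨?_, ?_, ?_, ?_, ?_, ?_, ?_, ?_⟩
  · intro d n i i' h c hc j
    exact (hc j).trans h
  · intro d n i
    let φ : Fd d n i →ₗ[ℂ] ((Fin d → Fin n) → (Fin n → Fin (i + 1)) → ℂ) :=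
      { toFun := fun c j A => coeff (Finsupp.equivFunOnFinite.symm fun k => (A k : ℕ)) (c.1 j)
        map_add' := fun c c' => by
          funext j A
          exact coeff_add _ _ _
        map_smul' := fun t c => by
          funext j A
          exact coeff_smul _ _ _ }
    refine Module.Finite.of_injective φ ?_
    rw [← LinearMap.ker_eq_bot, LinearMap.ker_eq_bot']
    intro c hc
    apply Subtype.ext
    funext j
    show c.1 j = 0
    ext A
    rw [coeff_zero]
    by_contra hA
    have h1 : A.sum (fun _ e => e) ≤ i :=
      (le_totalDegree (mem_support_iff.2 hA)).trans (c.2 j)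
    have h2 : ∀ k, A k < i + 1 := by
      intro k
      by_cases hk : A k = 0
      · omega
      · have h3 : A k ≤ A.sum (fun _ e => e) :=
          Finset.single_le_sum (f := fun k => A k) (fun _ _ => Nat.zero_le _)
            (Finsupp.mem_support_iff.2 hk)
        omega
    have h3 := congrFun (congrFun hc j) (fun k => ⟨A k, h2 k⟩)
    have h4 : Finsupp.equivFunOnFinite.symm (fun k => A k) = A := by
      ext k
      rfl
    have h5 : coeff (Finsupp.equivFunOnFinite.symm fun k => A k) (c.1 j) = 0 := h3
    rw [h4] at h5
    exact hA h5
  · intro d n c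
    exact ⟨Finset.univ.sup fun j => (c j).totalDegree, fun j =>
      Finset.le_sup (f := fun j => (c j).totalDegree) (Finset.mem_univ j)⟩
  · intro d n i c j
    exact (homogeneousComponent_isHomogeneous i (c j)).totalDegree_le
  · intro d n i c hc'
    funext j
    rw [Finset.sum_apply]
    show c j = ∑ i' ∈ Finset.range (i + 1), homogeneousComponent i' (c j)
    conv_lhs => rw [← sum_homogeneousComponent (c j)]
    refine Finset.sum_subset ?_ ?_
    · intro l hl
      rw [Finset.mem_range] at hl ⊢
      have := hc' j
      omega
    · intro l _ hl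
      apply homogeneousComponent_eq_zero
      rw [Finset.mem_range] at hl
      omega
  · intro d n q i a ha c hc' j
    have h1 := (ha j).totalDegree_le
    have h2 := hc' j
    have h3 : ((a * c) j).totalDegree ≤ (a j).totalDegree + (c j).totalDegree :=
      totalDegree_mul _ _
    omega
  · intro d n q i a ha c
    funext j
    exact FDG_mul (a j) (c j) (ha j) i
  · intro d n q i a ha c hi
    funext j
    exact FDG_zero (a j) (c j) (ha j) i hi

end MDH
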