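import Pool.Agent.MDH.St

/-!
# MDH, module FINA: Theorem A (helper55)
-/

set_option autoImplicit false

open MvPolynomial

namespace MDH

theorem thm_FINA (hL : St_LNK) (hD : St_DUA) (hZ : St_ZER) (hF : St_FRO) : St_FINA := by
  intro r n d N hn hd
  obtain ⟨hV, φ, hφ⟩ := hL r n d hd
  refine ⟨hV, ?_⟩
  rcases Nat.lt_or_ge d n with hdn | hdn
  · obtain ⟨hs, hfin, htr⟩ := hD n d (n - d) (by omega)
    have hfin' : Module.Finite ℂ (signPart r n d) := Module.Finite.equiv φ.symm
    refine ⟨hfin', ?_⟩
    have h1 : charOn (signPart r n d) hV =
        fun w => ((Equiv.Perm.sign w : ℤ) : ℂ) * (nfix n (n - d) w : ℂ) := by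
      funext w
      rw [← htr w]
      unfold charOn
      rw [← LinearMap.trace_conj' ((act r n w).restrict (hV w)) φ]
      congr 1
      apply LinearMap.ext
      intro x
      apply Subtype.ext
      have h2 := hφ w (φ.symm x) ((act r n w).restrict (hV w) (φ.symm x)) rfl
      rw [LinearEquiv.apply_symm_apply] at h2
      exact h2
    rw [h1, hF n (n - d) N]
    refine Finset.sum_congr (Finset.filter_congr fun c _ => ?_) fun c _ => rfl
    omega
  · have hZ' := hZ n d hn hdn
    have hsub : Subsingleton (Har d n) := by
      rw [hZ']
      infer_instance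
    have hsub' : Subsingleton (signPart r n d) := φ.toEquiv.subsingleton
    refine ⟨inferInstance, ?_⟩
    have h1 : charOn (signPart r n d) hV = fun _ => 0 := by
      funext w
      unfold charOn
      have h2 : (act r n w).restrict (hV w) = 0 := by
        apply LinearMap.ext
        intro x
        exact Subsingleton.elim _ _
      rw [h2, map_zero]
    have h3 : (Finset.univ : Finset (Composition n)).filter (fun c => c.length + d = n) = ∅ := by
      refine Finset.filter_eq_empty_iff.2 fun c _ h => ?_
      have h4 : 0 < c.length := c.length_pos_of_pos hn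
      omega
    rw [h1, h3, Finset.sum_empty]
    unfold frobChar
    simp

end MDH
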