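import Pool.Agent.MDH.St

/-!
# MDH, module FRO: the Frobenius characteristic of the sign twisted surjection character
-/

set_option autoImplicit false

open MvPolynomial

namespace MDH

theorem FRO_nfix (n m : ℕ) (w : Equiv.Perm (Fin n)) :
    (nfix n m w : ℂ) = ∑ f : Surj n m, if f.1 ∘ w = f.1 then (1 : ℂ) else 0 := by
  classical
  unfold nfix
  rw [Finset.card_filter]
  push_cast
  exact Finset.sum_congr rfl fun f _ => by congr

theorem FRO_pair {n N m : ℕ} (f : Fin n → Fin m) (g : Fin n → Fin N) (w : Equiv.Perm (Fin n)) :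
    (fun i => (f i, g i)) ∘ w = (fun i => (f i, g i)) ↔ f ∘ w = f ∧ g ∘ w = g := by
  constructor
  · intro h
    exact ⟨funext fun i => congrArg Prod.fst (congrFun h i),
      funext fun i => congrArg Prod.snd (congrFun h i)⟩
  · rintro ⟨hf, hg⟩
    funext i
    exact Prod.ext (congrFun hf i) (congrFun hg i)

theorem FRO_inner (h2 : St_ALT) {n N m : ℕ} (f : Fin n → Fin m) (g : Fin n → Fin N) :
    (∑ w : Equiv.Perm (Fin n),
      if f ∘ w = f ∧ g ∘ w = g then ((Equiv.Perm.sign w : ℤ) : ℂ) else 0) =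
      if Function.Injective (fun i => (f i, g i)) then 1 else 0 := by
  classical
  have h3 := h2 n (Fin m × Fin N) (fun i => (f i, g i))
  rw [← Finset.sum_filter]
  by_cases h : Function.Injective (fun i => (f i, g i))
  · rw [if_pos h, Finset.sum_eq_single_of_mem (1 : Equiv.Perm (Fin n))]
    · simp
    · rw [Finset.mem_filter]
      exact ⟨Finset.mem_univ _, rfl, rfl⟩
    · intro w hw hw1
      rw [Finset.mem_filter] at hw
      exact absurd (h3.1 h w ((FRO_pair f g w).2 hw.2)) hw1
  · rw [if_neg h]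
    refine h3.2 h _ fun w => ?_
    rw [Finset.mem_filter, FRO_pair]
    exact ⟨fun h4 => h4.2, fun h4 => ⟨Finset.mem_univ _, h4⟩⟩

theorem thm_FRO (h1 : St_PCY) (h2 : St_ALT) (h3 : St_CMS) : St_FRO := by
  intro n m N
  classical
  unfold frobChar
  have e1 : ∀ w : Equiv.Perm (Fin n), (((Equiv.Perm.sign w : ℤ) : ℂ) * (nfix n m w : ℂ)) •
      ((w.partition.parts.map (fun k => psum (Fin N) ℂ k)).prod) =
      ∑ f : Surj n m, ∑ g : Fin n → Fin N,
        (if f.1 ∘ w = f.1 ∧ g ∘ w = g then ((Equiv.Perm.sign w : ℤ) : ℂ) else 0) •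
          ∏ i, (X (g i) : MvPolynomial (Fin N) ℂ) := by
    intro w
    rw [h1, FRO_nfix, Finset.mul_sum, Finset.sum_smul]
    refine Finset.sum_congr rfl fun f _ => ?_
    rw [Finset.sum_filter, Finset.smul_sum]
    refine Finset.sum_congr rfl fun g _ => ?_
    by_cases hf : f.1 ∘ w = f.1
    · by_cases hg : g ∘ w = g
      · rw [if_pos hf, if_pos hg, if_pos ⟨hf, hg⟩, mul_one]
      · have hn : ¬ (f.1 ∘ w = f.1 ∧ g ∘ w = g) := fun h => hg h.2
        rw [if_neg hg, if_neg hn, smul_zero, zero_smul]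
    · have hn : ¬ (f.1 ∘ w = f.1 ∧ g ∘ w = g) := fun h => hf h.1
      rw [if_neg hf, if_neg hn, mul_zero, zero_smul, zero_smul]
  have e2 : ∑ w : Equiv.Perm (Fin n), (((Equiv.Perm.sign w : ℤ) : ℂ) * (nfix n m w : ℂ)) •
      ((w.partition.parts.map (fun k => psum (Fin N) ℂ k)).prod) =
      (n.factorial : ℂ) • ∑ c ∈ (Finset.univ : Finset (Composition n)).filter
        (fun c => c.length = m), (c.blocks.map (fun k => esymm (Fin N) ℂ k)).prod := by
    rw [← h3 n m N, Finset.sum_congr rfl (fun w _ => e1 w), Finset.sum_comm]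
    refine Finset.sum_congr rfl fun f _ => ?_
    rw [Finset.sum_comm, Finset.sum_filter]
    refine Finset.sum_congr rfl fun g _ => ?_
    rw [← Finset.sum_smul, FRO_inner h2]
    by_cases h : Function.Injective (fun i => (f.1 i, g i))
    · rw [if_pos h, if_pos h, one_smul]
    · rw [if_neg h, if_neg h, zero_smul]
  rw [e2, smul_smul, inv_mul_cancel₀, one_smul]
  exact_mod_cast n.factorial_ne_zero

end MDH
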