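import Pool.Agent.MDH.St

/-!
# MDH NEW: Newton identities for the variables outside the range of `j`
-/

set_option autoImplicit false

open MvPolynomial

namespace MDH

/-- Newton for a finite family in a commutative ring, ideal form -/
theorem NEW_newton {A : Type} [CommRing A] {n : ℕ} (K : Finset (Fin n)) (x : Fin n → A)
    (I : Ideal A) (h : ∀ l, 1 ≤ l → (∑ t ∈ K.powersetCard l, ∏ i ∈ t, x i) ∈ I) :
    ∀ k, 1 ≤ k → (∑ i ∈ K, x i ^ k) ∈ I := by
  have he : ∀ l, aeval (fun i : {i // i ∈ K} => x i.1) (esymm {i // i ∈ K} ℤ l) =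
      ∑ t ∈ K.powersetCard l, ∏ i ∈ t, x i := by
    intro l
    rw [MvPolynomial.aeval_esymm_eq_multiset_esymm, Finset.esymm_map_val]
    have : K.powersetCard l = ((Finset.univ : Finset {i // i ∈ K}).powersetCard l).map
        (Finset.mapEmbedding (Function.Embedding.subtype (fun i => i ∈ K))).toEmbedding := by
      rw [← Finset.powersetCard_map]
      congr 1
      ext i
      simp
    rw [this, Finset.sum_map]
    refine Finset.sum_congr rfl (fun t _ => ?_)
    simp [Finset.mapEmbedding_apply, Finset.prod_map]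
  have hp : ∀ k, aeval (fun i : {i // i ∈ K} => x i.1) (psum {i // i ∈ K} ℤ k) =
      ∑ i ∈ K, x i ^ k := by
    intro k
    rw [MvPolynomial.psum]
    simp only [map_sum, map_pow, aeval_X]
    rw [← Finset.sum_coe_sort K (fun i => x i ^ k)]
  intro k hk
  rw [← hp k, MvPolynomial.psum_eq_mul_esymm_sub_sum _ _ k hk]
  rw [map_sub, map_sum]
  refine I.sub_mem ?_ (I.sum_mem (fun a ha => ?_))
  · rw [map_mul, he]
    exact I.mul_mem_left _ (h k hk)
  · rw [map_mul, map_mul, he]
    have ha' := Finset.mem_filter.mp ha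
    refine I.mul_mem_right _ (I.mul_mem_left _ (h _ ?_))
    simp only [Set.mem_Ioo] at ha'
    omega

theorem NEW_card {d n m : ℕ} (h : d + m = n) (j : Fin d → Fin n) (hj : Function.Injective j) :
    (cpl j).card = m := by
  classical
  have h1 : cpl j = (Finset.univ.image j)ᶜ := by
    ext i
    simp [cpl]
  rw [h1, Finset.card_compl, Finset.card_image_of_injective _ hj]
  simp
  omega

theorem NEW_mul_u {d n : ℕ} (c : T d n) (j : Fin d → Fin n) :
    c * (u j : T d n) = c j • (u j : T d n) := by
  funext j'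
  by_cases hh : j' = j
  · subst hh; simp [u]
  · simp [u, Pi.single_eq_of_ne hh]

theorem thm_NEW : St_NEW := by
  intro n d m h j hj k hk
  set J : Ideal (S n) := (Lop (epC d n m)).comap
    (LinearMap.toSpanSingleton (S n) (T d n) (u j)) with hJ
  have hmem : ∀ s : S n, s ∈ J ↔ s • (u j : T d n) ∈ Lop (epC d n m) := by
    intro s
    rw [hJ, Submodule.mem_comap, LinearMap.toSpanSingleton_apply]
  rw [← hmem]
  refine NEW_newton (cpl j) (fun i => (X i : S n)) J (fun l hl => ?_) k hk
  by_cases hlm : l ≤ m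
  · rw [hmem]
    have h1 : (∑ t ∈ (cpl j).powersetCard l, ∏ i ∈ t, (X i : S n)) =
        epC d n m ⟨l - 1, by omega⟩ j := by
      simp only [epC]
      rw [Nat.sub_add_cancel hl]
    rw [h1, ← NEW_mul_u]
    refine Submodule.mem_sup_right ?_
    exact Submodule.mem_iSup_of_mem (⟨l - 1, by omega⟩ : Fin m)
      ⟨u j, by simp [LinearMap.mulLeft_apply]⟩
  · rw [Finset.powersetCard_eq_empty.mpr (by rw [NEW_card h j hj]; omega)]
    simp

end MDH
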