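import Pool.Agent.MDH.St

/-!
MDH, module ORT: `Har` is the annihilator of `Lop thC` (helper34).
-/

set_option autoImplicit false

open MvPolynomial

namespace MDH

/-- apolar pairing on `S` -/
private noncomputable def ortP {n : ℕ} (p q : S n) : ℂ :=
  ∑ A ∈ p.support, fac A * coeff A p * coeff A q

private theorem ortP_eq_sum {n : ℕ} (p q : S n) (s : Finset (Fin n →₀ ℕ)) (h : p.support ⊆ s) :
    ortP p q = ∑ A ∈ s, fac A * coeff A p * coeff A q := by
  unfold ortP
  refine Finset.sum_subset h fun A _ hA => ?_
  rw [notMem_support_iff.1 hA, mul_zero, zero_mul]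

private theorem ortP_add_left {n : ℕ} (p p' q : S n) :
    ortP (p + p') q = ortP p q + ortP p' q := by
  classical
  have h1 : (p + p').support ⊆ p.support ∪ p'.support := support_add
  rw [ortP_eq_sum (p + p') q _ h1, ortP_eq_sum p q _ Finset.subset_union_left,
    ortP_eq_sum p' q _ Finset.subset_union_right, ← Finset.sum_add_distrib]
  refine Finset.sum_congr rfl fun A _ => ?_
  rw [coeff_add]
  ring

private theorem ortP_smul_left {n : ℕ} (t : ℂ) (p q : S n) : ortP (t • p) q = t * ortP p q := by
  rw [ortP_eq_sum (t • p) q _ support_smul, ortP, Finset.mul_sum]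
  refine Finset.sum_congr rfl fun A _ => ?_
  rw [coeff_smul, smul_eq_mul]
  ring

private theorem ortP_zero_left {n : ℕ} (q : S n) : ortP (0 : S n) q = 0 := by simp [ortP]

private theorem ortP_add_right {n : ℕ} (p q q' : S n) :
    ortP p (q + q') = ortP p q + ortP p q' := by
  unfold ortP
  rw [← Finset.sum_add_distrib]
  refine Finset.sum_congr rfl fun A _ => ?_
  rw [coeff_add]
  ring

private theorem ortP_smul_right {n : ℕ} (t : ℂ) (p q : S n) : ortP p (t • q) = t * ortP p q := by
  unfold ortP
  rw [Finset.mul_sum]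
  refine Finset.sum_congr rfl fun A _ => ?_
  rw [coeff_smul, smul_eq_mul]
  ring

private theorem ortP_zero_right {n : ℕ} (p : S n) : ortP p (0 : S n) = 0 := by simp [ortP]

private theorem ortP_sum_right {n : ℕ} {ι : Type} (s : Finset ι) (p : S n) (f : ι → S n) :
    ortP p (∑ i ∈ s, f i) = ∑ i ∈ s, ortP p (f i) := by
  classical
  induction s using Finset.induction_on with
  | empty => simp [ortP_zero_right]
  | insert a s ha ih => rw [Finset.sum_insert ha, Finset.sum_insert ha, ortP_add_right, ih]

private theorem ortP_sum_left {n : ℕ} {ι : Type} (s : Finset ι) (f : ι → S n) (q : S n) :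
    ortP (∑ i ∈ s, f i) q = ∑ i ∈ s, ortP (f i) q := by
  classical
  induction s using Finset.induction_on with
  | empty => simp [ortP_zero_left]
  | insert a s ha ih => rw [Finset.sum_insert ha, Finset.sum_insert ha, ortP_add_left, ih]

private theorem ortP_monomial {n : ℕ} (A : Fin n →₀ ℕ) (a : ℂ) (q : S n) :
    ortP (monomial A a) q = fac A * a * coeff A q := by
  rw [ortP_eq_sum (monomial A a) q {A} support_monomial_subset, Finset.sum_singleton,
    coeff_monomial, if_pos rfl]

private theorem fac_ne_zero {n : ℕ} (A : Fin n →₀ ℕ) : fac A ≠ 0 := by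
  unfold fac
  exact Finset.prod_ne_zero_iff.2 fun i _ => by exact_mod_cast Nat.factorial_ne_zero _

private theorem ortP_nondeg {n : ℕ} (q : S n) (h : ∀ s : S n, ortP s q = 0) : q = 0 := by
  ext A
  have h1 := h (monomial A 1)
  rw [ortP_monomial, mul_one] at h1
  rw [coeff_zero]
  exact (mul_eq_zero.1 h1).resolve_left (fac_ne_zero A)

private theorem coeff_dmon {n : ℕ} (A B : Fin n →₀ ℕ) (q : S n) :
    coeff B (dmon A q) =
      (∏ i ∈ A.support, (((A + B) i).descFactorial (A i) : ℂ)) * coeff (A + B) q := by
  classical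
  induction q using MvPolynomial.induction_on' with
  | monomial C c =>
    have h1 : dmon A (monomial C c : S n) =
        c • monomial (C - A) (∏ i ∈ A.support, ((C i).descFactorial (A i) : ℂ)) := by
      have h2 : (monomial C c : S n) = c • (basisMonomials (Fin n) ℂ) C := by
        rw [coe_basisMonomials, smul_monomial, smul_eq_mul, mul_one]
      rw [h2, map_smul]
      unfold dmon
      rw [Module.Basis.constr_basis]
    rw [h1, coeff_smul, coeff_monomial, coeff_monomial, smul_eq_mul]
    by_cases hC : C = A + B
    · subst hC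
      rw [if_pos (by rw [add_tsub_cancel_left]), if_pos rfl, mul_comm]
    · rw [if_neg hC, mul_zero]
      split_ifs with h3
      · have h4 : ¬ A ≤ C := by
          intro h5
          apply hC
          rw [← h3, add_tsub_cancel_of_le h5]
        rw [Finsupp.le_def] at h4
        push Not at h4
        obtain ⟨i, hi⟩ := h4
        have h6 : i ∈ A.support := by
          rw [Finsupp.mem_support_iff]
          omega
        rw [Finset.prod_eq_zero h6, mul_zero]
        rw [Nat.descFactorial_eq_zero_iff_lt.2 hi]
        simp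
      · rw [mul_zero]
  | add p q hp hq =>
    rw [map_add, coeff_add, hp, hq, coeff_add, mul_add]

private theorem fac_add {n : ℕ} (A B : Fin n →₀ ℕ) :
    fac (A + B) = fac B * ∏ i ∈ A.support, (((A + B) i).descFactorial (A i) : ℂ) := by
  have h1 : ∏ i ∈ A.support, (((A + B) i).descFactorial (A i) : ℂ) =
      ∏ i, (((A + B) i).descFactorial (A i) : ℂ) := by
    refine Finset.prod_subset (Finset.subset_univ _) fun i _ hi => ?_
    rw [Finsupp.notMem_support_iff.1 hi, Nat.descFactorial_zero, Nat.cast_one]
  rw [h1]
  unfold fac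
  rw [← Finset.prod_mul_distrib]
  refine Finset.prod_congr rfl fun i _ => ?_
  rw [← Nat.cast_mul, Finsupp.add_apply]
  congr 1
  have := Nat.factorial_mul_descFactorial (n := A i + B i) (k := A i) (Nat.le_add_right _ _)
  rw [Nat.add_sub_cancel_left] at this
  exact this.symm

private theorem ortP_adj {n : ℕ} (i : Fin n) (k : ℕ) (p q : S n) :
    ortP ((X i : S n) ^ k * p) q = ortP p (dmon (Finsupp.single i k) q) := by
  induction p using MvPolynomial.induction_on' with
  | monomial B b =>
    rw [X_pow_eq_monomial, monomial_mul, one_mul, ortP_monomial, ortP_monomial, coeff_dmon, fac_add]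
    ring
  | add p p' hp hp' => rw [mul_add, ortP_add_left, ortP_add_left, hp, hp']

private theorem pr_eq {d n : ℕ} (c c' : T d n) : pr c c' = ∑ j, ortP (c j) (c' j) := rfl

private theorem pr_add_left {d n : ℕ} (c₁ c₂ c' : T d n) : pr (c₁ + c₂) c' = pr c₁ c' + pr c₂ c' := by
  rw [pr_eq, pr_eq, pr_eq, ← Finset.sum_add_distrib]
  exact Finset.sum_congr rfl fun j _ => ortP_add_left _ _ _

private theorem pr_zero_left {d n : ℕ} (c' : T d n) : pr (0 : T d n) c' = 0 := by
  rw [pr_eq]
  exact Finset.sum_eq_zero fun j _ => ortP_zero_left _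

private theorem pr_u {d n : ℕ} (s : S n) (j : Fin d → Fin n) (c : T d n) :
    pr (s • u j) c = ortP s (c j) := by
  classical
  rw [pr_eq, Finset.sum_eq_single j]
  · congr 1
    unfold u
    simp
  · intro j' _ hj'
    have h1 : (s • (u j : T d n)) j' = 0 := by
      unfold u
      rw [Pi.smul_apply, Pi.single_eq_of_ne hj', smul_zero]
    rw [h1, ortP_zero_left]
  · intro h
    exact absurd (Finset.mem_univ j) h

private theorem pr_sum_left {d n : ℕ} {ι : Type} (s : Finset ι) (f : ι → T d n) (c' : T d n) :
    pr (∑ i ∈ s, f i) c' = ∑ i ∈ s, pr (f i) c' := by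
  classical
  induction s using Finset.induction_on with
  | empty => simp [pr_zero_left]
  | insert a s ha ih => rw [Finset.sum_insert ha, Finset.sum_insert ha, pr_add_left, ih]

private theorem pr_rho1 {d n : ℕ} (s : S n) (a : Fin d) (j : Fin d → Fin n) (k : ℕ) (c : T d n) :
    pr (s • rho1 a j k) c =
      ortP s (∑ i : Fin n, dmon (Finsupp.single i k) (c (Function.update j a i))) := by
  unfold rho1
  rw [Finset.smul_sum, pr_sum_left, ortP_sum_right]
  refine Finset.sum_congr rfl fun i _ => ?_
  rw [smul_smul, pr_u, mul_comm, ortP_adj]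

private theorem pr_rho2 {d n : ℕ} (s : S n) (τ : Equiv.Perm (Fin d)) (j : Fin d → Fin n)
    (c : T d n) :
    pr (s • rho2 τ j) c =
      ortP s (c (j ∘ τ) - (((Equiv.Perm.sign τ : ℤ) : ℂ)) • c j) := by
  have h1 : s • rho2 τ j = s • (u (j ∘ τ) : T d n) +
      ((-(((Equiv.Perm.sign τ : ℤ) : ℂ))) • s) • (u j : T d n) := by
    unfold rho2
    rw [smul_sub, smul_assoc, smul_comm s, neg_smul, sub_eq_add_neg]
  rw [h1, pr_add_left, pr_u, pr_u, ortP_smul_left, sub_eq_add_neg, ortP_add_right, ← neg_smul,
    ortP_smul_right]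

private theorem pr_psum {d n : ℕ} (k : ℕ) (x c : T d n) :
    pr ((psum (Fin n) ℂ k : S n) • x) c =
      ∑ j, ortP (x j) (∑ i : Fin n, dmon (Finsupp.single i k) (c j)) := by
  rw [pr_eq]
  refine Finset.sum_congr rfl fun j _ => ?_
  rw [Pi.smul_apply, smul_eq_mul, psum, Finset.sum_mul, ortP_sum_left, ortP_sum_right]
  exact Finset.sum_congr rfl fun i _ => ortP_adj _ _ _ _

theorem thm_ORT (hPOW : St_POW) : St_ORT := by
  intro n d m hdm c
  constructor
  · rintro ⟨h1, h2, h3⟩
    -- the submodule of the `l` with `pr (s • l) c = 0` for all `s`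
    let N : Submodule (S n) (T d n) :=
      { carrier := {l | ∀ s : S n, pr (s • l) c = 0}
        add_mem' := fun {x y} hx hy s => by rw [smul_add, pr_add_left, hx s, hy s, add_zero]
        zero_mem' := fun s => by rw [smul_zero, pr_zero_left]
        smul_mem' := fun t x hx s => by rw [smul_smul]; exact hx (s * t) }
    have hN : Lop (thC d n m) ≤ N := by
      unfold Lop
      refine sup_le ?_ (iSup_le fun k => ?_)
      · unfold Rel
        rw [Submodule.span_le]
        rintro x (⟨a, j, k, rfl⟩ | ⟨τ, j, rfl⟩)
        · intro s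
          rw [pr_rho1, h2 a j k, ortP_zero_right]
        · intro s
          rw [pr_rho2, h1 τ j, sub_self, ortP_zero_right]
      · rintro _ ⟨x, rfl⟩ s
        rw [LinearMap.mulLeft_apply]
        have e1 : s • (thC d n m k * x) = (psum (Fin n) ℂ (k.val + 1) : S n) • (s • x) := by
          funext j
          simp only [thC, Pi.smul_apply, Pi.mul_apply, smul_eq_mul]
          ring
        rw [e1, pr_psum]
        refine Finset.sum_eq_zero fun j _ => ?_
        rw [h3 j (k.val + 1) (Nat.succ_pos _), ortP_zero_right]
    intro l hl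
    have := hN hl 1
    rwa [one_smul] at this
  · intro h
    have hR : ∀ x ∈ Rel d n, ∀ s : S n, pr (s • x) c = 0 := fun x hx s =>
      h _ (Submodule.mem_sup_left (Submodule.smul_mem _ s hx))
    refine ⟨fun τ j => ?_, fun a j k => ?_, fun j k hk => ?_⟩
    · rw [← sub_eq_zero]
      apply ortP_nondeg
      intro s
      rw [← pr_rho2]
      exact hR _ (Submodule.subset_span (Or.inr ⟨τ, j, rfl⟩)) s
    · apply ortP_nondeg
      intro s
      rw [← pr_rho1]
      exact hR _ (Submodule.subset_span (Or.inl ⟨a, j, k, rfl⟩)) s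
    · apply ortP_nondeg
      intro s
      have e1 := h _ (hPOW n d m hdm k hk (s • u j))
      rw [pr_psum] at e1
      classical
      rw [Finset.sum_eq_single j] at e1
      · have e2 : (s • (u j : T d n)) j = s := by
          unfold u
          simp
        rwa [e2] at e1
      · intro j' _ hj'
        have e2 : (s • (u j : T d n)) j' = 0 := by
          unfold u
          rw [Pi.smul_apply, Pi.single_eq_of_ne hj', smul_zero]
        rw [e2, ortP_zero_left]
      · intro h'
        exact absurd (Finset.mem_univ j) h'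

end MDH
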