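import Pool.Agent.MDH.St

/-!
# MDH, module POW: all power sums act into `Rel + (p_1, …, p_m) T`
-/

set_option autoImplicit false

open MvPolynomial

namespace MDH

namespace POW

variable {d n : ℕ}

theorem noninj (j : Fin d → Fin n) (hj : ¬ Function.Injective j) : (u j : T d n) ∈ Rel d n := by
  rw [Function.Injective] at hj
  push Not at hj
  obtain ⟨a, b, hab, hne⟩ := hj
  have h1 : j ∘ (Equiv.swap a b) = j := by
    funext x
    show j (Equiv.swap a b x) = j x
    by_cases hxa : x = a
    · rw [hxa, Equiv.swap_apply_left, hab]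
    · by_cases hxb : x = b
      · rw [hxb, Equiv.swap_apply_right, hab]
      · rw [Equiv.swap_apply_of_ne_of_ne hxa hxb]
  have h2 : rho2 (Equiv.swap a b) j ∈ Rel d n :=
    Submodule.subset_span (Or.inr ⟨_, _, rfl⟩)
  have h3 : rho2 (Equiv.swap a b) j = (2 : S n) • (u j : T d n) := by
    unfold rho2
    rw [h1, Equiv.Perm.sign_swap hne, two_smul]
    simp
  rw [h3] at h2
  have h4 : (u j : T d n) = (C (1 / 2) : S n) • ((2 : S n) • (u j : T d n)) := by
    rw [smul_smul]
    have h5 : (C (1 / 2) : S n) * 2 = 1 := by
      have h6 : (2 : S n) = C 2 := by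
        rw [map_ofNat]
      rw [h6, ← C_mul]
      norm_num
    rw [h5, one_smul]
  rw [h4]
  exact Submodule.smul_mem _ _ h2

theorem key (a : Fin d) (j : Fin d → Fin n) (G : Polynomial (S n)) :
    ∑ i : Fin n, (G.eval (X i : S n)) • (u (Function.update j a i) : T d n) ∈ Rel d n := by
  have h1 : ∑ i : Fin n, (G.eval (X i : S n)) • (u (Function.update j a i) : T d n) =
      ∑ k ∈ Finset.range (G.natDegree + 1), G.coeff k • (rho1 a j k : T d n) := by
    unfold rho1
    simp only [Finset.smul_sum, smul_smul]
    rw [Finset.sum_comm]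
    refine Finset.sum_congr rfl fun i _ => ?_
    rw [Polynomial.eval_eq_sum_range, Finset.sum_smul]
  rw [h1]
  exact Submodule.sum_mem _ fun k _ => Submodule.smul_mem _ _
    (Submodule.subset_span (Or.inl ⟨_, _, _, rfl⟩))

theorem van (a : Fin d) (j : Fin d → Fin n) (G : Polynomial (S n))
    (hG : ∀ i ∈ cpl j, G.eval (X i : S n) = 0) :
    (G.eval (X (j a) : S n)) • (u j : T d n) ∈ Rel d n := by
  have h1 := key a j G
  rw [← Finset.add_sum_erase _ _ (Finset.mem_univ (j a)), Function.update_eq_self] at h1
  refine (Submodule.add_mem_iff_left _ (Submodule.sum_mem _ fun i hi => ?_)).1 h1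
  have hi1 : i ≠ j a := Finset.ne_of_mem_erase hi
  by_cases hc : i ∈ cpl j
  · rw [hG i hc, zero_smul]
    exact Submodule.zero_mem _
  · refine Submodule.smul_mem _ _ (noninj _ fun hinj => ?_)
    unfold cpl at hc
    rw [Finset.mem_filter] at hc
    push Not at hc
    obtain ⟨b, hb⟩ := hc (Finset.mem_univ i)
    have hba : b ≠ a := by
      rintro rfl
      exact hi1 hb.symm
    have h2 : Function.update j a i a = Function.update j a i b := by
      rw [Function.update_self, Function.update_of_ne hba, hb]
    exact hba (hinj h2).symm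

theorem sum_van (j : Fin d → Fin n) (G : Polynomial (S n))
    (hG : ∀ i ∈ cpl j, G.eval (X i : S n) = 0) :
    (∑ i : Fin n, G.eval (X i : S n)) • (u j : T d n) ∈ Rel d n := by
  rw [Finset.sum_smul]
  refine Submodule.sum_mem _ fun i _ => ?_
  by_cases hc : i ∈ cpl j
  · rw [hG i hc, zero_smul]
    exact Submodule.zero_mem _
  · unfold cpl at hc
    rw [Finset.mem_filter] at hc
    push Not at hc
    obtain ⟨a, rfl⟩ := hc (Finset.mem_univ i)
    exact van a j G hG

theorem card_cpl (j : Fin d → Fin n) (hj : Function.Injective j) (m : ℕ) (h : d + m = n) :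
    (cpl j).card = m := by
  have h1 : cpl j = Finset.univ \ (Finset.univ.image j) := by
    ext i
    unfold cpl
    simp
  rw [h1, Finset.card_sdiff_of_subset (Finset.subset_univ _), Finset.card_univ,
    Finset.card_image_of_injective _ hj, Finset.card_univ, Fintype.card_fin, Fintype.card_fin]
  omega

theorem small {m : ℕ} (k : ℕ) (h1 : 1 ≤ k) (hk : k ≤ m) (c : T d n) :
    (psum (Fin n) ℂ k : S n) • c ∈ Lop (thC d n m) := by
  unfold Lop
  refine Submodule.mem_sup_right (Submodule.mem_iSup_of_mem (⟨k - 1, by omega⟩ : Fin m) ?_)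
  refine ⟨c, ?_⟩
  rw [LinearMap.mulLeft_apply]
  funext j
  show psum (Fin n) ℂ (k - 1 + 1) * c j = psum (Fin n) ℂ k * c j
  rw [Nat.sub_add_cancel h1]

theorem rel_le {m : ℕ} : Rel d n ≤ Lop (thC d n m) := le_sup_left

theorem basis_case (m : ℕ) (h : d + m = n) (j : Fin d → Fin n) (hj : Function.Injective j)
    (k : ℕ) (hk : 1 ≤ k) : (psum (Fin n) ℂ k : S n) • (u j : T d n) ∈ Lop (thC d n m) := by
  induction k using Nat.strong_induction_on with
  | _ k ih =>
    by_cases hkm : k ≤ m
    · exact small k hk hkm _
    · push Not at hkm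
      set g : Polynomial (S n) :=
        ∏ i ∈ cpl j, (Polynomial.X - Polynomial.C (X i : S n)) with hg
      have hmon : g.Monic := Polynomial.monic_prod_of_monic _ _ fun i _ => Polynomial.monic_X_sub_C _
      have hdeg : g.natDegree = m := by
        rw [hg, Polynomial.natDegree_prod_of_monic _ _ fun i _ => Polynomial.monic_X_sub_C _]
        simp only [Polynomial.natDegree_X_sub_C, Finset.sum_const, smul_eq_mul, mul_one]
        exact card_cpl j hj m h
      have hev : ∀ y : S n, g.eval y = y ^ m + ∑ l ∈ Finset.range m, g.coeff l * y ^ l := by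
        intro y
        rw [Polynomial.eval_eq_sum_range, Finset.sum_range_succ, hmon.coeff_natDegree, one_mul,
          hdeg, add_comm]
      have hvan : ∀ i ∈ cpl j, (Polynomial.X ^ (k - m) * g).eval (X i : S n) = 0 := by
        intro i hi
        rw [Polynomial.eval_mul, hg, Polynomial.eval_prod, Finset.prod_eq_zero hi, mul_zero]
        rw [Polynomial.eval_sub, Polynomial.eval_X, Polynomial.eval_C, sub_self]
      have h1 := sum_van j _ hvan
      have h2 : ∑ i : Fin n, (Polynomial.X ^ (k - m) * g).eval (X i : S n) =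
          psum (Fin n) ℂ k + ∑ l ∈ Finset.range m, g.coeff l * psum (Fin n) ℂ (k - m + l) := by
        unfold psum
        simp only [Finset.mul_sum]
        rw [Finset.sum_comm, ← Finset.sum_add_distrib]
        refine Finset.sum_congr rfl fun i _ => ?_
        rw [Polynomial.eval_mul, Polynomial.eval_pow, Polynomial.eval_X, hev, mul_add, ← pow_add,
          Nat.sub_add_cancel hkm.le, Finset.mul_sum]
        congr 1
        refine Finset.sum_congr rfl fun l _ => ?_
        rw [pow_add]
        ring
      rw [h2, add_smul, Finset.sum_smul] at h1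
      refine (Submodule.add_mem_iff_left _ (Submodule.sum_mem _ fun l hl => ?_)).1 (rel_le h1)
      rw [mul_smul]
      have hl2 := Finset.mem_range.1 hl
      exact Submodule.smul_mem _ _ (ih (k - m + l) (by omega) (by omega))

end POW

theorem thm_POW : St_POW := by
  intro n d m h k hk c
  have hc : c = ∑ j : Fin d → Fin n, c j • (u j : T d n) := by
    funext i
    rw [Finset.sum_apply, Finset.sum_eq_single i]
    · unfold u
      rw [Pi.smul_apply, Pi.single_eq_same, smul_eq_mul, mul_one]
    · intro j _ hji
      unfold u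
      rw [Pi.smul_apply, Pi.single_eq_of_ne hji.symm, smul_zero]
    · intro hi
      exact absurd (Finset.mem_univ i) hi
  rw [hc, Finset.smul_sum]
  refine Submodule.sum_mem _ fun j _ => ?_
  rw [smul_comm]
  refine Submodule.smul_mem _ _ ?_
  by_cases hj : Function.Injective j
  · exact POW.basis_case m h j hj k hk
  · exact Submodule.smul_mem _ _ (POW.rel_le (POW.noninj j hj))

end MDH
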