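import Pool.Agent.MDH.St

/-!
MDH, module SPN: spanning property (helper34).
-/

set_option autoImplicit false

open MvPolynomial

namespace MDH

private theorem spn_mem_box {m J : ℕ} {α : Fin m → ℕ} : α ∈ box m J ↔ wt α ≤ J := by
  unfold box
  rw [Finset.mem_filter, Fintype.mem_piFinset]
  refine ⟨fun h => h.2, fun h => ⟨fun k => ?_, h⟩⟩
  rw [Finset.mem_range]
  have h1 : (k.val + 1) * α k ≤ wt α :=
    Finset.single_le_sum (f := fun k : Fin m => (k.val + 1) * α k) (fun _ _ => Nat.zero_le _)
      (Finset.mem_univ k)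
  have h2 : α k ≤ (k.val + 1) * α k := Nat.le_mul_of_pos_left _ (Nat.succ_pos _)
  omega

private theorem spn_wt_add {m : ℕ} (α : Fin m → ℕ) (k : Fin m) :
    wt (α + Pi.single k 1) = wt α + (k.val + 1) := by
  unfold wt
  have h1 : ∀ l : Fin m, (l.val + 1) * (α + Pi.single k 1 : Fin m → ℕ) l =
      (l.val + 1) * α l + if l = k then k.val + 1 else 0 := by
    intro l
    rw [Pi.add_apply, mul_add, Pi.single_apply]
    by_cases h : l = k
    · subst h
      simp
    · simp [h]
  rw [Finset.sum_congr rfl fun l _ => h1 l, Finset.sum_add_distrib, Finset.sum_ite_eq']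
  simp

private theorem spn_mon_add {A : Type} [CommRing A] {m : ℕ} (a : Fin m → A) (α : Fin m → ℕ)
    (k : Fin m) : mon a (α + Pi.single k 1) = a k * mon a α := by
  unfold mon
  have h1 : ∀ l : Fin m, a l ^ (α + Pi.single k 1 : Fin m → ℕ) l = (if l = k then a k else 1) * a l ^ α l := by
    intro l
    rw [Pi.add_apply, pow_add, Pi.single_apply]
    by_cases h : l = k
    · subst h
      simp [mul_comm]
    · simp [h]
  rw [Finset.prod_congr rfl fun l _ => h1 l, Finset.prod_mul_distrib, Finset.prod_ite_eq']
  simp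

theorem thm_SPN (hF : St_FDG) : St_SPN := by
  obtain ⟨hmono, -, -, hcF, hsum, -, hmul, hmul0⟩ := hF
  intro n d m a V ha haR hR hV htop
  classical
  let Q : ℕ → Submodule ℂ (T d n) := fun J => (Rel d n).restrictScalars ℂ ⊔
    ⨆ α ∈ box m J, (V ⊓ Fd d n (J - wt α)).map (LinearMap.mulLeft ℂ (mon a α))
  have hQR : ∀ J, ∀ c ∈ Rel d n, c ∈ Q J := fun J c hc => Submodule.mem_sup_left hc
  have hQmem : ∀ J (α : Fin m → ℕ), wt α ≤ J → ∀ v ∈ V, v ∈ Fd d n (J - wt α) →
      mon a α * v ∈ Q J := by
    intro J α hα v hv hvF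
    apply Submodule.mem_sup_right
    apply Submodule.mem_iSup_of_mem α
    apply Submodule.mem_iSup_of_mem (spn_mem_box.2 hα)
    exact Submodule.mem_map.2 ⟨v, ⟨hv, hvF⟩, rfl⟩
  have hQle : ∀ J (P : Submodule ℂ (T d n)), (∀ c ∈ Rel d n, c ∈ P) →
      (∀ α : Fin m → ℕ, wt α ≤ J → ∀ v ∈ V, v ∈ Fd d n (J - wt α) → mon a α * v ∈ P) →
      Q J ≤ P := by
    intro J P h1 h2
    refine sup_le (fun c hc => h1 c hc) (iSup_le fun α => iSup_le fun hα => ?_)
    rintro _ ⟨v, ⟨hv, hvF⟩, rfl⟩
    exact h2 α (spn_mem_box.1 hα) v hv hvF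
  have hQmono : ∀ i J, i ≤ J → Q i ≤ Q J := by
    intro i J hiJ
    refine hQle i _ (hQR J) fun α hα v hv hvF => ?_
    exact hQmem J α (hα.trans hiJ) v hv (hmono d n (by omega) hvF)
  have hQmul : ∀ i (k : Fin m), ∀ c ∈ Q i, a k * c ∈ Q (i + (k.val + 1)) := by
    intro i k
    have h1 : Q i ≤ (Q (i + (k.val + 1))).comap (LinearMap.mulLeft ℂ (a k)) := by
      refine hQle i _ (fun c hc => ?_) fun α hα v hv hvF => ?_
      · exact hQR _ _ (haR k c hc)
      · rw [Submodule.mem_comap, LinearMap.mulLeft_apply, ← mul_assoc, ← spn_mon_add]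
        apply hQmem
        · rw [spn_wt_add]
          omega
        · exact hv
        · rw [spn_wt_add, Nat.add_sub_add_right]
          exact hvF
    exact fun c hc => h1 hc
  have hidem : ∀ J (c : T d n), hc J (hc J c) = hc J c := by
    intro J c
    funext j
    change homogeneousComponent J (homogeneousComponent J (c j)) = homogeneousComponent J (c j)
    have h1 : homogeneousComponent J (c j) ∈ homogeneousSubmodule (Fin n) ℂ J :=
      homogeneousComponent_isHomogeneous J (c j)
    rw [homogeneousComponent_of_mem h1, if_pos rfl]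
  have key : ∀ J, ∀ c ∈ Fd d n J, c ∈ Q J := by
    intro J
    induction J using Nat.strong_induction_on with
    | _ J ih =>
      intro c hcJ
      have hlow : ∀ i, i < J → hc i c ∈ Q J := fun i hi =>
        hQmono i J hi.le (ih i hi _ (hcF d n i c))
      have htopc : hc J c ∈ Q J := by
        have h1 : hc J c ∈ V ⊔ (Lop a).restrictScalars ℂ := by
          rw [htop]
          exact Submodule.mem_top
        obtain ⟨v, hv, l, hl, hvl⟩ := Submodule.mem_sup.1 h1
        have h2 : hc J c = hc J v + hc J l := by rw [← map_add, hvl, hidem]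
        rw [h2]
        apply Submodule.add_mem
        · have h3 := hQmem J 0 (by simp [wt]) (hc J v) (hV v hv J)
            (by simpa [wt] using hcF d n J v)
          have h4 : mon a (0 : Fin m → ℕ) = 1 := by simp [mon]
          rwa [h4, one_mul] at h3
        · have hl' : l ∈ Lop a := hl
          unfold Lop at hl'
          obtain ⟨r, hr, t, ht, hrt⟩ := Submodule.mem_sup.1 hl'
          rw [← hrt, map_add]
          apply Submodule.add_mem
          · exact hQR J _ (hR r hr J)
          · refine Submodule.iSup_induction _ (motive := fun t => hc J t ∈ Q J) ht ?_ ?_ ?_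
            · rintro k _ ⟨c', rfl⟩
              rw [LinearMap.mulLeft_apply]
              rcases Nat.lt_or_ge J (k.val + 1) with hk | hk
              · rw [hmul0 d n (k.val + 1) J (a k) (ha k) c' hk]
                exact Submodule.zero_mem _
              · obtain ⟨i, rfl⟩ := Nat.exists_eq_add_of_le' hk
                rw [hmul d n (k.val + 1) i (a k) (ha k) c']
                exact hQmul i k _ (ih i (by omega) _ (hcF d n i c'))
            · rw [map_zero]
              exact Submodule.zero_mem _
            · intro x y hx hy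
              rw [map_add]
              exact Submodule.add_mem _ hx hy
      rw [hsum d n J c hcJ]
      refine Submodule.sum_mem _ fun i hi => ?_
      rw [Finset.mem_range] at hi
      rcases Nat.lt_or_ge i J with h | h
      · exact hlow i h
      · rw [show i = J by omega]
        exact htopc
  intro J c hcJ
  obtain ⟨r, hr, t, ht, hrt⟩ := Submodule.mem_sup.1 (key J c hcJ)
  rw [Submodule.mem_iSup_finset_iff_exists_sum] at ht
  obtain ⟨μ, hμ⟩ := ht
  choose v hv using fun α => Submodule.mem_map.1 (μ α).2
  refine ⟨v, fun α _ => (hv α).1, ?_⟩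
  have h1 : ∑ α ∈ box m J, mon a α * v α = t := by
    rw [← hμ]
    refine Finset.sum_congr rfl fun α _ => ?_
    exact (hv α).2
  rw [h1, ← hrt, add_sub_cancel_right]
  exact hr

end MDH
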