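import Pool.Agent.MDH.St

/-!
# MDH, module UJ: upper bound with unprocessed indices (helper89)
-/

set_option autoImplicit false

open MvPolynomial

namespace MDH

/-- the case without unprocessed indices -/
theorem UJ_base (hY : St_CYC) (n : ℕ) (I : Ideal (S n)) (K : Finset (Fin n)) (s : ℕ)
    (h4 : ∀ j, j ∉ K → ∃ i ∈ K, (X j : S n) - X i ∈ I)
    (h5 : ∀ k : ℕ, 1 ≤ k → ∑ i ∈ K, (X i : S n) ^ k +
      (s : S n) * ∑ i ∈ Finset.univ \ K, (X i : S n) ^ k ∈ I) :
    Module.Finite ℂ (S n ⧸ I) ∧ Module.finrank ℂ (S n ⧸ I) ≤ K.card.factorial := by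
  classical
  have h6 : ∃ g : Fin n → Fin n, ∀ j ∈ Finset.univ \ K, g j ∈ K ∧ (X j : S n) - X (g j) ∈ I := by
    refine ⟨fun j => if hj : j ∉ K then (h4 j hj).choose else j, fun j hj => ?_⟩
    have hj' : j ∉ K := (Finset.mem_sdiff.1 hj).2
    beta_reduce
    rw [dif_pos hj']
    exact (h4 j hj').choose_spec
  obtain ⟨g, hg⟩ := h6
  refine hY n I K (fun i => 1 + s * ((Finset.univ \ K).filter (fun j => g j = i)).card)
    (fun i _ => by omega) (fun i hi => ?_) (fun k hk => ?_)
  · have hi' := hg i (Finset.mem_sdiff.2 ⟨Finset.mem_univ _, hi⟩)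
    exact Or.inr ⟨g i, hi'.1, hi'.2⟩
  · have e1 : ∑ i ∈ K, (((1 + s * ((Finset.univ \ K).filter (fun j => g j = i)).card : ℕ)) : S n) *
        X i ^ k = ∑ i ∈ K, (X i : S n) ^ k + (s : S n) * ∑ j ∈ Finset.univ \ K,
          (X (g j) : S n) ^ k := by
      have e2 : ∑ j ∈ Finset.univ \ K, (X (g j) : S n) ^ k =
          ∑ i ∈ K, (((Finset.univ \ K).filter (fun j => g j = i)).card : S n) * X i ^ k := by
        rw [← Finset.sum_fiberwise_of_maps_to (fun j hj => (hg j hj).1)]
        refine Finset.sum_congr rfl fun i _ => ?_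
        rw [Finset.sum_congr rfl fun j hj => by rw [(Finset.mem_filter.1 hj).2],
          Finset.sum_const, nsmul_eq_mul]
      rw [e2, Finset.mul_sum, ← Finset.sum_add_distrib]
      refine Finset.sum_congr rfl fun i _ => ?_
      push_cast
      ring
    rw [e1]
    have e3 : ∑ i ∈ K, (X i : S n) ^ k + (s : S n) * ∑ j ∈ Finset.univ \ K,
        (X (g j) : S n) ^ k = (∑ i ∈ K, (X i : S n) ^ k +
        (s : S n) * ∑ i ∈ Finset.univ \ K, (X i : S n) ^ k) -
        (s : S n) * ∑ j ∈ Finset.univ \ K, ((X j : S n) ^ k - X (g j) ^ k) := by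
      rw [Finset.sum_sub_distrib]
      ring
    rw [e3]
    refine I.sub_mem (h5 k hk) (I.mul_mem_left _ (I.sum_mem fun j hj => ?_))
    exact I.mem_of_dvd (sub_dvd_pow_sub_pow _ _ k) (hg j hj).2

theorem thm_UJ (hC : St_CHN) (hY : St_CYC) : St_UJ := by
  intro n I K U B s hKU hB h3 h4 h5
  obtain ⟨c, hc⟩ : ∃ c, c = U.card := ⟨_, rfl⟩
  induction c generalizing I U with
  | zero =>
    have hU : U = ∅ := Finset.card_eq_zero.1 hc.symm
    rw [hU, Finset.prod_empty, one_mul]
    refine UJ_base hY n I K s (fun j hj => h4 j hj ?_) h5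
    rw [hU]
    exact Finset.notMem_empty j
  | succ c ih =>
    have hUn : U.Nonempty := by
      rw [← Finset.card_pos]
      omega
    obtain ⟨j0, hj0⟩ := hUn
    have hstep : ∀ i ∈ B j0,
        Module.Finite ℂ (S n ⧸ (I ⊔ Ideal.span {(X j0 : S n) - X i})) ∧
        Module.finrank ℂ (S n ⧸ (I ⊔ Ideal.span {(X j0 : S n) - X i})) ≤
          (∏ j ∈ U.erase j0, (B j).card) * K.card.factorial := by
      intro i hi
      refine ih (I ⊔ Ideal.span {(X j0 : S n) - X i}) (U.erase j0)
        (hKU.mono_right (Finset.erase_subset _ _))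
        (fun j hj => hB j (Finset.mem_of_mem_erase hj))
        (fun j hj => Ideal.mem_sup_left (h3 j (Finset.mem_of_mem_erase hj)))
        (fun j hj hj' => ?_) (fun k hk => Ideal.mem_sup_left (h5 k hk))
        (by rw [Finset.card_erase_of_mem hj0]; omega)
      by_cases hjj : j = j0
      · rw [hjj]
        exact ⟨i, hB j0 hj0 hi, Ideal.mem_sup_right (Ideal.mem_span_singleton_self _)⟩
      · have hjU : j ∉ U := fun h => hj' (Finset.mem_erase.2 ⟨hjj, h⟩)
        obtain ⟨i', hi', h6⟩ := h4 j hj hjU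
        exact ⟨i', hi', Ideal.mem_sup_left h6⟩
    obtain ⟨hf1, hf2⟩ := hC n I ((B j0).toList.map fun i => (X j0 : S n) - X i) (by
      rw [Finset.prod_map_toList]
      exact h3 j0 hj0) (fun x hx => by
        obtain ⟨i, hi, rfl⟩ := List.mem_map.1 hx
        exact (hstep i (Finset.mem_toList.1 hi)).1)
    refine ⟨hf1, hf2.trans ?_⟩
    have h7 := List.sum_le_card_nsmul (((B j0).toList.map fun i => (X j0 : S n) - X i).map
      (fun x => Module.finrank ℂ (S n ⧸ (I ⊔ Ideal.span {x}))))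
      ((∏ j ∈ U.erase j0, (B j).card) * K.card.factorial) (fun y hy => by
        obtain ⟨x, hx, rfl⟩ := List.mem_map.1 hy
        obtain ⟨i, hi, rfl⟩ := List.mem_map.1 hx
        exact (hstep i (Finset.mem_toList.1 hi)).2)
    refine h7.trans (le_of_eq ?_)
    rw [List.length_map, List.length_map, Finset.length_toList, smul_eq_mul, ← mul_assoc,
      Finset.mul_prod_erase U (fun j => (B j).card) hj0]

end MDH
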