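import Pool.Agent.MDH.St

/-!
# MDH / UPP: the upper bound for the dimension of `T / L`
-/

set_option autoImplicit false

open MvPolynomial

namespace MDH

/-- the `d`-subsets of `Fin n` -/
private abbrev UPPI (d n : ℕ) : Type := ↥((Finset.univ : Finset (Fin n)).powersetCard d)

/-- increasing enumeration of a `d`-subset -/
private noncomputable def UPPe {d n : ℕ} (t : UPPI d n) : Fin d → Fin n :=
  ⇑(t.1.orderEmbOfFin ((Finset.mem_powersetCard.1 t.2).2))

private theorem UPPe_inj {d n : ℕ} (t : UPPI d n) : Function.Injective (UPPe t) :=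
  (t.1.orderEmbOfFin ((Finset.mem_powersetCard.1 t.2).2)).injective

private theorem UPPe_range {d n : ℕ} (t : UPPI d n) : Set.range (UPPe t) = ↑t.1 :=
  Finset.range_orderEmbOfFin _ _

private theorem UPPe_mem {d n : ℕ} (t : UPPI d n) (a : Fin d) : UPPe t a ∈ t.1 :=
  Finset.orderEmbOfFin_mem _ _ _

private theorem UPPe_surj {d n : ℕ} (t : UPPI d n) {j : Fin n} (hj : j ∈ t.1) :
    ∃ a, UPPe t a = j := by
  have h : j ∈ Set.range (UPPe t) := by rw [UPPe_range]; exact hj
  exact h

private theorem UPP_cpl {d n : ℕ} (t : UPPI d n) : cpl (UPPe t) = Finset.univ \ t.1 := by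
  ext i
  simp only [cpl, Finset.mem_filter, Finset.mem_univ, true_and, Finset.mem_sdiff]
  constructor
  · intro h hi
    obtain ⟨a, ha⟩ := UPPe_surj t hi
    exact h a ha
  · intro h a ha
    exact h (ha ▸ UPPe_mem t a)

/-- the subset of an injective tuple -/
private def UPPim {d n : ℕ} (j : Fin d → Fin n) (hj : Function.Injective j) : UPPI d n :=
  ⟨Finset.univ.image j, by
    rw [Finset.mem_powersetCard]
    exact ⟨Finset.subset_univ _, by rw [Finset.card_image_of_injective _ hj]; simp⟩⟩

private theorem UPP_perm {d n : ℕ} (j : Fin d → Fin n) (hj : Function.Injective j) :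
    ∃ τ : Equiv.Perm (Fin d), UPPe (UPPim j hj) ∘ τ = j := by
  have h1 : ∀ a, ∃ b, UPPe (UPPim j hj) b = j a := fun a =>
    UPPe_surj _ (by simp [UPPim])
  choose f hf using h1
  have hfi : Function.Injective f := by
    intro a b hab
    apply hj
    rw [← hf a, ← hf b, hab]
  have hfb : Function.Bijective f := Finite.injective_iff_bijective.1 hfi
  exact ⟨Equiv.ofBijective f hfb, by funext a; exact hf a⟩

/-- the weight -/
private def UPPr {d n : ℕ} (t : UPPI d n) : ℕ := ∑ i ∈ t.1, i.val

private theorem UPPr_im {d n : ℕ} (j : Fin d → Fin n) (hj : Function.Injective j) :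
    UPPr (UPPim j hj) = ∑ a, (j a).val := by
  unfold UPPr UPPim
  rw [Finset.sum_image (fun a _ b _ h => hj h)]

private theorem UPPr_e {d n : ℕ} (t : UPPI d n) : UPPr t = ∑ a, (UPPe t a).val := by
  unfold UPPr
  have h : t.1 = Finset.univ.image (UPPe t) := by
    ext i
    simp only [Finset.mem_image, Finset.mem_univ, true_and]
    exact ⟨fun hi => UPPe_surj t hi, fun ⟨a, ha⟩ => ha ▸ UPPe_mem t a⟩
  conv_lhs => rw [h]
  rw [Finset.sum_image (fun a _ b _ h => UPPe_inj t h)]

private theorem UPP_decomp {d n : ℕ} (c : T d n) : c = ∑ j, c j • (u j : T d n) := by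
  funext j
  rw [Finset.sum_apply, Finset.sum_eq_single j]
  · simp [u]
  · intro b _ hb
    simp [u, Ne.symm hb]
  · simp

private theorem UPP_non {d n : ℕ} {L : Submodule (S n) (T d n)} (hL : Rel d n ≤ L)
    (j : Fin d → Fin n) (hj : ¬ Function.Injective j) : (u j : T d n) ∈ L := by
  rw [Function.Injective] at hj
  push Not at hj
  obtain ⟨a, b, hab, hne⟩ := hj
  have h1 : rho2 (Equiv.swap a b) j ∈ L := hL (Submodule.subset_span (Or.inr ⟨_, _, rfl⟩))
  have h2 : j ∘ (Equiv.swap a b) = j := by
    funext x
    simp only [Function.comp_apply]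
    rcases eq_or_ne x a with rfl | hxa
    · rw [Equiv.swap_apply_left, hab]
    · rcases eq_or_ne x b with rfl | hxb
      · rw [Equiv.swap_apply_right, hab]
      · rw [Equiv.swap_apply_of_ne_of_ne hxa hxb]
  have h3 : rho2 (Equiv.swap a b) j = (2 : ℂ) • (u j : T d n) := by
    unfold rho2
    rw [h2, Equiv.Perm.sign_swap hne]
    simp only [Units.val_neg, Units.val_one, Int.cast_neg, Int.cast_one, neg_smul, one_smul,
      sub_neg_eq_add]
    rw [two_smul]
  rw [h3] at h1
  have h4 := Submodule.smul_of_tower_mem L (2⁻¹ : ℂ) h1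
  rw [smul_smul] at h4
  norm_num at h4
  exact h4

private theorem UPP_gsum {d n : ℕ} {L : Submodule (S n) (T d n)} (hL : Rel d n ≤ L)
    (a : Fin d) (j : Fin d → Fin n) (g : Polynomial (S n)) :
    ∑ i : Fin n, (g.eval (X i)) • (u (Function.update j a i) : T d n) ∈ L := by
  have h : ∑ i : Fin n, (g.eval (X i)) • (u (Function.update j a i) : T d n) =
      ∑ k ∈ Finset.range (g.natDegree + 1), g.coeff k • rho1 a j k := by
    simp only [rho1, Finset.smul_sum]
    rw [Finset.sum_comm]
    refine Finset.sum_congr rfl fun i _ => ?_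
    rw [Polynomial.eval_eq_sum_range, Finset.sum_smul]
    refine Finset.sum_congr rfl fun k _ => ?_
    rw [smul_smul]
  rw [h]
  exact Submodule.sum_mem _ fun k _ => Submodule.smul_mem _ _
    (hL (Submodule.subset_span (Or.inl ⟨_, _, _, rfl⟩)))

/-- the generators of the quotient -/
private noncomputable def UPPv {d n : ℕ} (L : Submodule (S n) (T d n)) (t : UPPI d n) :
    T d n ⧸ L := Submodule.Quotient.mk (u (UPPe t))

private theorem UPP_mk {d n : ℕ} {L : Submodule (S n) (T d n)} (hL : Rel d n ≤ L)
    (j : Fin d → Fin n) (hj : Function.Injective j) :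
    ∃ c : S n, (Submodule.Quotient.mk (u j) : T d n ⧸ L) = c • UPPv L (UPPim j hj) := by
  obtain ⟨τ, hτ⟩ := UPP_perm j hj
  have h1 : rho2 τ (UPPe (UPPim j hj)) ∈ L :=
    hL (Submodule.subset_span (Or.inr ⟨_, _, rfl⟩))
  refine ⟨algebraMap ℂ (S n) (((Equiv.Perm.sign τ : ℤ) : ℂ)), ?_⟩
  unfold UPPv
  rw [← Submodule.Quotient.mk_smul, Submodule.Quotient.eq]
  unfold rho2 at h1
  rw [hτ] at h1
  rw [algebraMap_smul]
  exact h1

private theorem UPP_ann {n : ℕ} {Q : Type} [AddCommGroup Q] [Module (S n) Q] {ι : Type}
    (v : ι → Q) (ρ : ι → ℕ) (t : ι) (s : S n) : s ∈ AnnF v ρ t ↔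
      s • v t ∈ Submodule.span (S n) {x | ∃ t', ρ t < ρ t' ∧ x = v t'} := by
  unfold AnnF
  rw [Submodule.mem_comap, LinearMap.toSpanSingleton_apply]

private theorem UPPr_upd {d n : ℕ} (t : UPPI d n) (a : Fin d) (i : Fin n)
    (h : Function.Injective (Function.update (UPPe t) a i)) (hi : UPPe t a < i) :
    UPPr t < UPPr (UPPim _ h) := by
  rw [UPPr_im, UPPr_e, ← Finset.add_sum_erase _ _ (Finset.mem_univ a),
    ← Finset.add_sum_erase Finset.univ
      (fun b => (Function.update (UPPe t) a i b).val) (Finset.mem_univ a)]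
  have e : ∑ x ∈ Finset.univ.erase a, (Function.update (UPPe t) a i x).val =
      ∑ x ∈ Finset.univ.erase a, (UPPe t x).val :=
    Finset.sum_congr rfl fun x hx => by
      rw [Function.update_of_ne (Finset.ne_of_mem_erase hx)]
  rw [e, Function.update_self]
  have := Fin.lt_def.1 hi
  omega

theorem thm_UPP (hUJ : St_UJ) (hFIL : St_FIL) (hCNT : St_CNT) : St_UPP := by
  intro n d m hdm L s hL hps
  -- generation
  have hspan : Submodule.span (S n) (Set.range (UPPv L)) = ⊤ := by
    rw [eq_top_iff]
    rintro x -
    obtain ⟨c, rfl⟩ := Submodule.Quotient.mk_surjective L x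
    rw [UPP_decomp c]
    have e : (Submodule.Quotient.mk (∑ j, c j • (u j : T d n)) : T d n ⧸ L) =
        ∑ j, c j • (Submodule.Quotient.mk (u j) : T d n ⧸ L) := by
      rw [← Submodule.mkQ_apply, map_sum]
      simp only [map_smul, Submodule.mkQ_apply]
    rw [e]
    refine Submodule.sum_mem _ fun j _ => Submodule.smul_mem _ _ ?_
    by_cases hj : Function.Injective j
    · obtain ⟨c', hc'⟩ := UPP_mk hL j hj
      rw [hc']
      exact Submodule.smul_mem _ _ (Submodule.subset_span ⟨_, rfl⟩)
    · rw [(Submodule.Quotient.mk_eq_zero L).2 (UPP_non hL j hj)]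
      exact Submodule.zero_mem _
  -- the ideals
  have hid : ∀ t : UPPI d n, Module.Finite ℂ (S n ⧸ AnnF (UPPv L) UPPr t) ∧
      Module.finrank ℂ (S n ⧸ AnnF (UPPv L) UPPr t) ≤
        (∏ j ∈ t.1, ((Finset.univ \ t.1).filter (fun i => i < j)).card) *
          (Finset.univ \ t.1).card.factorial := by
    intro t
    refine hUJ n (AnnF (UPPv L) UPPr t) (Finset.univ \ t.1) t.1
      (fun j => (Finset.univ \ t.1).filter (fun i => i < j)) s Finset.sdiff_disjoint
      (fun j _ => Finset.filter_subset _ _) ?_ ?_ ?_
    · intro j₀ hj₀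
      obtain ⟨a, ha⟩ := UPPe_surj t hj₀
      set Bs := (Finset.univ \ t.1).filter (fun i => i < j₀) with hBs
      set g : Polynomial (S n) := ∏ i ∈ Bs, (Polynomial.X - Polynomial.C (X i : S n)) with hg
      have hge : ∀ x : S n, g.eval x = ∏ i ∈ Bs, (x - X i) := by
        intro x
        rw [hg, Polynomial.eval_prod]
        simp
      have h1 := UPP_gsum hL a (UPPe t) g
      have h2 : ∑ i : Fin n, (g.eval (X i)) •
          (Submodule.Quotient.mk (u (Function.update (UPPe t) a i)) : T d n ⧸ L) = 0 := by
        have h3 := (Submodule.Quotient.mk_eq_zero L).2 h1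
        rw [← Submodule.mkQ_apply, map_sum] at h3
        simpa only [map_smul, Submodule.mkQ_apply] using h3
      rw [← Finset.add_sum_erase _ _ (Finset.mem_univ j₀)] at h2
      have h4 : Function.update (UPPe t) a j₀ = UPPe t := by
        rw [← ha, Function.update_eq_self]
      rw [h4] at h2
      rw [UPP_ann, ← hge]
      have h5 : g.eval (X j₀) • UPPv L t = -∑ i ∈ Finset.univ.erase j₀, (g.eval (X i)) •
          (Submodule.Quotient.mk (u (Function.update (UPPe t) a i)) : T d n ⧸ L) :=
        eq_neg_of_add_eq_zero_left h2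
      rw [h5]
      refine Submodule.neg_mem _ (Submodule.sum_mem _ fun i hi => ?_)
      have hij : i ≠ j₀ := Finset.ne_of_mem_erase hi
      by_cases hit : i ∈ t.1
      · obtain ⟨b, hb⟩ := UPPe_surj t hit
        have hba : b ≠ a := by
          rintro rfl
          exact hij (hb.symm.trans ha)
        have hni : ¬ Function.Injective (Function.update (UPPe t) a i) := by
          intro h
          refine hba (h ?_)
          rw [Function.update_self, Function.update_of_ne hba, hb]
        rw [(Submodule.Quotient.mk_eq_zero L).2 (UPP_non hL _ hni), smul_zero]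
        exact Submodule.zero_mem _
      · rcases lt_or_gt_of_ne hij with hlt | hgt
        · have hz : g.eval (X i) = 0 := by
            rw [hge]
            refine Finset.prod_eq_zero (i := i) ?_ (sub_self _)
            rw [hBs, Finset.mem_filter, Finset.mem_sdiff]
            exact ⟨⟨Finset.mem_univ _, hit⟩, hlt⟩
          rw [hz, zero_smul]
          exact Submodule.zero_mem _
        · have hin : Function.Injective (Function.update (UPPe t) a i) := by
            intro b c hbc
            by_cases hb : b = a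
            · by_cases hc : c = a
              · rw [hb, hc]
              · rw [hb, Function.update_self, Function.update_of_ne hc] at hbc
                exact absurd (hbc ▸ UPPe_mem t c) hit
            · by_cases hc : c = a
              · rw [hc, Function.update_self, Function.update_of_ne hb] at hbc
                exact absurd (hbc ▸ UPPe_mem t b) hit
              · rw [Function.update_of_ne hb, Function.update_of_ne hc] at hbc
                exact UPPe_inj t hbc
          obtain ⟨c, hc⟩ := UPP_mk hL _ hin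
          rw [hc]
          refine Submodule.smul_mem _ _ (Submodule.smul_mem _ _ (Submodule.subset_span
            ⟨_, UPPr_upd t a i hin ?_, rfl⟩))
          rw [ha]
          exact hgt
    · intro j hj1 hj2
      exact absurd (Finset.mem_sdiff.2 ⟨Finset.mem_univ j, hj2⟩) hj1
    · intro k hk
      have h1 := hps (UPPe t) (UPPe_inj t) k hk
      rw [UPP_cpl] at h1
      rw [UPP_ann]
      unfold UPPv
      rw [← Submodule.Quotient.mk_smul, (Submodule.Quotient.mk_eq_zero L).2 h1]
      exact Submodule.zero_mem _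
  obtain ⟨hfin, hle⟩ := hFIL n (T d n ⧸ L) (UPPI d n) (UPPv L) UPPr hspan (fun t => (hid t).1)
  refine ⟨hfin, hle.trans ?_⟩
  rw [← hCNT n d m hdm, Finset.sum_mul]
  rw [← Finset.sum_coe_sort ((Finset.univ : Finset (Fin n)).powersetCard d)]
  refine Finset.sum_le_sum fun t _ => (hid t).2.trans ?_
  have hc : (Finset.univ \ t.1).card = m := by
    rw [Finset.card_sdiff_of_subset (Finset.subset_univ _), (Finset.mem_powersetCard.1 t.2).2]
    simp
    omega
  rw [hc]

end MDH
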