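import Pool.Agent.MDH.St

/-!
# MDH, module VPR

Statement and proof: see `St_VPR` in `Pool/Agent/MDH/St.lean`.
-/

set_option autoImplicit false

open MvPolynomial

namespace MDH

private theorem VPR_mul {A : Type} [CommRing A] [Algebra ℂ A] (E : A →ₗ[ℂ] ℂ) {m : ℕ}
    (a : Fin m → A) (t : Fin m → ℂ) (h : ∀ k c, E (a k * c) = t k * E c) (α : Fin m → ℕ) (c : A) :
    E (mon a α * c) = (∏ k, t k ^ α k) * E c := by
  classical
  have hp : ∀ (k : Fin m) (q : ℕ) (c : A), E (a k ^ q * c) = t k ^ q * E c := by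
    intro k q
    induction q with
    | zero => intro c; simp
    | succ q ih =>
      intro c
      rw [pow_succ, mul_assoc, ih, h, pow_succ, mul_assoc]
  have hs : ∀ (s : Finset (Fin m)) (c : A),
      E ((∏ k ∈ s, a k ^ α k) * c) = (∏ k ∈ s, t k ^ α k) * E c := by
    intro s
    induction s using Finset.induction_on with
    | empty => intro c; simp
    | insert k s hk ih =>
      intro c
      rw [Finset.prod_insert hk, Finset.prod_insert hk, mul_assoc, hp, ih, mul_assoc]
  exact hs Finset.univ c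

/-- a polynomial which vanishes at all injective points is zero -/
private theorem VPR_zero {m : ℕ} (Q : MvPolynomial (Fin m) ℂ)
    (h : ∀ z : Fin m → ℂ, Function.Injective z → eval z Q = 0) : Q = 0 := by
  classical
  set D : MvPolynomial (Fin m) ℂ :=
    ∏ p ∈ (Finset.univ : Finset (Fin m × Fin m)).filter (fun p => p.1 ≠ p.2), (X p.1 - X p.2)
    with hD
  have hD0 : D ≠ 0 := by
    rw [hD, Finset.prod_ne_zero_iff]
    intro p hp
    have hp' := (Finset.mem_filter.1 hp).2
    rw [sub_ne_zero]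
    intro h0
    exact hp' (X_injective h0)
  have h1 : Q * D = 0 := by
    apply MvPolynomial.funext
    intro z
    rw [map_mul, map_zero]
    by_cases hz : Function.Injective z
    · rw [h z hz, zero_mul]
    · have h2 : eval z D = 0 := by
        rw [hD, map_prod]
        unfold Function.Injective at hz
        push Not at hz
        obtain ⟨i, j, hij, hne⟩ := hz
        refine Finset.prod_eq_zero (i := (i, j)) (Finset.mem_filter.2 ⟨Finset.mem_univ _, hne⟩) ?_
        simp [hij]
      rw [h2, mul_zero]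
  exact (mul_eq_zero.1 h1).resolve_right hD0

/-- linear independence of the values of the monomials in the elementary symmetric polynomials -/
private theorem VPR_esymm {m : ℕ} (s : Finset (Fin m → ℕ)) (l : (Fin m → ℕ) → ℂ)
    (h : ∀ z : Fin m → ℂ, Function.Injective z →
      ∑ α ∈ s, l α * ∏ k : Fin m, (eval z (esymm (Fin m) ℂ (k.val + 1))) ^ α k = 0) :
    ∀ α ∈ s, l α = 0 := by
  classical
  have h1 : ∑ α ∈ s, C (l α) * ∏ k : Fin m, (esymm (Fin m) ℂ (k.val + 1)) ^ α k =
      (0 : MvPolynomial (Fin m) ℂ) := by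
    apply VPR_zero
    intro z hz
    rw [map_sum, ← h z hz]
    refine Finset.sum_congr rfl fun α _ => ?_
    rw [map_mul, eval_C, map_prod]
    congr 1
    refine Finset.prod_congr rfl fun k _ => ?_
    rw [map_pow]
  set P : MvPolynomial (Fin m) ℂ :=
    ∑ α ∈ s, monomial (Finsupp.equivFunOnFinite.symm α) (l α) with hP
  have h2 : esymmAlgHom (Fin m) ℂ m P = 0 := by
    apply Subtype.ext
    rw [esymmAlgHom_apply, hP, map_sum]
    show _ = (0 : MvPolynomial (Fin m) ℂ)
    rw [← h1]
    refine Finset.sum_congr rfl fun α _ => ?_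
    rw [aeval_monomial, algebraMap_eq, Finsupp.prod_fintype _ _ (fun k => pow_zero _)]
    rfl
  have h3 : P = 0 := esymmAlgHom_fin_injective ℂ (le_refl m) (by rw [h2, map_zero])
  intro α hα
  have h4 : coeff (Finsupp.equivFunOnFinite.symm α) P = 0 := by rw [h3, coeff_zero]
  rw [hP, coeff_sum, Finset.sum_eq_single α] at h4
  · rwa [coeff_monomial, if_pos rfl] at h4
  · intro β _ hβ
    rw [coeff_monomial, if_neg]
    intro h5
    exact hβ (Finsupp.equivFunOnFinite.symm.injective h5)
  · intro h5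
    exact absurd hα h5

/-- the trace of `F ↦ (f ↦ c F (π f))` -/
private theorem VPR_trace {κ : Type} [Fintype κ] [DecidableEq κ] (π : κ → κ) (c : ℂ)
    (g : (κ → ℂ) →ₗ[ℂ] (κ → ℂ)) (hg : ∀ F f, g F f = c * F (π f)) :
    LinearMap.trace ℂ (κ → ℂ) g = c * ((Finset.univ.filter fun f => π f = f).card : ℂ) := by
  rw [LinearMap.trace_eq_matrix_trace ℂ (Pi.basisFun ℂ κ), Matrix.trace]
  have h1 : ∀ f, (LinearMap.toMatrix (Pi.basisFun ℂ κ) (Pi.basisFun ℂ κ) g).diag f =
      if π f = f then c else 0 := by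
    intro f
    rw [Matrix.diag_apply, LinearMap.toMatrix_apply]
    simp only [Pi.basisFun_apply, Pi.basisFun_repr]
    rw [hg, Pi.single_apply]
    split_ifs <;> simp
  rw [Finset.sum_congr rfl fun f _ => h1 f, ← Finset.sum_filter, Finset.sum_const, nsmul_eq_mul,
    mul_comm]

theorem thm_VPR (hUPP : St_UPP) (hNEW : St_NEW) (hEOP : St_EOP) (hACT : St_ACT) (hFDG : St_FDG)
    (hEVL : St_EVL) (hSPN : St_SPN) : St_VPR := by
  intro n d m hdm V hs hV hc
  classical
  obtain ⟨-, -, -, -, hA5, -, -, -, hA9, -, -⟩ := hACT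
  obtain ⟨-, -, hF3, -, -, -, -, -⟩ := hFDG
  obtain ⟨hE1, hE2, -, hE4, hE5⟩ := hEVL n d m hdm
  have hSP : SP (Fd d n) (epC d n m) ((Rel d n).restrictScalars ℂ) V :=
    hSPN n d m (epC d n m) V (hA5 d n m) (hEOP n d m) (hA9 d n) hV hc.sup_eq_top
  -- the upper bound
  have hup := hUPP n d m hdm (Lop (epC d n m)) 0 le_sup_left (fun j hj k hk => by
    rw [Nat.cast_zero, zero_mul, add_zero]
    exact hNEW n d m hdm j hj k hk)
  let e1 : (T d n ⧸ Lop (epC d n m)) ≃ₗ[ℂ] V :=
    (Submodule.Quotient.restrictScalarsEquiv ℂ (Lop (epC d n m))).symm.trans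
      (Submodule.quotientEquivOfIsCompl _ V hc.symm)
  have hfin1 := hup.1
  have hfin : Module.Finite ℂ V := Module.Finite.equiv e1
  have hle : Module.finrank ℂ V ≤ Nat.card (Surj n m) := by
    rw [← e1.finrank_eq]
    exact hup.2
  -- evaluation of monomials
  have hmon : ∀ (f : Fin n → Fin m) (z : Fin m → ℂ) (α : Fin m → ℕ) (c : T d n),
      ev hdm f z (mon (epC d n m) α * c) =
        (∏ k : Fin m, (eval z (esymm (Fin m) ℂ (k.val + 1))) ^ α k) * ev hdm f z c :=
    fun f z α c => VPR_mul (ev hdm f z) (epC d n m)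
      (fun k => eval z (esymm (Fin m) ℂ (k.val + 1))) (fun k c => hE2 f z k c) α c
  -- the evaluation map
  let E : (Fin m → ℂ) → V →ₗ[ℂ] (Surj n m → ℂ) := fun z =>
    LinearMap.pi fun f : Surj n m => (ev hdm f.1 z).comp V.subtype
  have hE : ∀ z (v : V) f, E z v f = ev hdm f.1 z v := fun z v f => rfl
  have hsurj : ∀ z : Fin m → ℂ, Function.Injective z → Function.Surjective (E z) := by
    intro z hz F
    obtain ⟨c, hcF⟩ := hE5 z hz F
    obtain ⟨J, hJ⟩ := hF3 d n c
    obtain ⟨v, hv, hr⟩ := hSP J c hJ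
    refine ⟨∑ α ∈ (box m J).attach, (∏ k : Fin m,
      (eval z (esymm (Fin m) ℂ (k.val + 1))) ^ α.1 k) • (⟨v α.1, (hv α.1 α.2).1⟩ : V), ?_⟩
    funext f
    rw [hE, ← hcF f]
    have h1 := hE1 f.1 z _ hr
    rw [map_sub, sub_eq_zero] at h1
    rw [h1, map_sum, ← Finset.sum_attach (box m J)]
    rw [AddSubmonoidClass.coe_finsetSum, map_sum]
    refine Finset.sum_congr rfl fun α _ => ?_
    rw [hmon, SetLike.val_smul, map_smul, smul_eq_mul]
  have hcard : Module.finrank ℂ (Surj n m → ℂ) = Nat.card (Surj n m) := by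
    rw [Module.finrank_fintype_fun_eq_card, Nat.card_eq_fintype_card]
  obtain ⟨z0, hz0⟩ : ∃ z0 : Fin m → ℂ, Function.Injective z0 := by
    refine ⟨fun k : Fin m => ((k.val : ℕ) : ℂ), ?_⟩
    intro a b hab
    have : (a.val : ℂ) = (b.val : ℂ) := hab
    exact Fin.ext (by exact_mod_cast this)
  have hrank : Module.finrank ℂ V = Nat.card (Surj n m) := by
    refine le_antisymm hle ?_
    rw [← hcard]
    exact LinearMap.finrank_le_finrank_of_surjective (hsurj _ hz0)
  have hinj : ∀ z : Fin m → ℂ, Function.Injective z → Function.Injective (E z) := fun z hz =>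
    (LinearMap.injective_iff_surjective_of_finrank_eq_finrank (by rw [hrank, hcard])).2 (hsurj z hz)
  refine ⟨hfin, hrank, hSP, ?_, ?_⟩
  · intro s v hv hR
    -- values
    have h1 : ∀ z : Fin m → ℂ, Function.Injective z → ∑ α ∈ s, (∏ k : Fin m,
        (eval z (esymm (Fin m) ℂ (k.val + 1))) ^ α k) • v α = 0 := by
      intro z hz
      have hmem : ∑ α ∈ s, (∏ k : Fin m,
          (eval z (esymm (Fin m) ℂ (k.val + 1))) ^ α k) • v α ∈ V :=
        V.sum_mem fun α hα => V.smul_mem _ (hv α hα)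
      have h2 : E z ⟨_, hmem⟩ = 0 := by
        funext f
        rw [hE]
        show ev hdm f.1 z (∑ α ∈ s, (∏ k : Fin m,
          (eval z (esymm (Fin m) ℂ (k.val + 1))) ^ α k) • v α) = 0
        rw [← hE1 f.1 z _ hR, map_sum, map_sum]
        refine Finset.sum_congr rfl fun α _ => ?_
        rw [hmon, map_smul, smul_eq_mul]
      have h3 := hinj z hz (h2.trans (map_zero (E z)).symm)
      exact congrArg Subtype.val h3
    intro α hα
    rw [← Module.forall_dual_apply_eq_zero_iff ℂ]
    intro φ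
    refine VPR_esymm s (fun α => φ (v α)) (fun z hz => ?_) α hα
    have h4 := congrArg φ (h1 z hz)
    rw [map_sum, map_zero] at h4
    rw [← h4]
    refine Finset.sum_congr rfl fun β _ => ?_
    rw [map_smul, smul_eq_mul, mul_comm]
  · intro w
    let e : V ≃ₗ[ℂ] (Surj n m → ℂ) := LinearEquiv.ofBijective (E z0) ⟨hinj _ hz0, hsurj _ hz0⟩
    have he : ∀ x f, e x f = ev hdm f.1 z0 (x : T d n) := fun x f => hE z0 x f
    let π : Surj n m → Surj n m := fun f => ⟨f.1 ∘ w, f.2.comp w.surjective⟩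
    have h1 : ∀ F f, (e.conj ((actT d n w).restrict (hs w))) F f =
        ((Equiv.Perm.sign w : ℤ) : ℂ) * F (π f) := by
      intro F f
      obtain ⟨v, rfl⟩ := e.surjective F
      rw [LinearEquiv.conj_apply_apply, LinearEquiv.symm_apply_apply, he, he,
        LinearMap.coe_restrict_apply, hE4 f.1 z0 w v]
    rw [← LinearMap.trace_conj' _ e, VPR_trace π _ _ h1]
    congr 2
    unfold nfix
    congr 1
    ext f
    simp only [Finset.mem_filter, Finset.mem_univ, true_and]
    exact Subtype.ext_iff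

end MDH
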