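import Pool.Agent.MDH.St

/-!
# MDH, module ZER: there are no harmonic functions for `d ≥ n` (helper87)
-/

set_option autoImplicit false

open MvPolynomial

namespace MDH

private theorem ZER_dmon {σ : Type} (i : σ) (p : MvPolynomial σ ℂ) :
    dmon (Finsupp.single i 0) p = p := by
  have h1 : dmon (Finsupp.single i 0) = (LinearMap.id : MvPolynomial σ ℂ →ₗ[ℂ] _) := by
    refine (MvPolynomial.basisMonomials σ ℂ).ext fun B => ?_
    unfold dmon
    rw [Module.Basis.constr_basis]
    simp
  rw [h1]
  rfl

private theorem ZER_noninj {d n : ℕ} {c : T d n} (hc : c ∈ Har d n) {j : Fin d → Fin n}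
    (hj : ¬ Function.Injective j) : c j = 0 := by
  obtain ⟨a, b, hab, hne⟩ : ∃ a b, j a = j b ∧ a ≠ b := by
    unfold Function.Injective at hj
    push Not at hj
    exact hj
  have h1 := hc.1 (Equiv.swap a b) j
  have h2 : j ∘ (Equiv.swap a b) = j := by
    funext x
    show j (Equiv.swap a b x) = j x
    by_cases h3 : x = a
    · subst h3
      rw [Equiv.swap_apply_left, hab]
    · by_cases h4 : x = b
      · subst h4
        rw [Equiv.swap_apply_right, hab]
      · rw [Equiv.swap_apply_of_ne_of_ne h3 h4]
  rw [h2, Equiv.Perm.sign_swap hne] at h1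
  have h3 : c j = -c j := by
    rw [Units.val_neg, Units.val_one, Int.cast_neg, Int.cast_one, neg_smul, one_smul] at h1
    exact h1
  have h4 : (2 : ℂ) • c j = 0 := by
    rw [two_smul]
    nth_rewrite 2 [h3]
    exact add_neg_cancel _
  exact (smul_eq_zero.1 h4).resolve_left two_ne_zero

theorem thm_ZER : St_ZER := by
  intro n d hn hd
  rw [eq_bot_iff]
  intro c hc
  rw [Submodule.mem_bot]
  funext j
  show c j = 0
  by_cases hj : Function.Injective j
  · have h1 : d = n := le_antisymm (by simpa using Fintype.card_le_of_injective j hj) hd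
    subst h1
    have hs : Function.Surjective j := Finite.surjective_of_injective hj
    obtain ⟨a⟩ : Nonempty (Fin d) := ⟨⟨0, hn⟩⟩
    have h2 := hc.2.1 a j 0
    rw [Finset.sum_eq_single (j a)] at h2
    · rw [ZER_dmon, Function.update_eq_self] at h2
      exact h2
    · intro i _ hi
      rw [ZER_dmon]
      refine ZER_noninj hc fun h3 => ?_
      obtain ⟨b, rfl⟩ := hs i
      have hba : b ≠ a := fun h4 => hi (by rw [h4])
      have h5 : Function.update j a (j b) a = Function.update j a (j b) b := by
        rw [Function.update_self, Function.update_of_ne hba]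
      exact hba (h3 h5).symm
    · intro h3
      exact absurd (Finset.mem_univ _) h3
  · exact ZER_noninj hc hj

end MDH
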