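import Pool.Agent.MDH.CHN
import Pool.Agent.MDH.CYC
import Pool.Agent.MDH.UJ
import Pool.Agent.MDH.FIL
import Pool.Agent.MDH.CNT
import Pool.Agent.MDH.UPP
import Pool.Agent.MDH.POW
import Pool.Agent.MDH.NEW
import Pool.Agent.MDH.EOP
import Pool.Agent.MDH.ACT
import Pool.Agent.MDH.FDG
import Pool.Agent.MDH.DEL
import Pool.Agent.MDH.EVL
import Pool.Agent.MDH.COM
import Pool.Agent.MDH.SPN
import Pool.Agent.MDH.GRO
import Pool.Agent.MDH.INA
import Pool.Agent.MDH.TRA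
import Pool.Agent.MDH.VPR
import Pool.Agent.MDH.COR
import Pool.Agent.MDH.ORT
import Pool.Agent.MDH.DUA
import Pool.Agent.MDH.ZER
import Pool.Agent.MDH.WEY
import Pool.Agent.MDH.DHC
import Pool.Agent.MDH.LNK
import Pool.Agent.MDH.PCY
import Pool.Agent.MDH.ALT
import Pool.Agent.MDH.CMS
import Pool.Agent.MDH.FRO
import Pool.Agent.MDH.FINA

/-!
# MDH: assembly of Theorem A (MP_ffc753_co)
-/

set_option autoImplicit false

namespace MDH

theorem all_UPP : St_UPP := thm_UPP (thm_UJ thm_CHN (thm_CYC thm_CHN)) thm_FIL thm_CNT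

theorem all_VPR : St_VPR :=
  thm_VPR all_UPP thm_NEW thm_EOP thm_ACT thm_FDG (thm_EVL thm_DEL) (thm_SPN thm_FDG)

theorem all_COR : St_COR :=
  thm_COR all_UPP thm_POW thm_ACT thm_FDG thm_EOP (thm_COM thm_ACT thm_FDG) (thm_SPN thm_FDG)
    (thm_INA thm_GRO) thm_TRA all_VPR

theorem all_DUA : St_DUA :=
  thm_DUA (thm_ORT thm_POW) all_COR (thm_COM thm_ACT thm_FDG) thm_ACT thm_FDG

theorem theoremA : St_FINA :=
  thm_FINA (thm_LNK (thm_DHC thm_WEY)) all_DUA thm_ZER (thm_FRO thm_PCY thm_ALT thm_CMS)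

end MDH
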