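import Pool.Agent.MDH.St

/-!
# MDH: module CHN, chain lemma for ideals (helper18)
-/

set_option autoImplicit false

open MvPolynomial

namespace MDH

section

variable {k A : Type} [Field k] [CommRing A] [Algebra k A]

theorem CHN_quot {I J : Ideal A} (h : I ≤ J) (hI : Module.Finite k (A ⧸ I)) :
    Module.Finite k (A ⧸ J) ∧ Module.finrank k (A ⧸ J) ≤ Module.finrank k (A ⧸ I) := by
  let f : (A ⧸ I) →ₗ[k] (A ⧸ J) := (Ideal.Quotient.factorₐ k h).toLinearMap
  have hf : Function.Surjective f := Ideal.Quotient.factor_surjective h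
  exact ⟨Module.Finite.of_surjective f hf, LinearMap.finrank_le_finrank_of_surjective hf⟩

theorem CHN_step (I : Ideal A) (x : A)
    (h1 : Module.Finite k (A ⧸ (Submodule.comap (LinearMap.mulLeft A x) I : Ideal A)))
    (h2 : Module.Finite k (A ⧸ (I ⊔ Ideal.span {x}))) :
    Module.Finite k (A ⧸ I) ∧ Module.finrank k (A ⧸ I) ≤
      Module.finrank k (A ⧸ (I ⊔ Ideal.span {x})) +
        Module.finrank k (A ⧸ (Submodule.comap (LinearMap.mulLeft A x) I : Ideal A)) := by
  let J : Ideal A := Submodule.comap (LinearMap.mulLeft A x) I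
  let f : (A ⧸ J) →ₗ[A] (A ⧸ I) := Submodule.mapQ J I (LinearMap.mulLeft A x) le_rfl
  let fk : (A ⧸ J) →ₗ[k] (A ⧸ I) := f.restrictScalars k
  let g : (A ⧸ I) →ₗ[k] (A ⧸ (I ⊔ Ideal.span {x})) :=
    (Ideal.Quotient.factorₐ k (le_sup_left : I ≤ I ⊔ Ideal.span {x})).toLinearMap
  haveI : Module.Finite k (A ⧸ J) := h1
  have hker : LinearMap.ker g ≤ LinearMap.range fk := by
    intro z hz
    obtain ⟨a, rfl⟩ := Ideal.Quotient.mk_surjective z
    have h3 : Ideal.Quotient.mk (I ⊔ Ideal.span {x}) a = 0 := hz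
    rw [Ideal.Quotient.eq_zero_iff_mem, Submodule.mem_sup] at h3
    obtain ⟨i, hi, y, hy, rfl⟩ := h3
    obtain ⟨s, rfl⟩ := Ideal.mem_span_singleton.1 hy
    refine ⟨Ideal.Quotient.mk J s, ?_⟩
    show Ideal.Quotient.mk I (x * s) = Ideal.Quotient.mk I (i + x * s)
    rw [map_add, Ideal.Quotient.eq_zero_iff_mem.2 hi, zero_add]
  haveI hfr : Module.Finite k (LinearMap.range fk) := inferInstance
  haveI hfk : Module.Finite k (LinearMap.ker g) := Submodule.finiteDimensional_of_le hker
  haveI hq : Module.Finite k ((A ⧸ I) ⧸ LinearMap.ker g) :=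
    Module.Finite.equiv g.quotKerEquivRange.symm
  haveI hI : Module.Finite k (A ⧸ I) := Module.Finite.of_submodule_quotient (LinearMap.ker g)
  refine ⟨hI, ?_⟩
  have h4 := g.finrank_range_add_finrank_ker
  have h5 : Module.finrank k (LinearMap.range g) ≤
      Module.finrank k (A ⧸ (I ⊔ Ideal.span {x})) := Submodule.finrank_le _
  have h6 : Module.finrank k (LinearMap.ker g) ≤ Module.finrank k (LinearMap.range fk) :=
    Submodule.finrank_mono hker
  have h7 : Module.finrank k (LinearMap.range fk) ≤ Module.finrank k (A ⧸ J) :=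
    LinearMap.finrank_range_le fk
  rw [← h4]
  exact add_le_add h5 (h6.trans h7)

theorem CHN_gen (l : List A) : ∀ (I : Ideal A), l.prod ∈ I →
    (∀ x ∈ l, Module.Finite k (A ⧸ (I ⊔ Ideal.span {x}))) →
    Module.Finite k (A ⧸ I) ∧ Module.finrank k (A ⧸ I) ≤
      (l.map (fun x => Module.finrank k (A ⧸ (I ⊔ Ideal.span {x})))).sum := by
  induction l with
  | nil =>
    intro I h _
    have h1 : I = ⊤ := (Ideal.eq_top_iff_one I).2 (by simpa using h)
    subst h1
    haveI : Subsingleton (A ⧸ (⊤ : Ideal A)) := Ideal.Quotient.subsingleton_iff.2 rfl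
    refine ⟨inferInstance, ?_⟩
    rw [Module.finrank_zero_of_subsingleton]
    exact Nat.zero_le _
  | cons x l ih =>
    intro I h hf
    have hJ : l.prod ∈ (Submodule.comap (LinearMap.mulLeft A x) I : Ideal A) := by
      show x * l.prod ∈ I
      rwa [List.prod_cons] at h
    have hIJ : I ≤ (Submodule.comap (LinearMap.mulLeft A x) I : Ideal A) := by
      intro a ha
      show x * a ∈ I
      exact I.mul_mem_left x ha
    have hsup : ∀ y : A, I ⊔ Ideal.span {y} ≤
        (Submodule.comap (LinearMap.mulLeft A x) I : Ideal A) ⊔ Ideal.span {y} :=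
      fun y => sup_le_sup_right hIJ _
    obtain ⟨h1, h2⟩ := ih (Submodule.comap (LinearMap.mulLeft A x) I : Ideal A) hJ
      (fun y hy => (CHN_quot (hsup y) (hf y (List.mem_cons_of_mem x hy))).1)
    obtain ⟨h3, h4⟩ := CHN_step (k := k) I x h1 (hf x List.mem_cons_self)
    refine ⟨h3, h4.trans ?_⟩
    rw [List.map_cons, List.sum_cons]
    refine Nat.add_le_add_left (h2.trans (List.sum_le_sum fun y hy => ?_)) _
    exact (CHN_quot (hsup y) (hf y (List.mem_cons_of_mem x hy))).2

end

theorem thm_CHN : St_CHN := fun _ I l h hf => CHN_gen l I h hf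

end MDH
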