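import Pool.Agent.MDH.Defs

/-!
# MDH: definitions for the proof of Theorem A

`S n = ℂ[y_1..y_n]`, `T d n` = all functions `(Fin d → Fin n) → S n` (a commutative ring, an
`S n`-module with basis `u j`). `Rel` is the submodule of relations
(`∑_i y_i^k u_{j[a ↦ i]}` and alternation), so `T / Rel = Λ^d Q` of the paper.
-/

set_option autoImplicit false

open MvPolynomial

namespace MDH

abbrev S (n : ℕ) : Type := MvPolynomial (Fin n) ℂ

abbrev T (d n : ℕ) : Type := (Fin d → Fin n) → S n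

/-- basis vector -/
noncomputable def u {d n : ℕ} (j : Fin d → Fin n) : T d n := Pi.single j 1

/-- `∑_i y_i^k u_{j[a ↦ i]}` -/
noncomputable def rho1 {d n : ℕ} (a : Fin d) (j : Fin d → Fin n) (k : ℕ) : T d n :=
  ∑ i : Fin n, ((X i : S n) ^ k) • u (Function.update j a i)

/-- `u_{j ∘ τ} - sgn(τ) u_j` -/
noncomputable def rho2 {d n : ℕ} (τ : Equiv.Perm (Fin d)) (j : Fin d → Fin n) : T d n :=
  u (j ∘ τ) - (((Equiv.Perm.sign τ : ℤ) : ℂ)) • u j

noncomputable def Rel (d n : ℕ) : Submodule (S n) (T d n) :=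
  Submodule.span (S n) ({x | ∃ a j k, x = rho1 a j k} ∪ {x | ∃ τ j, x = rho2 τ j})

/-- action of `S_n`: `(w·c)(j) = w(c(w⁻¹ ∘ j))` -/
noncomputable def actT (d n : ℕ) (w : Equiv.Perm (Fin n)) : T d n →ₗ[ℂ] T d n where
  toFun c := fun j => rename w (c (fun a => w⁻¹ (j a)))
  map_add' c c' := by funext j; simp
  map_smul' t c := by funext j; simp

/-- complement of the range of `j` -/
def cpl {d n : ℕ} (j : Fin d → Fin n) : Finset (Fin n) :=
  Finset.univ.filter (fun i => ∀ a, j a ≠ i)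

/-- the constant families `p_1, …, p_m` -/
noncomputable def thC (d n m : ℕ) (k : Fin m) : T d n := fun _ => psum (Fin n) ℂ (k.val + 1)

/-- elementary symmetric polynomials of the variables outside the range of `j` -/
noncomputable def epC (d n m : ℕ) (k : Fin m) : T d n := fun j =>
  ∑ t ∈ (cpl j).powersetCard (k.val + 1), ∏ i ∈ t, (X i : S n)

/-- `Rel + ∑_k a_k T` -/
noncomputable def Lop {d n m : ℕ} (a : Fin m → T d n) : Submodule (S n) (T d n) :=
  Rel d n ⊔ ⨆ k, LinearMap.range (LinearMap.mulLeft (S n) (a k))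

/-- degree filtration -/
noncomputable def Fd (d n : ℕ) (i : ℕ) : Submodule ℂ (T d n) where
  carrier := {c | ∀ j, (c j).totalDegree ≤ i}
  add_mem' := fun {c c'} h h' j => le_trans (totalDegree_add _ _) (max_le (h j) (h' j))
  zero_mem' := fun j => by simp
  smul_mem' := fun t c h j => le_trans (totalDegree_smul_le _ _) (h j)

/-- homogeneous component of degree `i` -/
noncomputable def hc {d n : ℕ} (i : ℕ) : T d n →ₗ[ℂ] T d n where
  toFun c := fun j => homogeneousComponent i (c j)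
  map_add' c c' := by funext j; simp
  map_smul' t c := by funext j; simp

def IsHomog {d n : ℕ} (L : Submodule ℂ (T d n)) : Prop := ∀ c ∈ L, ∀ i, hc i c ∈ L

def IsStab {d n : ℕ} (L : Submodule ℂ (T d n)) : Prop := ∀ w, ∀ c ∈ L, actT d n w c ∈ L

/-- weight of an exponent vector: variable `k` has weight `k + 1` -/
def wt {m : ℕ} (α : Fin m → ℕ) : ℕ := ∑ k, (k.val + 1) * α k

/-- exponent vectors of weight at most `J` -/
def box (m J : ℕ) : Finset (Fin m → ℕ) :=
  (Fintype.piFinset (fun _ : Fin m => Finset.range (J + 1))).filter (fun α => wt α ≤ J)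

/-- monomial in the operators `a_k` -/
def mon {A : Type} [CommRing A] {m : ℕ} (a : Fin m → A) (α : Fin m → ℕ) : A := ∏ k, a k ^ α k

/-- spanning property: every element of filtration degree `≤ J` is, modulo `R`, a combination
`∑ a^α v_α` with `wt α ≤ J`, `v_α ∈ V` of filtration degree `≤ J - wt α` -/
def SP {A : Type} [CommRing A] [Algebra ℂ A] {m : ℕ} (F : ℕ → Submodule ℂ A) (a : Fin m → A)
    (R V : Submodule ℂ A) : Prop :=
  ∀ J : ℕ, ∀ c ∈ F J, ∃ v : (Fin m → ℕ) → A,
    (∀ α ∈ box m J, v α ∈ V ∧ v α ∈ F (J - wt α)) ∧ c - ∑ α ∈ box m J, mon a α * v α ∈ R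

/-- injectivity property: `∑ a^α v_α ∈ R` with `v_α ∈ V` implies `v_α = 0` -/
def INJ {A : Type} [CommRing A] [Algebra ℂ A] {m : ℕ} (a : Fin m → A)
    (R V : Submodule ℂ A) : Prop :=
  ∀ (s : Finset (Fin m → ℕ)) (v : (Fin m → ℕ) → A), (∀ α ∈ s, v α ∈ V) →
    ∑ α ∈ s, mon a α * v α ∈ R → ∀ α ∈ s, v α = 0

/-- surjections `Fin n → Fin m` -/
abbrev Surj (n m : ℕ) : Type := {f : Fin n → Fin m // Function.Surjective f}

/-- number of surjections fixed by `w` -/
noncomputable def nfix (n m : ℕ) (w : Equiv.Perm (Fin n)) : ℕ := by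
  classical
  exact ((Finset.univ : Finset (Surj n m)).filter (fun f => f.1 ∘ w = f.1)).card

/-- the determinant `det (e_{j_1}, …, e_{j_d}, 1_{f⁻¹(1)}, …, 1_{f⁻¹(m)})` -/
noncomputable def Del {d n m : ℕ} (h : d + m = n) (f : Fin n → Fin m) (j : Fin d → Fin n) : ℂ :=
  Matrix.det (Matrix.of (fun (i c : Fin n) =>
    Sum.elim (fun a : Fin d => if i = j a then (1 : ℂ) else 0)
      (fun l : Fin m => if f i = l then (1 : ℂ) else 0)
      (finSumFinEquiv.symm (Fin.cast h.symm c))))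

/-- evaluation at the point `z ∘ f` -/
noncomputable def ev {d n m : ℕ} (h : d + m = n) (f : Fin n → Fin m) (z : Fin m → ℂ) :
    T d n →ₗ[ℂ] ℂ where
  toFun c := ∑ j : Fin d → Fin n, eval (fun i => z (f i)) (c j) * Del h f j
  map_add' c c' := by simp [add_mul, Finset.sum_add_distrib]
  map_smul' t c := by
    simp only [Pi.smul_apply, RingHom.id_apply, smul_eq_mul, Finset.mul_sum]
    refine Finset.sum_congr rfl (fun j _ => ?_)
    rw [MvPolynomial.smul_eval]; ring

/-- `A! = ∏ A_i!` -/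
noncomputable def fac {n : ℕ} (A : Fin n →₀ ℕ) : ℂ := ∏ i, ((A i).factorial : ℂ)

/-- apolar pairing on `T` -/
noncomputable def pr {d n : ℕ} (c c' : T d n) : ℂ :=
  ∑ j : Fin d → Fin n, ∑ A ∈ (c j).support, fac A * coeff A (c j) * coeff A (c' j)

/-- the harmonic functions: alternating solutions of the differential equations -/
noncomputable def Har (d n : ℕ) : Submodule ℂ (T d n) where
  carrier := {c | (∀ (τ : Equiv.Perm (Fin d)) j, c (j ∘ τ) = ((Equiv.Perm.sign τ : ℤ) : ℂ) • c j) ∧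
    (∀ (a : Fin d) (j : Fin d → Fin n) (k : ℕ),
      ∑ i : Fin n, dmon (Finsupp.single i k) (c (Function.update j a i)) = 0) ∧
    (∀ (j : Fin d → Fin n) (k : ℕ), 1 ≤ k → ∑ i : Fin n, dmon (Finsupp.single i k) (c j) = 0)}
  add_mem' := by
    rintro c c' ⟨h1, h2, h3⟩ ⟨h1', h2', h3'⟩
    refine ⟨fun τ j => ?_, fun a j k => ?_, fun j k hk => ?_⟩
    · simp only [Pi.add_apply, h1 τ j, h1' τ j, smul_add]
    · simp only [Pi.add_apply, map_add, Finset.sum_add_distrib, h2 a j k, h2' a j k, add_zero]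
    · simp only [Pi.add_apply, map_add, Finset.sum_add_distrib, h3 j k hk, h3' j k hk, add_zero]
  zero_mem' := by
    refine ⟨fun τ j => ?_, fun a j k => ?_, fun j k hk => ?_⟩ <;> simp
  smul_mem' := by
    rintro t c ⟨h1, h2, h3⟩
    refine ⟨fun τ j => ?_, fun a j k => ?_, fun j k hk => ?_⟩
    · simp only [Pi.smul_apply, h1 τ j]; rw [smul_comm]
    · simp only [Pi.smul_apply, map_smul, ← Finset.smul_sum, h2 a j k, smul_zero]
    · simp only [Pi.smul_apply, map_smul, ← Finset.smul_sum, h3 j k hk, smul_zero]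

/-- polarised power sum `P_A = ∑_j ∏_i x_{ij}^{A_i}` -/
noncomputable def pps (r n : ℕ) (A : Fin r → ℕ) : MvPolynomial (Fin r × Fin n) ℂ :=
  ∑ j : Fin n, ∏ i : Fin r, X (i, j) ^ A i

end MDH
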