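import Mathlib

/-!
# Multivariate diagonal harmonics (problem MP_ffc753_co): definitions of the final statement

The variables are `x_{ij}`, `i ∈ Fin r`, `j ∈ Fin n`; the last set of variables is `i = r - 1`
(the one whose parameter `q_r` is set to `1`).
-/

set_option autoImplicit false

open MvPolynomial

namespace MDH

/-- The differential operator `∂^A`: on monomials
`∂^A x^B = (∏_i B_i (B_i - 1) ⋯ (B_i - A_i + 1)) x^(B - A)`. -/
noncomputable def dmon {σ : Type} (A : σ →₀ ℕ) : MvPolynomial σ ℂ →ₗ[ℂ] MvPolynomial σ ℂ :=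
  (MvPolynomial.basisMonomials σ ℂ).constr ℂ
    (fun B : σ →₀ ℕ => monomial (B - A) (∏ i ∈ A.support, ((B i).descFactorial (A i) : ℂ)))

/-- `f(∂) p`: every variable of `f` is replaced by the corresponding partial derivative. -/
noncomputable def diffOp {σ : Type} (f p : MvPolynomial σ ℂ) : MvPolynomial σ ℂ :=
  ∑ A ∈ f.support, coeff A f • dmon A p

/-- The action of `w ∈ S_n` on `ℂ[X]`: it permutes the `n` columns. -/
noncomputable def act (r n : ℕ) (w : Equiv.Perm (Fin n)) :
    MvPolynomial (Fin r × Fin n) ℂ →ₗ[ℂ] MvPolynomial (Fin r × Fin n) ℂ :=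
  (rename (R := ℂ) (fun q : Fin r × Fin n => (q.1, w q.2))).toLinearMap

/-- The multivariate diagonal harmonic space `DH_n^r`. -/
def DH (r n : ℕ) : Set (MvPolynomial (Fin r × Fin n) ℂ) :=
  {p | ∀ f : MvPolynomial (Fin r × Fin n) ℂ,
    (∀ w, act r n w f = f) → constantCoeff f = 0 → diffOp f p = 0}

/-- The harmonic polynomials `p` that have degree `1` in each of the first `d` sets of variables,
degree `0` in the sets `d, …, r - 2`, any degree in the last set `r - 1`, and that are
antisymmetric under permutations of the first `d` sets of variables. -/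
noncomputable def signPart (r n d : ℕ) : Submodule ℂ (MvPolynomial (Fin r × Fin n) ℂ) where
  carrier := {p | p ∈ DH r n ∧
    (∀ A ∈ p.support, ∀ a : Fin r, a.val + 1 < r →
      ∑ j : Fin n, A (a, j) = if a.val < d then 1 else 0) ∧
    ∀ τ : Equiv.Perm (Fin r), (∀ a : Fin r, d ≤ a.val → τ a = a) →
      rename (fun q : Fin r × Fin n => (τ q.1, q.2)) p = ((Equiv.Perm.sign τ : ℤ) : ℂ) • p}
  add_mem' := by
    rintro p q ⟨h1, h2, h3⟩ ⟨h1', h2', h3'⟩
    refine ⟨?_, ?_, ?_⟩
    · intro f hf hf0
      have e : diffOp f (p + q) = diffOp f p + diffOp f q := by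
        simp only [diffOp, map_add, smul_add, Finset.sum_add_distrib]
      rw [e, h1 f hf hf0, h1' f hf hf0, add_zero]
    · intro A hA a ha
      classical
      rcases Finset.mem_union.mp (MvPolynomial.support_add hA) with h | h
      · exact h2 A h a ha
      · exact h2' A h a ha
    · intro τ hτ
      rw [map_add, h3 τ hτ, h3' τ hτ, smul_add]
  zero_mem' := by
    refine ⟨?_, ?_, ?_⟩
    · intro f hf hf0
      simp [diffOp]
    · intro A hA
      simp at hA
    · intro τ hτ
      simp
  smul_mem' := by
    rintro c p ⟨h1, h2, h3⟩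
    refine ⟨?_, ?_, ?_⟩
    · intro f hf hf0
      have e : diffOp f (c • p) = c • diffOp f p := by
        simp only [diffOp, map_smul, Finset.smul_sum]
        exact Finset.sum_congr rfl (fun A _ => smul_comm _ _ _)
      rw [e, h1 f hf hf0, smul_zero]
    · intro A hA a ha
      exact h2 A (MvPolynomial.support_smul hA) a ha
    · intro τ hτ
      rw [map_smul, h3 τ hτ, smul_comm]

/-- The character of the representation of `S_n` on an `S_n`-stable subspace of `ℂ[X]`. -/
noncomputable def charOn {r n : ℕ} (V : Submodule ℂ (MvPolynomial (Fin r × Fin n) ℂ))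
    (hV : ∀ w, ∀ p ∈ V, act r n w p ∈ V) (w : Equiv.Perm (Fin n)) : ℂ :=
  LinearMap.trace ℂ V ((act r n w).restrict (hV w))

/-- The Frobenius characteristic `(1/n!) ∑_w χ(w) p_{cycle type of w}` of a class function `χ`,
as a symmetric polynomial in `N` variables. -/
noncomputable def frobChar (n N : ℕ) (χ : Equiv.Perm (Fin n) → ℂ) : MvPolynomial (Fin N) ℂ :=
  ((n.factorial : ℂ)⁻¹) • ∑ w : Equiv.Perm (Fin n),
    χ w • ((w.partition.parts.map (fun k => psum (Fin N) ℂ k)).prod)

/-- Theorem A (for fixed `r, n, d, N`): the sign part is finite dimensional and `S_n`-stable, and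
its Frobenius characteristic is the sum of `e_α` over the compositions `α` of `n` with `n - d`
parts. -/
def TheoremA (r n d N : ℕ) : Prop :=
  ∃ hV : ∀ w, ∀ p ∈ signPart r n d, act r n w p ∈ signPart r n d,
    Module.Finite ℂ (signPart r n d) ∧
    frobChar n N (charOn (signPart r n d) hV) =
      ∑ c ∈ (Finset.univ : Finset (Composition n)).filter (fun c => c.length + d = n),
        (c.blocks.map (fun k => esymm (Fin N) ℂ k)).prod

end MDH
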