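import Pool.Agent.MDH.Core

/-!
# MDH: frozen statements for Theorem A (MP_ffc753_co)

Every `St_X` is proved in its own file `Pool/Agent/MDH/X.lean` as `theorem MDH.thm_X ... : St_X`,
the hypotheses being exactly the statements listed in its docstring.
Notation of the docstrings: `y_i = X i`, `u_j = u j`, `K(j) = cpl j` (complement of the range),
`p_k = psum`, `e_k = esymm`, `m = n - d`.
-/

set_option autoImplicit false

open MvPolynomial

namespace MDH

/-! ## Upper bound -/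

/-- MODULE CHN (from nothing). Chain lemma for ideals.
Proof: induction on `l`, for all `I`. `l = []`: `1 ∈ I`, the quotient is zero.
`l = x :: l'`: let `J = {s | s * x ∈ I}` (an ideal, `I ≤ J`, `l'.prod ∈ J`). Multiplication by `x`
induces an injection `S/J → S/I` whose image is the kernel of `S/I → S/(I ⊔ (x))`; so
`finrank S/I = finrank S/J + finrank S/(I ⊔ (x))` once both are finite. For `y ∈ l'` the module
`S/(J ⊔ (y))` is a quotient of `S/(I ⊔ (y))`, so it is finite with smaller `finrank`; apply the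
induction hypothesis to `J, l'`. -/
def St_CHN : Prop :=
  ∀ (n : ℕ) (I : Ideal (S n)) (l : List (S n)), l.prod ∈ I →
    (∀ x ∈ l, Module.Finite ℂ (S n ⧸ (I ⊔ Ideal.span {x}))) →
    Module.Finite ℂ (S n ⧸ I) ∧
    Module.finrank ℂ (S n ⧸ I) ≤
      (l.map (fun x => Module.finrank ℂ (S n ⧸ (I ⊔ Ideal.span {x})))).sum

/-- MODULE CYC (from St_CHN).
Proof: induction on `K.card`, for all `I, β`. `K = ∅`: every `X i ∈ I`, so `S/I` is a quotient of
`ℂ`: `finrank ≤ 1`. Step: pick `i₀ ∈ K`. For every polynomial `h(x) ∈ S[x]` with `h(0) = 0` the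
third hypothesis gives `∑_{i ∈ K} β_i h(X i) ∈ I`; take `h(x) = x ∏_{i ∈ K, i ≠ i₀} (x - X i)`:
all terms but `i₀` vanish, so `β_{i₀} X_{i₀} ∏_{i ≠ i₀} (X_{i₀} - X i) ∈ I`, and `β_{i₀}` is
invertible in `ℂ`. Apply CHN to the list `X_{i₀} :: (X_{i₀} - X i)_{i ∈ K \ i₀}` (`|K|` entries).
For the entry `X_{i₀}`: the ideal `I ⊔ (X_{i₀})` satisfies the hypotheses with `K \ {i₀}` and the
same `β` (indices that were equal to `X_{i₀}` modulo `I` are now `0`). For the entry
`X_{i₀} - X_{i₁}`: hypotheses hold with `K \ {i₀}` and `β'` = `β` except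
`β'_{i₁} = β_{i₁} + β_{i₀}` (`X_{i₀}^k - X_{i₁}^k` is a multiple of `X_{i₀} - X_{i₁}`). So every
quotient has `finrank ≤ (|K| - 1)!` and the sum is `≤ |K| (|K|-1)!`. -/
def St_CYC : Prop :=
  ∀ (n : ℕ) (I : Ideal (S n)) (K : Finset (Fin n)) (β : Fin n → ℕ),
    (∀ i ∈ K, 0 < β i) →
    (∀ i, i ∉ K → (X i : S n) ∈ I ∨ ∃ i' ∈ K, (X i : S n) - X i' ∈ I) →
    (∀ k : ℕ, 1 ≤ k → ∑ i ∈ K, (β i : S n) * X i ^ k ∈ I) →
    Module.Finite ℂ (S n ⧸ I) ∧ Module.finrank ℂ (S n ⧸ I) ≤ K.card.factorial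

/-- MODULE UJ (from St_CHN, St_CYC).
Proof: induction on `U.card`, for all `I`. `U = ∅`: choose for every `j ∉ K` an `i(j) ∈ K` with
`X j - X (i j) ∈ I`; then modulo `I` the last hypothesis reads
`∑_{i ∈ K} β_i X_i^k ∈ I` with `β_i = 1 + s · #{j ∉ K : i(j) = i} ≥ 1`: apply CYC.
Step: take `j₀ ∈ U`, apply CHN to the list of the `X_{j₀} - X_i`, `i ∈ B j₀`; for each of them the
ideal `I ⊔ (X_{j₀} - X_i)` satisfies the hypotheses with `U \ {j₀}`. -/
def St_UJ : Prop :=
  ∀ (n : ℕ) (I : Ideal (S n)) (K U : Finset (Fin n)) (B : Fin n → Finset (Fin n)) (s : ℕ),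
    Disjoint K U → (∀ j ∈ U, B j ⊆ K) →
    (∀ j ∈ U, ∏ i ∈ B j, ((X j : S n) - X i) ∈ I) →
    (∀ j, j ∉ K → j ∉ U → ∃ i ∈ K, (X j : S n) - X i ∈ I) →
    (∀ k : ℕ, 1 ≤ k → ∑ i ∈ K, (X i : S n) ^ k +
      (s : S n) * ∑ i ∈ Finset.univ \ K, (X i : S n) ^ k ∈ I) →
    Module.Finite ℂ (S n ⧸ I) ∧
    Module.finrank ℂ (S n ⧸ I) ≤ (∏ j ∈ U, (B j).card) * K.card.factorial

/-- annihilator of `v t` modulo the span of the `v t'` with `ρ t < ρ t'` -/
noncomputable def AnnF {n : ℕ} {Q : Type} [AddCommGroup Q] [Module (S n) Q] {ι : Type} (v : ι → Q)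
    (ρ : ι → ℕ) (t : ι) : Ideal (S n) :=
  (Submodule.span (S n) {x | ∃ t', ρ t < ρ t' ∧ x = v t'}).comap
    (LinearMap.toSpanSingleton (S n) Q (v t))

/-- MODULE FIL (from nothing). Filtration lemma.
Proof: let `Q_c = span {v t | c ≤ ρ t}`. Downward induction on `c` (`Q_c = 0` for large `c`, as `ι`
is finite): `Q_c` is finite over `ℂ` with `finrank ≤ ∑_{ρ t ≥ c} finrank (S/Ann_t)`:
`Q_c = Q_{c+1} + ∑_{ρ t = c} S v_t`, and `⊕_{ρ t = c} S/Ann_t → Q_c / Q_{c+1}`,
`(s_t) ↦ ∑ s_t v_t`, is well defined and surjective. `Q_0 = Q`. -/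
def St_FIL : Prop :=
  ∀ (n : ℕ) (Q : Type) [AddCommGroup Q] [Module (S n) Q] [Module ℂ Q] [IsScalarTower ℂ (S n) Q]
    (ι : Type) [Fintype ι] (v : ι → Q) (ρ : ι → ℕ),
    Submodule.span (S n) (Set.range v) = ⊤ →
    (∀ t, Module.Finite ℂ (S n ⧸ AnnF v ρ t)) →
    Module.Finite ℂ Q ∧ Module.finrank ℂ Q ≤ ∑ t, Module.finrank ℂ (S n ⧸ AnnF v ρ t)

/-- MODULE CNT (from nothing). `∑_J ∏_{j ∈ J} #{i ∉ J, i < j} · m! = # surjections [n] → [m]`.
Proof A (bijection): a surjection `f` determines the set `J` of the `j` with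
`f j ∈ f({0..j-1})`, `|J| = n - m = d`; given `J`, `f` restricted to the complement `K` is a
bijection `K → Fin m` (`m!` choices), and for `j ∈ J` the value `f j` is one of the values of `f`
on `{i ∈ K, i < j}` (`#{i ∉ J, i < j}` choices, `f` is injective on `K`), independently.
Proof B (recursion on `n`): both sides satisfy `a(n+1,m) = m (a(n,m) + a(n,m-1))` for `m ≥ 1`
(split by `n ∈ J` or not; for surjections: by whether `f` restricted to the first `n` points is
still surjective), `a(n+1, 0) = 0`, `a(0,0) = 1`, `a(0, m) = 0` for `m ≥ 1`. -/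
def St_CNT : Prop :=
  ∀ (n d m : ℕ), d + m = n →
    (∑ J ∈ (Finset.univ : Finset (Fin n)).powersetCard d,
      ∏ j ∈ J, ((Finset.univ \ J).filter (fun i => i < j)).card) * m.factorial =
      Nat.card (Surj n m)

/-- MODULE UPP (from St_UJ, St_FIL, St_CNT). The upper bound.
Proof: `Q = T / L`. For non-injective `j`, `u_j ∈ Rel` (a transposition `τ` with `j ∘ τ = j` gives
`rho2 τ j = 2 u_j`), and `u_{j ∘ τ} = ± u_j`. So `Q` is generated by `v_J = u_{j_J}`, `J` a
`d`-subset of `Fin n`, `j_J` its increasing enumeration. Take `ρ J = ∑_{j ∈ J} j`. Apply FIL; the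
ideal `Ann_J` satisfies the hypotheses of UJ with `K = K(j_J)`, `U = J`,
`B j = {i ∉ J, i < j}` (last but one hypothesis void):
for `j₀ = j_J a ∈ J` put `g(z) = ∏_{i ∈ B j₀} (z - y_i) = ∑_k g_k z^k` (`g_k ∈ S`); then
`∑_k g_k rho1 a j_J k = ∑_i g(y_i) u_{j_J[a ↦ i]} ∈ Rel ≤ L`; here `i ∈ J \ j₀` gives non-injective
tuples, `i ∈ B j₀` gives `0`, `i = j₀` gives `g(y_{j₀}) u_{j_J}`, and the `i ∉ J`, `i > j₀` give
multiples of `v_{J'}` with `ρ J' > ρ J`. Power sums: hypothesis. Hence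
`finrank ≤ ∑_J ∏_{j ∈ J} #B j · m! = # Surj` by CNT (`|K(j_J)| = m`). -/
def St_UPP : Prop :=
  ∀ (n d m : ℕ), d + m = n → ∀ (L : Submodule (S n) (T d n)) (s : ℕ), Rel d n ≤ L →
    (∀ j : Fin d → Fin n, Function.Injective j → ∀ k : ℕ, 1 ≤ k →
      (∑ i ∈ cpl j, (X i : S n) ^ k + (s : S n) * ∑ i ∈ Finset.univ \ cpl j, (X i : S n) ^ k) •
        (u j : T d n) ∈ L) →
    Module.Finite ℂ (T d n ⧸ L) ∧ Module.finrank ℂ (T d n ⧸ L) ≤ Nat.card (Surj n m)

/-! ## The two families of operators -/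

/-- MODULE POW (from nothing). All power sums of degree `≥ 1` act into `Rel + ∑_{k ≤ m} p_k T`.
Proof: it is enough to treat `c = u_j` (`T` is generated by the `u_j` and `Lop` is an
`S`-submodule); for non-injective `j`, `u_j ∈ Rel`. Let `j` be injective,
`g(z) = ∏_{i ∈ K(j)} (z - y_i) = z^m + ∑_{l < m} g_l z^l` (`|K(j)| = m`). For every `h ∈ S[z]`:
`∑_i h(y_i) g(y_i) u_j ∈ Rel`, because the terms `i ∈ K(j)` vanish and for `i = j a` the
combination of the `rho1 a j k` with the coefficients of `h g` is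
`h(y_{j a}) g(y_{j a}) u_j` modulo non-injective tuples. For `h = z^(k-m)`, `k > m`:
`p_k u_j ≡ - ∑_{l < m} g_l p_{k-m+l} u_j`, all indices `k - m + l ≥ 1` are smaller than `k`:
strong induction on `k`; for `1 ≤ k ≤ m` it is the definition of `Lop (thC d n m)`
(`thC k * c = p_{k+1} • c`). -/
def St_POW : Prop :=
  ∀ (n d m : ℕ), d + m = n → ∀ (k : ℕ), 1 ≤ k → ∀ c : T d n,
    (psum (Fin n) ℂ k : S n) • c ∈ Lop (thC d n m)

/-- MODULE NEW (from nothing). Newton: `(∑_{i ∈ K(j)} y_i^k) u_j ∈ Lop epC` for injective `j`.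
Proof: `e_l(K) u_j = epC (l-1) * u_j ∈ Lop epC` for `1 ≤ l ≤ m`, `K = K(j)`, `|K| = m`; in
`ℂ[y_i, i ∈ K]` every power sum of degree `k ≥ 1` lies in the ideal generated by
`e_1, …, e_m` (Newton's identities, `MvPolynomial.psum` / `mul_esymm_eq_sum`, or: a symmetric
polynomial without constant term is a polynomial without constant term in the `e_l`,
`esymmAlgHom` surjective). -/
def St_NEW : Prop :=
  ∀ (n d m : ℕ), d + m = n → ∀ (j : Fin d → Fin n), Function.Injective j → ∀ k : ℕ, 1 ≤ k →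
    (∑ i ∈ cpl j, (X i : S n) ^ k) • (u j : T d n) ∈ Lop (epC d n m)

/-- MODULE EOP (from nothing). Multiplication by `epC k` preserves `Rel`.
Proof: it is `S`-linear, so check generators. `rho2 τ j`: `K(j ∘ τ) = K(j)`, so the result is
`e(K(j)) rho2 τ j`. `rho1 a j k'`: if `j` restricted to the positions `≠ a` is not injective, all
terms are multiples of `u` of non-injective tuples, which lie in `Rel` (transposition). Otherwise
let `C` be the complement of `{j b | b ≠ a}`; modulo `Rel` only `i ∈ C` matter, there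
`K(j[a ↦ i]) = C \ {i}` and `e_q(C \ {i}) = ∑_{l ≤ q} (-y_i)^l e_{q-l}(C)`, so the result is
congruent to `∑_l (-1)^l e_{q-l}(C) rho1 a j (k' + l)`. -/
def St_EOP : Prop :=
  ∀ (n d m : ℕ) (k : Fin m), ∀ c ∈ Rel d n, epC d n m k * c ∈ Rel d n

/-- MODULE ACT (from nothing). Elementary properties of the action and of the grading.
`actT` is multiplicative, fixes `thC k` and `epC k`, `actT w (s • c) = (rename w s) • actT w c`,
`actT w (u_j) = u_{w ∘ j}`, so `actT w (rho1 a j k) = rho1 a (w ∘ j) k`, etc.; `rho1 a j k` and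
`rho2 τ j` are homogeneous (of degree `k`, `0`), so `Rel` is homogeneous (homogeneous components of
`∑ s_x x`), and so is `Lop a` if the `a k j` are homogeneous of degree `k + 1`. -/
def St_ACT : Prop :=
  (∀ (d n : ℕ) w (c c' : T d n), actT d n w (c * c') = actT d n w c * actT d n w c') ∧
  (∀ (d n m : ℕ) w (k : Fin m), actT d n w (thC d n m k) = thC d n m k) ∧
  (∀ (d n m : ℕ) w (k : Fin m), actT d n w (epC d n m k) = epC d n m k) ∧
  (∀ (d n m : ℕ) (k : Fin m) j, (thC d n m k j).IsHomogeneous (k.val + 1)) ∧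
  (∀ (d n m : ℕ) (k : Fin m) j, (epC d n m k j).IsHomogeneous (k.val + 1)) ∧
  (∀ (d n i : ℕ) w, ∀ c ∈ Fd d n i, actT d n w c ∈ Fd d n i) ∧
  (∀ (d n i : ℕ) w (c : T d n), actT d n w (hc i c) = hc i (actT d n w c)) ∧
  (∀ (d n : ℕ), IsStab ((Rel d n).restrictScalars ℂ)) ∧
  (∀ (d n : ℕ), IsHomog ((Rel d n).restrictScalars ℂ)) ∧
  (∀ (d n m : ℕ) (a : Fin m → T d n), (∀ w k, actT d n w (a k) = a k) →
    IsStab ((Lop a).restrictScalars ℂ)) ∧
  (∀ (d n m : ℕ) (a : Fin m → T d n), (∀ k j, (a k j).IsHomogeneous (k.val + 1)) →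
    IsHomog ((Lop a).restrictScalars ℂ))

/-- MODULE FDG (from nothing). The filtration `Fd`: monotone, finite dimensional, exhaustive,
`c ∈ Fd i` is the sum of its components `hc 0 c, …, hc i c`, and multiplication by `a` with
homogeneous entries of degree `q` maps `Fd i` to `Fd (i + q)` and `hc i` to `hc (i + q)`. -/
def St_FDG : Prop :=
  (∀ (d n : ℕ), Monotone (Fd d n)) ∧
  (∀ (d n i : ℕ), Module.Finite ℂ (Fd d n i)) ∧
  (∀ (d n : ℕ) (c : T d n), ∃ i, c ∈ Fd d n i) ∧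
  (∀ (d n i : ℕ) (c : T d n), hc i c ∈ Fd d n i) ∧
  (∀ (d n i : ℕ), ∀ c ∈ Fd d n i, c = ∑ i' ∈ Finset.range (i + 1), hc i' c) ∧
  (∀ (d n q i : ℕ) (a : T d n), (∀ j, (a j).IsHomogeneous q) → ∀ c ∈ Fd d n i,
    a * c ∈ Fd d n (i + q)) ∧
  (∀ (d n q i : ℕ) (a : T d n), (∀ j, (a j).IsHomogeneous q) → ∀ c : T d n,
    hc (i + q) (a * c) = a * hc i c) ∧
  (∀ (d n q i : ℕ) (a : T d n), (∀ j, (a j).IsHomogeneous q) → ∀ c : T d n, i < q →
    hc i (a * c) = 0)

/-! ## Evaluation -/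

/-- MODULE DEL (from nothing). The determinants `Del h f j = det (e_{j_1}, …, e_{j_d}, 1_{B_1}, …,
1_{B_m})`, `B_l = f⁻¹(l)`.
(a) permuting the `d` first columns; (b) multilinearity in column `a`: the sum over `i ∈ B_l` has
column `a` equal to column `l`; (c) equal columns give `0`, so `j` is injective; if
`B_l ⊆ range j` then `1_{B_l}` is a combination of the `e_{j a}` and the determinant is `0`; so
every `B_l` meets `cpl j`, and `|cpl j| = m`, so it meets it in exactly one element; (d) take a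
section `σ` of `f` and `j` an enumeration of the complement of its image: subtracting columns
`e_{j a}` turns `1_{B_l}` into `e_{σ l}`, a permutation matrix; (e) permuting the rows by `w`. -/
def St_DEL : Prop :=
  ∀ (n d m : ℕ) (h : d + m = n) (f : Fin n → Fin m),
    (∀ (τ : Equiv.Perm (Fin d)) j, Del h f (j ∘ τ) = ((Equiv.Perm.sign τ : ℤ) : ℂ) * Del h f j) ∧
    (∀ (a : Fin d) (j : Fin d → Fin n) (l : Fin m),
      ∑ i ∈ Finset.univ.filter (fun i => f i = l), Del h f (Function.update j a i) = 0) ∧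
    (∀ j, Del h f j ≠ 0 → Function.Injective j ∧ ∀ l, ∃! i, i ∈ cpl j ∧ f i = l) ∧
    (Function.Surjective f → ∃ j, Del h f j ≠ 0) ∧
    (∀ (w : Equiv.Perm (Fin n)) (j : Fin d → Fin n),
      Del h f (fun a => w (j a)) = ((Equiv.Perm.sign w : ℤ) : ℂ) * Del h (f ∘ w) j)

/-- MODULE EVL (from St_DEL).
(a) on `rho1 a j k` (times `s`): `∑_l z_l^k ∑_{f i = l} Del (j[a ↦ i]) = 0`; on `rho2`: DEL (a).
(b) `Del h f j ≠ 0` implies that `f : cpl j → Fin m` is a bijection, so
`epC k j` evaluates at `z ∘ f` to `e_{k+1}(z)`. (c) clear. (d) `eval (z ∘ f) (rename w s) =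
eval (z ∘ f ∘ w) s`, substitute `j = w ∘ j'`, DEL (e). (e) the points `z ∘ f` are pairwise
distinct (`z` injective), so there are polynomials `s_f` with `s_f(z ∘ f') = δ_{f f'}`; take
`c = ∑_f F(f) / Del h f j_f • s_f • u_{j_f}`. -/
def St_EVL : Prop :=
  ∀ (n d m : ℕ) (h : d + m = n),
    (∀ (f : Fin n → Fin m) (z : Fin m → ℂ), ∀ c ∈ Rel d n, ev h f z c = 0) ∧
    (∀ (f : Fin n → Fin m) (z : Fin m → ℂ) (k : Fin m) (c : T d n),
      ev h f z (epC d n m k * c) = eval z (esymm (Fin m) ℂ (k.val + 1)) * ev h f z c) ∧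
    (∀ (f : Fin n → Fin m) (z : Fin m → ℂ) (s : S n) (c : T d n),
      ev h f z (s • c) = eval (fun i => z (f i)) s * ev h f z c) ∧
    (∀ (f : Fin n → Fin m) (z : Fin m → ℂ) (w : Equiv.Perm (Fin n)) (c : T d n),
      ev h f z (actT d n w c) = ((Equiv.Perm.sign w : ℤ) : ℂ) * ev h (f ∘ w) z c) ∧
    (∀ (z : Fin m → ℂ), Function.Injective z → ∀ F : Surj n m → ℂ,
      ∃ c : T d n, ∀ f : Surj n m, ev h f.1 z c = F f)

/-! ## Complements, spanning, growth, traces -/

/-- MODULE COM (from St_ACT, St_FDG). Homogeneous stable complements.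
Proof: take any linear projection `π` of `T` onto `L` (`Submodule.exists_isCompl`,
`Submodule.linearProjOfIsCompl`); make it homogeneous: `π' c = ∑_i hc i (π (hc i c))` (finite sum),
then average: `P c = (1/n!) ∑_w w (π' (w⁻¹ c))`. `P` has values in `L`, is the identity on `L`,
commutes with `hc i` and with `actT w`. `C = ker P`. -/
def St_COM : Prop :=
  ∀ (n d : ℕ) (L : Submodule ℂ (T d n)), IsHomog L → IsStab L →
    ∃ C : Submodule ℂ (T d n), IsHomog C ∧ IsStab C ∧ IsCompl C L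

/-- MODULE SPN (from St_FDG). Spanning property.
Proof: strong induction on `J`; by St_FDG it is enough to treat `c` with `hc i c = c`, `i ≤ J`
(add up the families; `v_α ∈ Fd (i - wt α) ≤ Fd (J - wt α)`, and `α ∉ box m i` get `0`). Write
`c = v + r + ∑_k a_k c_k`, `v ∈ V`, `r ∈ Rel`; apply `hc i`: `c = hc i v + hc i r +
∑_{k+1 ≤ i} a_k * hc (i-k-1) c_k`; apply the induction hypothesis to `hc (i-k-1) c_k ∈ Fd (i-k-1)`
and multiply by `a_k`: `a_k * mon a α = mon a (α + e_k)`, `wt (α + e_k) = wt α + k + 1`. -/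
def St_SPN : Prop :=
  ∀ (n d m : ℕ) (a : Fin m → T d n) (V : Submodule ℂ (T d n)),
    (∀ k j, (a k j).IsHomogeneous (k.val + 1)) →
    (∀ k, ∀ c ∈ Rel d n, a k * c ∈ Rel d n) →
    IsHomog ((Rel d n).restrictScalars ℂ) → IsHomog V →
    V ⊔ (Lop a).restrictScalars ℂ = ⊤ →
    SP (Fd d n) a ((Rel d n).restrictScalars ℂ) V

/-- MODULE GRO (from nothing). Growth: `a(J) = (box m J).card` satisfies `1 ≤ a(J) ≤ (J+1)^m`, so
`(N + 1) a(J - D) ≤ N a(J)` cannot hold for all `J ≥ D` (else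
`a(t D) ≥ ((N+1)/N)^t`, exponential growth; `N = 0` is clear). -/
def St_GRO : Prop :=
  ∀ (m N D : ℕ), ¬ (∀ J, D ≤ J → (N + 1) * (box m (J - D)).card ≤ N * (box m J).card)

/-- MODULE INA (from St_GRO).
Proof: suppose `INJ a R VA` fails: there are a nonempty finite `s` and `v_α ∈ VA` nonzero for
`α ∈ s` with `∑_{s} a^α v_α ∈ R`. Let `D_A` be a bound of `wt` on `s`, `D_B` with `VB ≤ F D_B`,
`N = finrank VB`. For `J ≥ D_A + D_B` let `Φ : (box m J → VA) → A/R`, `(x_α) ↦ ∑ a^α x_α`.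
(i) its kernel contains, for `γ ∈ box m (J - D_A)`, the shifted family `κ_γ : α + γ ↦ v_α`
(`a_k R ⊆ R`), and the `κ_γ` are linearly independent (look at the lexicographically largest
exponent); so `finrank (range Φ) ≤ a(J) finrank VA - a(J - D_A)`. (ii) by `SP` the range of `Φ`
contains the image of `F J` in `A/R`. (iii) the image of `F J` contains the image of
`(box m (J - D_B) → VB)`, `(x_α) ↦ ∑ b^α x_α`, which is injective by `INJ b`. Hence
`N a(J - D_B) ≤ N a(J) - a(J - D_A)`, so with `D = D_A + D_B` (`a` is monotone)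
`(N + 1) a(J - D) ≤ N a(J)` for all `J ≥ D`: contradiction with GRO. -/
def St_INA : Prop :=
  ∀ (A : Type) [CommRing A] [Algebra ℂ A] (m : ℕ) (F : ℕ → Submodule ℂ A) (a b : Fin m → A)
    (R VA VB : Submodule ℂ A),
    Monotone F → (∀ i, Module.Finite ℂ (F i)) → (∀ c, ∃ i, c ∈ F i) →
    (∀ k i, ∀ c ∈ F i, b k * c ∈ F (i + (k.val + 1))) →
    (∀ k, ∀ c ∈ R, a k * c ∈ R) →
    Module.Finite ℂ VA → Module.Finite ℂ VB → Module.finrank ℂ VA ≤ Module.finrank ℂ VB →
    SP F a R VA → INJ b R VB → INJ a R VA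

/-- MODULE TRA (from nothing).
Proof: for `J ∈ ℕ` let `Y_J = ∏_{α ∈ box m J} (VA ⊓ F (J - wt α))` and
`Φ : Y_J → A/R`, `(x_α) ↦ ∑ a^α x_α`: injective by `INJ a`, with range = image of `F J` in `A/R`
(`⊆` because `a^α F (J - wt α) ⊆ F J`, `⊇` by `SP`), and `Φ ∘ g = g ∘ Φ` (`g` acts on `A/R` and
componentwise on `Y_J`). The same for `b, VB`. So the traces of `g` on the two products are equal:
`∑_{α ∈ box m J} t_A(J - wt α) = ∑_{α ∈ box m J} t_B(J - wt α)` with
`t_A(i) = trace (g | VA ⊓ F i)`. By strong induction on `i` (the term `α = 0`),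
`t_A(i) = t_B(i)` for all `i`. For large `i`, `VA ≤ F i` and `VB ≤ F i`. -/
def St_TRA : Prop :=
  ∀ (A : Type) [CommRing A] [Algebra ℂ A] (m : ℕ) (F : ℕ → Submodule ℂ A) (a b : Fin m → A)
    (R VA VB : Submodule ℂ A) (g : A →ₗ[ℂ] A) (hA : ∀ c ∈ VA, g c ∈ VA)
    (hB : ∀ c ∈ VB, g c ∈ VB),
    Monotone F → (∀ i, Module.Finite ℂ (F i)) → (∀ c, ∃ i, c ∈ F i) →
    (∀ k i, ∀ c ∈ F i, a k * c ∈ F (i + (k.val + 1))) →
    (∀ k i, ∀ c ∈ F i, b k * c ∈ F (i + (k.val + 1))) →
    (∀ i, ∀ c ∈ F i, g c ∈ F i) → (∀ c ∈ R, g c ∈ R) →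
    (∀ k c, g (a k * c) = a k * g c) → (∀ k c, g (b k * c) = b k * g c) →
    Module.Finite ℂ VA → Module.Finite ℂ VB →
    SP F a R VA → SP F b R VB → INJ a R VA → INJ b R VB →
    LinearMap.trace ℂ VA (g.restrict hA) = LinearMap.trace ℂ VB (g.restrict hB)

/-- MODULE VPR (from St_UPP, St_NEW, St_EOP, St_ACT, St_FDG, St_EVL, St_SPN). The complement `V` of
`Lop epC`. Proof: `V ≅ T / Lop epC`, so by UPP with `s = 0` (NEW) `V` is finite of
`finrank ≤ N = # Surj`. `SP` holds (SPN, EOP, ACT). Fix an injective `z : Fin m → ℂ`. The map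
`E_z : V → (Surj n m → ℂ)`, `v ↦ (ev h f z v)_f`, is surjective: for `c ∈ T` write by `SP`
`c = r + ∑ mon epC α * v_α`; EVL (a), (b) give `ev h f z c = ∑_α (∏_k e_{k+1}(z)^{α_k})
ev h f z v_α`, so `E_z` of the element `∑_α e(z)^α v_α ∈ V` equals the evaluation of `c`; use
EVL (e). So `E_z` is bijective, `finrank V = N`, and by EVL (d) it carries the action of `w` to
`F ↦ (f ↦ sgn(w) F(f ∘ w))`, whose trace is `sgn(w) nfix n m w`.
`INJ`: if `∑_{α ∈ s} mon epC α * v_α ∈ Rel` then for every injective `z`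
`E_z (∑_α e(z)^α v_α) = 0`, so `∑_α e(z)^α v_α = 0` in `V`; for a linear form `λ` on `V` the
polynomial `∑_α λ(v_α) ∏_k e_{k+1}^{α_k} ∈ ℂ[z_1..z_m]` vanishes at all `z` with distinct
coordinates, so it is `0` (multiply by `∏_{i<j} (z_i - z_j)`), and `esymmAlgHom` is injective
(Mathlib), so `λ(v_α) = 0` for all `λ`. -/
def St_VPR : Prop :=
  ∀ (n d m : ℕ), d + m = n → ∀ (V : Submodule ℂ (T d n)) (hs : IsStab V), IsHomog V →
    IsCompl V ((Lop (epC d n m)).restrictScalars ℂ) →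
    Module.Finite ℂ V ∧ Module.finrank ℂ V = Nat.card (Surj n m) ∧
    SP (Fd d n) (epC d n m) ((Rel d n).restrictScalars ℂ) V ∧
    INJ (epC d n m) ((Rel d n).restrictScalars ℂ) V ∧
    ∀ w, LinearMap.trace ℂ V ((actT d n w).restrict (hs w)) =
      ((Equiv.Perm.sign w : ℤ) : ℂ) * (nfix n m w : ℂ)

/-- MODULE COR (from St_UPP, St_POW, St_ACT, St_FDG, St_EOP, St_COM, St_SPN, St_INA, St_TRA,
St_VPR). The complement `V` of `Lop thC`: finite (UPP with `s = 1`, POW:
`∑_{i ∈ K} y_i^k + ∑_{i ∉ K} y_i^k = p_k`), `finrank V ≤ # Surj`. Take a complement `V'` of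
`Lop epC` (COM, ACT) with the properties of VPR. `SP` for `V` (SPN), `INJ thC Rel V` by INA, and
TRA with `g = actT w` gives the trace. -/
def St_COR : Prop :=
  ∀ (n d m : ℕ), d + m = n → ∀ (V : Submodule ℂ (T d n)) (hs : IsStab V), IsHomog V →
    IsCompl V ((Lop (thC d n m)).restrictScalars ℂ) →
    Module.Finite ℂ V ∧
    ∀ w, LinearMap.trace ℂ V ((actT d n w).restrict (hs w)) =
      ((Equiv.Perm.sign w : ℤ) : ℂ) * (nfix n m w : ℂ)

/-! ## Duality and the link with `DH` -/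

/-- MODULE ORT (from St_POW). `Har` is the annihilator of `Lop thC` under the pairing `pr`.
`pr` is bilinear, `pr (y_i^k • c) c' = pr c (∂_i^k c')` (`∂_i^k = dmon (single i k)`, check on
monomials: `(B+k e_i)! = B! · (B_i+k)(B_i+k-1)⋯(B_i+1)`), `pr (s • u_j) c' = pr'(s, c' j)` where
`pr'` is nondegenerate on `S`; so `pr (s • rho2 τ j) c = 0` for all `s` iff
`c (j ∘ τ) = sgn τ c j`, `pr (s • rho1 a j k) c = 0` for all `s` iff
`∑_i ∂_i^k c(j[a ↦ i]) = 0`, `pr (p_k s u_j) c = 0` for all `s` iff `∑_i ∂_i^k c(j) = 0`. By POW,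
`Lop thC` contains `p_k T` for all `k ≥ 1`, and it is spanned over `ℂ` by the `s • rho1`,
`s • rho2`, `p_k s u_j` (`1 ≤ k ≤ m`). -/
def St_ORT : Prop :=
  ∀ (n d m : ℕ), d + m = n → ∀ c : T d n, c ∈ Har d n ↔ ∀ l ∈ Lop (thC d n m), pr l c = 0

/-- MODULE DUA (from St_ORT, St_COR, St_COM, St_ACT, St_FDG). Trace on `Har`.
Proof: let `V` be a homogeneous stable complement of `Lop thC` (COM). The map
`Har → Dual ℂ V`, `c ↦ pr · c`, is injective (`c` is orthogonal to `V` and to `Lop thC`, and `pr` is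
nondegenerate: `pr (monomial A • u_j) c = A! coeff_A (c j)`) and surjective: `V` is finite
dimensional and homogeneous, so all elements of large degree `i` (`hc i c = c`) lie in `Lop thC`;
a form `λ` on `V`, extended by `0` on `Lop thC`, vanishes on the monomials of large degree, so it is
`pr · c` for a `c ∈ T`, and `c ∈ Har` by ORT. `pr (w c) (w c') = pr c c'`, so `Har` is stable and
`w` on `Har` corresponds to the transpose of `w⁻¹` on `V`:
`trace (w | Har) = trace (w⁻¹ | V) = sgn(w) nfix n m w⁻¹ = sgn(w) nfix n m w`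
(`LinearMap.trace_transpose'`). -/
def St_DUA : Prop :=
  ∀ (n d m : ℕ), d + m = n → ∃ hs : IsStab (Har d n), Module.Finite ℂ (Har d n) ∧
    ∀ w, LinearMap.trace ℂ (Har d n) ((actT d n w).restrict (hs w)) =
      ((Equiv.Perm.sign w : ℤ) : ℂ) * (nfix n m w : ℂ)

/-- MODULE ZER (from nothing). `Har d n = 0` for `d ≥ n ≥ 1`: `c j = 0` for non-injective `j`
(transposition); for `d > n` no `j` is injective; for `d = n` an injective `j` is a bijection and
`∑_i c(j[a ↦ i]) = 0` (`k = 0`, `dmon 0 = id`) has `c j` as its only nonzero term. -/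
def St_ZER : Prop :=
  ∀ (n d : ℕ), 1 ≤ n → n ≤ d → Har d n = ⊥

/-- MODULE WEY (from nothing). Invariants are generated by the polarised power sums (Weyl), ideal
form. Proof: `f = (1/n!) ∑_w w f` is a combination of the orbit sums `O_B = ∑_w w(x^B)`, `B ≠ 0`
(the coefficient of `x^0` is `0`). Let `B_j ∈ ℕ^r` be the columns of `B`. Claim: `O_B` lies in the
ideal, by induction on the number of nonzero columns. Choose `j₀` with `B_{j₀} ≠ 0`, let `B'` be `B`
with column `j₀` replaced by `0`. `pps (B_{j₀}) * O_{B'} = ∑_w ∑_j w(x_j^{B_{j₀}} x^{B'}) =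
∑_j O_{B' + B_{j₀} at j}`; the `j` with `B'_j = 0` (there is at least one, `j₀`) give `O_B` each
(the exponent is a permutation of `B`), the other `j` give orbit sums with fewer nonzero
columns. -/
def St_WEY : Prop :=
  ∀ (r n : ℕ) (f : MvPolynomial (Fin r × Fin n) ℂ), (∀ w, act r n w f = f) →
    constantCoeff f = 0 →
    f ∈ Ideal.span {P | ∃ A : Fin r → ℕ, A ≠ 0 ∧ P = pps r n A}

/-- MODULE DHC (from St_WEY). `dmon (A + B) = dmon A ∘ dmon B`, so
`diffOp (f * g) p = diffOp f (diffOp g p)`, `diffOp` is linear in `f`; the polarised power sums are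
invariant without constant term, so the equivalence follows from WEY. -/
def St_DHC : Prop :=
  (∀ (σ : Type) (A B : σ →₀ ℕ) (p : MvPolynomial σ ℂ), dmon (A + B) p = dmon A (dmon B p)) ∧
  ∀ (r n : ℕ) (p : MvPolynomial (Fin r × Fin n) ℂ),
    p ∈ DH r n ↔ ∀ A : Fin r → ℕ, A ≠ 0 → diffOp (pps r n A) p = 0

/-- MODULE LNK (from St_DHC). `signPart` is `Har`.
Proof: `ι : T d n → ℂ[X]`, `ι(c) = ∑_j (∏_{a < d} x_{a, j a}) · c_j(x_{last, ·})` (`last = r - 1`,
`d ≤ r - 1`) is an injective linear map with image the polynomials of multidegree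
`(1,…,1,0,…,0,*)`; `ι (actT w c) = act w (ι c)`. For `τ` fixing all `a ≥ d`:
`rename τ (ι c) = ι (c ∘ τ⁻¹ on tuples)`, so antisymmetry is `c (j ∘ τ) = sgn τ c j`. By DHC,
`ι c ∈ DH` iff all `diffOp (pps A) (ι c) = 0`, `A ≠ 0`. `A = (0,…,0,k)`: `∑_i ∂_i^k c(j) = 0`.
`A = e_a + k e_last`, `a < d`: `diffOp (pps A) (ι c) = ∑_{j' on positions ≠ a} (∏_{b ≠ a}
x_{b, j' b}) ∑_i ∂_i^k c(j'[a ↦ i])`. `A` with `A_a ≥ 2`, `a < last`, or `A_a ≥ 1`,
`d ≤ a < last`: zero by degree. `A` with `A_a = A_b = 1`, `a ≠ b < d`: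
`∑_i ∂_i^k c(…, i at a, i at b, …) = 0` since `c` vanishes on non-injective tuples. -/
def St_LNK : Prop :=
  ∀ (r n d : ℕ), d < r →
    (∀ w, ∀ p ∈ signPart r n d, act r n w p ∈ signPart r n d) ∧
    ∃ φ : signPart r n d ≃ₗ[ℂ] Har d n, ∀ w (p q : signPart r n d),
      (q : MvPolynomial (Fin r × Fin n) ℂ) = act r n w p →
      ((φ q : Har d n) : T d n) = actT d n w ((φ p : Har d n) : T d n)

/-! ## Symmetric functions -/

/-- MODULE PCY (from nothing). `p_{cycle type of w} = ∑_{g : g ∘ w = g} ∏_i x_{g i}`.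
Proof: `g` with `g ∘ w = g` is constant on the cycles of `w` (including fixed points); expand the
product of the power sums over the cycles. (Possible: `Equiv.Perm.cycle_induction_on`, or choose a
bijection between `w.partition.parts` and the orbits, `Equiv.Perm.cycleType`,
`Equiv.Perm.parts_partition`; or induct on `w` via `cycleFactorsFinset`.) -/
def St_PCY : Prop :=
  ∀ (n N : ℕ) (w : Equiv.Perm (Fin n)),
    (w.partition.parts.map (fun k => psum (Fin N) ℂ k)).prod =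
      ∑ g ∈ (Finset.univ : Finset (Fin n → Fin N)).filter (fun g => g ∘ w = g),
        ∏ i, (X (g i) : MvPolynomial (Fin N) ℂ)

/-- MODULE ALT (from nothing). If `F i = F i'`, `i ≠ i'`, then `w ↦ w * swap i i'` is a fixed point
free involution of `{w | F ∘ w = F}` that changes the sign; if `F` is injective only `w = 1`. -/
def St_ALT : Prop :=
  ∀ (n : ℕ) (κ : Type) (F : Fin n → κ),
    (Function.Injective F →
      ∀ w : Equiv.Perm (Fin n), F ∘ w = F → w = 1) ∧
    (¬ Function.Injective F → ∀ s : Finset (Equiv.Perm (Fin n)), (∀ w, w ∈ s ↔ F ∘ w = F) →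
      ∑ w ∈ s, ((Equiv.Perm.sign w : ℤ) : ℂ) = 0)

/-- MODULE CMS (from nothing). Proof: fix a surjection `f` with fibre sizes `c_1, …, c_m ≥ 1`; the
sum over `g` injective on the fibres is `∏_l (c_l! e_{c_l})` (choose the image of the fibre, a
`c_l`-subset of `Fin N`, and a bijection). The number of `f` with fibre sizes `(c_1, …, c_m)` is
`n! / ∏ c_l!`, and the size vectors are the compositions of `n` with `m` parts. -/
def St_CMS : Prop :=
  ∀ (n m N : ℕ),
    ∑ f : Surj n m, ∑ g ∈ (Finset.univ : Finset (Fin n → Fin N)).filter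
        (fun g => Function.Injective (fun i => (f.1 i, g i))),
        ∏ i, (X (g i) : MvPolynomial (Fin N) ℂ) =
      (n.factorial : ℂ) • ∑ c ∈ (Finset.univ : Finset (Composition n)).filter
        (fun c => c.length = m), (c.blocks.map (fun k => esymm (Fin N) ℂ k)).prod

/-- MODULE FRO (from St_PCY, St_ALT, St_CMS). Exchange the sums:
`∑_w sgn w · nfix w · p_w = ∑_{f surj} ∑_g x^g ∑_{w : (f,g) ∘ w = (f,g)} sgn w`, the inner sum is
`1` if `(f, g)` is injective and `0` otherwise. -/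
def St_FRO : Prop :=
  ∀ (n m N : ℕ),
    frobChar n N (fun w => ((Equiv.Perm.sign w : ℤ) : ℂ) * (nfix n m w : ℂ)) =
      ∑ c ∈ (Finset.univ : Finset (Composition n)).filter (fun c => c.length = m),
        (c.blocks.map (fun k => esymm (Fin N) ℂ k)).prod

/-- MODULE FINA (from St_LNK, St_DUA, St_ZER, St_FRO). Theorem A. For `d < n` put `m = n - d`; for
`d ≥ n` both sides are `0` (a composition of `n ≥ 1` has positive length). -/
def St_FINA : Prop :=
  ∀ (r n d N : ℕ), 1 ≤ n → d < r → TheoremA r n d N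

end MDH
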